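import Pool.Agent.H73.GC.LuckC
import Pool.Agent.H4.Singer3.SFinL2
import Pool.Agent.H4.Singer3.SAgree
import Pool.Agent.H85.LG.Bridge

/-!
# Growth calculus: comparison with permutation modules

`GZ G U i` (bounds by modules) is equivalent to `Dens G U i` (bounds by finite two-groups), which gives the
vanishing of the `ℓ²`-homology.
-/

set_option autoImplicit false
set_option linter.unusedSectionVars false

open Finset

namespace Pool.Agent.H73.GC

open Pool.Agent.H4.Singer3 (Dens Gen Act CK ZK BK bet KU)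

variable {V : Type} [DecidableEq V] [Fintype V]

/-- the projections given by the bits -/
def bitP {P : Type} (b : P → V → Bool) (v : V) : Module.End F2 (P → F2) where
  toFun f p := if b p v then f p else 0
  map_add' f g := by
    funext p
    simp only [Pi.add_apply]
    split_ifs <;> simp
  map_smul' c f := by
    funext p
    simp only [Pi.smul_apply, smul_eq_mul, RingHom.id_apply]
    split_ifs <;> simp

private theorem Bridge_cyc {P : Type} {G : SimpleGraph V} {U : Finset V} [Group P]
    (D : Gen G P) (i : ℕ) :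
    (Ch (Sy (Cq G U) (regP D.g)) i : Submodule F2 (Finset V → P → F2)) =
      CK D.act (KU G U) i := by
  ext f
  rw [mem_Ch, Pool.Agent.H4.Singer3.mem_CK]
  constructor
  · intro h
    refine ⟨fun σ ω hne => ?_, fun σ v hv ω => ?_⟩
    · have h1 := (h σ).2
      have h2 := (mem_Sy.1 (h σ).1).1
      have hf : f σ ≠ 0 := fun h0 => hne (by rw [h0]; rfl)
      have h3 : Cq G U σ := by
        by_contra hc
        exact hf (h2 hc)
      refine ⟨⟨h3.2, h3.1⟩, ?_⟩
      by_contra hc
      exact hf (h1 hc)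
    · exact congrFun ((mem_Sy.1 (h σ).1).2 v hv) ω
  · rintro ⟨h1, h2⟩ σ
    refine ⟨mem_Sy.2 ⟨fun hc => ?_, fun v hv => ?_⟩, fun hc => ?_⟩
    · funext ω
      by_contra hne
      exact hc ⟨(h1 σ ω hne).1.2, (h1 σ ω hne).1.1⟩
    · funext ω
      exact h2 σ v hv ω
    · funext ω
      by_contra hne
      exact hc (h1 σ ω hne).2

private theorem Bridge_dd {P : Type} :
    (dd : Module.End F2 (Finset V → P → F2)) = Pool.Agent.H4.Singer3.bd := by
  refine LinearMap.ext fun f => ?_
  funext s p
  rw [dd_apply, Finset.sum_apply]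
  rfl

theorem hX_regP {G : SimpleGraph V} {U : Finset V} {P : Type} [Group P] [Fintype P]
    (D : Gen G P) (i : ℕ) : hX (Cq G U) (regP D.g) i = (bet D.act (KU G U) i : ℤ) := by
  have h1 := Submodule.finrank_mono
    (Pool.Agent.H4.Singer3.BK_le_ZK D.act (Pool.Agent.H4.Singer3.KU_down' G U) i)
  have h2 : hX (Cq G U) (regP D.g) i =
      ((Module.finrank (ZMod 2) (ZK D.act (KU G U) i) : ℕ) : ℤ) -
        ((Module.finrank (ZMod 2) (BK D.act (KU G U) i) : ℕ) : ℤ) := by
    unfold hX hd hx
    rw [Bridge_cyc, Bridge_cyc, Bridge_dd]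
    rfl
  rw [h2]
  unfold bet Pool.Agent.H4.Singer3.hdim
  generalize Module.finrank (ZMod 2) (ZK D.act (KU G U) i) = a at *
  generalize Module.finrank (ZMod 2) (BK D.act (KU G U) i) = b at *
  omega

theorem gz_of_dens {G : SimpleGraph V} {U : Finset V} {i : ℕ} (h : Dens G U i) : GZ G U i := by
  intro ε hε
  obtain ⟨m, hm⟩ := exists_nat_gt (1 / ε)
  obtain ⟨P, _, _, D, hP, hb⟩ := h m
  have hm0 : (0 : ℝ) < m := lt_trans (by positivity) hm
  have hcard : Module.finrank F2 (P → F2) = Fintype.card P := Module.finrank_fintype_fun_eq_card F2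
  refine ⟨P → F2, inferInstance, inferInstance, inferInstance, regP D.g, bitP D.bit,
    ⟨?_, ?_, ?_⟩, ⟨?_, ?_, ?_, ?_⟩, ?_, ?_⟩
  · intro v _ f
    funext p
    change f (p * D.g v * D.g v) = f p
    rw [mul_assoc, D.sq, mul_one]
  · intro u _ v _ huv f
    funext p
    change f (p * D.g u * D.g v) = f (p * D.g v * D.g u)
    rw [mul_assoc, mul_assoc, D.comm u v huv]
  · let ρ : P →* Module.End F2 (P → F2) :=
      { toFun := fun q =>
          { toFun := fun f p => f (p * q)
            map_add' := fun _ _ => rfl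
            map_smul' := fun _ _ => rfl }
        map_one' := by
          refine LinearMap.ext fun f => ?_
          funext p
          change f (p * 1) = f p
          rw [mul_one]
        map_mul' := fun a b => by
          refine LinearMap.ext fun f => ?_
          funext p
          change f (p * (a * b)) = f (p * a * b)
          rw [mul_assoc] }
    exact fil_group hP ρ U (regP D.g) D.g fun v _ => rfl
  · intro v _ f
    funext p
    change (if D.bit p v then (if D.bit p v then f p else 0) else 0) =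
      if D.bit p v then f p else 0
    split_ifs <;> rfl
  · intro v _ f
    funext p
    change (if D.bit p v then f (p * D.g v) else 0) +
      (if D.bit (p * D.g v) v then f (p * D.g v) else 0) = f (p * D.g v)
    rw [D.bit_mul, Function.update_self]
    cases D.bit p v <;> simp
  · intro u _ v _ huv f
    funext p
    change (if D.bit p u then f (p * D.g v) else 0) =
      if D.bit (p * D.g v) u then f (p * D.g v) else 0
    rw [D.bit_mul, Function.update_of_ne huv.ne]
  · intro u _ v _ _ f
    funext p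
    change (if D.bit p u then (if D.bit p v then f p else 0) else 0) =
      if D.bit p v then (if D.bit p u then f p else 0) else 0
    split_ifs <;> rfl
  · rw [hcard]
    exact Fintype.card_pos
  · rw [hX_regP, hcard]
    have h1 : (m : ℝ) * (bet D.act (KU G U) i : ℝ) ≤ Fintype.card P := by exact_mod_cast hb
    have h2 : (1 : ℝ) ≤ ε * m := by
      rw [div_lt_iff₀ hε] at hm
      linarith
    have h3 : (0 : ℝ) ≤ (bet D.act (KU G U) i : ℝ) := Nat.cast_nonneg _
    calc (((bet D.act (KU G U) i : ℕ) : ℤ) : ℝ) = (bet D.act (KU G U) i : ℝ) := by norm_cast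
      _ ≤ (ε * m) * (bet D.act (KU G U) i : ℝ) := by nlinarith
      _ = ε * (m * (bet D.act (KU G U) i : ℝ)) := by ring
      _ ≤ ε * Fintype.card P := mul_le_mul_of_nonneg_left h1 hε.le

theorem dens_of_gz {G : SimpleGraph V} {U : Finset V} {i : ℕ} (h : GZ G U i) : Dens G U i := by
  intro m
  obtain ⟨Y, _, _, _, r, E, hN, hB, hpos, hbd⟩ := h (1 / (m + 1 : ℝ)) (by positivity)
  obtain ⟨P, _, _, ρ, g, hP, hρ, hg1, hsq, hcomm⟩ := exists_group hN
  have : Fintype P := Fintype.ofFinite P
  have hcomm' : ∀ u v, G.Adj u v → g u * g v = g v * g u := by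
    intro u v huv
    by_cases hu : u ∈ U
    · by_cases hv : v ∈ U
      · exact hcomm u hu v hv huv
      · rw [hg1 v hv, mul_one, one_mul]
    · rw [hg1 u hu, mul_one, one_mul]
  let Cb := Pool.Agent.H4.Singer3.cubeGen G
  let D : Gen G (P × (V → Multiplicative (ZMod 2))) :=
    { g := fun v => (g v, Cb.g v)
      sq := fun v => by
        rw [Prod.mk_mul_mk, hsq, Cb.sq]
        rfl
      comm := fun u v huv => by
        rw [Prod.mk_mul_mk, Prod.mk_mul_mk, hcomm' u v huv, Cb.comm u v huv]
      bit := fun p => Cb.bit p.2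
      bit_mul := fun p v => Cb.bit_mul p.2 v }
  have hPP : IsPGroup 2 (P × (V → Multiplicative (ZMod 2))) :=
    Pool.Agent.H4.Singer3.isPGroup_prod hP Pool.Agent.H4.Singer3.isPGroup_cube
  refine ⟨P × (V → Multiplicative (ZMod 2)), inferInstance, inferInstance, D, hPP, ?_⟩
  have h1 := reg_le hN hB hPP (ρ.comp (MonoidHom.fst P (V → Multiplicative (ZMod 2)))) D.g D.sq
    D.comm (fun v hv => hρ v hv) i
  rw [hX_regP] at h1
  have hc0 : (0 : ℝ) ≤ (Fintype.card (P × (V → Multiplicative (ZMod 2))) : ℝ) := Nat.cast_nonneg _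
  have h6 : (0 : ℝ) ≤ (bet D.act (KU G U) i : ℝ) := Nat.cast_nonneg _
  have h2 : (Module.finrank F2 Y : ℝ) * (bet D.act (KU G U) i : ℝ) ≤
      Fintype.card (P × (V → Multiplicative (ZMod 2))) * (hX (Cq G U) r i : ℝ) := by
    exact_mod_cast h1
  suffices h8 : (m : ℝ) * (bet D.act (KU G U) i : ℝ) ≤
      (Fintype.card (P × (V → Multiplicative (ZMod 2))) : ℝ) by exact_mod_cast h8
  generalize (Fintype.card (P × (V → Multiplicative (ZMod 2))) : ℝ) = c at *
  generalize (bet D.act (KU G U) i : ℝ) = b at *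
  have hd : (0 : ℝ) < Module.finrank F2 Y := by exact_mod_cast hpos
  have h3 : (Module.finrank F2 Y : ℝ) * b ≤
      Module.finrank F2 Y * (c * (1 / (m + 1 : ℝ))) := by
    calc (Module.finrank F2 Y : ℝ) * b ≤ c * (hX (Cq G U) r i : ℝ) := h2
      _ ≤ c * (1 / (m + 1 : ℝ) * Module.finrank F2 Y) := mul_le_mul_of_nonneg_left hbd hc0
      _ = _ := by ring
  have h4 : b ≤ c * (1 / (m + 1 : ℝ)) := le_of_mul_le_mul_left h3 hd
  have h5 : (m + 1 : ℝ) * b ≤ c := by
    rw [mul_one_div, le_div_iff₀ (by positivity)] at h4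
    linarith
  nlinarith

/-- **Modules and two-groups give the same notion.** -/
theorem gz_iff_dens {G : SimpleGraph V} {U : Finset V} {i : ℕ} : GZ G U i ↔ Dens G U i :=
  ⟨dens_of_gz, gz_of_dens⟩

/-! ### Restriction to the vertices in `U` -/

/-- extension by zero -/
private def Bridge_ex (U : Finset V) (P : Type) :
    (Finset {v // v ∈ U} → P → F2) →ₗ[F2] (Finset V → P → F2) where
  toFun f σ p := if σ ⊆ U then f (σ.subtype fun v => v ∈ U) p else 0
  map_add' f g := by
    funext σ p
    simp only [Pi.add_apply]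
    split_ifs <;> simp
  map_smul' c f := by
    funext σ p
    simp only [Pi.smul_apply, smul_eq_mul, RingHom.id_apply]
    split_ifs <;> simp

private theorem Bridge_ex_apply (U : Finset V) (P : Type) (f : Finset {v // v ∈ U} → P → F2)
    (σ : Finset V) (p : P) :
    Bridge_ex U P f σ p = if σ ⊆ U then f (σ.subtype fun v => v ∈ U) p else 0 := rfl

private theorem Bridge_sub_map (U : Finset V) (τ : Finset {v // v ∈ U}) :
    (τ.map (Function.Embedding.subtype _)) ⊆ U ∧
      (τ.map (Function.Embedding.subtype _)).subtype (fun v => v ∈ U) = τ := by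
  constructor
  · intro v hv
    obtain ⟨u, -, rfl⟩ := mem_map.1 hv
    exact u.2
  · ext ⟨v, hv⟩
    simp only [mem_subtype, mem_map, Function.Embedding.subtype_apply, Subtype.exists,
      exists_and_right, exists_eq_right]
    exact ⟨fun ⟨_, h⟩ => h, fun h => ⟨hv, h⟩⟩

private theorem Bridge_ex_inj (U : Finset V) (P : Type) : Function.Injective (Bridge_ex U P) := by
  intro f g h
  funext τ p
  obtain ⟨h1, h2⟩ := Bridge_sub_map U τ
  have h3 := congrFun (congrFun h (τ.map (Function.Embedding.subtype _))) p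
  rw [Bridge_ex_apply, Bridge_ex_apply, if_pos h1, if_pos h1, h2] at h3
  exact h3

private theorem Bridge_ex_bd (U : Finset V) (P : Type) (f : Finset {v // v ∈ U} → P → F2) :
    Pool.Agent.H4.Singer3.bd (Bridge_ex U P f) =
      Bridge_ex U P (Pool.Agent.H4.Singer3.bd f) := by
  funext σ p
  rw [Pool.Agent.H4.Singer3.bd_apply, Bridge_ex_apply]
  by_cases hσ : σ ⊆ U
  · rw [if_pos hσ, Pool.Agent.H4.Singer3.bd_apply]
    symm
    refine Finset.sum_bij_ne_zero (fun v _ _ => v.1) ?_ ?_ ?_ ?_
    · rintro ⟨v, hv⟩ h1 _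
      rw [mem_compl, mem_subtype] at h1
      exact mem_compl.2 h1
    · rintro ⟨v, hv⟩ _ _ ⟨w, hw⟩ _ _ h
      exact Subtype.ext h
    · intro v hv hne
      rw [Bridge_ex_apply] at hne
      by_cases hvU : v ∈ U
      · refine ⟨⟨v, hvU⟩, ?_, ?_, rfl⟩
        · rw [mem_compl, mem_subtype]
          exact mem_compl.1 hv
        · rw [if_pos (insert_subset hvU hσ)] at hne
          intro h0
          refine hne ?_
          rw [← h0]
          congr 1
          ext ⟨w, hw⟩
          simp [Subtype.ext_iff]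
      · exact absurd (if_neg fun h => hvU (h (mem_insert_self _ _))) hne
    · rintro ⟨v, hv⟩ _ _
      rw [Bridge_ex_apply, if_pos (insert_subset hv hσ)]
      congr 1
      ext ⟨w, hw⟩
      simp [Subtype.ext_iff]
  · rw [if_neg hσ]
    refine sum_eq_zero fun v _ => ?_
    rw [Bridge_ex_apply, if_neg fun h => hσ ((subset_insert _ _).trans h)]

theorem dens_comap {G : SimpleGraph V} {U : Finset V} {i : ℕ} (h : Dens G U i) :
    Dens (G.comap (Subtype.val : {v // v ∈ U} → V)) univ i := by
  intro m
  obtain ⟨P, _, _, D, hP, hb⟩ := h m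
  let G' : SimpleGraph {v // v ∈ U} := G.comap (Subtype.val : {v // v ∈ U} → V)
  let D' : Gen G' P :=
    { g := fun v => D.g v.1
      sq := fun v => D.sq v.1
      comm := fun u v huv => D.comm u.1 v.1 huv
      bit := fun p v => D.bit p v.1
      bit_mul := fun p v => by
        funext w
        rw [D.bit_mul]
        by_cases hw : w = v
        · rw [hw, Function.update_self, Function.update_self]
        · rw [Function.update_of_ne hw, Function.update_of_ne fun h => hw (Subtype.ext h)] }
  refine ⟨P, inferInstance, inferInstance, D', hP, ?_⟩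
  have hCK : ∀ j, (CK D'.act (KU G' univ) j).map (Bridge_ex U P) = CK D.act (KU G U) j := by
    intro j
    ext f
    constructor
    · rintro ⟨f, hf, rfl⟩
      obtain ⟨h1, h2⟩ := Pool.Agent.H4.Singer3.mem_CK.1 hf
      refine Pool.Agent.H4.Singer3.mem_CK.2 ⟨fun σ ω hne => ?_, fun σ v hv ω => ?_⟩
      · rw [Bridge_ex_apply] at hne
        by_cases hσ : σ ⊆ U
        · rw [if_pos hσ] at hne
          obtain ⟨⟨-, h3⟩, h4⟩ := h1 _ _ hne
          refine ⟨⟨hσ, fun a ha b hb hab => ?_⟩, ?_⟩
          · have ha' : (⟨a, hσ ha⟩ : {v // v ∈ U}) ∈ σ.subtype fun v => v ∈ U :=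
              mem_subtype.2 ha
            have hb' : (⟨b, hσ hb⟩ : {v // v ∈ U}) ∈ σ.subtype fun v => v ∈ U :=
              mem_subtype.2 hb
            exact h3 (mem_coe.2 ha') (mem_coe.2 hb') fun h => hab (congrArg Subtype.val h)
          · rw [← h4]
            rw [card_subtype, filter_true_of_mem fun x hx => hσ hx]
        · exact absurd (if_neg hσ) hne
      · rw [Bridge_ex_apply, Bridge_ex_apply]
        split_ifs with hσ
        · exact h2 _ ⟨v, hσ hv⟩ (by simpa using hv) ω
        · rfl
    · intro hf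
      obtain ⟨h1, h2⟩ := Pool.Agent.H4.Singer3.mem_CK.1 hf
      refine ⟨fun τ => f (τ.map (Function.Embedding.subtype _)),
        Pool.Agent.H4.Singer3.mem_CK.2 ⟨fun τ ω hne => ?_, fun τ v hv ω => ?_⟩, ?_⟩
      · obtain ⟨⟨-, h3⟩, h4⟩ := h1 _ _ hne
        refine ⟨⟨subset_univ _, fun a ha b hb hab => ?_⟩, ?_⟩
        · exact h3 (mem_coe.2 (mem_map_of_mem _ (mem_coe.1 ha)))
            (mem_coe.2 (mem_map_of_mem _ (mem_coe.1 hb))) fun h => hab (Subtype.ext h)
        · rwa [card_map] at h4
      · exact h2 _ v.1 (mem_map_of_mem _ hv) ω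
      · funext σ p
        rw [Bridge_ex_apply]
        by_cases hσ : σ ⊆ U
        · rw [if_pos hσ]
          congr 1
          ext v
          simp only [mem_map, mem_subtype, Function.Embedding.subtype_apply, Subtype.exists,
            exists_and_left, exists_prop, exists_eq_right_right]
          exact ⟨fun h => h.1, fun h => ⟨h, hσ h⟩⟩
        · rw [if_neg hσ]
          by_contra hne
          exact hσ (h1 σ p (Ne.symm hne)).1.1
  have hZ : (ZK D'.act (KU G' univ) i).map (Bridge_ex U P) = ZK D.act (KU G U) i := by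
    ext f
    rw [Pool.Agent.H4.Singer3.mem_ZK, ← hCK]
    constructor
    · rintro ⟨f, hf, rfl⟩
      refine ⟨⟨f, hf.1, rfl⟩, ?_⟩
      have h3 : Pool.Agent.H4.Singer3.bd f = 0 := hf.2
      rw [Bridge_ex_bd, h3, map_zero]
    · rintro ⟨⟨f, hf, rfl⟩, h3⟩
      refine ⟨f, ⟨hf, ?_⟩, rfl⟩
      rw [Bridge_ex_bd] at h3
      exact Bridge_ex_inj U P (h3.trans (map_zero _).symm)
  have hB : (BK D'.act (KU G' univ) i).map (Bridge_ex U P) = BK D.act (KU G U) i := by
    ext f
    rw [Pool.Agent.H4.Singer3.mem_BK, ← hCK]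
    constructor
    · rintro ⟨_, ⟨y, hy, rfl⟩, rfl⟩
      exact ⟨_, ⟨y, hy, rfl⟩, Bridge_ex_bd U P y⟩
    · rintro ⟨_, ⟨y, hy, rfl⟩, rfl⟩
      exact ⟨_, ⟨y, hy, rfl⟩, (Bridge_ex_bd U P y).symm⟩
  have h5 : bet D'.act (KU G' univ) i = bet D.act (KU G U) i := by
    unfold bet Pool.Agent.H4.Singer3.hdim
    rw [← hZ, ← hB, ← (Submodule.equivMapOfInjective _ (Bridge_ex_inj U P) _).finrank_eq,
      ← (Submodule.equivMapOfInjective _ (Bridge_ex_inj U P) _).finrank_eq]
  rw [h5]
  exact hb

/-- **Vanishing of the `ℓ²`-homology.** -/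
theorem dens_star {X : Type} (Q : Pool.Agent.H19.Cub.CubeComplex V X) (x : X) {i : ℕ}
    (h : Dens Q.graph (Q.lab x) i) :
    Pool.Agent.H19.Cub.L2HomologyZero ((Pool.Agent.H19.LG.star Q x).cover ()) i :=
  Pool.Agent.H85.LG.star_l2 Q x i (Pool.Agent.H4.Singer3.l2_of_dens _ i (dens_comap h))

end Pool.Agent.H73.GC
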