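import Pool.Agent.H73.GC.Defs

/-!
# Growth calculus: modules which are free over the groups of the cliques
-/

set_option autoImplicit false
set_option linter.unusedSectionVars false

open Finset

namespace Pool.Agent.H73.GC

variable {V : Type} [DecidableEq V] [Fintype V]
variable {Y Y' : Type} [AddCommGroup Y] [Module F2 Y] [AddCommGroup Y'] [Module F2 Y']

theorem BitOn.mono {r E : V → Module.End F2 Y} {s t : Finset V} (h : BitOn r E s) (ht : t ⊆ s) :
    BitOn r E t :=
  ⟨fun v hv => h.sq v (ht hv), fun u hu v hv => h.comm u (ht hu) v (ht hv),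
    fun v hv => h.idem v (ht hv), fun v hv => h.bit v (ht hv),
    fun u hu v hv => h.er u (ht hu) v (ht hv), fun u hu v hv => h.ee u (ht hu) v (ht hv)⟩

theorem IsBit.bitOn {G : SimpleGraph V} {U : Finset V} {r E : V → Module.End F2 Y}
    (hN : IsN G U r) (hB : IsBit G U r E) {s : Finset V} (hs : Cq G U s) : BitOn r E s := by
  have adj : ∀ u ∈ s, ∀ v ∈ s, u ≠ v → G.Adj u v := fun u hu v hv huv =>
    hs.1 (Finset.mem_coe.2 hu) (Finset.mem_coe.2 hv) huv
  refine ⟨fun v hv => hN.sq v (hs.2 hv), ?_, fun v hv => hB.idem v (hs.2 hv),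
    fun v hv => hB.bit v (hs.2 hv), ?_, ?_⟩
  · intro u hu v hv y
    by_cases huv : u = v
    · rw [huv]
    · exact hN.comm u (hs.2 hu) v (hs.2 hv) (adj u hu v hv huv) y
  · intro u hu v hv huv y
    exact hB.er u (hs.2 hu) v (hs.2 hv) (adj u hu v hv huv) y
  · intro u hu v hv y
    by_cases huv : u = v
    · rw [huv]
    · exact hB.ee u (hs.2 hu) v (hs.2 hv) (adj u hu v hv huv) y

/-- in characteristic 2, `y + y = 0` -/
theorem Bit_self (y : Y) : y + y = 0 := ZModModule.add_self y

/-- the element `E v y + r v (E v y)` is invariant under `v` and under `t` -/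
theorem Bit_inv {r E : V → Module.End F2 Y} {v : V} {t : Finset V} (hv : v ∉ t)
    (h : BitOn r E (insert v t)) {y : Y} (hy : y ∈ Inv r t) :
    E v y + r v (E v y) ∈ Inv r (insert v t) := by
  intro u hu
  have hvI : v ∈ insert v t := mem_insert_self v t
  rcases mem_insert.1 hu with rfl | hu'
  · rw [map_add, h.sq u hvI, add_comm]
  · have huI : u ∈ insert v t := mem_insert_of_mem hu'
    have huv : v ≠ u := fun e => hv (e ▸ hu')
    have h1 : r u (E v y) = E v y := by
      rw [← h.er v hvI u huI huv y, hy u hu']
    rw [map_add, h.comm u huI v hvI, h1]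

/-- `E v y + r v (E v y) = E v (y + r v y) + r v y` -/
theorem Bit_eq {r E : V → Module.End F2 Y} {v : V} {s : Finset V} (hv : v ∈ s) (h : BitOn r E s)
    (y : Y) : E v y + r v (E v y) = E v (y + r v y) + r v y := by
  have h1 := h.bit v hv y
  have h2 : r v (E v y) = r v y + E v (r v y) := by
    have h3 : r v y + E v (r v y) = (E v (r v y) + r v (E v y)) + E v (r v y) :=
      congrArg (· + E v (r v y)) h1.symm
    rw [h3, add_comm (E v (r v y)) (r v (E v y)), add_assoc, Bit_self, add_zero]
  rw [h2, map_add]
  abel

/-- Invariants are exact. Induction over `s`: let `lam y₁ = y'` with `y₁` invariant under `t`, and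
`y = E v y₁ + r v (E v y₁)`. Then `r v y = y`, `y` is invariant under `t`, and `lam y = y'`: put
`δ = r v y₁ + y₁`, `lam δ = 0`, so `lam (E v δ) = 0`, and `lam y = lam (E v (r v y₁)) + lam (r v (E v y₁)) =
lam (r v y₁) = y'`. -/
theorem inv_map {r E : V → Module.End F2 Y} {r' : V → Module.End F2 Y'} {s : Finset V}
    (h : BitOn r E s) (lam : Y →ₗ[F2] Y') (hl : Function.Surjective lam)
    (hr : ∀ v ∈ s, ∀ y, lam (r v y) = r' v (lam y))
    (hE : ∀ v ∈ s, ∀ y, lam y = 0 → lam (E v y) = 0) : (Inv r s).map lam = Inv r' s := by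
  induction s using Finset.induction_on with
  | empty =>
    ext y'
    constructor
    · intro _ v hv
      exact absurd hv (notMem_empty v)
    · intro _
      obtain ⟨y, rfl⟩ := hl y'
      exact ⟨y, fun v hv => absurd hv (notMem_empty v), rfl⟩
  | insert v t hvt ih =>
    have hvI : v ∈ insert v t := mem_insert_self v t
    have ih' := ih (h.mono (subset_insert v t)) (fun u hu => hr u (mem_insert_of_mem hu))
      (fun u hu => hE u (mem_insert_of_mem hu))
    ext y'
    constructor
    · rintro ⟨y, hy, rfl⟩ u hu
      rw [← hr u hu, hy u hu]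
    · intro hy'
      have h1 : y' ∈ (Inv r t).map lam := by
        rw [ih']
        exact fun u hu => hy' u (mem_insert_of_mem hu)
      obtain ⟨y₁, hy₁, rfl⟩ := h1
      refine ⟨E v y₁ + r v (E v y₁), Bit_inv hvt h hy₁, ?_⟩
      have h2 : lam (r v y₁) = lam y₁ := by
        rw [hr v hvI]
        exact hy' v hvI
      have h3 : lam (y₁ + r v y₁) = 0 := by
        rw [map_add, h2, Bit_self]
      rw [Bit_eq hvI h, map_add, hE v hvI _ h3, zero_add, h2]

/-- The same for the systems. -/
theorem Sy_map {X : Finset V → Prop} {r E : V → Module.End F2 Y} {r' : V → Module.End F2 Y'}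
    (h : ∀ s, X s → BitOn r E s) (lam : Y →ₗ[F2] Y') (hl : Function.Surjective lam)
    (hr : ∀ s, X s → ∀ v ∈ s, ∀ y, lam (r v y) = r' v (lam y))
    (hE : ∀ s, X s → ∀ v ∈ s, ∀ y, lam y = 0 → lam (E v y) = 0) (s : Finset V) :
    (Sy X r s).map lam = Sy X r' s := by
  by_cases hX : X s
  · have h1 := inv_map (h s hX) lam hl (hr s hX) (hE s hX)
    ext y'
    constructor
    · rintro ⟨y, hy, rfl⟩
      have h2 : lam y ∈ Inv r' s := by
        rw [← h1]
        exact ⟨y, hy.2, rfl⟩
      exact ⟨fun hn => absurd hX hn, h2⟩
    · intro hy'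
      have h2 : y' ∈ (Inv r s).map lam := by
        rw [h1]
        exact hy'.2
      obtain ⟨y, hy, rfl⟩ := h2
      exact ⟨y, ⟨fun hn => absurd hX hn, hy⟩, rfl⟩
  · ext y'
    constructor
    · rintro ⟨y, hy, rfl⟩
      rw [hy.1 hX, map_zero]
      exact Submodule.zero_mem _
    · intro hy'
      rw [hy'.1 hX]
      exact Submodule.zero_mem _

/-- `Y` is free over the group of the `r v`, `v ∈ s`: induction over `s`; `Inv r (insert v s)` is the
image of `Inv r s` under `1 + r v`, and the kernel of this map on `Inv r s` is `Inv r (insert v s)`. -/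
theorem finrank_Inv [Finite Y] {r E : V → Module.End F2 Y} {s : Finset V} (h : BitOn r E s) :
    Module.finrank F2 (Inv r s) * 2 ^ s.card = Module.finrank F2 Y := by
  induction s using Finset.induction_on with
  | empty =>
    have h1 : Inv r ∅ = ⊤ := by
      rw [eq_top_iff]
      intro y _ v hv
      exact absurd hv (notMem_empty v)
    rw [h1, card_empty, pow_zero, mul_one, finrank_top]
  | insert v t hvt ih =>
    have hvI : v ∈ insert v t := mem_insert_self v t
    have ih' := ih (h.mono (subset_insert v t))
    set φ : Module.End F2 Y := 1 + r v with hφ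
    have hφa : ∀ y, φ y = y + r v y := fun y => by
      rw [hφ, LinearMap.add_apply, Module.End.one_apply]
    have hfin : Module.Finite F2 Y := Module.Finite.of_finite
    have hrange : LinearMap.range (φ.domRestrict (Inv r t)) = Inv r (insert v t) := by
      ext y
      constructor
      · rintro ⟨⟨z, hz⟩, rfl⟩ u hu
        rw [LinearMap.domRestrict_apply, hφa]
        rcases mem_insert.1 hu with rfl | hu'
        · rw [map_add, h.sq u hvI, add_comm]
        · rw [map_add, h.comm u hu v hvI, hz u hu']
      · intro hy
        have hyt : y ∈ Inv r t := fun u hu => hy u (mem_insert_of_mem hu)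
        have hEt : E v y ∈ Inv r t := by
          intro u hu
          have huv : v ≠ u := fun e => hvt (e ▸ hu)
          rw [← h.er v hvI u (mem_insert_of_mem hu) huv y, hyt u hu]
        refine ⟨⟨E v y, hEt⟩, ?_⟩
        rw [LinearMap.domRestrict_apply, hφa, Bit_eq hvI h, hy v hvI, Bit_self, map_zero, zero_add]
    have hker : Module.finrank F2 (LinearMap.ker (φ.domRestrict (Inv r t))) =
        Module.finrank F2 (Inv r (insert v t)) := by
      have hle : Inv r (insert v t) ≤ Inv r t := fun y hy u hu => hy u (mem_insert_of_mem hu)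
      have h1 : LinearMap.ker (φ.domRestrict (Inv r t)) =
          (Inv r (insert v t)).comap (Inv r t).subtype := by
        ext ⟨y, hy⟩
        rw [LinearMap.mem_ker, LinearMap.domRestrict_apply, hφa, Submodule.mem_comap]
        constructor
        · intro h0 u hu
          rcases mem_insert.1 hu with rfl | hu'
          · have : r u y = y := by
              have h2 : r u y = (y + r u y) + y := by
                rw [add_comm y (r u y), add_assoc, Bit_self, add_zero]
              rw [h2, h0, zero_add]
            exact this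
          · exact hy u hu'
        · intro h0
          have h2 : r v y = y := h0 v hvI
          rw [h2, Bit_self]
      rw [h1]
      exact (Submodule.comapSubtypeEquivOfLe hle).finrank_eq
    have hrn := LinearMap.finrank_range_add_finrank_ker (φ.domRestrict (Inv r t))
    rw [hrange, hker] at hrn
    rw [card_insert_of_notMem hvt, pow_succ, ← ih', ← hrn]
    ring

end Pool.Agent.H73.GC
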