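import Pool.Agent.H73.GC.Defs

/-!
# Growth calculus: linear algebra of `hx`, part B
-/

set_option autoImplicit false
set_option linter.unusedSectionVars false

open Finset

namespace Pool.Agent.H73.GC

variable {E E' : Type} [AddCommGroup E] [Module F2 E] [Finite E] [AddCommGroup E'] [Module F2 E']
  [Finite E']

/-- rank and nullity on a subspace -/
theorem LinB_rn {M M' : Type} [AddCommGroup M] [Module F2 M] [Finite M] [AddCommGroup M']
    [Module F2 M'] (W : Submodule F2 M) (g : M →ₗ[F2] M') :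
    Module.finrank F2 W = Module.finrank F2 (W.map g) +
      Module.finrank F2 (W ⊓ LinearMap.ker g : Submodule F2 M) := by
  have h1 := LinearMap.finrank_range_add_finrank_ker (g.domRestrict W)
  rw [← h1, LinearMap.range_domRestrict]
  congr 1
  have h2 : LinearMap.ker (g.domRestrict W) = (W ⊓ LinearMap.ker g).comap W.subtype := by
    ext x
    simp only [LinearMap.mem_ker, LinearMap.domRestrict_apply, Submodule.mem_comap,
      Submodule.mem_inf, Submodule.subtype_apply, SetLike.coe_mem, true_and]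
  rw [h2]
  exact (Submodule.comapSubtypeEquivOfLe inf_le_left).finrank_eq

theorem LinB_mono {M : Type} [AddCommGroup M] [Module F2 M] [Finite M] {A B : Submodule F2 M}
    (h : A ≤ B) : Module.finrank F2 A ≤ Module.finrank F2 B :=
  Submodule.finrank_mono h

/-- the dimensions of the images of the chains `x` with `lam (d x) = 0` -/
theorem LinB_key {d : Module.End F2 E} {d' : Module.End F2 E'} {C : ℕ → Submodule F2 E}
    (lam : E →ₗ[F2] E') (hl : ∀ i, ∀ x ∈ C i, lam (d x) = d' (lam x)) (i : ℕ) :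
    Module.finrank F2 ((C i ⊓ LinearMap.ker (lam ∘ₗ d)).map d) +
        Module.finrank F2 ((C i ⊓ LinearMap.ker d).map lam) =
      Module.finrank F2 ((C i ⊓ LinearMap.ker lam).map d) +
        Module.finrank F2 ((C i).map lam ⊓ LinearMap.ker d' : Submodule F2 E') := by
  have h1 := LinB_rn (C i ⊓ LinearMap.ker (lam ∘ₗ d)) d
  have h2 := LinB_rn (C i ⊓ LinearMap.ker (lam ∘ₗ d)) lam
  have h3 := LinB_rn (C i ⊓ LinearMap.ker d) lam
  have h4 := LinB_rn (C i ⊓ LinearMap.ker lam) d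
  have e1 : (C i ⊓ LinearMap.ker (lam ∘ₗ d)) ⊓ LinearMap.ker d = C i ⊓ LinearMap.ker d := by
    ext x
    simp only [Submodule.mem_inf, LinearMap.mem_ker, LinearMap.comp_apply]
    constructor
    · rintro ⟨⟨hx, -⟩, h⟩
      exact ⟨hx, h⟩
    · rintro ⟨hx, h⟩
      exact ⟨⟨hx, by rw [h, map_zero]⟩, h⟩
  have e2 : (C i ⊓ LinearMap.ker (lam ∘ₗ d)) ⊓ LinearMap.ker lam = C i ⊓ LinearMap.ker lam := by
    ext x
    simp only [Submodule.mem_inf, LinearMap.mem_ker, LinearMap.comp_apply]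
    constructor
    · rintro ⟨⟨hx, -⟩, h⟩
      exact ⟨hx, h⟩
    · rintro ⟨hx, h⟩
      exact ⟨⟨hx, by rw [hl i x hx, h, map_zero]⟩, h⟩
  have e3 : (C i ⊓ LinearMap.ker d) ⊓ LinearMap.ker lam =
      (C i ⊓ LinearMap.ker lam) ⊓ LinearMap.ker d := by
    rw [inf_assoc, inf_comm (LinearMap.ker d), ← inf_assoc]
  have e4 : (C i ⊓ LinearMap.ker (lam ∘ₗ d)).map lam = (C i).map lam ⊓ LinearMap.ker d' := by
    ext y
    simp only [Submodule.mem_map, Submodule.mem_inf, LinearMap.mem_ker, LinearMap.comp_apply]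
    constructor
    · rintro ⟨x, ⟨hx, h⟩, rfl⟩
      exact ⟨⟨x, hx, rfl⟩, by rw [← hl i x hx, h]⟩
    · rintro ⟨⟨x, hx, rfl⟩, h⟩
      exact ⟨x, ⟨hx, by rw [hl i x hx, h]⟩, rfl⟩
  rw [e1] at h1
  rw [e2, e4] at h2
  rw [e3] at h3
  omega

/-- Left term of the exact sequence: `H_(i+1) (lam C) → H_i (C ⊓ ker lam) → H_i (C)`.
Put `Z = C i ⊓ ker d`, `ZA = Z ⊓ ker lam`, `B = d (C (i+1))`, `BA = d (C (i+1) ⊓ ker lam)`,
`W = {x ∈ C (i+1) | lam (d x) = 0}`; `B ⊓ ker lam = d W`. Then `dim ZA - dim (B ⊓ ker lam) ≤ dim Z - dim B`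
(as `ZA ⊓ B = B ⊓ ker lam`, `ZA + B ≤ Z`), and `dim (d W) - dim BA = dim lam W - dim lam Z_(i+1)` with
`lam W = lam C (i+1) ⊓ ker d'` and `lam Z_(i+1) ≥ lam (d C (i+2)) = d' (lam C (i+2))`. -/
theorem hx_sub {d : Module.End F2 E} {d' : Module.End F2 E'} {C : ℕ → Submodule F2 E}
    (hC : IsCx d C) (lam : E →ₗ[F2] E') (hl : ∀ i, ∀ x ∈ C i, lam (d x) = d' (lam x)) (i : ℕ) :
    hx d (fun j => C j ⊓ LinearMap.ker lam) i ≤
      hx d C i + hx d' (fun j => (C j).map lam) (i + 1) := by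
  have hk := LinB_key lam hl (i + 1)
  have h1 := Submodule.finrank_sup_add_finrank_inf_eq
    ((C i ⊓ LinearMap.ker lam) ⊓ LinearMap.ker d) ((C (i + 1)).map d)
  have h2 : Module.finrank F2 (((C i ⊓ LinearMap.ker lam) ⊓ LinearMap.ker d) ⊔ (C (i + 1)).map d :
      Submodule F2 E) ≤ Module.finrank F2 (C i ⊓ LinearMap.ker d : Submodule F2 E) := by
    apply LinB_mono
    apply sup_le
    · rintro x ⟨⟨hx, -⟩, h⟩
      exact ⟨hx, h⟩
    · rintro y ⟨x, hx, rfl⟩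
      exact ⟨hC.map i x hx, hC.sq (i + 1) x hx⟩
  have h3 : Module.finrank F2 (((C i ⊓ LinearMap.ker lam) ⊓ LinearMap.ker d) ⊓ (C (i + 1)).map d :
      Submodule F2 E) ≤
      Module.finrank F2 ((C (i + 1) ⊓ LinearMap.ker (lam ∘ₗ d)).map d) := by
    apply LinB_mono
    rintro y ⟨⟨⟨-, hy⟩, -⟩, ⟨x, hx, rfl⟩⟩
    exact ⟨x, ⟨hx, hy⟩, rfl⟩
  have h4 : Module.finrank F2 ((((C (i + 1 + 1)).map lam)).map d') ≤
      Module.finrank F2 ((C (i + 1) ⊓ LinearMap.ker d).map lam) := by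
    apply LinB_mono
    rintro z ⟨y, ⟨x, hx, rfl⟩, rfl⟩
    exact ⟨d x, ⟨hC.map (i + 1) x hx, hC.sq (i + 1 + 1) x hx⟩, hl (i + 1 + 1) x hx⟩
  simp only [hx]
  omega

/-- Right term of the exact sequence: `H_(i+1) (C) → H_(i+1) (lam C) → H_i (C ⊓ ker lam)`.
With the notation of `hx_sub`, `Z'` the cycles and `B'` the boundaries of `lam C` in degree `i + 1`:
`Z' = lam W`, `B' = lam B_(i+1)`, `dim lam Z_(i+1) - dim lam B_(i+1) ≤ dim Z_(i+1) - dim B_(i+1)`,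
`dim lam W - dim lam Z_(i+1) = dim (d W) - dim BA` and `d W ≤ ZA`. -/
theorem hx_quot {d : Module.End F2 E} {d' : Module.End F2 E'} {C : ℕ → Submodule F2 E}
    (hC : IsCx d C) (lam : E →ₗ[F2] E') (hl : ∀ i, ∀ x ∈ C i, lam (d x) = d' (lam x)) (i : ℕ) :
    hx d' (fun j => (C j).map lam) (i + 1) ≤
      hx d C (i + 1) + hx d (fun j => C j ⊓ LinearMap.ker lam) i := by
  have hk := LinB_key lam hl (i + 1)
  have h1 := LinB_rn (C (i + 1) ⊓ LinearMap.ker d) lam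
  have h2 := LinB_rn ((C (i + 1 + 1)).map d) lam
  have h3 : Module.finrank F2 ((C (i + 1 + 1)).map d ⊓ LinearMap.ker lam : Submodule F2 E) ≤
      Module.finrank F2 ((C (i + 1) ⊓ LinearMap.ker d) ⊓ LinearMap.ker lam : Submodule F2 E) := by
    apply LinB_mono
    rintro y ⟨⟨x, hx, rfl⟩, h⟩
    exact ⟨⟨hC.map (i + 1) x hx, hC.sq (i + 1 + 1) x hx⟩, h⟩
  have h4 : ((C (i + 1 + 1)).map lam).map d' = ((C (i + 1 + 1)).map d).map lam := by
    ext z
    constructor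
    · rintro ⟨y, ⟨x, hx, rfl⟩, rfl⟩
      exact ⟨d x, ⟨x, hx, rfl⟩, hl (i + 1 + 1) x hx⟩
    · rintro ⟨y, ⟨x, hx, rfl⟩, rfl⟩
      exact ⟨lam x, ⟨x, hx, rfl⟩, (hl (i + 1 + 1) x hx).symm⟩
  have h5 : Module.finrank F2 ((C (i + 1) ⊓ LinearMap.ker (lam ∘ₗ d)).map d) ≤
      Module.finrank F2 ((C i ⊓ LinearMap.ker lam) ⊓ LinearMap.ker d : Submodule F2 E) := by
    apply LinB_mono
    rintro y ⟨x, ⟨hx, h⟩, rfl⟩
    exact ⟨⟨hC.map i x hx, h⟩, hC.sq (i + 1) x hx⟩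
  simp only [hx]
  rw [h4]
  omega

/-- A projection `e` which commutes with `d` splits the complex. -/
theorem hx_split {d : Module.End F2 E} {C : ℕ → Submodule F2 E} (e : Module.End F2 E)
    (hCd : ∀ i, ∀ x ∈ C (i + 1), d x ∈ C i)
    (he : ∀ i, ∀ x ∈ C i, e (e x) = e x) (hCe : ∀ i, ∀ x ∈ C i, e x ∈ C i)
    (hed : ∀ i, ∀ x ∈ C i, e (d x) = d (e x)) (i : ℕ) :
    hx d C i = hx d (fun j => C j ⊓ LinearMap.ker e) i + hx d (fun j => (C j).map e) i := by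
  have h1 := LinB_rn (C i ⊓ LinearMap.ker d) e
  have h2 := LinB_rn ((C (i + 1)).map d) e
  have e1 : (C i ⊓ LinearMap.ker d).map e = (C i).map e ⊓ LinearMap.ker d := by
    ext y
    constructor
    · rintro ⟨x, ⟨hx, h⟩, rfl⟩
      refine ⟨⟨x, hx, rfl⟩, ?_⟩
      have h' : d x = 0 := h
      change d (e x) = 0
      rw [← hed i x hx, h', map_zero]
    · rintro ⟨⟨x, hx, rfl⟩, h⟩
      exact ⟨e x, ⟨hCe i x hx, h⟩, he i x hx⟩
  have e2 : (C i ⊓ LinearMap.ker d) ⊓ LinearMap.ker e =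
      (C i ⊓ LinearMap.ker e) ⊓ LinearMap.ker d := by
    rw [inf_assoc, inf_comm (LinearMap.ker d), ← inf_assoc]
  have e3 : ((C (i + 1)).map d).map e = ((C (i + 1)).map e).map d := by
    ext z
    constructor
    · rintro ⟨y, ⟨x, hx, rfl⟩, rfl⟩
      exact ⟨e x, ⟨x, hx, rfl⟩, (hed (i + 1) x hx).symm⟩
    · rintro ⟨y, ⟨x, hx, rfl⟩, rfl⟩
      exact ⟨d x, ⟨x, hx, rfl⟩, hed (i + 1) x hx⟩
  have e4 : (C (i + 1)).map d ⊓ LinearMap.ker e = (C (i + 1) ⊓ LinearMap.ker e).map d := by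
    ext y
    constructor
    · rintro ⟨⟨x, hx, rfl⟩, h⟩
      have h' : e (d x) = 0 := h
      refine ⟨x - e x, ⟨Submodule.sub_mem _ hx (hCe (i + 1) x hx), ?_⟩, ?_⟩
      · change e (x - e x) = 0
        rw [map_sub, he (i + 1) x hx, sub_self]
      · rw [map_sub, ← hed (i + 1) x hx, h', sub_zero]
    · rintro ⟨x, ⟨hx, h⟩, rfl⟩
      have h' : e x = 0 := h
      refine ⟨⟨x, hx, rfl⟩, ?_⟩
      change e (d x) = 0
      rw [hed (i + 1) x hx, h', map_zero]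
  rw [e1, e2] at h1
  rw [e3, e4] at h2
  simp only [hx]
  omega

end Pool.Agent.H73.GC
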