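import Pool.Agent.H73.GC.LinA
import Pool.Agent.H73.GC.LinB

/-!
# Growth calculus: systems of coefficients
-/

set_option autoImplicit false
set_option linter.unusedSectionVars false

open Finset

namespace Pool.Agent.H73.GC

variable {V : Type} [DecidableEq V] [Fintype V]
variable {Y Y' : Type} [AddCommGroup Y] [Module F2 Y] [AddCommGroup Y'] [Module F2 Y']

/-- every pair of vertices outside of `s` occurs twice -/
theorem dd_dd (f : Finset V → Y) : dd (dd f) = 0 := by
  funext s
  rw [dd_apply, Pi.zero_apply]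
  simp only [dd_apply]
  rw [Finset.sum_sigma']
  refine Finset.sum_involution (fun x _ => ⟨x.2, x.1⟩) ?_ ?_ ?_ ?_
  · rintro ⟨a, b⟩ _
    dsimp only
    rw [Finset.insert_comm b a s]
    exact ZModModule.add_self _
  · rintro ⟨a, b⟩ h _ h2
    simp only [mem_sigma, mem_compl, mem_insert, not_or] at h
    simp only [Sigma.mk.injEq] at h2
    exact h.2.1 h2.1
  · rintro ⟨a, b⟩ h
    simp only [mem_sigma, mem_compl, mem_insert, not_or] at h ⊢
    exact ⟨h.2.2, fun h3 => h.2.1 h3.symm, h.1⟩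
  · rintro ⟨a, b⟩ _
    rfl

theorem isCx_Ch {A : Finset V → Submodule F2 Y} (hA : Mono A) : IsCx dd (Ch A) := by
  refine ⟨fun i x hx s => ⟨?_, fun hs => ?_⟩, fun i x _ => dd_dd x⟩
  · rw [dd_apply]
    exact Submodule.sum_mem _ fun v _ => hA s v (hx (insert v s)).1
  · rw [dd_apply]
    refine Finset.sum_eq_zero fun v hv => (hx (insert v s)).2 ?_
    rw [Finset.card_insert_of_notMem (Finset.mem_compl.1 hv)]
    omega

/-- a linear map of the coefficients commutes with the boundary -/
theorem dd_compLeft (lam : Y →ₗ[F2] Y') (f : Finset V → Y) :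
    lam.compLeft (Finset V) (dd f) = dd (lam.compLeft (Finset V) f) := by
  funext s
  change lam (dd f s) = ∑ v ∈ sᶜ, lam (f (insert v s))
  rw [dd_apply, map_sum]

theorem Ch_map (A : Finset V → Submodule F2 Y) (lam : Y →ₗ[F2] Y') (i : ℕ) :
    (Ch A i).map (lam.compLeft (Finset V)) = Ch (fun s => (A s).map lam) i := by
  ext g
  constructor
  · rintro ⟨f, hf, rfl⟩ s
    refine ⟨⟨f s, (hf s).1, rfl⟩, fun hs => ?_⟩
    change lam (f s) = 0
    rw [(hf s).2 hs, map_zero]
  · intro hg
    have h : ∀ s, ∃ y ∈ A s, (s.card ≠ i → y = 0) ∧ lam y = g s := by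
      intro s
      obtain ⟨y, hy, hyg⟩ := (hg s).1
      by_cases hs : s.card = i
      · exact ⟨y, hy, fun h => absurd hs h, hyg⟩
      · exact ⟨0, Submodule.zero_mem _, fun _ => rfl, by rw [map_zero, (hg s).2 hs]⟩
    choose f hf1 hf2 hf3 using h
    exact ⟨f, fun s => ⟨hf1 s, hf2 s⟩, funext hf3⟩

theorem Ch_ker (A : Finset V → Submodule F2 Y) (lam : Y →ₗ[F2] Y') (i : ℕ) :
    Ch A i ⊓ LinearMap.ker (lam.compLeft (Finset V)) =
      Ch (fun s => A s ⊓ LinearMap.ker lam) i := by
  ext f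
  constructor
  · rintro ⟨h1, h2⟩ s
    exact ⟨⟨(h1 s).1, LinearMap.mem_ker.2 (congrFun (LinearMap.mem_ker.1 h2) s)⟩, (h1 s).2⟩
  · intro h
    refine ⟨fun s => ⟨(h s).1.1, (h s).2⟩, LinearMap.mem_ker.2 (funext fun s => ?_)⟩
    exact LinearMap.mem_ker.1 (h s).1.2

variable [Finite Y] [Finite Y']

/-- `hx_nonneg` -/
theorem hd_nonneg {A : Finset V → Submodule F2 Y} (hA : Mono A) (i : ℕ) : 0 ≤ hd A i :=
  hx_nonneg (isCx_Ch hA) i

private theorem SysA_ker (A : Finset V → Submodule F2 Y) (lam : Y →ₗ[F2] Y') (i : ℕ) :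
    hd (fun s => A s ⊓ LinearMap.ker lam) i =
      hx dd (fun j => Ch A j ⊓ LinearMap.ker (lam.compLeft (Finset V))) i := by
  unfold hd
  rw [show Ch (fun s => A s ⊓ LinearMap.ker lam) =
    fun j => Ch A j ⊓ LinearMap.ker (lam.compLeft (Finset V)) from
      funext fun j => (Ch_ker A lam j).symm]

private theorem SysA_map (A : Finset V → Submodule F2 Y) (lam : Y →ₗ[F2] Y') (i : ℕ) :
    hd (fun s => (A s).map lam) i =
      hx dd (fun j => (Ch A j).map (lam.compLeft (Finset V))) i := by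
  unfold hd
  rw [show Ch (fun s => (A s).map lam) =
    fun j => (Ch A j).map (lam.compLeft (Finset V)) from
      funext fun j => (Ch_map A lam j).symm]

/-- `hx_mid` for a map of the coefficients -/
theorem hd_coef {A : Finset V → Submodule F2 Y} (hA : Mono A) (lam : Y →ₗ[F2] Y') (i : ℕ) :
    hd A i ≤ hd (fun s => A s ⊓ LinearMap.ker lam) i + hd (fun s => (A s).map lam) i := by
  rw [SysA_ker, SysA_map]
  exact hx_mid (isCx_Ch hA) (lam.compLeft (Finset V)) (fun _ x _ => dd_compLeft lam x) i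

/-- `hx_sub` for a map of the coefficients -/
theorem hd_coef_sub {A : Finset V → Submodule F2 Y} (hA : Mono A) (lam : Y →ₗ[F2] Y') (i : ℕ) :
    hd (fun s => A s ⊓ LinearMap.ker lam) i ≤ hd A i + hd (fun s => (A s).map lam) (i + 1) := by
  rw [SysA_ker, SysA_map]
  exact hx_sub (isCx_Ch hA) (lam.compLeft (Finset V)) (fun _ x _ => dd_compLeft lam x) i

/-- `hx_map` for an injective map of the coefficients -/
theorem hd_map (A : Finset V → Submodule F2 Y) (j : Y →ₗ[F2] Y') (hj : Function.Injective j)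
    (i : ℕ) : hd (fun s => (A s).map j) i = hd A i := by
  rw [SysA_map]
  refine hx_map (j.compLeft (Finset V)) ?_ (fun _ x _ => dd_compLeft j x) i
  intro f g h
  funext s
  exact hj (congrFun h s)

/-- `hx_split` for a projection of the coefficients -/
theorem hd_split {A : Finset V → Submodule F2 Y} (hA : Mono A) (e : Module.End F2 Y)
    (he : ∀ s, ∀ y ∈ A s, e (e y) = e y) (hAe : ∀ s, ∀ y ∈ A s, e y ∈ A s) (i : ℕ) :
    hd A i = hd (fun s => A s ⊓ LinearMap.ker e) i + hd (fun s => (A s).map e) i := by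
  rw [SysA_ker, SysA_map]
  refine hx_split (e.compLeft (Finset V)) (isCx_Ch hA).map ?_ ?_
    (fun _ x _ => dd_compLeft e x) i
  · intro _ x hx
    funext s
    exact he s _ (hx s).1
  · intro _ x hx s
    refine ⟨hAe s _ (hx s).1, fun hs => ?_⟩
    change e (x s) = 0
    rw [(hx s).2 hs, map_zero]

/-- there are no chains in degree `i` -/
theorem hd_zero {A : Finset V → Submodule F2 Y} (hA : Mono A) (i : ℕ)
    (h : ∀ s : Finset V, s.card = i → A s = ⊥) : hd A i = 0 := by
  have h0 : Ch A i = ⊥ := by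
    rw [eq_bot_iff]
    intro f hf
    rw [Submodule.mem_bot]
    funext s
    by_cases hs : s.card = i
    · have h1 := (hf s).1
      rw [h s hs, Submodule.mem_bot] at h1
      exact h1
    · exact (hf s).2 hs
  have h1 : (Ch A (i + 1)).map dd = ⊥ := by
    rw [eq_bot_iff, ← h0]
    rintro _ ⟨x, hx, rfl⟩
    exact (isCx_Ch hA).map i x hx
  unfold hd hx
  rw [h1, h0, bot_inf_eq, finrank_bot, Nat.cast_zero, sub_zero]

end Pool.Agent.H73.GC
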