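import Pool.Agent.H73.GC.LinA

/-!
# Growth calculus: simple properties of `Sy` and `hX`, dimension of the chains
-/

set_option autoImplicit false
set_option linter.unusedSectionVars false

open Finset

namespace Pool.Agent.H73.GC

variable {V : Type} [DecidableEq V] [Fintype V]
variable {Y Y' : Type} [AddCommGroup Y] [Module F2 Y] [AddCommGroup Y'] [Module F2 Y']

theorem mono_Sy {X : Finset V → Prop} (hm : ∀ s v, X (insert v s) → X s)
    (r : V → Module.End F2 Y) : Mono (Sy X r) := by
  intro s v y hy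
  exact ⟨fun h => hy.1 fun h' => h (hm s v h'), fun w hw => hy.2 w (mem_insert_of_mem hw)⟩

theorem mono_Cq (G : SimpleGraph V) (U : Finset V) : ∀ s v, Cq G U (insert v s) → Cq G U s := by
  intro s v h
  exact ⟨h.1.subset (Finset.coe_subset.2 (subset_insert v s)), (subset_insert v s).trans h.2⟩

theorem Sy_congr {X X' : Finset V → Prop} (hx : ∀ s, X s ↔ X' s) {r r' : V → Module.End F2 Y}
    (h : ∀ s, X s → ∀ v ∈ s, ∀ y, r v y = r' v y) : Sy X r = Sy X' r' := by
  funext s
  ext y
  rw [mem_Sy, mem_Sy]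
  by_cases hs : X s
  · have hs' : X' s := (hx s).1 hs
    constructor
    · rintro ⟨-, h2⟩
      exact ⟨fun hn => absurd hs' hn, fun v hv => by rw [← h s hs v hv, h2 v hv]⟩
    · rintro ⟨-, h2⟩
      exact ⟨fun hn => absurd hs hn, fun v hv => by rw [h s hs v hv, h2 v hv]⟩
  · have hs' : ¬ X' s := fun h' => hs ((hx s).2 h')
    constructor
    · rintro ⟨h1, -⟩
      have h0 := h1 hs
      exact ⟨fun _ => h0, fun v _ => by rw [h0, map_zero]⟩
    · rintro ⟨h1, -⟩
      have h0 := h1 hs'
      exact ⟨fun _ => h0, fun v _ => by rw [h0, map_zero]⟩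

theorem hX_congr {X X' : Finset V → Prop} (hx : ∀ s, X s ↔ X' s) {r r' : V → Module.End F2 Y}
    (h : ∀ s, X s → ∀ v ∈ s, ∀ y, r v y = r' v y) (i : ℕ) :
    hX X r i = hX X' r' i := by
  unfold hX
  rw [Sy_congr hx h]

/-- an isomorphism of modules -/
theorem hX_equiv [Finite Y] [Finite Y'] (e : Y ≃ₗ[F2] Y') {X : Finset V → Prop}
    {r : V → Module.End F2 Y} {r' : V → Module.End F2 Y'}
    (h : ∀ s, X s → ∀ v ∈ s, ∀ y, e (r v y) = r' v (e y)) (i : ℕ) :
    hX X r i = hX X r' i := by
  obtain ⟨E, hE⟩ : ∃ E : (Finset V → Y) ≃ₗ[F2] (Finset V → Y'), ∀ f s, E f s = e (f s) :=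
    ⟨LinearEquiv.piCongrRight fun _ => e, fun _ _ => rfl⟩
  have hEs : ∀ g s, E.symm g s = e.symm (g s) := by
    intro g s
    rw [LinearEquiv.eq_symm_apply, ← hE, LinearEquiv.apply_symm_apply]
  have hdE : ∀ f, dd (E f) = E (dd f) := by
    intro f
    funext s
    rw [hE, dd_apply, dd_apply, map_sum]
    exact sum_congr rfl fun v _ => hE _ _
  have hSy : ∀ s y, e y ∈ Sy X r' s ↔ y ∈ Sy X r s := by
    intro s y
    rw [mem_Sy, mem_Sy]
    constructor
    · rintro ⟨h1, h2⟩
      have h3 : ¬ X s → y = 0 := fun hn => (LinearEquiv.map_eq_zero_iff e).1 (h1 hn)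
      refine ⟨h3, fun v hv => ?_⟩
      by_cases hs : X s
      · apply e.injective
        rw [h s hs v hv, h2 v hv]
      · rw [h3 hs, map_zero]
    · rintro ⟨h1, h2⟩
      have h3 : ¬ X s → e y = 0 := fun hn => by rw [h1 hn, map_zero]
      refine ⟨h3, fun v hv => ?_⟩
      by_cases hs : X s
      · rw [← h s hs v hv, h2 v hv]
      · rw [h3 hs, map_zero]
  have hCh : ∀ (j : ℕ) f, E f ∈ Ch (Sy X r') j ↔ f ∈ Ch (Sy X r) j := by
    intro j f
    rw [mem_Ch, mem_Ch]
    refine forall_congr' fun s => ?_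
    rw [hE, hSy]
    refine and_congr_right fun _ => imp_congr_right fun _ => ?_
    exact LinearEquiv.map_eq_zero_iff e
  have hk : (Ch (Sy X r) i ⊓ LinearMap.ker dd : Submodule F2 (Finset V → Y)).map
      (E : (Finset V → Y) →ₗ[F2] (Finset V → Y')) =
        (Ch (Sy X r') i ⊓ LinearMap.ker dd : Submodule F2 (Finset V → Y')) := by
    ext g
    rw [Submodule.mem_map]
    constructor
    · rintro ⟨f, ⟨h1, h2⟩, rfl⟩
      refine ⟨(hCh i f).2 h1, ?_⟩
      show dd (E f) = 0
      have h3 : dd f = 0 := h2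
      rw [hdE, h3, map_zero]
    · rintro ⟨h1, h2⟩
      have h4 : E (E.symm g) = g := E.apply_symm_apply g
      have h3 : dd g = 0 := h2
      refine ⟨E.symm g, ⟨(hCh i _).1 (h4.symm ▸ h1), ?_⟩, h4⟩
      show dd (E.symm g) = 0
      apply E.injective
      rw [← hdE, h4, h3, map_zero]
  have hm : ((Ch (Sy X r) (i + 1)).map dd).map (E : (Finset V → Y) →ₗ[F2] (Finset V → Y')) =
      (Ch (Sy X r') (i + 1)).map dd := by
    ext g
    simp only [Submodule.mem_map]
    constructor
    · rintro ⟨_, ⟨f, h1, rfl⟩, rfl⟩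
      exact ⟨E f, (hCh _ f).2 h1, hdE f⟩
    · rintro ⟨g', h1, rfl⟩
      have h4 : E (E.symm g') = g' := E.apply_symm_apply g'
      refine ⟨dd (E.symm g'), ⟨E.symm g', (hCh _ _).1 (h4.symm ▸ h1), rfl⟩, ?_⟩
      show E (dd (E.symm g')) = dd g'
      rw [← hdE, h4]
  unfold hX hd hx
  rw [← hk, ← hm, LinearEquiv.finrank_map_eq, LinearEquiv.finrank_map_eq]

/-- a trivial module has no homology -/
theorem hX_subsingleton [Subsingleton Y] (X : Finset V → Prop) (r : V → Module.End F2 Y) (i : ℕ) :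
    hX X r i = 0 := by
  unfold hX hd hx
  rw [Module.finrank_zero_of_subsingleton, Module.finrank_zero_of_subsingleton]
  rfl

/-- the chains are the families of vectors indexed by the simplices -/
private def SysB_equiv (A : Finset V → Submodule F2 Y) (i : ℕ) :
    Ch A i ≃ₗ[F2] ((s : {s : Finset V // s.card = i}) → A s.1) where
  toFun f s := ⟨f.1 s.1, (f.2 s.1).1⟩
  invFun g := ⟨fun s => if h : s.card = i then (g ⟨s, h⟩ : Y) else 0, fun s => by
    beta_reduce
    by_cases h : s.card = i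
    · rw [dif_pos h]
      exact ⟨(g ⟨s, h⟩).2, fun hn => absurd h hn⟩
    · rw [dif_neg h]
      exact ⟨Submodule.zero_mem _, fun _ => rfl⟩⟩
  left_inv f := Subtype.ext (funext fun s => by
    by_cases h : s.card = i
    · exact dif_pos h
    · exact (dif_neg h).trans ((f.2 s).2 h).symm)
  right_inv g := funext fun s => Subtype.ext (dif_pos s.2)
  map_add' f g := rfl
  map_smul' c f := rfl

/-- the dimension of the space of chains -/
theorem finrank_Ch [Finite Y] (A : Finset V → Submodule F2 Y) (i : ℕ) :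
    Module.finrank F2 (Ch A i) = ∑ s ∈ (univ : Finset (Finset V)).filter (fun s => s.card = i),
      Module.finrank F2 (A s) := by
  rw [(SysB_equiv A i).finrank_eq, Module.finrank_pi_fintype]
  exact (sum_subtype _ (fun s => by simp) fun s => Module.finrank F2 (A s)).symm

end Pool.Agent.H73.GC
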