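import Pool.Agent.H73.GC.Dbl
import Pool.Agent.H73.GC.SysA
import Pool.Agent.H73.GC.SysB
import Pool.Agent.H73.GC.Bit

/-!
# Growth calculus: cones

The module `Y × Y` with `dbl r v 1`. `hd_coef` with `lam (a, b) = a + b`: the intersection with the kernel is the
image under `y ↦ (y, y)` of the system `A s = Sy (Cq G U) r (s - v)` of a cone, which is acyclic
(a cycle `z` is the boundary of the chain `s ↦ z (s - v)` if `v ∈ s`, otherwise `0`), and the image is
`Sy (Cq G U) r`.
-/

set_option autoImplicit false
set_option linter.unusedSectionVars false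

open Finset

namespace Pool.Agent.H73.GC

variable {V : Type} [DecidableEq V] [Fintype V]

private theorem Cone_add_self {Y : Type} [AddCommGroup Y] [Module F2 Y] (y : Y) : y + y = 0 :=
  ZModModule.add_self y

private theorem Cone_cq {G : SimpleGraph V} {U : Finset V} {v : V} (hv : v ∉ U)
    (h : ∀ w ∈ U, G.Adj v w) (s : Finset V) :
    Cq G (insert v U) s ↔ Cq G U (s.erase v) := by
  constructor
  · rintro ⟨h1, h2⟩
    refine ⟨?_, ?_⟩
    · intro a ha b hb hab
      have ha' := Finset.mem_of_mem_erase (Finset.mem_coe.mp ha)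
      have hb' := Finset.mem_of_mem_erase (Finset.mem_coe.mp hb)
      exact h1 ha' hb' hab
    · intro a ha
      have ha' := h2 (Finset.mem_of_mem_erase ha)
      rcases Finset.mem_insert.mp ha' with h3 | h3
      · exact absurd h3 (Finset.ne_of_mem_erase ha)
      · exact h3
  · rintro ⟨h1, h2⟩
    refine ⟨?_, ?_⟩
    · intro a ha b hb hab
      have ha' := Finset.mem_coe.mp ha
      have hb' := Finset.mem_coe.mp hb
      by_cases hav : a = v
      · subst hav
        have hb3 : b ∈ s.erase a := Finset.mem_erase.mpr ⟨fun e => hab e.symm, hb'⟩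
        exact h b (h2 hb3)
      · by_cases hbv : b = v
        · subst hbv
          have ha3 : a ∈ s.erase b := Finset.mem_erase.mpr ⟨hab, ha'⟩
          exact (h a (h2 ha3)).symm
        · exact h1 (Finset.mem_coe.mpr (Finset.mem_erase.mpr ⟨hav, ha'⟩))
            (Finset.mem_coe.mpr (Finset.mem_erase.mpr ⟨hbv, hb'⟩)) hab
    · intro a ha
      by_cases hav : a = v
      · rw [hav]
        exact Finset.mem_insert_self _ _
      · exact Finset.mem_insert_of_mem (h2 (Finset.mem_erase.mpr ⟨hav, ha⟩))

/-- the chain whose boundary is a given cycle -/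
private def Cone_c {Y : Type} [AddCommGroup Y] (v : V) (z : Finset V → Y) (s : Finset V) : Y :=
  if v ∈ s then z (s.erase v) else 0

private theorem Cone_dd {Y : Type} [AddCommGroup Y] [Module F2 Y] (v : V) (z : Finset V → Y)
    (hz : dd z = 0) : dd (Cone_c v z) = z := by
  funext s
  rw [dd_apply]
  by_cases hs : v ∈ s
  · have h1 : dd z (s.erase v) = 0 := by rw [hz]; rfl
    rw [dd_apply] at h1
    have h2 : (s.erase v)ᶜ = insert v sᶜ := by
      ext w
      simp only [Finset.mem_compl, Finset.mem_erase, Finset.mem_insert]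
      tauto
    rw [h2, Finset.sum_insert (by simp [hs]), Finset.insert_erase hs] at h1
    have h3 : ∑ w ∈ sᶜ, Cone_c v z (insert w s) = ∑ w ∈ sᶜ, z (insert w (s.erase v)) := by
      refine Finset.sum_congr rfl fun w hw => ?_
      have hw' := Finset.mem_compl.mp hw
      have hwv : w ≠ v := fun e => hw' (e ▸ hs)
      unfold Cone_c
      rw [if_pos (Finset.mem_insert_of_mem hs), Finset.erase_insert_of_ne hwv]
    rw [h3]
    have h4 := Cone_add_self (z s)
    have h5 : z s + ∑ w ∈ sᶜ, z (insert w (s.erase v)) = z s + z s := by rw [h1, h4]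
    exact add_left_cancel h5
  · rw [Finset.sum_eq_single_of_mem v (Finset.mem_compl.mpr hs)]
    · unfold Cone_c
      rw [if_pos (Finset.mem_insert_self _ _), Finset.erase_insert hs]
    · intro w _ hwv
      unfold Cone_c
      rw [if_neg]
      intro hm
      rcases Finset.mem_insert.mp hm with h1 | h1
      · exact hwv h1.symm
      · exact hs h1

private theorem Cone_hd {Y : Type} [AddCommGroup Y] [Module F2 Y] [Finite Y] (v : V)
    (S : Finset V → Submodule F2 Y) (i : ℕ) : hd (fun s => S (s.erase v)) i ≤ 0 := by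
  unfold hd hx
  have hle : (Ch (fun s => S (s.erase v)) i ⊓ LinearMap.ker dd : Submodule F2 (Finset V → Y)) ≤
      (Ch (fun s => S (s.erase v)) (i + 1)).map dd := by
    intro z hz
    obtain ⟨hz1, hz2⟩ := Submodule.mem_inf.mp hz
    have hz3 : dd z = 0 := LinearMap.mem_ker.mp hz2
    refine Submodule.mem_map.mpr ⟨Cone_c v z, ?_, Cone_dd v z hz3⟩
    rw [mem_Ch] at hz1 ⊢
    intro s
    unfold Cone_c
    by_cases hs : v ∈ s
    · rw [if_pos hs]
      refine ⟨?_, fun hc => ?_⟩
      · have := (hz1 (s.erase v)).1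
        rw [Finset.erase_idem] at this
        exact this
      · refine (hz1 (s.erase v)).2 ?_
        rw [Finset.card_erase_of_mem hs]
        have : 0 < s.card := Finset.card_pos.mpr ⟨v, hs⟩
        omega
    · rw [if_neg hs]
      exact ⟨Submodule.zero_mem _, fun _ => rfl⟩
  have := Submodule.finrank_mono hle
  omega

theorem gz_cone {G : SimpleGraph V} {U : Finset V} {v : V} (hv : v ∉ U)
    (h : ∀ w ∈ U, G.Adj v w) {i : ℕ} (hz : GZ G U i) : GZ G (insert v U) i := by
  intro ε hε
  obtain ⟨Y, iY1, iY2, iY3, r, E, hN, hB, hpos, hle⟩ := hz ε hε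
  have hUe : (insert v U).erase v = U := Finset.erase_insert hv
  have hN' : IsN G (insert v U) (dbl r v 1) :=
    isN_dbl (G := G) (H := G) (U := insert v U) (x := v) (by rw [hUe]; exact hN)
      (fun a _ b _ hab => hab) 1 (Or.inl rfl)
  have hB' : IsBit G (insert v U) (dbl r v 1) (dblE E v v false) :=
    isBit_dbl_one (by rw [hUe]; exact hN) (by rw [hUe]; exact hB)
  have hfr : Module.finrank F2 (Y × Y) = Module.finrank F2 Y + Module.finrank F2 Y :=
    Module.finrank_prod
  refine ⟨Y × Y, inferInstance, inferInstance, inferInstance, dbl r v 1, dblE E v v false, hN', hB',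
    by omega, ?_⟩
  -- the two maps
  let lam : Y × Y →ₗ[F2] Y := LinearMap.fst F2 Y Y + LinearMap.snd F2 Y Y
  let j : Y →ₗ[F2] Y × Y := LinearMap.prod LinearMap.id LinearMap.id
  have hlam : ∀ y : Y × Y, lam y = y.1 + y.2 := fun _ => rfl
  have hj : ∀ y : Y, j y = (y, y) := fun _ => rfl
  have hjinj : Function.Injective j := by
    intro a b hab
    rw [hj, hj] at hab
    exact congrArg Prod.fst hab
  have hmono : Mono (Sy (Cq G (insert v U)) (dbl r v 1)) := mono_Sy (mono_Cq G (insert v U)) _
  have h1 := hd_coef hmono lam i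
  have e1 : (fun s => Sy (Cq G (insert v U)) (dbl r v 1) s ⊓ LinearMap.ker lam) =
      fun s => (Sy (Cq G U) r (s.erase v)).map j := by
    funext s
    ext y
    rw [Submodule.mem_inf, LinearMap.mem_ker, hlam, mem_Sy, Submodule.mem_map]
    constructor
    · rintro ⟨⟨h2, h3⟩, h4⟩
      have h5 : y.1 = y.2 := by
        have h6 := Cone_add_self y.2
        have h7 : y.1 + y.2 = y.2 + y.2 := by rw [h4, h6]
        exact add_right_cancel h7
      refine ⟨y.1, ?_, ?_⟩
      · rw [mem_Sy]
        refine ⟨fun hc => ?_, fun w hw => ?_⟩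
        · rw [h2 (fun hc' => hc ((Cone_cq hv h s).mp hc'))]
          rfl
        · have h8 := h3 w (Finset.mem_of_mem_erase hw)
          rw [dbl_ne r (Finset.ne_of_mem_erase hw)] at h8
          exact congrArg Prod.fst h8
      · rw [hj]
        exact Prod.ext rfl h5
    · rintro ⟨a, ha, rfl⟩
      rw [mem_Sy] at ha
      rw [hj]
      refine ⟨⟨fun hc => ?_, fun w hw => ?_⟩, Cone_add_self a⟩
      · rw [ha.1 (fun hc' => hc ((Cone_cq hv h s).mpr hc'))]
        rfl
      · by_cases hwv : w = v
        · rw [hwv, dbl_self]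
          rfl
        · rw [dbl_ne r hwv, ha.2 w (Finset.mem_erase.mpr ⟨hwv, hw⟩)]
  have e2 : (fun s => (Sy (Cq G (insert v U)) (dbl r v 1) s).map lam) = Sy (Cq G U) r := by
    funext s
    ext y
    rw [Submodule.mem_map, mem_Sy]
    constructor
    · rintro ⟨a, ha, rfl⟩
      rw [mem_Sy] at ha
      rw [hlam]
      by_cases hs : v ∈ s
      · have h3 := ha.2 v hs
        rw [dbl_self] at h3
        have h4 : a.2 = a.1 := congrArg Prod.fst h3
        rw [h4, Cone_add_self]
        exact ⟨fun _ => rfl, fun w _ => map_zero _⟩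
      · refine ⟨fun hc => ?_, fun w hw => ?_⟩
        · rw [ha.1 (fun hc' => hc (by
            have := (Cone_cq hv h s).mp hc'
            rwa [Finset.erase_eq_of_notMem hs] at this))]
          exact add_zero _
        · have hwv : w ≠ v := fun e => hs (e ▸ hw)
          have h3 := ha.2 w hw
          rw [dbl_ne r hwv] at h3
          have h4 : r w a.1 = a.1 := congrArg Prod.fst h3
          have h5 : r w a.2 = a.2 := congrArg Prod.snd h3
          rw [map_add, h4, h5]
    · rintro ⟨h3, h4⟩
      by_cases hc : Cq G U s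
      · have hs : v ∉ s := fun hm => hv (hc.2 hm)
        refine ⟨(y, 0), ?_, ?_⟩
        · rw [mem_Sy]
          refine ⟨fun hc' => absurd ((Cone_cq hv h s).mpr (by
            rwa [Finset.erase_eq_of_notMem hs])) hc', fun w hw => ?_⟩
          have hwv : w ≠ v := fun e => hs (e ▸ hw)
          rw [dbl_ne r hwv]
          exact Prod.ext (h4 w hw) (map_zero _)
        · rw [hlam]
          exact add_zero _
      · refine ⟨0, Submodule.zero_mem _, ?_⟩
        rw [map_zero, h3 hc]
  rw [e1, e2, hd_map _ j hjinj] at h1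
  have h2 := Cone_hd v (Sy (Cq G U) r) i
  have h3 : hX (Cq G (insert v U)) (dbl r v 1) i ≤ hX (Cq G U) r i := by
    unfold hX
    linarith
  have h4 : (hX (Cq G (insert v U)) (dbl r v 1) i : ℝ) ≤ (hX (Cq G U) r i : ℝ) := by
    exact_mod_cast h3
  have h5 : (0 : ℝ) ≤ ε * Module.finrank F2 Y := by positivity
  rw [hfr]
  push_cast
  linarith

end Pool.Agent.H73.GC
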