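import Pool.Agent.H73.GC.Prod

/-!
# Growth calculus: the product lemma with the other factor, two conditions at once
-/

set_option autoImplicit false
set_option linter.unusedSectionVars false

open Finset

namespace Pool.Agent.H73.GC

variable {V : Type} [DecidableEq V] [Fintype V]

/-- `prod_le` and `TensorProduct.comm` -/
theorem prod_le' {Y₁ Y₂ : Type} [AddCommGroup Y₁] [Module F2 Y₁] [AddCommGroup Y₂] [Module F2 Y₂]
    [Finite Y₁] [Finite Y₂] {G : SimpleGraph V} {U : Finset V} {r₁ : V → Module.End F2 Y₁}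
    {r₂ E₂ : V → Module.End F2 Y₂} (h₁ : IsN G U r₁) (h₂ : IsN G U r₂) (hb : IsBit G U r₂ E₂)
    {X : Finset V → Prop} (hc : ∀ s, X s → Cq G U s) (hm : ∀ s v, X (insert v s) → X s) (i : ℕ) :
    hX X (tens r₁ r₂) i ≤
      Module.finrank F2 Y₁ * hX X r₂ i := by
  have : Finite (TensorProduct F2 Y₁ Y₂) := finite_tens
  have : Finite (TensorProduct F2 Y₂ Y₁) := finite_tens
  have h3 : hX X (tens r₁ r₂) i = hX X (tens r₂ r₁) i := by
    refine hX_equiv (TensorProduct.comm F2 Y₁ Y₂) (fun s _ v _ y => ?_) i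
    have h4 : (TensorProduct.comm F2 Y₁ Y₂).toLinearMap ∘ₗ tens r₁ r₂ v =
        tens r₂ r₁ v ∘ₗ (TensorProduct.comm F2 Y₁ Y₂).toLinearMap := by
      refine TensorProduct.ext' fun a b => ?_
      simp [tens]
    exact LinearMap.congr_fun h4 y
  rw [h3]
  exact prod_le h₂ hb h₁ hc hm i

private theorem Prod2_self {Y : Type} [AddCommGroup Y] [Module F2 Y] (y : Y) : y + y = 0 := by
  have h : (2 : F2) • y = y + y := two_smul F2 y
  have h2 : (2 : F2) = 0 := by decide
  rw [← h, h2, zero_smul]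

private theorem Prod2_mono {Y : Type} [AddCommGroup Y] [Module F2 Y] {G : SimpleGraph V}
    {U U' : Finset V} (hU : U' ⊆ U) {r : V → Module.End F2 Y} (h : IsN G U r) : IsN G U' r := by
  refine ⟨fun v hv => h.sq v (hU hv), fun u hu v hv => h.comm u (hU hu) v (hU hv), ?_⟩
  obtain ⟨n, F, hF, h0, hn, hr⟩ := h.fil
  exact ⟨n, F, hF, h0, hn, fun j v hv => hr j v (hU hv)⟩

/-- the operators `r v`, `v ∉ U'`, are replaced by `1` -/
private theorem Prod2_ext {Y : Type} [AddCommGroup Y] [Module F2 Y] {G : SimpleGraph V}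
    {U U' : Finset V} {r : V → Module.End F2 Y} (h : IsN G U' r) :
    IsN G U (fun v => if v ∈ U' then r v else 1) := by
  refine ⟨?_, ?_, ?_⟩
  · intro v _ y
    by_cases hv : v ∈ U'
    · simp only [if_pos hv]
      exact h.sq v hv y
    · simp only [if_neg hv]
      rfl
  · intro u _ v _ huv y
    by_cases hv : v ∈ U'
    · by_cases hu : u ∈ U'
      · simp only [if_pos hv, if_pos hu]
        exact h.comm u hu v hv huv y
      · simp only [if_pos hv, if_neg hu]
        rfl
    · simp only [if_neg hv]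
      rfl
  · obtain ⟨n, F, hF, h0, hn, hr⟩ := h.fil
    refine ⟨n, F, hF, h0, hn, fun j v _ y hy => ?_⟩
    by_cases hv : v ∈ U'
    · simp only [if_pos hv]
      exact hr j v hv y hy
    · simp only [if_neg hv]
      rw [Module.End.one_apply, Prod2_self]
      exact Submodule.zero_mem _

/-- Two conditions at once: the tensor product of a module for `U` and a module for `U'`, on which the
`r v`, `v ∉ U'`, are replaced by `1`. -/
theorem gz_two {G : SimpleGraph V} {U U' : Finset V} (hU : U' ⊆ U) {i j : ℕ} (h : GZ G U i)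
    (h' : GZ G U' j) (ε : ℝ) (hε : 0 < ε) :
    ∃ (Y : Type) (_ : AddCommGroup Y) (_ : Module F2 Y) (_ : Finite Y)
      (r E : V → Module.End F2 Y), IsN G U r ∧ IsBit G U r E ∧ 0 < Module.finrank F2 Y ∧
        (hX (Cq G U) r i : ℝ) ≤ ε * Module.finrank F2 Y ∧
        (hX (Cq G U') r j : ℝ) ≤ ε * Module.finrank F2 Y := by
  obtain ⟨Y₁, _, _, _, r₁, E₁, hN₁, hB₁, hp₁, hX₁⟩ := h ε hε
  obtain ⟨Y₂, _, _, _, r₂, E₂, hN₂, hB₂, hp₂, hX₂⟩ := h' ε hε
  set q : V → Module.End F2 Y₂ := fun v => if v ∈ U' then r₂ v else 1 with hq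
  have hNq : IsN G U q := Prod2_ext hN₂
  have hNq' : IsN G U' q := Prod2_ext hN₂
  have hBq : IsBit G U' q E₂ := by
    refine ⟨hB₂.idem, ?_, ?_, hB₂.ee⟩
    · intro v hv y
      simp only [hq, if_pos hv]
      exact hB₂.bit v hv y
    · intro u hu v hv huv y
      simp only [hq, if_pos hv]
      exact hB₂.er u hu v hv huv y
  have hf : Module.finrank F2 (TensorProduct F2 Y₁ Y₂) =
      Module.finrank F2 Y₁ * Module.finrank F2 Y₂ := Module.finrank_tensorProduct
  refine ⟨TensorProduct F2 Y₁ Y₂, inferInstance, inferInstance, finite_tens, tens r₁ q,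
    fun v => TensorProduct.map (E₁ v) LinearMap.id, isN_tens hN₁ hNq, isBit_tens_left hB₁,
    by rw [hf]; exact Nat.mul_pos hp₁ hp₂, ?_, ?_⟩
  · have h3 := prod_le hN₁ hB₁ hNq (X := Cq G U) (fun s hs => hs) (mono_Cq G U) i
    have h4 : (hX (Cq G U) (tens r₁ q) i : ℝ) ≤
        Module.finrank F2 Y₂ * (hX (Cq G U) r₁ i : ℝ) := by exact_mod_cast h3
    rw [hf]
    push_cast
    have h5 : (Module.finrank F2 Y₂ : ℝ) * (hX (Cq G U) r₁ i : ℝ) ≤
        Module.finrank F2 Y₂ * (ε * Module.finrank F2 Y₁) :=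
      mul_le_mul_of_nonneg_left hX₁ (Nat.cast_nonneg _)
    linarith
  · have h3 := prod_le' (Prod2_mono hU hN₁) hNq' hBq (X := Cq G U') (fun s hs => hs)
      (mono_Cq G U') j
    have h6 : hX (Cq G U') q j = hX (Cq G U') r₂ j := by
      refine hX_congr (fun s => Iff.rfl) (fun s hs v hv y => ?_) j
      simp only [hq, if_pos (hs.2 hv)]
    rw [h6] at h3
    have h4 : (hX (Cq G U') (tens r₁ q) j : ℝ) ≤
        Module.finrank F2 Y₁ * (hX (Cq G U') r₂ j : ℝ) := by exact_mod_cast h3
    rw [hf]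
    push_cast
    have h5 : (Module.finrank F2 Y₁ : ℝ) * (hX (Cq G U') r₂ j : ℝ) ≤
        Module.finrank F2 Y₁ * (ε * Module.finrank F2 Y₂) :=
      mul_le_mul_of_nonneg_left hX₂ (Nat.cast_nonneg _)
    linarith

/-- Only the edges between vertices in `U` matter. -/
theorem gz_congr {G G' : SimpleGraph V} {U : Finset V} (h : ∀ a ∈ U, ∀ b ∈ U, G.Adj a b ↔ G'.Adj a b)
    {i : ℕ} (hz : GZ G U i) : GZ G' U i := by
  intro ε hε
  obtain ⟨Y, _, _, _, r, E, hN, hB, hp, hXi⟩ := hz ε hε
  refine ⟨Y, inferInstance, inferInstance, inferInstance, r, E, ⟨hN.sq, ?_, hN.fil⟩,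
    ⟨hB.idem, hB.bit, ?_, ?_⟩, hp, ?_⟩
  · exact fun u hu v hv huv => hN.comm u hu v hv ((h u hu v hv).2 huv)
  · exact fun u hu v hv huv => hB.er u hu v hv ((h u hu v hv).2 huv)
  · exact fun u hu v hv huv => hB.ee u hu v hv ((h u hu v hv).2 huv)
  · have h3 : hX (Cq G' U) r i = hX (Cq G U) r i := by
      refine hX_congr (fun s => ?_) (fun s _ v _ y => rfl) i
      constructor
      · rintro ⟨h4, h5⟩
        exact ⟨fun a ha b hb hab => (h a (h5 ha) b (h5 hb)).2 (h4 ha hb hab), h5⟩
      · rintro ⟨h4, h5⟩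
        exact ⟨fun a ha b hb hab => (h a (h5 ha) b (h5 hb)).1 (h4 ha hb hab), h5⟩
    rw [h3]
    exact hXi

/-- the functions on the cube: the operators -/
private def Prod2_r (v : V) : Module.End F2 ((V → ZMod 2) → F2) where
  toFun f x := f (x + Pi.single v 1)
  map_add' _ _ := rfl
  map_smul' _ _ := rfl

/-- the functions on the cube: the projections -/
private def Prod2_E (v : V) : Module.End F2 ((V → ZMod 2) → F2) where
  toFun f x := if x v = 0 then f x else 0
  map_add' f g := by
    funext x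
    by_cases h : x v = 0
    · simp only [if_pos h, Pi.add_apply]
    · simp only [if_neg h, Pi.add_apply, add_zero]
  map_smul' c f := by
    funext x
    by_cases h : x v = 0
    · simp only [if_pos h, Pi.smul_apply, RingHom.id_apply]
    · simp only [if_neg h, Pi.smul_apply, RingHom.id_apply, smul_zero]

private theorem Prod2_r_apply (v : V) (f : (V → ZMod 2) → F2) (x : V → ZMod 2) :
    Prod2_r v f x = f (x + Pi.single v 1) := rfl

private theorem Prod2_E_apply (v : V) (f : (V → ZMod 2) → F2) (x : V → ZMod 2) :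
    Prod2_E v f x = if x v = 0 then f x else 0 := rfl

/-- the functions on the cube: the group -/
private def Prod2_rho : Multiplicative (V → ZMod 2) →* Module.End F2 ((V → ZMod 2) → F2) where
  toFun p :=
    { toFun := fun f x => f (x + Multiplicative.toAdd p)
      map_add' := fun _ _ => rfl
      map_smul' := fun _ _ => rfl }
  map_one' := by
    refine LinearMap.ext fun f => ?_
    funext x
    change f (x + 0) = f x
    rw [add_zero]
  map_mul' p q := by
    refine LinearMap.ext fun f => ?_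
    funext x
    change f (x + (Multiplicative.toAdd p + Multiplicative.toAdd q)) =
      f (x + Multiplicative.toAdd p + Multiplicative.toAdd q)
    rw [add_assoc]

private theorem Prod2_isN (G : SimpleGraph V) (U : Finset V) : IsN G U (Prod2_r (V := V)) := by
  refine ⟨?_, ?_, ?_⟩
  · intro v _ f
    funext x
    rw [Prod2_r_apply, Prod2_r_apply, add_assoc, Prod2_self, add_zero]
  · intro u _ v _ _ f
    funext x
    rw [Prod2_r_apply, Prod2_r_apply, Prod2_r_apply, Prod2_r_apply, add_right_comm]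
  · refine fil_group (P := Multiplicative (V → ZMod 2)) ?_ Prod2_rho U Prod2_r
      (fun v => Multiplicative.ofAdd (Pi.single v 1)) (fun v _ => rfl)
    intro p
    refine ⟨1, ?_⟩
    change Multiplicative.ofAdd ((2 ^ 1) • Multiplicative.toAdd p) = 1
    rw [pow_one, two_nsmul, Prod2_self]
    rfl

private theorem Prod2_isBit (G : SimpleGraph V) (U : Finset V) :
    IsBit G U (Prod2_r (V := V)) Prod2_E := by
  refine ⟨?_, ?_, ?_, ?_⟩
  · intro v _ f
    funext x
    rw [Prod2_E_apply, Prod2_E_apply]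
    by_cases h : x v = 0
    · simp only [if_pos h]
    · simp only [if_neg h]
  · intro v _ f
    funext x
    rw [Pi.add_apply, Prod2_E_apply, Prod2_r_apply, Prod2_r_apply, Prod2_E_apply,
      Pi.add_apply, Pi.single_eq_same]
    have h2 : ∀ a : ZMod 2, (a = 0 ∧ a + 1 ≠ 0) ∨ (a ≠ 0 ∧ a + 1 = 0) := by decide
    rcases h2 (x v) with ⟨h3, h4⟩ | ⟨h3, h4⟩
    · rw [if_pos h3, if_neg h4, add_zero]
    · rw [if_neg h3, if_pos h4, zero_add]
  · intro u _ v _ huv f
    funext x
    rw [Prod2_E_apply, Prod2_r_apply, Prod2_r_apply, Prod2_E_apply, Pi.add_apply,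
      Pi.single_eq_of_ne huv.ne, add_zero]
  · intro u _ v _ huv f
    funext x
    rw [Prod2_E_apply, Prod2_E_apply, Prod2_E_apply, Prod2_E_apply]
    by_cases h : x u = 0
    · by_cases h' : x v = 0
      · simp only [if_pos h, if_pos h']
      · simp only [if_pos h, if_neg h']
    · by_cases h' : x v = 0
      · simp only [if_neg h, if_pos h']
      · simp only [if_neg h, if_neg h']

/-- There are no cliques with `i` vertices. (Module: the functions on the cube `V → ZMod 2`.) -/
theorem gz_high {G : SimpleGraph V} {U : Finset V} {i : ℕ}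
    (h : ∀ s, Cq G U s → s.card ≠ i) : GZ G U i := by
  intro ε hε
  have hp : 0 < Module.finrank F2 ((V → ZMod 2) → F2) := by
    have : Module.Finite F2 ((V → ZMod 2) → F2) := Module.Finite.of_finite
    exact Module.finrank_pos
  refine ⟨(V → ZMod 2) → F2, inferInstance, inferInstance, inferInstance, Prod2_r, Prod2_E,
    Prod2_isN G U, Prod2_isBit G U, hp, ?_⟩
  have h3 : Ch (Sy (Cq G U) (Prod2_r (V := V))) i = ⊥ := by
    rw [eq_bot_iff]
    intro f hf
    rw [Submodule.mem_bot]
    funext s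
    by_cases hs : s.card = i
    · exact ((mem_Sy.1 (hf s).1).1 fun hc => h s hc hs)
    · exact (hf s).2 hs
  have h4 : hX (Cq G U) (Prod2_r (V := V)) i ≤ 0 := by
    unfold hX hd hx
    rw [h3, bot_inf_eq, finrank_bot]
    simp
  have h5 : (hX (Cq G U) (Prod2_r (V := V)) i : ℝ) ≤ 0 := by exact_mod_cast h4
  exact h5.trans (mul_nonneg hε.le (Nat.cast_nonneg _))

end Pool.Agent.H73.GC
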