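import Pool.Agent.H73.GC.Glue7
import Pool.Agent.H73.GC.Prod2

/-!
# Growth calculus: gluing

The vertex set is `A ∪ B`, and there are no edges between `A \ B` and `B \ A`. The pieces are the flag complex on
`A` with a cone over `A ∩ B` (the cone vertex is `c`) and the flag complex on `B` with a cone over `A ∩ B` (the
cone vertex is `c'`).
-/

set_option autoImplicit false
set_option linter.unusedSectionVars false

open Finset

namespace Pool.Agent.H73.GC

variable {V : Type} [DecidableEq V] [Fintype V]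

/-- If the growth vanishes in degree `i` for the two pieces, then it vanishes for the whole complex. The vertex
`c` may be an element of `B`, and `c'` an element of `A`. -/
theorem gz_glue {G G₁ G₂ : SimpleGraph V} {A B : Finset V} {c c' : V} (hcA : c ∉ A) (hcB : c' ∉ B)
    (hno : ∀ a ∈ A, a ∉ B → ∀ b ∈ B, b ∉ A → ¬ G.Adj a b)
    (h1 : ∀ a ∈ A, ∀ b ∈ A, G₁.Adj a b ↔ G.Adj a b) (hc1 : ∀ a ∈ A, G₁.Adj c a ↔ a ∈ B)
    (h2 : ∀ a ∈ B, ∀ b ∈ B, G₂.Adj a b ↔ G.Adj a b) (hc2 : ∀ a ∈ B, G₂.Adj c' a ↔ a ∈ A)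
    {i : ℕ} (hz1 : GZ G₁ (insert c A) i) (hz2 : GZ G₂ (insert c' B) i) : GZ G (A ∪ B) i := by
  intro ε hε
  obtain ⟨Y₁, i1, i2, i3, r₁, E₁, hN₁, hB₁, hd₁, hb₁⟩ := hz1 (ε / 4) (by linarith)
  obtain ⟨Y₂, j1, j2, j3, r₂, E₂, hN₂, hB₂, hd₂, hb₂⟩ := hz2 (ε / 4) (by linarith)
  have hfY : Finite (TensorProduct F2 Y₁ Y₂) := finite_tens
  -- the pieces
  have H1 : GHalf G₁ G A (A ∩ B) c := by
    refine ⟨hcA, inter_subset_left, h1, fun a ha => ?_⟩
    rw [hc1 a ha, mem_inter]
    exact ⟨fun h => ⟨ha, h⟩, fun h => h.2⟩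
  have H2 : GHalf G₂ G B (A ∩ B) c' := by
    refine ⟨hcB, inter_subset_right, h2, fun a ha => ?_⟩
    rw [hc2 a ha, mem_inter]
    exact ⟨fun h => ⟨h, ha⟩, fun h => h.1⟩
  -- the operators
  obtain ⟨r, hr⟩ : ∃ r : V → Module.End F2 (TensorProduct F2 Y₁ Y₂),
      r = tens (gon A r₁) (gon B r₂) := ⟨_, rfl⟩
  have hrv : ∀ v, r v = TensorProduct.map (gon A r₁ v) (gon B r₂ v) := fun v => by rw [hr]; rfl
  obtain ⟨ρ, hρ⟩ : ∃ ρ : Module.End F2 (TensorProduct F2 Y₁ Y₂),
      ρ = TensorProduct.map (r₁ c) (r₂ c') := ⟨_, rfl⟩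
  obtain ⟨θ, hθ⟩ : ∃ θ : Module.End F2 (TensorProduct F2 Y₁ Y₂),
      θ = TensorProduct.map (E₁ c) LinearMap.id := ⟨_, rfl⟩
  obtain ⟨E, hE⟩ : ∃ E : V → Module.End F2 (TensorProduct F2 Y₁ Y₂),
      ∀ v, E v = if v ∈ A then TensorProduct.map (E₁ v) LinearMap.id
        else TensorProduct.map LinearMap.id (E₂ v) := ⟨_, fun _ => rfl⟩
  have hc : c ∈ insert c A := mem_insert_self c A
  have hc' : c' ∈ insert c' B := mem_insert_self c' B
  have hA : ∀ v ∈ A, v ∈ insert c A := fun v hv => mem_insert_of_mem hv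
  have hB : ∀ v ∈ B, v ∈ insert c' B := fun v hv => mem_insert_of_mem hv
  have hρρ : ∀ y, ρ (ρ y) = y := by
    intro y
    rw [hρ]
    exact tsq (hN₁.sq c hc) (hN₂.sq c' hc') y
  have hθρ : ∀ y, θ (ρ y) + ρ (θ y) = ρ y := by
    intro y
    rw [hρ, hθ]
    exact tbit_left (hB₁.bit c hc) y
  have hρr : ∀ v ∈ A ∩ B, ∀ y, ρ (r v y) = r v (ρ y) := by
    intro v hv y
    have hv' := mem_inter.1 hv
    rw [hρ, hrv, gon_mem hv'.1, gon_mem hv'.2]
    exact tcomm (hN₁.comm c hc v (hA v hv'.1) ((hc1 v hv'.1).2 hv'.2))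
      (hN₂.comm c' hc' v (hB v hv'.2) ((hc2 v hv'.2).2 hv'.1)) y
  have hθr : ∀ v ∈ A ∩ B, ∀ y, θ (r v y) = r v (θ y) := by
    intro v hv y
    have hv' := mem_inter.1 hv
    rw [hθ, hrv, gon_mem hv'.1, gon_mem hv'.2]
    exact tcomm (hB₁.er c hc v (hA v hv'.1) ((hc1 v hv'.1).2 hv'.2)) (by intro x; rfl) y
  have hρE : ∀ v ∈ A ∩ B, ∀ y, ρ (E v y) = E v (ρ y) := by
    intro v hv y
    have hv' := mem_inter.1 hv
    rw [hρ, hE, if_pos hv'.1]
    exact tcomm (fun x => (hB₁.er v (hA v hv'.1) c hc ((hc1 v hv'.1).2 hv'.2).symm x).symm)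
      (by intro x; rfl) y
  -- the module for the whole complex
  have hNr : IsN G (A ∪ B) r := by
    refine ⟨fun v _ y => ?_, fun u _ v _ huv y => ?_, ?_⟩
    · rw [hrv]
      exact tsq (gon_sq hN₁ v) (gon_sq hN₂ v) y
    · rw [hrv, hrv]
      exact tcomm (gon_comm h1 hN₁ u v huv) (gon_comm h2 hN₂ u v huv) y
    · obtain ⟨m, F, hF, h0, hm, hq⟩ := fil_tens (gon_fil hN₁.fil) (gon_fil hN₂.fil)
      exact ⟨m, F, hF, h0, hm, fun j v _ y hy => by
        rw [hrv]
        exact hq j (some v) (mem_univ _) y hy⟩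
  have hfil : Fil (univ : Finset (Option V)) (fun o => o.elim ρ r) := by
    obtain ⟨m, F, hF, h0, hm, hq⟩ := fil_tens (gon_fil hN₁.fil) (gon_fil hN₂.fil)
    refine ⟨m, F, hF, h0, hm, fun j o _ y hy => ?_⟩
    have h3 := hq j o (mem_univ _) y hy
    cases o with
    | none =>
      change y + ρ y ∈ F j
      rw [hρ]
      exact h3
    | some v =>
      change y + r v y ∈ F j
      rw [hrv]
      exact h3
  have hBE : IsBit G (A ∪ B) r E := by
    have hr1 : ∀ u ∈ A, ∀ v, G.Adj u v → ∀ x, E₁ u (gon A r₁ v x) = gon A r₁ v (E₁ u x) := by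
      intro u hu v huv x
      by_cases hv : v ∈ A
      · rw [gon_mem hv]
        exact hB₁.er u (hA u hu) v (hA v hv) ((h1 u hu v hv).2 huv) x
      · rw [gon_not hv]
        rfl
    have hr2 : ∀ u ∈ B, ∀ v, G.Adj u v → ∀ x, E₂ u (gon B r₂ v x) = gon B r₂ v (E₂ u x) := by
      intro u hu v huv x
      by_cases hv : v ∈ B
      · rw [gon_mem hv]
        exact hB₂.er u (hB u hu) v (hB v hv) ((h2 u hu v hv).2 huv) x
      · rw [gon_not hv]
        rfl
    refine ⟨fun v hv y => ?_, fun v hv y => ?_, fun u hu v hv huv y => ?_,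
      fun u hu v hv huv y => ?_⟩
    · rw [hE]
      by_cases hvA : v ∈ A
      · rw [if_pos hvA]
        exact tidem (hB₁.idem v (hA v hvA)) (by intro x; rfl) y
      · rw [if_neg hvA]
        exact tidem (by intro x; rfl) (hB₂.idem v (hB v ((mem_union.1 hv).resolve_left hvA))) y
    · rw [hE, hrv]
      by_cases hvA : v ∈ A
      · rw [if_pos hvA, gon_mem hvA]
        exact tbit_left (hB₁.bit v (hA v hvA)) y
      · have hvB := (mem_union.1 hv).resolve_left hvA
        rw [if_neg hvA, gon_mem hvB]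
        exact tbit_right (hB₂.bit v (hB v hvB)) y
    · rw [hE, hrv]
      by_cases huA : u ∈ A
      · rw [if_pos huA]
        exact tcomm (hr1 u huA v huv) (by intro x; rfl) y
      · rw [if_neg huA]
        exact tcomm (by intro x; rfl) (hr2 u ((mem_union.1 hu).resolve_left huA) v huv) y
    · rw [hE, hE]
      by_cases huA : u ∈ A
      · by_cases hvA : v ∈ A
        · rw [if_pos huA, if_pos hvA]
          exact tcomm (hB₁.ee u (hA u huA) v (hA v hvA) ((h1 u huA v hvA).2 huv))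
            (by intro x; rfl) y
        · rw [if_pos huA, if_neg hvA]
          exact tcomm (by intro x; rfl) (by intro x; rfl) y
      · by_cases hvA : v ∈ A
        · rw [if_neg huA, if_pos hvA]
          exact tcomm (by intro x; rfl) (by intro x; rfl) y
        · have huB := (mem_union.1 hu).resolve_left huA
          have hvB := (mem_union.1 hv).resolve_left hvA
          rw [if_neg huA, if_neg hvA]
          exact tcomm (by intro x; rfl)
            (hB₂.ee u (hB u huB) v (hB v hvB) ((h2 u huB v hvB).2 huv)) y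
  -- the two pieces
  have hX1 : hX (Cq G₁ (insert c A)) (Function.update r c ρ) i ≤
      Module.finrank F2 Y₂ * hX (Cq G₁ (insert c A)) r₁ i := by
    have h3 := prod_le hN₁ hB₁ (gon_isN hcA h1 hc1 h2 hc2 hN₂) (X := Cq G₁ (insert c A))
      (fun _ h => h) (mono_Cq _ _) i
    have h4 : hX (Cq G₁ (insert c A)) (Function.update r c ρ) i =
        hX (Cq G₁ (insert c A)) (tens r₁ (Function.update (gon B r₂) c (r₂ c'))) i := by
      refine hX_congr (fun _ => Iff.rfl) (fun s hs v hv y => ?_) i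
      rcases mem_insert.1 (hs.2 hv) with rfl | hvA
      · rw [Function.update_self, tens, Function.update_self, hρ]
      · have hne : v ≠ c := fun e => hcA (e ▸ hvA)
        rw [Function.update_of_ne hne, tens, Function.update_of_ne hne, hrv, gon_mem hvA]
    rw [h4]
    exact h3
  have hX2 : hX (Cq G₂ (insert c' B)) (Function.update r c' ρ) i ≤
      Module.finrank F2 Y₁ * hX (Cq G₂ (insert c' B)) r₂ i := by
    have h3 := prod_le' (gon_isN hcB h2 hc2 h1 hc1 hN₁) hN₂ hB₂ (X := Cq G₂ (insert c' B))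
      (fun _ h => h) (mono_Cq _ _) i
    have h4 : hX (Cq G₂ (insert c' B)) (Function.update r c' ρ) i =
        hX (Cq G₂ (insert c' B)) (tens (Function.update (gon A r₁) c' (r₁ c)) r₂) i := by
      refine hX_congr (fun _ => Iff.rfl) (fun s hs v hv y => ?_) i
      rcases mem_insert.1 (hs.2 hv) with rfl | hvB
      · rw [Function.update_self, tens, Function.update_self, hρ]
      · have hne : v ≠ c' := fun e => hcB (e ▸ hvB)
        rw [Function.update_of_ne hne, tens, Function.update_of_ne hne, hrv, gon_mem hvB]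
    rw [h4]
    exact h3
  -- the number of copies
  obtain ⟨n, hn⟩ := exists_nat_ge (2 * (2 * Fintype.card (Finset V) : ℕ) / ε : ℝ)
  have hn' : ((2 * Fintype.card (Finset V) : ℕ) : ℝ) ≤ ε / 2 * n := by
    rw [div_le_iff₀ hε] at hn
    linarith
  have hfr : (Module.finrank F2 (TensorProduct F2 Y₁ Y₂) : ℝ) =
      Module.finrank F2 Y₁ * Module.finrank F2 Y₂ := by
    rw [Module.finrank_tensorProduct, Nat.cast_mul]
  have hmod := glue_mod H1 H2 hno hρρ hθρ hρr hθr n i
  have hfn : Module.finrank F2 (Fin (n + 1) → TensorProduct F2 Y₁ Y₂) =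
      (n + 1) * Module.finrank F2 (TensorProduct F2 Y₁ Y₂) := by
    rw [Module.finrank_pi_fintype, sum_const, card_univ, Fintype.card_fin, smul_eq_mul]
  refine ⟨Fin (n + 1) → TensorProduct F2 Y₁ Y₂, inferInstance, inferInstance, inferInstance,
    gtw A (gdi n r) (gnu n ρ), gtw A (gdi n E) (gnu n ρ), gtw_isN n hNr hρρ hρr hno hfil,
    gtw_isBit n hBE hρρ hρr hρE hno, ?_, ?_⟩
  · rw [hfn, Module.finrank_tensorProduct]
    positivity
  · have h5 : (hX (Cq G (A ∪ B)) (gtw A (gdi n r) (gnu n ρ)) i : ℝ) ≤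
        ((2 * Fintype.card (Finset V) * Module.finrank F2 (TensorProduct F2 Y₁ Y₂) : ℕ) : ℝ) +
          n * ((hX (Cq G₁ (insert c A)) (Function.update r c ρ) i : ℝ) +
            (hX (Cq G₂ (insert c' B)) (Function.update r c' ρ) i : ℝ)) := by
      exact_mod_cast hmod
    have h6 : (hX (Cq G₁ (insert c A)) (Function.update r c ρ) i : ℝ) ≤
        Module.finrank F2 Y₂ * (hX (Cq G₁ (insert c A)) r₁ i : ℝ) := by
      exact_mod_cast hX1
    have h7 : (hX (Cq G₂ (insert c' B)) (Function.update r c' ρ) i : ℝ) ≤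
        Module.finrank F2 Y₁ * (hX (Cq G₂ (insert c' B)) r₂ i : ℝ) := by
      exact_mod_cast hX2
    have h8 : (Module.finrank F2 Y₂ : ℝ) * (hX (Cq G₁ (insert c A)) r₁ i : ℝ) ≤
        Module.finrank F2 Y₂ * (ε / 4 * Module.finrank F2 Y₁) :=
      mul_le_mul_of_nonneg_left hb₁ (Nat.cast_nonneg _)
    have h9 : (Module.finrank F2 Y₁ : ℝ) * (hX (Cq G₂ (insert c' B)) r₂ i : ℝ) ≤
        Module.finrank F2 Y₁ * (ε / 4 * Module.finrank F2 Y₂) :=
      mul_le_mul_of_nonneg_left hb₂ (Nat.cast_nonneg _)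
    obtain ⟨y, hy⟩ : ∃ y : ℝ, y = Module.finrank F2 (TensorProduct F2 Y₁ Y₂) := ⟨_, rfl⟩
    have hy0 : 0 ≤ y := by rw [hy]; exact Nat.cast_nonneg _
    have hn0 : (0 : ℝ) ≤ n := Nat.cast_nonneg n
    have h10 : (hX (Cq G₁ (insert c A)) (Function.update r c ρ) i : ℝ) ≤ ε / 4 * y := by
      rw [hy, hfr]
      linarith
    have h11 : (hX (Cq G₂ (insert c' B)) (Function.update r c' ρ) i : ℝ) ≤ ε / 4 * y := by
      rw [hy, hfr]
      linarith
    have h12 : (n : ℝ) * ((hX (Cq G₁ (insert c A)) (Function.update r c ρ) i : ℝ) +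
        (hX (Cq G₂ (insert c' B)) (Function.update r c' ρ) i : ℝ)) ≤ n * (ε / 4 * y + ε / 4 * y) :=
      mul_le_mul_of_nonneg_left (add_le_add h10 h11) hn0
    have h13 : ((2 * Fintype.card (Finset V) : ℕ) : ℝ) * y ≤ ε / 2 * n * y :=
      mul_le_mul_of_nonneg_right hn' hy0
    rw [hfn]
    rw [Nat.cast_mul, ← hy] at h5
    rw [Nat.cast_mul, ← hy]
    push_cast at h5 h13 ⊢
    have h14 : 0 ≤ ε * y := mul_nonneg hε.le hy0
    nlinarith

end Pool.Agent.H73.GC
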