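import Pool.Agent.H73.GC.SysA
import Pool.Agent.H73.GC.SysB
import Pool.Agent.H73.GC.Bit

/-!
# Growth calculus: the invariants of one more involution

`hd_split` with `e = E u` (which preserves `Sy X r s` for `X s`): both `A s ⊓ ker (E u)` and
`(A s).map (E u)` are isomorphic to `A s ⊓ Inv r {u}` by `y ↦ y + r u y` (injective on both, and onto:
`y = E u y + r u (E u y)` for `r u y = y`); compare `hd_map`.
-/

set_option autoImplicit false
set_option linter.unusedSectionVars false

open Finset

namespace Pool.Agent.H73.GC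

variable {V : Type} [DecidableEq V] [Fintype V]
variable {Y : Type} [AddCommGroup Y] [Module F2 Y] [Finite Y]

/-- the map `1 + r u` on a subspace `W` on which it is injective -/
private theorem Half_aux {A B : Finset V → Submodule F2 Y} {W : Submodule F2 Y}
    (j : Module.End F2 Y) (hj : ∀ y ∈ W, j y = 0 → y = 0)
    (h1 : ∀ s, ∀ y ∈ A s, y ∈ W → j y ∈ B s)
    (h2 : ∀ s, ∀ z ∈ B s, ∃ y ∈ A s, y ∈ W ∧ j y = z) (i : ℕ) :
    hd (fun s => A s ⊓ W) i = hd B i := by
  have e1 := hd_map (fun s => (A s).comap W.subtype) W.subtype W.injective_subtype i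
  have hinj : Function.Injective (j ∘ₗ W.subtype) := by
    rw [injective_iff_map_eq_zero]
    intro y hy
    exact Subtype.ext (hj y.1 y.2 hy)
  have e2 := hd_map (fun s => (A s).comap W.subtype) (j ∘ₗ W.subtype) hinj i
  have f1 : (fun s => ((A s).comap W.subtype).map W.subtype) = fun s => A s ⊓ W := by
    funext s
    rw [Submodule.map_comap_subtype, inf_comm]
  have f2 : (fun s => ((A s).comap W.subtype).map (j ∘ₗ W.subtype)) = B := by
    funext s
    ext z
    constructor
    · rintro ⟨y, hy, rfl⟩
      exact h1 s y.1 hy y.2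
    · intro hz
      obtain ⟨y, hy, hyW, hyz⟩ := h2 s z hz
      exact ⟨⟨y, hyW⟩, hy, hyz⟩
  rw [f1] at e1
  rw [f2] at e2
  rw [e1, e2]

theorem hd_half {X : Finset V → Prop} (hm : ∀ s v, X (insert v s) → X s)
    {r E : V → Module.End F2 Y} {u : V} (h : ∀ s, X s → u ∉ s ∧ BitOn r E (insert u s)) (i : ℕ) :
    2 * hd (fun s => Sy X r s ⊓ Inv r {u}) i = hX X r i := by
  have hA : Mono (Sy X r) := by
    intro s v y hy
    rw [mem_Sy] at hy ⊢
    exact ⟨fun hn => hy.1 fun h1 => hn (hm s v h1), fun w hw => hy.2 w (mem_insert_of_mem hw)⟩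
  by_cases hX : ∃ s, X s
  · obtain ⟨s₀, hs₀⟩ := hX
    have hu₀ := mem_insert_self u s₀
    have hB := (h s₀ hs₀).2
    have hsq : ∀ y, r u (r u y) = y := hB.sq u hu₀
    have hid : ∀ y, E u (E u y) = E u y := hB.idem u hu₀
    have hbit : ∀ y, E u (r u y) + r u (E u y) = r u y := hB.bit u hu₀
    have hEA : ∀ s, ∀ y ∈ Sy X r s, E u y ∈ Sy X r s := by
      intro s y hy
      rw [mem_Sy] at hy ⊢
      refine ⟨fun hn => by rw [hy.1 hn, map_zero], fun v hv => ?_⟩
      by_cases hs : X s
      · have hne : u ≠ v := fun e => (h s hs).1 (e ▸ hv)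
        rw [← (h s hs).2.er u (mem_insert_self u s) v (mem_insert_of_mem hv) hne, hy.2 v hv]
      · rw [hy.1 hs, map_zero, map_zero]
    have hrA : ∀ s, ∀ y ∈ Sy X r s, r u y ∈ Sy X r s := by
      intro s y hy
      rw [mem_Sy] at hy ⊢
      refine ⟨fun hn => by rw [hy.1 hn, map_zero], fun v hv => ?_⟩
      by_cases hs : X s
      · rw [(h s hs).2.comm v (mem_insert_of_mem hv) u (mem_insert_self u s), hy.2 v hv]
      · rw [hy.1 hs, map_zero, map_zero]
    have hB1 : ∀ s, ∀ y ∈ Sy X r s, (1 + r u) y ∈ Sy X r s ⊓ Inv r {u} := by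
      intro s y hy
      refine ⟨Submodule.add_mem _ hy (hrA s y hy), ?_⟩
      intro v hv
      rw [mem_singleton] at hv
      rw [hv, LinearMap.add_apply, Module.End.one_apply, map_add, hsq, add_comm]
    have hBz : ∀ s, ∀ z ∈ Sy X r s ⊓ Inv r {u}, r u z = z := fun s z hz => hz.2 u (mem_singleton_self u)
    have hdec : ∀ z, r u z = z → E u z + r u (E u z) = z := by
      intro z hz
      have := hbit z
      rwa [hz] at this
    have hk : ∀ y, (1 + r u) y = 0 → r u y = y := by
      intro y hy
      rw [LinearMap.add_apply, Module.End.one_apply] at hy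
      have h2 := ZModModule.add_self y
      exact add_left_cancel (hy.trans h2.symm)
    -- the kernel of the projection
    have e1 : hd (fun s => Sy X r s ⊓ LinearMap.ker (E u)) i =
        hd (fun s => Sy X r s ⊓ Inv r {u}) i := by
      refine Half_aux (1 + r u) ?_ (fun s y hy _ => hB1 s y hy) ?_ i
      · intro y hy h0
        have h1 := hdec y (hk y h0)
        rw [LinearMap.mem_ker] at hy
        rw [hy, map_zero, add_zero] at h1
        exact h1.symm
      · intro s z hz
        refine ⟨r u (E u z), hrA s _ (hEA s z hz.1), ?_, ?_⟩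
        · rw [LinearMap.mem_ker]
          have h1 := hbit (E u z)
          rw [hid] at h1
          exact (add_eq_right.mp h1)
        · rw [LinearMap.add_apply, Module.End.one_apply, hsq, add_comm]
          exact hdec z (hBz s z hz)
    -- the image of the projection
    have e2 : hd (fun s => (Sy X r s).map (E u)) i =
        hd (fun s => Sy X r s ⊓ Inv r {u}) i := by
      have f1 : (fun s => (Sy X r s).map (E u)) = fun s => Sy X r s ⊓ LinearMap.range (E u) := by
        funext s
        ext z
        constructor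
        · rintro ⟨y, hy, rfl⟩
          exact ⟨hEA s y hy, LinearMap.mem_range_self _ y⟩
        · rintro ⟨hz, y, rfl⟩
          exact ⟨E u y, hz, hid y⟩
      rw [f1]
      refine Half_aux (1 + r u) ?_ (fun s y hy _ => hB1 s y hy) ?_ i
      · rintro y ⟨w, rfl⟩ h0
        have h1 := hbit (E u w)
        rw [hk _ h0, hid, hk _ h0] at h1
        exact (add_eq_right.mp h1)
      · intro s z hz
        refine ⟨E u z, hEA s z hz.1, LinearMap.mem_range_self _ z, ?_⟩
        rw [LinearMap.add_apply, Module.End.one_apply]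
        exact hdec z (hBz s z hz)
    have e3 := hd_split hA (E u) (fun s y _ => hid y) hEA i
    rw [Pool.Agent.H73.GC.hX, e3, e1, e2, two_mul]
  · have h0 : ∀ s, Sy X r s = ⊥ := by
      intro s
      rw [eq_bot_iff]
      intro y hy
      exact (Submodule.mem_bot F2).mpr (hy.1 fun hs => hX ⟨s, hs⟩)
    have e1 : hd (Sy X r) i = 0 := hd_zero hA i fun s _ => h0 s
    have e2 : hd (fun s => Sy X r s ⊓ Inv r {u}) i = 0 := by
      have f1 : (fun s => Sy X r s ⊓ Inv r {u}) = Sy X r := by
        funext s
        rw [h0 s, bot_inf_eq]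
      rw [f1, e1]
    rw [Pool.Agent.H73.GC.hX, e1, e2, mul_zero]

end Pool.Agent.H73.GC
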