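import Pool.Agent.H73.GC.MergeP

/-!
# Growth calculus: identification of two vertices, part B

For adjacent `x` and `u` the kernel of `psh` is acyclic: a cycle `z` in the kernel satisfies `z t = 0` for
`x, u ∉ t` and `z (t + x) = z (t + u) =: w t`; put `z' (t + x + u) = w t` and `z' = 0` on the other sets; then
`dd z' = z`, because `w t` vanishes unless `t + x + u` is a clique, and `(dd z) (t + u) = 0` says
`z (t + x + u) = ∑ w (t + v)`. Then `hx_mid`.
-/

set_option autoImplicit false
set_option linter.unusedSectionVars false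

open Finset

namespace Pool.Agent.H73.GC

variable {V : Type} [DecidableEq V] [Fintype V]
variable {Y : Type} [AddCommGroup Y] [Module F2 Y] [Finite Y]

private theorem MergeB_eq {y z : Y} (h : y + z = 0) : y = z := by
  calc y = y + (z + z) := by rw [ZModModule.add_self, add_zero]
    _ = (y + z) + z := by rw [add_assoc]
    _ = z := by rw [h, zero_add]

/-- the kernel of `psh` on the sets which contain `u` and not `x` -/
private theorem MergeB_ker {x u : V} {z : Finset V → Y} (hz : psh x u z = 0) {t : Finset V}
    (hxt : x ∉ t) (hut : u ∈ t) : z t = z (insert x (t.erase u)) := by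
  have h := congrFun hz t
  rw [psh_apply, if_neg hxt, if_pos hut] at h
  exact MergeB_eq h

private theorem MergeB_ker' {x u : V} {z : Finset V → Y} (hz : psh x u z = 0) {t : Finset V}
    (hxt : x ∉ t) (hut : u ∉ t) : z t = 0 := by
  have h := congrFun hz t
  rw [psh_apply, if_neg hxt, if_neg hut] at h
  exact h

/-- the cone -/
private def MergeB_cone (x u : V) (z : Finset V → Y) (s : Finset V) : Y :=
  if x ∈ s ∧ u ∈ s then z (s.erase x) else 0

private theorem MergeB_clique {G : SimpleGraph V} {U : Finset V} {x u : V} (hxu : G.Adj x u)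
    {s : Finset V} (hxs : x ∈ s) (h1 : Cq G U (s.erase x))
    (h2 : Cq G U (s.erase u)) : Cq G U s := by
  have hne : x ≠ u := hxu.ne
  refine ⟨?_, ?_⟩
  · intro a ha b hb hab
    have ha' : a ∈ s := mem_coe.1 ha
    have hb' : b ∈ s := mem_coe.1 hb
    by_cases hax : a = x
    · have hbx : b ≠ x := fun e => hab (hax.trans e.symm)
      by_cases hbu : b = u
      · rw [hax, hbu]
        exact hxu
      · have hau : a ≠ u := fun e => hne (hax.symm.trans e)
        exact h2.1 (mem_coe.2 (mem_erase.2 ⟨hau, ha'⟩)) (mem_coe.2 (mem_erase.2 ⟨hbu, hb'⟩)) hab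
    · by_cases hbx : b = x
      · by_cases hau : a = u
        · rw [hbx, hau]
          exact hxu.symm
        · have hbu : b ≠ u := fun e => hne (hbx.symm.trans e)
          exact h2.1 (mem_coe.2 (mem_erase.2 ⟨hau, ha'⟩)) (mem_coe.2 (mem_erase.2 ⟨hbu, hb'⟩))
            hab
      · exact h1.1 (mem_coe.2 (mem_erase.2 ⟨hax, ha'⟩)) (mem_coe.2 (mem_erase.2 ⟨hbx, hb'⟩)) hab
  · intro a ha
    by_cases hax : a = x
    · rw [hax]
      exact h2.2 (mem_erase.2 ⟨hne, hxs⟩)
    · exact h1.2 (mem_erase.2 ⟨hax, ha⟩)

private theorem MergeB_psh {x u : V} (z : Finset V → Y) : psh x u (MergeB_cone x u z) = 0 := by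
  funext t
  rw [psh_apply]
  by_cases hxt : x ∈ t
  · rw [if_pos hxt]
    rfl
  · rw [if_neg hxt]
    have h1 : MergeB_cone x u z t = 0 := by
      unfold MergeB_cone
      exact if_neg fun h => hxt h.1
    by_cases hut : u ∈ t
    · rw [if_pos hut, h1, zero_add]
      unfold MergeB_cone
      refine if_neg fun h => ?_
      rcases mem_insert.1 h.2 with h2 | h2
      · exact hxt (h2 ▸ hut)
      · exact (mem_erase.1 h2).1 rfl
    · rw [if_neg hut, h1]
      rfl

private theorem MergeB_dd {x u : V} (hxu : x ≠ u) {z : Finset V → Y} (hz : psh x u z = 0)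
    (hd : dd z = 0) : dd (MergeB_cone x u z) = z := by
  funext t
  rw [dd_apply]
  by_cases hxt : x ∈ t
  · by_cases hut : u ∈ t
    · have hxe : x ∉ t.erase x := fun h => (mem_erase.1 h).1 rfl
      have h1 : ∀ v ∈ tᶜ, MergeB_cone x u z (insert v t) = z (insert v (t.erase x)) := by
        intro v hv
        have hvx : v ≠ x := fun e => (mem_compl.1 hv) (e ▸ hxt)
        unfold MergeB_cone
        rw [if_pos ⟨mem_insert_of_mem hxt, mem_insert_of_mem hut⟩, erase_insert_of_ne hvx]
      rw [sum_congr rfl h1]
      have h2 := congrFun hd (t.erase x)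
      have hc : (t.erase x)ᶜ = insert x tᶜ := by
        ext a
        simp only [mem_compl, mem_erase, mem_insert]
        tauto
      have hxc : x ∉ tᶜ := fun h => (mem_compl.1 h) hxt
      rw [dd_apply, hc, sum_insert hxc, insert_erase hxt] at h2
      exact (MergeB_eq h2).symm
    · have huc : u ∈ tᶜ := mem_compl.2 hut
      rw [sum_eq_single u]
      · have hue : u ∉ t.erase x := fun h => hut (mem_of_mem_erase h)
        have hxi : x ∉ insert u (t.erase x) := by
          rw [mem_insert]
          rintro (h | h)
          · exact hxu h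
          · exact (mem_erase.1 h).1 rfl
        unfold MergeB_cone
        rw [if_pos ⟨mem_insert_of_mem hxt, mem_insert_self _ _⟩, erase_insert_of_ne hxu.symm,
          MergeB_ker hz hxi (mem_insert_self _ _), erase_insert hue, insert_erase hxt]
      · intro v _ hvu
        unfold MergeB_cone
        refine if_neg fun h => ?_
        rcases mem_insert.1 h.2 with h2 | h2
        · exact hvu h2.symm
        · exact hut h2
      · exact fun h => absurd huc h
  · by_cases hut : u ∈ t
    · have hxc : x ∈ tᶜ := mem_compl.2 hxt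
      rw [sum_eq_single x]
      · unfold MergeB_cone
        rw [if_pos ⟨mem_insert_self _ _, mem_insert_of_mem hut⟩, erase_insert hxt]
      · intro v _ hvx
        unfold MergeB_cone
        refine if_neg fun h => ?_
        rcases mem_insert.1 h.1 with h2 | h2
        · exact hvx h2.symm
        · exact hxt h2
      · exact fun h => absurd hxc h
    · rw [MergeB_ker' hz hxt hut]
      refine sum_eq_zero fun v _ => ?_
      unfold MergeB_cone
      refine if_neg fun h => ?_
      rcases mem_insert.1 h.1 with h2 | h2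
      · rcases mem_insert.1 h.2 with h3 | h3
        · exact hxu (h2.trans h3.symm)
        · exact hut h3
      · exact hxt h2

private theorem MergeB_mem {G : SimpleGraph V} {U : Finset V} {x u : V}
    (hxu : G.Adj x u) (r : V → Module.End F2 Y) {z : Finset V → Y} (hz : psh x u z = 0) {i : ℕ}
    (hc : z ∈ Ch (Sy (Cq G U) (Function.update r x (r u))) i) :
    MergeB_cone x u z ∈ Ch (Sy (Cq G U) (Function.update r x (r u))) (i + 1) := by
  have hne : x ≠ u := hxu.ne
  have hcoe := mem_Ch.1 hc
  rw [mem_Ch]
  intro s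
  by_cases hs : x ∈ s ∧ u ∈ s
  · obtain ⟨hxs, hus⟩ := hs
    have hval : MergeB_cone x u z s = z (s.erase x) := by
      unfold MergeB_cone
      rw [if_pos ⟨hxs, hus⟩]
    rw [hval]
    have hxe : x ∉ s.erase x := fun h => (mem_erase.1 h).1 rfl
    have hue : u ∈ s.erase x := mem_erase.2 ⟨hne.symm, hus⟩
    have hk : z (s.erase x) = z (s.erase u) := by
      rw [MergeB_ker hz hxe hue]
      congr 1
      rw [erase_right_comm]
      exact insert_erase (mem_erase.2 ⟨hne, hxs⟩)
    obtain ⟨h1, h2⟩ := hcoe (s.erase x)
    obtain ⟨h3, -⟩ := hcoe (s.erase u)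
    rw [mem_Sy] at h1 h3
    refine ⟨?_, fun hcard => h2 fun h4 => hcard ?_⟩
    · rw [mem_Sy]
      refine ⟨fun hC => ?_, fun v hv => ?_⟩
      · by_contra hzn
        have hA : Cq G U (s.erase x) := by
          by_contra hA
          exact hzn (h1.1 hA)
        have hB : Cq G U (s.erase u) := by
          by_contra hB
          exact hzn (hk.trans (h3.1 hB))
        exact hC (MergeB_clique hxu hxs hA hB)
      · by_cases hvx : v = x
        · have h5 := h1.2 u hue
          rw [Function.update_of_ne hne.symm] at h5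
          rw [hvx, Function.update_self]
          exact h5
        · exact h1.2 v (mem_erase.2 ⟨hvx, hv⟩)
    · rw [← card_erase_add_one hxs, h4]
  · have hval : MergeB_cone x u z s = 0 := by
      unfold MergeB_cone
      exact if_neg hs
    rw [hval]
    exact ⟨Submodule.zero_mem _, fun _ => rfl⟩

theorem merge_b {G : SimpleGraph V} {U : Finset V} {x u : V} (hx : x ∈ U) (hu : u ∈ U)
    (hxu : G.Adj x u) (hN : NoSq G U x u) (r : V → Module.End F2 Y) (i : ℕ) :
    hX (Cq G U) (Function.update r x (r u)) i ≤ hX (Cq (merge G x u) (U.erase x)) r i := by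
  have hne : x ≠ u := hxu.ne
  have hC : IsCx dd (Ch (Sy (Cq G U) (Function.update r x (r u)))) :=
    isCx_Ch (mono_Sy (mono_Cq G U) _)
  have key := hx_mid (d' := dd) hC (psh x u) (fun _ z _ => psh_dd hne z) i
  have e1 : (fun j => (Ch (Sy (Cq G U) (Function.update r x (r u))) j).map (psh x u)) =
      Ch (Sy (Cq (merge G x u) (U.erase x)) r) :=
    funext fun j => psh_map hx hu hne hN r j (Cq G U) (Or.inl fun _ => Iff.rfl)
  have e2 : GC.hx dd (fun j => Ch (Sy (Cq G U) (Function.update r x (r u))) j ⊓
      LinearMap.ker (psh x u)) i ≤ 0 := by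
    have hle : (Ch (Sy (Cq G U) (Function.update r x (r u))) i ⊓ LinearMap.ker (psh x u)) ⊓
        LinearMap.ker dd ≤ (Ch (Sy (Cq G U) (Function.update r x (r u))) (i + 1) ⊓
          LinearMap.ker (psh x u)).map dd := by
      rintro z ⟨⟨h1, h2⟩, h3⟩
      have h2' : psh x u z = 0 := h2
      have h3' : dd z = 0 := h3
      exact ⟨MergeB_cone x u z, ⟨MergeB_mem hxu r h2' h1, MergeB_psh z⟩, MergeB_dd hne h2' h3'⟩
    have hf := Submodule.finrank_mono hle
    unfold GC.hx
    beta_reduce
    omega
  rw [e1] at key
  unfold hX hd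
  linarith

end Pool.Agent.H73.GC
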