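import Pool.Agent.H73.GC.MergeP

/-!
# Growth calculus: identification of two vertices, part C

Let `X` be the cliques which do not contain both `x` and `u`. The kernel of `psh` on the chains of `X`: `z t = 0` for
`x, u ∉ t` and `z (t + x) = z (t + u) =: w t`, `t ≤ lk2 G U x u`; `w` is an arbitrary chain with coefficients in
the invariants of `r u` on the link, and `(dd z) (t + u) = (dd w) t`. So `hx_mid` and `hx_map` (for
`w ↦ z`) give the claim.
-/

set_option autoImplicit false
set_option linter.unusedSectionVars false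

open Finset

namespace Pool.Agent.H73.GC

variable {V : Type} [DecidableEq V] [Fintype V]
variable {Y : Type} [AddCommGroup Y] [Module F2 Y] [Finite Y]

private theorem MergeC_eq {y z : Y} (h : y + z = 0) : y = z := by
  calc y = y + (z + z) := by rw [ZModModule.add_self, add_zero]
    _ = (y + z) + z := by rw [add_assoc]
    _ = z := by rw [h, zero_add]

/-- the kernel of `psh` on the sets which contain `u` and not `x` -/
private theorem MergeC_ker {x u : V} {z : Finset V → Y} (hz : psh x u z = 0) {t : Finset V}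
    (hxt : x ∉ t) (hut : u ∈ t) : z t = z (insert x (t.erase u)) := by
  have h := congrFun hz t
  rw [psh_apply, if_neg hxt, if_pos hut] at h
  exact MergeC_eq h

private theorem MergeC_ker' {x u : V} {z : Finset V → Y} (hz : psh x u z = 0) {t : Finset V}
    (hxt : x ∉ t) (hut : u ∉ t) : z t = 0 := by
  have h := congrFun hz t
  rw [psh_apply, if_neg hxt, if_neg hut] at h
  exact h

/-- the chain `z` of the chain `w` on the link -/
private def MergeC_up (x u : V) : Module.End F2 (Finset V → Y) where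
  toFun w s := if x ∈ s then (if u ∈ s then 0 else w (s.erase x)) else
    if u ∈ s then w (s.erase u) else 0
  map_add' z w := by
    funext t
    by_cases h : x ∈ t
    · by_cases h2 : u ∈ t
      · simp [h, h2]
      · simp [h, h2]
    · by_cases h2 : u ∈ t
      · simp [h, h2]
      · simp [h, h2]
  map_smul' c z := by
    funext t
    by_cases h : x ∈ t
    · by_cases h2 : u ∈ t
      · simp [h, h2]
      · simp [h, h2]
    · by_cases h2 : u ∈ t
      · simp [h, h2]
      · simp [h, h2]

private theorem MergeC_up_apply (x u : V) (w : Finset V → Y) (s : Finset V) :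
    MergeC_up x u w s = if x ∈ s then (if u ∈ s then 0 else w (s.erase x)) else
      if u ∈ s then w (s.erase u) else 0 := rfl

/-- `w` is supported on the sets which contain neither `x` nor `u` -/
private def MergeC_S (x u : V) (w : Finset V → Y) : Prop := ∀ s, (x ∈ s ∨ u ∈ s) → w s = 0

private theorem MergeC_S_dd {x u : V} {w : Finset V → Y} (hw : MergeC_S x u w) :
    MergeC_S x u (dd w) := by
  intro s hs
  rw [dd_apply]
  refine sum_eq_zero fun v _ => hw _ ?_
  rcases hs with hs | hs
  · exact Or.inl (mem_insert_of_mem hs)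
  · exact Or.inr (mem_insert_of_mem hs)

private theorem MergeC_inj {x u : V} (hxu : x ≠ u) {w : Finset V → Y} (hw : MergeC_S x u w)
    (h : MergeC_up x u w = 0) : w = 0 := by
  funext s
  by_cases hs : x ∈ s ∨ u ∈ s
  · exact hw s hs
  · push Not at hs
    obtain ⟨hxs, hus⟩ := hs
    have h1 := congrFun h (insert x s)
    have h2 : u ∉ insert x s := by
      rw [mem_insert]
      rintro (h3 | h3)
      · exact hxu h3.symm
      · exact hus h3
    rw [MergeC_up_apply, if_pos (mem_insert_self x s), if_neg h2, erase_insert hxs] at h1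
    exact h1

private theorem MergeC_dd_aux {a b : V} {w : Finset V → Y}
    (hw : ∀ s, (a ∈ s ∨ b ∈ s) → w s = 0) {t : Finset V} (hat : a ∈ t)
    {f : Finset V → Y} (hf0 : f (insert b t) = 0)
    (hf : ∀ v, v ∉ t → v ≠ b → f (insert v t) = w ((insert v t).erase a)) :
    ∑ v ∈ tᶜ, f (insert v t) = ∑ v ∈ (t.erase a)ᶜ, w (insert v (t.erase a)) := by
  have hc : (t.erase a)ᶜ = insert a tᶜ := by
    ext v
    simp only [mem_compl, mem_erase, mem_insert]
    tauto
  have hac : a ∉ tᶜ := fun h => (mem_compl.1 h) hat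
  rw [hc, sum_insert hac, hw _ (Or.inl (mem_insert_self a _)), zero_add]
  refine sum_congr rfl fun v hv => ?_
  have hvt : v ∉ t := mem_compl.1 hv
  by_cases hvb : v = b
  · rw [hvb, hf0, hw _ (Or.inr (mem_insert_self b _))]
  · have hva : v ≠ a := fun h => hvt (h ▸ hat)
    rw [hf v hvt hvb, erase_insert_of_ne hva]

private theorem MergeC_dd {x u : V} (hxu : x ≠ u) {w : Finset V → Y} (hw : MergeC_S x u w) :
    MergeC_up x u (dd w) = dd (MergeC_up x u w) := by
  funext t
  rw [MergeC_up_apply, dd_apply (MergeC_up x u w)]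
  by_cases hxt : x ∈ t
  · rw [if_pos hxt]
    by_cases hut : u ∈ t
    · rw [if_pos hut]
      symm
      refine sum_eq_zero fun v _ => ?_
      rw [MergeC_up_apply, if_pos (mem_insert_of_mem hxt), if_pos (mem_insert_of_mem hut)]
    · rw [if_neg hut, dd_apply]
      symm
      refine MergeC_dd_aux hw hxt ?_ ?_
      · rw [MergeC_up_apply, if_pos (mem_insert_of_mem hxt), if_pos (mem_insert_self u t)]
      · intro v _ hvu
        have h2 : u ∉ insert v t := by
          rw [mem_insert]
          rintro (h3 | h3)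
          · exact hvu h3.symm
          · exact hut h3
        rw [MergeC_up_apply, if_pos (mem_insert_of_mem hxt), if_neg h2]
  · rw [if_neg hxt]
    by_cases hut : u ∈ t
    · rw [if_pos hut, dd_apply]
      symm
      refine MergeC_dd_aux (fun s hs => hw s hs.symm) hut ?_ ?_
      · rw [MergeC_up_apply, if_pos (mem_insert_self x t), if_pos (mem_insert_of_mem hut)]
      · intro v _ hvx
        have h2 : x ∉ insert v t := by
          rw [mem_insert]
          rintro (h3 | h3)
          · exact hvx h3.symm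
          · exact hxt h3
        rw [MergeC_up_apply, if_neg h2, if_pos (mem_insert_of_mem hut)]
    · rw [if_neg hut]
      symm
      have hxc : x ∈ tᶜ := mem_compl.2 hxt
      have huc : u ∈ tᶜ.erase x := mem_erase.2 ⟨hxu.symm, mem_compl.2 hut⟩
      rw [← add_sum_erase _ _ hxc, ← add_sum_erase _ _ huc]
      have h1 : MergeC_up x u w (insert x t) = w t := by
        have h2 : u ∉ insert x t := by
          rw [mem_insert]
          rintro (h3 | h3)
          · exact hxu h3.symm
          · exact hut h3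
        rw [MergeC_up_apply, if_pos (mem_insert_self x t), if_neg h2, erase_insert hxt]
      have h2 : MergeC_up x u w (insert u t) = w t := by
        have h3 : x ∉ insert u t := by
          rw [mem_insert]
          rintro (h4 | h4)
          · exact hxu h4
          · exact hxt h4
        rw [MergeC_up_apply, if_neg h3, if_pos (mem_insert_self u t), erase_insert hut]
      have h3 : ∑ v ∈ (tᶜ.erase x).erase u, MergeC_up x u w (insert v t) = 0 := by
        refine sum_eq_zero fun v hv => ?_
        have hvu : v ≠ u := ne_of_mem_erase hv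
        have hvx : v ≠ x := ne_of_mem_erase (mem_of_mem_erase hv)
        have h4 : x ∉ insert v t := by
          rw [mem_insert]
          rintro (h5 | h5)
          · exact hvx h5.symm
          · exact hxt h5
        have h6 : u ∉ insert v t := by
          rw [mem_insert]
          rintro (h5 | h5)
          · exact hvu h5.symm
          · exact hut h5
        rw [MergeC_up_apply, if_neg h4, if_neg h6]
      rw [h1, h2, h3, add_zero, ZModModule.add_self]

/-- the coefficients on the link -/
private def MergeC_A (G : SimpleGraph V) (U : Finset V) (x u : V) (r : V → Module.End F2 Y)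
    (s : Finset V) : Submodule F2 Y := Sy (Cq G (lk2 G U x u)) r s ⊓ Inv r {u}

private theorem MergeC_lk {G : SimpleGraph V} {U : Finset V} {x u v : V} :
    v ∈ lk2 G U x u ↔ v ∈ U ∧ G.Adj x v ∧ G.Adj u v := by
  simp only [lk2, mem_filter]

private theorem MergeC_S_Ch {G : SimpleGraph V} {U : Finset V} {x u : V}
    {r : V → Module.End F2 Y} {k : ℕ} {w : Finset V → Y} (hw : w ∈ Ch (MergeC_A G U x u r) k) :
    MergeC_S x u w := by
  intro s hs
  refine (mem_Sy.1 ((mem_Ch.1 hw s).1).1).1 fun h => ?_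
  rcases hs with hs | hs
  · exact G.loopless.irrefl x (MergeC_lk.1 (h.2 hs)).2.1
  · exact G.loopless.irrefl u (MergeC_lk.1 (h.2 hs)).2.2

/-- a clique of the link and one of the two vertices form a clique -/
private theorem MergeC_cq {G : SimpleGraph V} {U : Finset V} {a : V} {L : Finset V}
    (ha : a ∈ U) (hL : ∀ v ∈ L, v ∈ U ∧ G.Adj a v) {s : Finset V}
    (h : Cq G L (s.erase a)) : Cq G U s := by
  refine ⟨?_, ?_⟩
  · intro b hb c hc hbc
    have hb' : b ∈ s := mem_coe.1 hb
    have hc' : c ∈ s := mem_coe.1 hc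
    by_cases hba : b = a
    · have hca : c ≠ a := fun e => hbc (hba.trans e.symm)
      rw [hba]
      exact (hL c (h.2 (mem_erase.2 ⟨hca, hc'⟩))).2
    · by_cases hca : c = a
      · rw [hca]
        exact (hL b (h.2 (mem_erase.2 ⟨hba, hb'⟩))).2.symm
      · exact h.1 (mem_coe.2 (mem_erase.2 ⟨hba, hb'⟩)) (mem_coe.2 (mem_erase.2 ⟨hca, hc'⟩)) hbc
  · intro b hb
    by_cases hba : b = a
    · rw [hba]
      exact ha
    · exact (hL b (h.2 (mem_erase.2 ⟨hba, hb⟩))).1

private theorem MergeC_psh {x u : V} (w : Finset V → Y) :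
    psh x u (MergeC_up x u w) = 0 := by
  funext t
  rw [psh_apply]
  by_cases hxt : x ∈ t
  · rw [if_pos hxt]
    rfl
  · rw [if_neg hxt]
    by_cases hut : u ∈ t
    · rw [if_pos hut]
      have hxe : x ∉ t.erase u := fun h => hxt (mem_of_mem_erase h)
      have hun : u ∉ insert x (t.erase u) := by
        rw [mem_insert]
        rintro (h | h)
        · exact hxt (h ▸ hut)
        · exact (mem_erase.1 h).1 rfl
      rw [MergeC_up_apply, if_neg hxt, if_pos hut, MergeC_up_apply,
        if_pos (mem_insert_self _ _), if_neg hun, erase_insert hxe, ZModModule.add_self]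
      rfl
    · rw [if_neg hut, MergeC_up_apply, if_neg hxt, if_neg hut]
      rfl

private theorem MergeC_mem {G : SimpleGraph V} {U : Finset V} {x u : V} (hx : x ∈ U)
    (hu : u ∈ U) (r : V → Module.End F2 Y) {k : ℕ} {w : Finset V → Y}
    (hw : w ∈ Ch (MergeC_A G U x u r) k) :
    MergeC_up x u w ∈ Ch (Sy (fun s => Cq G U s ∧ ¬ (x ∈ s ∧ u ∈ s))
      (Function.update r x (r u))) (k + 1) := by
  rw [mem_Ch]
  intro s
  rw [MergeC_up_apply]
  by_cases hxs : x ∈ s
  · rw [if_pos hxs]
    by_cases hus : u ∈ s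
    · rw [if_pos hus]
      exact ⟨Submodule.zero_mem _, fun _ => rfl⟩
    · rw [if_neg hus]
      obtain ⟨⟨h1, h2⟩, h3⟩ := mem_Ch.1 hw (s.erase x)
      have h1' := mem_Sy.1 h1
      refine ⟨?_, fun hc => h3 fun h4 => hc ?_⟩
      · rw [mem_Sy]
        refine ⟨fun h => h1'.1 fun h4 => h ⟨?_, fun h5 => hus h5.2⟩, fun v hv => ?_⟩
        · refine MergeC_cq hx ?_ h4
          intro v hv
          have h5 := MergeC_lk.1 hv
          exact ⟨h5.1, h5.2.1⟩
        · by_cases hvx : v = x
          · rw [hvx, Function.update_self]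
            exact (mem_Inv.1 h2) u (mem_singleton_self u)
          · rw [Function.update_of_ne hvx]
            exact h1'.2 v (mem_erase.2 ⟨hvx, hv⟩)
      · rw [← card_erase_add_one hxs, h4]
  · rw [if_neg hxs]
    by_cases hus : u ∈ s
    · rw [if_pos hus]
      obtain ⟨⟨h1, h2⟩, h3⟩ := mem_Ch.1 hw (s.erase u)
      have h1' := mem_Sy.1 h1
      refine ⟨?_, fun hc => h3 fun h4 => hc ?_⟩
      · rw [mem_Sy]
        refine ⟨fun h => h1'.1 fun h4 => h ⟨?_, fun h5 => hxs h5.1⟩, fun v hv => ?_⟩
        · refine MergeC_cq hu ?_ h4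
          intro v hv
          have h5 := MergeC_lk.1 hv
          exact ⟨h5.1, h5.2.2⟩
        · have hvx : v ≠ x := fun e => hxs (e ▸ hv)
          rw [Function.update_of_ne hvx]
          by_cases hvu : v = u
          · rw [hvu]
            exact (mem_Inv.1 h2) u (mem_singleton_self u)
          · exact h1'.2 v (mem_erase.2 ⟨hvu, hv⟩)
      · rw [← card_erase_add_one hus, h4]
    · rw [if_neg hus]
      exact ⟨Submodule.zero_mem _, fun _ => rfl⟩

/-- the chain on the link of a chain in the kernel -/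
private def MergeC_dn (x u : V) (z : Finset V → Y) (t : Finset V) : Y :=
  if x ∈ t ∨ u ∈ t then 0 else z (insert u t)

private theorem MergeC_dn_up {G : SimpleGraph V} {U : Finset V} {x u : V} (hxu : x ≠ u)
    {r : V → Module.End F2 Y} {k : ℕ} {z : Finset V → Y}
    (hz : z ∈ Ch (Sy (fun s => Cq G U s ∧ ¬ (x ∈ s ∧ u ∈ s)) (Function.update r x (r u))) k)
    (hk : psh x u z = 0) : MergeC_up x u (MergeC_dn x u z) = z := by
  funext t
  rw [MergeC_up_apply]
  by_cases hxt : x ∈ t
  · rw [if_pos hxt]
    by_cases hut : u ∈ t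
    · rw [if_pos hut]
      exact ((mem_Sy.1 (mem_Ch.1 hz t).1).1 fun h => h.2 ⟨hxt, hut⟩).symm
    · rw [if_neg hut]
      have hxe : x ∉ t.erase x := fun h => (mem_erase.1 h).1 rfl
      have hue : u ∉ t.erase x := fun h => hut (mem_of_mem_erase h)
      have h1 : ¬ (x ∈ t.erase x ∨ u ∈ t.erase x) := by
        rintro (h | h)
        · exact hxe h
        · exact hue h
      unfold MergeC_dn
      rw [if_neg h1]
      have h2 : x ∉ insert u (t.erase x) := by
        rw [mem_insert]
        rintro (h | h)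
        · exact hxu h
        · exact hxe h
      rw [MergeC_ker hk h2 (mem_insert_self _ _), erase_insert hue, insert_erase hxt]
  · rw [if_neg hxt]
    by_cases hut : u ∈ t
    · rw [if_pos hut]
      have hxe : x ∉ t.erase u := fun h => hxt (mem_of_mem_erase h)
      have hue : u ∉ t.erase u := fun h => (mem_erase.1 h).1 rfl
      have h1 : ¬ (x ∈ t.erase u ∨ u ∈ t.erase u) := by
        rintro (h | h)
        · exact hxe h
        · exact hue h
      unfold MergeC_dn
      rw [if_neg h1, insert_erase hut]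
    · rw [if_neg hut]
      exact (MergeC_ker' hk hxt hut).symm

private theorem MergeC_dn_mem {G : SimpleGraph V} {U : Finset V} {x u : V}
    (hxu : x ≠ u) {r : V → Module.End F2 Y} {k : ℕ} {z : Finset V → Y}
    (hz : z ∈ Ch (Sy (fun s => Cq G U s ∧ ¬ (x ∈ s ∧ u ∈ s)) (Function.update r x (r u))) (k + 1))
    (hk : psh x u z = 0) : MergeC_dn x u z ∈ Ch (MergeC_A G U x u r) k := by
  rw [mem_Ch]
  intro t
  by_cases ht : x ∈ t ∨ u ∈ t
  · unfold MergeC_dn
    rw [if_pos ht]
    exact ⟨Submodule.zero_mem _, fun _ => rfl⟩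
  · have hval : MergeC_dn x u z t = z (insert u t) := by
      unfold MergeC_dn
      rw [if_neg ht]
    rw [hval]
    push Not at ht
    obtain ⟨hxt, hut⟩ := ht
    have h1 : x ∉ insert u t := by
      rw [mem_insert]
      rintro (h | h)
      · exact hxu h
      · exact hxt h
    have h2 : z (insert u t) = z (insert x t) := by
      rw [MergeC_ker hk h1 (mem_insert_self _ _), erase_insert hut]
    obtain ⟨h3, h4⟩ := mem_Ch.1 hz (insert u t)
    obtain ⟨h5, -⟩ := mem_Ch.1 hz (insert x t)
    rw [mem_Sy] at h3 h5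
    refine ⟨⟨?_, ?_⟩, fun hc => h4 fun h6 => hc ?_⟩
    · refine mem_Sy.2 ⟨fun h => ?_, fun v hv => ?_⟩
      · by_contra hzn
        have hA : Cq G U (insert u t) := by
          by_contra hA
          exact hzn (h3.1 fun h' => hA h'.1)
        have hB : Cq G U (insert x t) := by
          by_contra hB
          exact hzn (h2.trans (h5.1 fun h' => hB h'.1))
        refine h ⟨?_, ?_⟩
        · intro a ha b hb hab
          exact hA.1 (mem_coe.2 (mem_insert_of_mem (mem_coe.1 ha)))
            (mem_coe.2 (mem_insert_of_mem (mem_coe.1 hb))) hab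
        · intro a ha
          rw [MergeC_lk]
          refine ⟨hA.2 (mem_insert_of_mem ha), ?_, ?_⟩
          · exact hB.1 (mem_coe.2 (mem_insert_self x t)) (mem_coe.2 (mem_insert_of_mem ha))
              fun e => hxt (e ▸ ha)
          · exact hA.1 (mem_coe.2 (mem_insert_self u t)) (mem_coe.2 (mem_insert_of_mem ha))
              fun e => hut (e ▸ ha)
      · have hvx : v ≠ x := fun e => hxt (e ▸ hv)
        have h6 := h3.2 v (mem_insert_of_mem hv)
        rwa [Function.update_of_ne hvx] at h6
    · refine mem_Inv.2 fun v hv => ?_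
      have hvu : v = u := mem_singleton.1 hv
      have h6 := h3.2 u (mem_insert_self u t)
      rw [Function.update_of_ne hxu.symm] at h6
      rw [hvu]
      exact h6
    · rw [card_insert_of_notMem hut] at h6
      omega

private theorem MergeC_K {G : SimpleGraph V} {U : Finset V} {x u : V} (hx : x ∈ U)
    (hu : u ∈ U) (hxu : x ≠ u) (r : V → Module.End F2 Y) (k : ℕ) :
    (Ch (MergeC_A G U x u r) k).map (MergeC_up x u) =
      Ch (Sy (fun s => Cq G U s ∧ ¬ (x ∈ s ∧ u ∈ s)) (Function.update r x (r u))) (k + 1) ⊓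
        LinearMap.ker (psh x u) := by
  apply le_antisymm
  · rintro _ ⟨w, hw, rfl⟩
    exact ⟨MergeC_mem hx hu r hw, MergeC_psh w⟩
  · rintro z ⟨hz, hk⟩
    exact ⟨MergeC_dn x u z, MergeC_dn_mem hxu hz hk, MergeC_dn_up hxu hz hk⟩

/-- the homology of the image of a map of complexes which shifts the degree -/
private theorem MergeC_hx {E E' : Type} [AddCommGroup E] [Module F2 E] [Finite E]
    [AddCommGroup E'] [Module F2 E'] [Finite E'] {d : Module.End F2 E} {d' : Module.End F2 E'}
    {C : ℕ → Submodule F2 E} {K : ℕ → Submodule F2 E'} (j : E →ₗ[F2] E')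
    (hK : ∀ k, (C k).map j = K (k + 1)) (hd : ∀ k, ∀ x ∈ C k, j (d x) = d' (j x))
    (hj : ∀ k, ∀ x ∈ C k, j x = 0 → x = 0) (hj' : ∀ k, ∀ x ∈ C k, j (d x) = 0 → d x = 0)
    (i : ℕ) : hx d' K (i + 1) = hx d C i := by
  have h1 : K (i + 1) ⊓ LinearMap.ker d' = (C i ⊓ LinearMap.ker d).map j := by
    rw [← hK i]
    ext y
    constructor
    · rintro ⟨⟨x, hx, rfl⟩, hk⟩
      refine ⟨x, ⟨hx, ?_⟩, rfl⟩
      have hk' : d' (j x) = 0 := hk
      exact LinearMap.mem_ker.2 (hj' i x hx (by rw [hd i x hx, hk']))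
    · rintro ⟨x, ⟨hx, hk⟩, rfl⟩
      refine ⟨⟨x, hx, rfl⟩, ?_⟩
      have hk' : d x = 0 := hk
      exact LinearMap.mem_ker.2 (by rw [← hd i x hx, hk', map_zero])
  have h2 : (K (i + 1 + 1)).map d' = ((C (i + 1)).map d).map j := by
    rw [← hK (i + 1)]
    ext y
    constructor
    · rintro ⟨_, ⟨x, hx, rfl⟩, rfl⟩
      exact ⟨d x, ⟨x, hx, rfl⟩, hd (i + 1) x hx⟩
    · rintro ⟨_, ⟨x, hx, rfl⟩, rfl⟩
      exact ⟨j x, ⟨x, hx, rfl⟩, (hd (i + 1) x hx).symm⟩
  have h3 := LinA_rank j (C i ⊓ LinearMap.ker d)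
  have h4 := LinA_rank j ((C (i + 1)).map d)
  have h5 : (C i ⊓ LinearMap.ker d) ⊓ LinearMap.ker j = ⊥ := by
    rw [eq_bot_iff]
    rintro x ⟨⟨hx, -⟩, hk⟩
    exact (Submodule.mem_bot F2).2 (hj i x hx hk)
  have h6 : (C (i + 1)).map d ⊓ LinearMap.ker j = ⊥ := by
    rw [eq_bot_iff]
    rintro _ ⟨⟨x, hx, rfl⟩, hk⟩
    exact (Submodule.mem_bot F2).2 (hj' (i + 1) x hx hk)
  rw [h5, finrank_bot, add_zero] at h3
  rw [h6, finrank_bot, add_zero] at h4
  rw [hx, hx]
  rw [h1, h2, h3, h4]

theorem merge_c {G : SimpleGraph V} {U : Finset V} {x u : V} (hx : x ∈ U) (hu : u ∈ U)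
    (hxu : x ≠ u) (hN : NoSq G U x u) (r : V → Module.End F2 Y) (i : ℕ) :
    hX (fun s => Cq G U s ∧ ¬ (x ∈ s ∧ u ∈ s)) (Function.update r x (r u)) (i + 1) ≤
      hX (Cq (merge G x u) (U.erase x)) r (i + 1) +
        hd (fun s => Sy (Cq G (lk2 G U x u)) r s ⊓ Inv r {u}) i := by
  have hM : ∀ s v, (Cq G U (insert v s) ∧ ¬ (x ∈ insert v s ∧ u ∈ insert v s)) →
      (Cq G U s ∧ ¬ (x ∈ s ∧ u ∈ s)) := by
    rintro s v ⟨h1, h2⟩
    exact ⟨mono_Cq G U s v h1, fun h => h2 ⟨mem_insert_of_mem h.1, mem_insert_of_mem h.2⟩⟩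
  have hC : IsCx dd (Ch (Sy (fun s => Cq G U s ∧ ¬ (x ∈ s ∧ u ∈ s))
      (Function.update r x (r u)))) := isCx_Ch (mono_Sy hM _)
  have key := hx_mid (d' := dd) hC (psh x u) (fun _ z _ => psh_dd hxu z) (i + 1)
  have e1 : (fun j => (Ch (Sy (fun s => Cq G U s ∧ ¬ (x ∈ s ∧ u ∈ s))
      (Function.update r x (r u))) j).map (psh x u)) =
      Ch (Sy (Cq (merge G x u) (U.erase x)) r) :=
    funext fun j => psh_map hx hu hxu hN r j _ (Or.inr fun _ => Iff.rfl)
  have e2 : GC.hx dd (fun j => Ch (Sy (fun s => Cq G U s ∧ ¬ (x ∈ s ∧ u ∈ s))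
      (Function.update r x (r u))) j ⊓ LinearMap.ker (psh x u)) (i + 1) =
      hd (fun s => Sy (Cq G (lk2 G U x u)) r s ⊓ Inv r {u}) i := by
    refine MergeC_hx (C := Ch (MergeC_A G U x u r)) (MergeC_up x u) ?_ ?_ ?_ ?_ i
    · exact fun k => MergeC_K hx hu hxu r k
    · exact fun k w hw => MergeC_dd hxu (MergeC_S_Ch hw)
    · exact fun k w hw h => MergeC_inj hxu (MergeC_S_Ch hw) h
    · exact fun k w hw h => MergeC_inj hxu (MergeC_S_dd (MergeC_S_Ch hw)) h
  rw [e1, e2] at key
  unfold hX hd
  unfold hd at key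
  linarith

end Pool.Agent.H73.GC
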