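import Pool.Agent.H73.GC.MergeA
import Pool.Agent.H73.GC.MergeB
import Pool.Agent.H73.GC.MergeC
import Pool.Agent.H73.GC.Half
import Pool.Agent.H73.GC.Prod2

/-!
# Growth calculus: identification of two vertices

`gz_two` for the graph `merge G x u`, `U.erase x` in degree `i + 1` and `lk2 G U x u` in degree `i`
(`gz_congr`) gives `Y`; the module for `G` is `Y × Y` with `dbl r x (r u)`, `dblE E x u true`. The bound:
`merge_a`; its first term by `merge_b` if `x`, `u` are adjacent, otherwise it is equal to the second term;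
`merge_c`; `hd_half` with the vertex `u` and `X = Cq G (lk2 G U x u)`.
-/

set_option autoImplicit false
set_option linter.unusedSectionVars false

open Finset

namespace Pool.Agent.H73.GC

variable {V : Type} [DecidableEq V] [Fintype V]

theorem gz_merge {G : SimpleGraph V} {U : Finset V} {x u : V} (hx : x ∈ U) (hu : u ∈ U)
    (hxu : x ≠ u) (hN : NoSq G U x u) {i : ℕ} (h₁ : GZ (merge G x u) (U.erase x) (i + 1))
    (h₂ : GZ G (lk2 G U x u) i) : GZ G U (i + 1) := by
  classical
  intro ε hε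
  have hlk : ∀ w, w ∈ lk2 G U x u ↔ w ∈ U ∧ G.Adj x w ∧ G.Adj u w := by
    intro w
    unfold lk2
    rw [mem_filter]
  have hU : lk2 G U x u ⊆ U.erase x := by
    intro w hw
    obtain ⟨h1, h2, _⟩ := (hlk w).1 hw
    exact mem_erase.2 ⟨h2.ne', h1⟩
  have huE : u ∈ U.erase x := mem_erase.2 ⟨hxu.symm, hu⟩
  have h₂' : GZ (merge G x u) (lk2 G U x u) i := by
    refine gz_congr (fun a ha b hb => ?_) h₂
    have hau : a ≠ u := ((hlk a).1 ha).2.2.ne'
    have hbu : b ≠ u := ((hlk b).1 hb).2.2.ne'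
    constructor
    · intro h
      exact ⟨h.ne, Or.inl h⟩
    · rintro ⟨_, h | ⟨h, _⟩ | ⟨h, _⟩⟩
      · exact h
      · exact absurd h hau
      · exact absurd h hbu
  obtain ⟨Y, iY1, iY2, iY3, r, E, hR, hB, hpos, hle1, hle2⟩ :=
    gz_two hU h₁ h₂' (ε / 2) (by positivity)
  have hG : ∀ a ∈ U.erase x, ∀ b ∈ U.erase x, G.Adj a b → (merge G x u).Adj a b :=
    fun a _ b _ hab => ⟨hab.ne, Or.inl hab⟩
  have hxa : ∀ w ∈ U.erase x, G.Adj x w → w = u ∨ (merge G x u).Adj u w := by
    intro w _ hw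
    by_cases hwu : w = u
    · exact Or.inl hwu
    · exact Or.inr ⟨fun h => hwu h.symm, Or.inr (Or.inl ⟨rfl, hw⟩)⟩
  have hN' : IsN G U (dbl r x (r u)) :=
    isN_dbl (G := G) (H := merge G x u) hR hG (r u) (Or.inr ⟨u, huE, rfl, hxa⟩)
  have hB' : IsBit G U (dbl r x (r u)) (dblE E x u true) := isBit_dbl huE hR hB hG hxa
  have hfr : Module.finrank F2 (Y × Y) = Module.finrank F2 Y + Module.finrank F2 Y :=
    Module.finrank_prod
  refine ⟨Y × Y, inferInstance, inferInstance, inferInstance, dbl r x (r u), dblE E x u true, hN',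
    hB', by omega, ?_⟩
  have hhalf := hd_half (mono_Cq G (lk2 G U x u)) (r := r) (E := E) (u := u) (fun s hs => ⟨fun hus =>
    ((hlk u).1 (hs.2 hus)).2.2.ne rfl, IsBit.bitOn hR hB ⟨?_, ?_⟩⟩) i
  · have h0 : (0 : ℤ) ≤ hX (Cq G (lk2 G U x u)) r i := hd_nonneg (mono_Sy (mono_Cq G _) r) i
    have h1 := merge_a hx hu hxu hR hB (i + 1)
    have h2 := merge_c hx hu hxu hN r i
    have h3 : hX (Cq G U) (Function.update r x (r u)) (i + 1) ≤
        hX (Cq (merge G x u) (U.erase x)) r (i + 1) +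
          hd (fun s => Sy (Cq G (lk2 G U x u)) r s ⊓ Inv r {u}) i := by
      by_cases hadj : G.Adj x u
      · have h4 := merge_b hx hu hadj hN r (i + 1)
        linarith
      · have h4 : hX (Cq G U) (Function.update r x (r u)) (i + 1) =
            hX (fun s => Cq G U s ∧ ¬ (x ∈ s ∧ u ∈ s)) (Function.update r x (r u)) (i + 1) := by
          refine hX_congr (fun s => ⟨fun hs => ⟨hs, fun hc => hadj ?_⟩, fun hs => hs.1⟩)
            (fun s _ v _ y => rfl) (i + 1)
          exact hs.1 (mem_coe.2 hc.1) (mem_coe.2 hc.2) hxu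
        rw [h4]
        exact h2
    have h5 : hX (Cq G U) (dbl r x (r u)) (i + 1) ≤
        2 * hX (Cq (merge G x u) (U.erase x)) r (i + 1) + hX (Cq G (lk2 G U x u)) r i := by
      linarith
    have h6 : (hX (Cq G U) (dbl r x (r u)) (i + 1) : ℝ) ≤
        2 * (hX (Cq (merge G x u) (U.erase x)) r (i + 1) : ℝ) +
          (hX (Cq G (lk2 G U x u)) r i : ℝ) := by
      exact_mod_cast h5
    have h7 : hX (Cq (merge G x u) (lk2 G U x u)) r i = hX (Cq G (lk2 G U x u)) r i := by
      refine hX_congr (fun s => ?_) (fun s _ v _ y => rfl) i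
      constructor
      · intro hs
        refine ⟨fun a ha b hb hab => ?_, hs.2⟩
        have hau : a ≠ u := ((hlk a).1 (hs.2 (mem_coe.1 ha))).2.2.ne'
        have hbu : b ≠ u := ((hlk b).1 (hs.2 (mem_coe.1 hb))).2.2.ne'
        rcases (hs.1 ha hb hab).2 with h | ⟨h, _⟩ | ⟨h, _⟩
        · exact h
        · exact absurd h hau
        · exact absurd h hbu
      · intro hs
        exact ⟨fun a ha b hb hab => ⟨hab, Or.inl (hs.1 ha hb hab)⟩, hs.2⟩
    rw [h7] at hle2
    have h8 : (0 : ℝ) ≤ ε * Module.finrank F2 Y := by positivity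
    rw [hfr]
    push_cast
    linarith
  · intro a ha b hb hab
    have ha' := mem_insert.1 (mem_coe.1 ha)
    have hb' := mem_insert.1 (mem_coe.1 hb)
    refine ⟨hab, Or.inl ?_⟩
    rcases ha' with ha' | ha'
    · rcases hb' with hb' | hb'
      · exact absurd (ha'.trans hb'.symm) hab
      · rw [ha']
        exact ((hlk b).1 (hs.2 hb')).2.2
    · rcases hb' with hb' | hb'
      · rw [hb']
        exact ((hlk a).1 (hs.2 ha')).2.2.symm
      · exact hs.1 (mem_coe.2 ha') (mem_coe.2 hb') hab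
  · intro w hw
    rcases mem_insert.1 hw with hw | hw
    · rw [hw]
      exact huE
    · exact hU (hs.2 hw)

end Pool.Agent.H73.GC
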