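import Pool.Agent.H73.GC.SysA

/-!
# Growth calculus: removing simplices and links

`R f s = f (e ∪ s)` if `s` is disjoint from `e`, otherwise `0`; `R (dd f) = dd (R f)`; the kernel of `R` on
`Ch A j` is `Ch (del e A) j`, the image of `Ch A (i + e.card)` is `Ch (res e A) i`. `hx_mid`, `hx_sub`.
-/

set_option autoImplicit false
set_option linter.unusedSectionVars false

open Finset

namespace Pool.Agent.H73.GC

variable {V : Type} [DecidableEq V] [Fintype V]
variable {Y : Type} [AddCommGroup Y] [Module F2 Y] [Finite Y]

theorem mono_del {A : Finset V → Submodule F2 Y} (hA : Mono A) (e : Finset V) :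
    Mono (del e A) := by
  rintro s v y ⟨h1, h2⟩
  exact ⟨hA s v h1, fun h => h2 (h.trans (subset_insert v s))⟩

theorem mono_res {A : Finset V → Submodule F2 Y} (hA : Mono A) (e : Finset V) :
    Mono (res e A) := by
  rintro s v y ⟨h1, h2⟩
  refine ⟨hA (e ∪ s) v ?_, fun h => h2 fun h3 => h ?_⟩
  · rwa [union_insert] at h1
  · exact h3.mono_right (subset_insert v s)

/-- the restriction to the simplices containing `e` -/
private def Res_R (e : Finset V) : (Finset V → Y) →ₗ[F2] (Finset V → Y) where
  toFun f s := if Disjoint e s then f (e ∪ s) else 0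
  map_add' f g := by
    funext s
    by_cases h : Disjoint e s
    · simp only [if_pos h, Pi.add_apply]
    · simp only [if_neg h, Pi.add_apply, add_zero]
  map_smul' c f := by
    funext s
    by_cases h : Disjoint e s
    · simp only [if_pos h, Pi.smul_apply, RingHom.id_apply]
    · simp only [if_neg h, Pi.smul_apply, smul_zero]

private theorem Res_pos {e s : Finset V} (h : Disjoint e s) (f : Finset V → Y) :
    Res_R e f s = f (e ∪ s) := if_pos h

private theorem Res_neg {e s : Finset V} (h : ¬ Disjoint e s) (f : Finset V → Y) :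
    Res_R e f s = 0 := if_neg h

private theorem Res_dd (e : Finset V) (f : Finset V → Y) : Res_R e (dd f) = dd (Res_R e f) := by
  funext s
  rw [dd_apply]
  by_cases h : Disjoint e s
  · rw [Res_pos h, dd_apply]
    refine Finset.sum_subset_zero_on_sdiff ?_ ?_ ?_
    · intro v hv
      rw [mem_compl, mem_union, not_or] at hv
      exact mem_compl.2 hv.2
    · intro v hv
      rw [mem_sdiff, mem_compl, mem_compl, mem_union, not_not] at hv
      refine Res_neg (fun h2 => ?_) f
      have h3 : v ∈ e := hv.2.resolve_right hv.1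
      exact disjoint_left.1 h2 h3 (mem_insert_self v s)
    · intro v hv
      rw [mem_compl, mem_union, not_or] at hv
      have h2 : Disjoint e (insert v s) := by
        rw [disjoint_insert_right]
        exact ⟨hv.1, h⟩
      rw [Res_pos h2, union_insert]
  · rw [Res_neg h]
    refine (Finset.sum_eq_zero fun v _ => Res_neg (fun h2 => h ?_) f).symm
    exact h2.mono_right (subset_insert v s)

private theorem Res_ker (A : Finset V → Submodule F2 Y) (e : Finset V) (j : ℕ) :
    Ch A j ⊓ LinearMap.ker (Res_R e) = Ch (del e A) j := by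
  ext f
  constructor
  · rintro ⟨h1, h2⟩ s
    refine ⟨⟨(h1 s).1, fun h => ?_⟩, (h1 s).2⟩
    have h3 : Res_R e f (s \ e) = 0 := congrFun (LinearMap.mem_ker.1 h2) (s \ e)
    rwa [Res_pos disjoint_sdiff, union_sdiff_of_subset h] at h3
  · intro h
    refine ⟨fun s => ⟨(h s).1.1, (h s).2⟩, LinearMap.mem_ker.2 (funext fun s => ?_)⟩
    by_cases hs : Disjoint e s
    · rw [Res_pos hs]
      exact (h (e ∪ s)).1.2 subset_union_left
    · exact Res_neg hs f

private theorem Res_map (A : Finset V → Submodule F2 Y) (e : Finset V) (i : ℕ) :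
    (Ch A (i + e.card)).map (Res_R e) = Ch (res e A) i := by
  ext g
  constructor
  · rintro ⟨f, hf, rfl⟩ s
    by_cases hs : Disjoint e s
    · rw [Res_pos hs]
      refine ⟨⟨(hf _).1, fun h => absurd hs h⟩, fun h => (hf _).2 ?_⟩
      rw [card_union_of_disjoint hs]
      omega
    · rw [Res_neg hs]
      exact ⟨Submodule.zero_mem _, fun _ => rfl⟩
  · intro hg
    refine ⟨fun t => if e ⊆ t then g (t \ e) else 0, fun t => ?_, funext fun s => ?_⟩
    · dsimp only
      by_cases ht : e ⊆ t
      · rw [if_pos ht]
        have h1 := (hg (t \ e)).1.1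
        rw [union_sdiff_of_subset ht] at h1
        refine ⟨h1, fun h => (hg (t \ e)).2 ?_⟩
        rw [card_sdiff_of_subset ht]
        have := card_le_card ht
        omega
      · rw [if_neg ht]
        exact ⟨Submodule.zero_mem _, fun _ => rfl⟩
    · by_cases hs : Disjoint e s
      · rw [Res_pos hs, if_pos subset_union_left, union_sdiff_cancel_left hs]
      · rw [Res_neg hs]
        exact ((hg s).1.2 hs).symm

private theorem Res_hxc (d : Module.End F2 (Finset V → Y)) (C C' : ℕ → Submodule F2 (Finset V → Y))
    (i i' : ℕ) (h0 : C i = C' i') (h1 : C (i + 1) = C' (i' + 1)) : hx d C i = hx d C' i' := by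
  unfold hx
  rw [h0, h1]

private theorem Res_hx (A : Finset V → Submodule F2 Y) (e : Finset V) (i : ℕ) :
    hx dd (fun j => (Ch A j).map (Res_R e)) (i + e.card) = hd (res e A) i := by
  refine Res_hxc dd _ _ _ _ (Res_map A e i) ?_
  have h := Res_map A e (i + 1)
  rwa [show i + 1 + e.card = i + e.card + 1 by omega] at h

private theorem Res_hk (A : Finset V → Submodule F2 Y) (e : Finset V) (i : ℕ) :
    hx dd (fun j => Ch A j ⊓ LinearMap.ker (Res_R e)) i = hd (del e A) i := by
  unfold hd
  rw [show (fun j => Ch A j ⊓ LinearMap.ker (Res_R e)) = Ch (del e A) from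
    funext fun j => Res_ker A e j]

theorem hd_res {A : Finset V → Submodule F2 Y} (hA : Mono A) (e : Finset V) (i : ℕ) :
    hd A (i + e.card) ≤ hd (del e A) (i + e.card) + hd (res e A) i := by
  have h := hx_mid (isCx_Ch hA) (Res_R e) (fun _ x _ => Res_dd e x) (i + e.card)
  rwa [Res_hx, Res_hk] at h

theorem hd_del {A : Finset V → Submodule F2 Y} (hA : Mono A) (e : Finset V) (i m : ℕ)
    (hm : m + 1 = i + e.card) : hd (del e A) m ≤ hd A m + hd (res e A) i := by
  have h := hx_sub (isCx_Ch hA) (Res_R e) (fun _ x _ => Res_dd e x) m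
  rwa [hm, Res_hx, Res_hk] at h

end Pool.Agent.H73.GC
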