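import Pool.Agent.H73.GC.Half
import Pool.Agent.H73.GC.Res
import Pool.Agent.H73.GC.Prod2

/-!
# Growth calculus: removing a vertex, the other direction

`gz_two` for `U` and `lk G U v` (both in degree `i`) gives `Y`. `hd_del` with `e = {v}` and
`A = Sy (Cq G U) r`: `del {v} A` is the system of `U.erase v`, and `res {v} A` consists of the vectors in
`Sy (Cq G (lk G U v)) r` which are invariant under `r v`; `hd_half`.
-/

set_option autoImplicit false
set_option linter.unusedSectionVars false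

open Finset

namespace Pool.Agent.H73.GC

variable {V : Type} [DecidableEq V] [Fintype V]

theorem gz_rem {G : SimpleGraph V} {U : Finset V} {v : V} (hv : v ∈ U) {i : ℕ}
    (h₁ : GZ G U i) (h₂ : GZ G (lk G U v) i) : GZ G (U.erase v) i := by
  classical
  intro ε hε
  have hlk : ∀ w, w ∈ lk G U v ↔ w ∈ U ∧ G.Adj v w := by
    intro w
    unfold lk
    rw [mem_filter]
  have hU : lk G U v ⊆ U := fun w hw => ((hlk w).1 hw).1
  obtain ⟨Y, iY1, iY2, iY3, r, E, hN, hB, hpos, hle1, hle2⟩ :=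
    gz_two hU h₁ h₂ (ε / 2) (by positivity)
  have hN' : IsN G (U.erase v) r := by
    refine ⟨fun w hw => hN.sq w (mem_of_mem_erase hw),
      fun u hu w hw => hN.comm u (mem_of_mem_erase hu) w (mem_of_mem_erase hw), ?_⟩
    obtain ⟨n, F, hF, h0, hn, hr⟩ := hN.fil
    exact ⟨n, F, hF, h0, hn, fun j w hw => hr j w (mem_of_mem_erase hw)⟩
  have hB' : IsBit G (U.erase v) r E :=
    ⟨fun w hw => hB.idem w (mem_of_mem_erase hw), fun w hw => hB.bit w (mem_of_mem_erase hw),
      fun u hu w hw => hB.er u (mem_of_mem_erase hu) w (mem_of_mem_erase hw),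
      fun u hu w hw => hB.ee u (mem_of_mem_erase hu) w (mem_of_mem_erase hw)⟩
  refine ⟨Y, iY1, iY2, iY3, r, E, hN', hB', hpos, ?_⟩
  have hmono : Mono (Sy (Cq G U) r) := mono_Sy (mono_Cq G U) _
  have h1 := hd_del hmono {v} i i (by rw [card_singleton])
  have e1 : del {v} (Sy (Cq G U) r) = Sy (Cq G (U.erase v)) r := by
    funext s
    ext y
    show (y ∈ Sy (Cq G U) r s ∧ ({v} ⊆ s → y = 0)) ↔ _
    rw [mem_Sy, mem_Sy]
    constructor
    · rintro ⟨⟨h2, h3⟩, h4⟩
      refine ⟨fun hc => ?_, h3⟩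
      by_cases hs : v ∈ s
      · exact h4 (singleton_subset_iff.2 hs)
      · refine h2 fun h5 => hc ⟨h5.1, fun w hw => mem_erase.2 ⟨fun e => hs (e ▸ hw), h5.2 hw⟩⟩
    · rintro ⟨h2, h3⟩
      refine ⟨⟨fun hc => h2 fun h5 => hc ⟨h5.1, fun w hw => mem_of_mem_erase (h5.2 hw)⟩, h3⟩, ?_⟩
      intro hs
      exact h2 fun h5 => notMem_erase v U (h5.2 (singleton_subset_iff.1 hs))
  -- cliques in the link
  have hcl : ∀ s, Cq G (lk G U v) s → v ∉ s ∧ Cq G U (insert v s) := by
    intro s hs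
    have hvs : v ∉ s := fun h => ((hlk v).1 (hs.2 h)).2.ne rfl
    refine ⟨hvs, ?_, ?_⟩
    · rw [coe_insert]
      exact hs.1.insert fun b hb _ => ((hlk b).1 (hs.2 (mem_coe.1 hb))).2
    · exact insert_subset hv fun w hw => ((hlk w).1 (hs.2 hw)).1
  have e2 : res {v} (Sy (Cq G U) r) = fun s => Sy (Cq G (lk G U v)) r s ⊓ Inv r {v} := by
    funext s
    ext y
    show (y ∈ Sy (Cq G U) r ({v} ∪ s) ∧ (¬ Disjoint {v} s → y = 0)) ↔ _
    rw [mem_Sy, Submodule.mem_inf, mem_Sy, mem_Inv, disjoint_singleton_left, not_not]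
    constructor
    · rintro ⟨⟨h2, h3⟩, h4⟩
      refine ⟨⟨fun hc => ?_, fun w hw => h3 w (mem_union_right _ hw)⟩,
        fun w hw => h3 w (mem_union_left _ hw)⟩
      by_cases hs : v ∈ s
      · exact h4 hs
      · refine h2 fun h6 => hc ⟨fun a ha b hb hab => h6.1 (mem_coe.2 (mem_union_right _
          (mem_coe.1 ha))) (mem_coe.2 (mem_union_right _ (mem_coe.1 hb))) hab, fun w hw => ?_⟩
        refine (hlk w).2 ⟨h6.2 (mem_union_right _ hw), h6.1 (mem_coe.2 (mem_union_left _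
          (mem_singleton_self v))) (mem_coe.2 (mem_union_right _ hw)) fun e => hs (e ▸ hw)⟩
    · rintro ⟨⟨h2, h3⟩, h4⟩
      refine ⟨⟨fun hc => h2 fun h6 => hc ?_, fun w hw => ?_⟩, fun hs => ?_⟩
      · rw [← insert_eq]
        exact (hcl s h6).2
      · rcases mem_union.1 hw with hw | hw
        · exact h4 w hw
        · exact h3 w hw
      · exact h2 fun h6 => (hcl s h6).1 hs
  have h2 := hd_half (X := Cq G (lk G U v)) (mono_Cq G _) (r := r) (E := E) (u := v)
    (fun s hs => ⟨(hcl s hs).1, IsBit.bitOn hN hB (hcl s hs).2⟩) i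
  rw [e1, e2] at h1
  have h3 : (hX (Cq G (U.erase v)) r i : ℝ) ≤ hX (Cq G U) r i +
      (hd (fun s => Sy (Cq G (lk G U v)) r s ⊓ Inv r {v}) i : ℝ) := by
    exact_mod_cast h1
  have h4 : 2 * (hd (fun s => Sy (Cq G (lk G U v)) r s ⊓ Inv r {v}) i : ℝ) =
      hX (Cq G (lk G U v)) r i := by
    exact_mod_cast h2
  have h5 : (0 : ℝ) < Module.finrank F2 Y := by exact_mod_cast hpos
  have h6 : 0 < ε * (Module.finrank F2 Y : ℝ) := by positivity
  linarith

end Pool.Agent.H73.GC
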