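import Pool.Agent.H73.GC.Defs

/-!
# Growth calculus: unipotent modules
-/

set_option autoImplicit false
set_option linter.unusedSectionVars false

open Finset

namespace Pool.Agent.H73.GC

variable {V : Type} [DecidableEq V] [Fintype V]
variable {Y : Type} [AddCommGroup Y] [Module F2 Y]

private theorem Fil_self (y : Y) : y + y = 0 := by
  have h : (2 : F2) • y = y + y := two_smul F2 y
  have h2 : (2 : F2) = 0 := by decide
  rw [← h, h2, zero_smul]

private theorem Fil_cancel {y z : Y} (h : y + z = 0) : z = y := by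
  have := Fil_self y
  calc z = (y + y) + z := by rw [this, zero_add]
    _ = y + (y + z) := by rw [add_assoc]
    _ = y := by rw [h, add_zero]

/-- the filtration of a group action -/
private def FilF {P : Type} [Group P] (ρ : P →* Module.End F2 Y) : ℕ → Submodule F2 Y
  | 0 => ⊥
  | j + 1 => ⨅ p : P, (FilF ρ j).comap ((1 : Module.End F2 Y) + ρ p)

private theorem FilF_succ {P : Type} [Group P] (ρ : P →* Module.End F2 Y) (j : ℕ) (y : Y) :
    y ∈ FilF ρ (j + 1) ↔ ∀ p : P, y + ρ p y ∈ FilF ρ j := by
  simp only [FilF, Submodule.mem_iInf, Submodule.mem_comap, LinearMap.add_apply,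
    Module.End.one_apply]

private theorem FilF_stab {P : Type} [Group P] (ρ : P →* Module.End F2 Y) (j : ℕ) (q : P) (y : Y)
    (hy : y ∈ FilF ρ j) : ρ q y ∈ FilF ρ j := by
  cases j with
  | zero =>
    have h0 : y = 0 := by simpa [FilF] using hy
    rw [h0, map_zero]
    exact Submodule.zero_mem _
  | succ j =>
    rw [FilF_succ] at hy ⊢
    intro p
    have h1 := hy q
    have h2 := hy (p * q)
    have h3 := Submodule.add_mem _ h1 h2
    have h4 : y + ρ q y + (y + ρ (p * q) y) = ρ q y + ρ p (ρ q y) := by
      rw [map_mul, Module.End.mul_apply]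
      have := Fil_self y
      calc y + ρ q y + (y + ρ p (ρ q y)) = (y + y) + (ρ q y + ρ p (ρ q y)) := by abel
        _ = ρ q y + ρ p (ρ q y) := by rw [this, zero_add]
    rwa [h4] at h3

private theorem FilF_mono {P : Type} [Group P] (ρ : P →* Module.End F2 Y) : Monotone (FilF ρ) := by
  refine monotone_nat_of_le_succ fun j y hy => ?_
  rw [FilF_succ]
  intro p
  exact Submodule.add_mem _ hy (FilF_stab ρ j p y hy)

private theorem FilF_lt {P : Type} [Group P] [Finite P] (hP : IsPGroup 2 P) [Finite Y]
    (ρ : P →* Module.End F2 Y) (j : ℕ) (hj : FilF ρ j ≠ ⊤) : FilF ρ j < FilF ρ (j + 1) := by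
  refine lt_of_le_of_ne (FilF_mono ρ (Nat.le_succ j)) fun heq => ?_
  let _ : MulAction P (Y ⧸ FilF ρ j) :=
    { smul := fun p => Submodule.mapQ (FilF ρ j) (FilF ρ j) (ρ p) (fun y hy => FilF_stab ρ j p y hy)
      one_smul := by
        intro q
        obtain ⟨y, rfl⟩ := Submodule.mkQ_surjective _ q
        change Submodule.mapQ (FilF ρ j) (FilF ρ j) (ρ 1) _ (Submodule.mkQ _ y) = Submodule.mkQ _ y
        rw [Submodule.mkQ_apply, Submodule.mapQ_apply, map_one, Module.End.one_apply]
      mul_smul := by
        intro a b q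
        obtain ⟨y, rfl⟩ := Submodule.mkQ_surjective _ q
        change Submodule.mapQ (FilF ρ j) (FilF ρ j) (ρ (a * b)) _ (Submodule.mkQ _ y) =
          Submodule.mapQ (FilF ρ j) (FilF ρ j) (ρ a) _
            (Submodule.mapQ (FilF ρ j) (FilF ρ j) (ρ b) _ (Submodule.mkQ _ y))
        rw [Submodule.mkQ_apply, Submodule.mapQ_apply, Submodule.mapQ_apply, Submodule.mapQ_apply,
          map_mul, Module.End.mul_apply] }
  have hsm : ∀ (p : P) (y : Y), p • (Submodule.Quotient.mk y : Y ⧸ FilF ρ j) =
      Submodule.Quotient.mk (ρ p y) := by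
    intro p y
    change Submodule.mapQ (FilF ρ j) (FilF ρ j) (ρ p) _ (Submodule.Quotient.mk y) = _
    rw [Submodule.mapQ_apply]
  have : Finite (Y ⧸ FilF ρ j) := Finite.of_surjective _ (Submodule.mkQ_surjective _)
  obtain ⟨x, hx⟩ : ∃ x : Y, x ∉ FilF ρ j := by
    by_contra hcon
    push Not at hcon
    exact hj (Submodule.eq_top_iff'.mpr hcon)
  have hx0 : (Submodule.Quotient.mk x : Y ⧸ FilF ρ j) ≠ 0 := by
    intro h
    exact hx ((Submodule.Quotient.mk_eq_zero _).mp h)
  have hdvd : 2 ∣ Nat.card (Y ⧸ FilF ρ j) := by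
    have h2 : addOrderOf (Submodule.Quotient.mk x : Y ⧸ FilF ρ j) = 2 := by
      apply addOrderOf_eq_prime _ hx0
      rw [two_nsmul]
      exact Fil_self _
    have h3 := addOrderOf_dvd_natCard (Submodule.Quotient.mk x : Y ⧸ FilF ρ j)
    rwa [h2] at h3
  have : Fact (Nat.Prime 2) := ⟨Nat.prime_two⟩
  have hfix : (0 : Y ⧸ FilF ρ j) ∈ MulAction.fixedPoints P (Y ⧸ FilF ρ j) := by
    intro p
    have := hsm p 0
    rw [map_zero] at this
    exact this
  obtain ⟨b, hb, hb0⟩ := hP.exists_fixed_point_of_prime_dvd_card_of_fixed_point _ hdvd hfix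
  obtain ⟨y, rfl⟩ := Submodule.Quotient.mk_surjective _ b
  have hy : y ∈ FilF ρ (j + 1) := by
    rw [FilF_succ]
    intro p
    have h1 := hb p
    rw [hsm] at h1
    have h2 : (Submodule.Quotient.mk (y + ρ p y) : Y ⧸ FilF ρ j) = 0 := by
      rw [Submodule.Quotient.mk_add, h1]
      exact Fil_self _
    exact (Submodule.Quotient.mk_eq_zero _).mp h2
  rw [← heq] at hy
  exact hb0 ((Submodule.Quotient.mk_eq_zero _).mpr hy).symm

/-- Modules over finite two-groups: `F 0 = 0`, `F (j + 1)` = the vectors `y` with `y + ρ p y ∈ F j` for all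
`p : P`; if `F j` is not everything, then `F (j + 1)` is larger (a two-group acting on the finite quotient
`Y / F j` has a fixed vector besides `0`, `IsPGroup.card_modEq_card_fixedPoints`). -/
theorem fil_group {P : Type} [Group P] [Finite P] (hP : IsPGroup 2 P) [Finite Y]
    (ρ : P →* Module.End F2 Y) (U : Finset V) (r : V → Module.End F2 Y) (g : V → P)
    (hg : ∀ v ∈ U, r v = ρ (g v)) : Fil U r := by
  have : Module.Finite F2 Y := Module.Finite.of_finite
  have hgrow : ∀ j, FilF ρ j = ⊤ ∨ j ≤ Module.finrank F2 (FilF ρ j) := by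
    intro j
    induction j with
    | zero => exact Or.inr (Nat.zero_le _)
    | succ j ih =>
      by_cases hj : FilF ρ j = ⊤
      · left
        exact top_le_iff.mp (hj ▸ FilF_mono ρ (Nat.le_succ j))
      · right
        have h1 : j ≤ Module.finrank F2 (FilF ρ j) := ih.resolve_left hj
        have h2 := Submodule.finrank_lt_finrank_of_lt (FilF_lt hP ρ j hj)
        omega
  have htop : FilF ρ (Module.finrank F2 Y) = ⊤ := by
    rcases hgrow (Module.finrank F2 Y) with h | h
    · exact h
    · exact Submodule.eq_top_of_finrank_eq (le_antisymm (Submodule.finrank_le _) h)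
  refine ⟨Module.finrank F2 Y, FilF ρ, FilF_mono ρ, rfl, htop, ?_⟩
  intro j v hv y hy
  rw [hg v hv]
  exact (FilF_succ ρ j y).mp hy (g v)

/-- A unipotent module which is not zero has an invariant vector. -/
theorem exists_fixed {U : Finset V} {r : V → Module.End F2 Y} (h : Fil U r) [Nontrivial Y] :
    ∃ y : Y, y ≠ 0 ∧ ∀ v ∈ U, r v y = y := by
  classical
  obtain ⟨n, F, -, h0, hn, hF⟩ := h
  have hex : ∃ j, F j ≠ ⊥ := ⟨n, by rw [hn]; exact top_ne_bot⟩
  have hj := Nat.find_spec hex
  have hmin := fun m => Nat.find_min hex (m := m)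
  revert hj hmin
  generalize Nat.find hex = j
  intro hj hmin
  cases j with
  | zero => exact absurd h0 hj
  | succ k =>
    have hk : F k = ⊥ := by
      by_contra hcon
      exact hmin k (Nat.lt_succ_self k) hcon
    obtain ⟨y, hy, hy0⟩ := Submodule.exists_mem_ne_zero_of_ne_bot hj
    refine ⟨y, hy0, fun v hv => ?_⟩
    have h1 := hF k v hv y hy
    rw [hk, Submodule.mem_bot] at h1
    exact Fil_cancel h1

private theorem Fil_sq (M : Module.End F2 Y) : (1 + M) ^ 2 = 1 + M ^ 2 := by
  have h : M + M = 0 := by
    ext y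
    exact Fil_self _
  have h1 : (1 + M) ^ 2 = 1 + (M + M) + M ^ 2 := by
    rw [pow_two, pow_two, add_mul, mul_add, mul_add, one_mul, one_mul, mul_one]
    abel
  rw [h1, h, add_zero]

private theorem Fil_pow (M : Module.End F2 Y) (n : ℕ) : (1 + M) ^ (2 ^ n) = 1 + M ^ (2 ^ n) := by
  induction n with
  | zero => simp
  | succ n ih => rw [pow_succ, pow_mul, ih, Fil_sq, ← pow_mul]

/-- the involutions as units -/
private def FilU {U : Finset V} {r : V → Module.End F2 Y} (h : ∀ v ∈ U, ∀ y, r v (r v y) = y) (v : V)
    (hv : v ∈ U) : (Module.End F2 Y)ˣ where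
  val := r v
  inv := r v
  val_inv := by
    ext y
    exact h v hv y
  inv_val := by
    ext y
    exact h v hv y

/-- The involutions of a unipotent finite module generate a finite two-group: there are a finite
two-group `P`, a representation `ρ` and elements `g v` with `g v * g v = 1`, commuting for the edges, with
`ρ (g v) = r v` for `v ∈ U` and `g v = 1` for `v ∉ U`. (`P` = the subgroup of the units of `Module.End F2 Y`
generated by the `r v`, `v ∈ U`; every element `p` of it satisfies `(p + 1) (F (j + 1)) ≤ F j`, so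
`(p + 1) ^ n = 0` and `p ^ (2 ^ n) = 1`.) -/
theorem exists_group [Finite Y] {G : SimpleGraph V} {U : Finset V} {r : V → Module.End F2 Y}
    (h : IsN G U r) : ∃ (P : Type) (_ : Group P) (_ : Finite P) (ρ : P →* Module.End F2 Y)
      (g : V → P), IsPGroup 2 P ∧ (∀ v ∈ U, ρ (g v) = r v) ∧ (∀ v ∉ U, g v = 1) ∧
        (∀ v, g v * g v = 1) ∧ ∀ u ∈ U, ∀ v ∈ U, G.Adj u v → g u * g v = g v * g u := by
  classical
  obtain ⟨n, F, hmono, h0, hn, hF⟩ := h.fil
  set gen : Set (Module.End F2 Y)ˣ := {u | ∃ (v : V) (hv : v ∈ U), u = FilU h.sq v hv} with hgen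
  have hprop : ∀ u ∈ Subgroup.closure gen, ∀ j, ∀ y ∈ F (j + 1),
      y + (u : Module.End F2 Y) y ∈ F j := by
    intro u hu
    induction hu using Subgroup.closure_induction'' with
    | mem x hx =>
      obtain ⟨v, hv, rfl⟩ := hx
      intro j y hy
      exact hF j v hv y hy
    | inv_mem x hx =>
      obtain ⟨v, hv, rfl⟩ := hx
      intro j y hy
      exact hF j v hv y hy
    | one =>
      intro j y hy
      rw [Units.val_one, Module.End.one_apply, Fil_self]
      exact Submodule.zero_mem _
    | mul x y hx hy ihx ihy =>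
      intro j z hz
      rw [Units.val_mul, Module.End.mul_apply]
      have h1 := ihx j z hz
      have h2 := ihy j z hz
      have h3 : (z + (y : Module.End F2 Y) z) +
          (x : Module.End F2 Y) (z + (y : Module.End F2 Y) z) ∈ F j := by
        cases j with
        | zero =>
          have hz0 : z + (y : Module.End F2 Y) z = 0 := by
            rw [h0] at h2
            exact (Submodule.mem_bot _).mp h2
          rw [hz0, map_zero, add_zero]
          exact Submodule.zero_mem _
        | succ j => exact hmono (Nat.le_succ j) (ihx j _ h2)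
      have h4 := Submodule.add_mem _ (Submodule.add_mem _ h1 h2) h3
      have h5 : z + (x : Module.End F2 Y) z + (z + (y : Module.End F2 Y) z) +
          (z + (y : Module.End F2 Y) z + (x : Module.End F2 Y) (z + (y : Module.End F2 Y) z)) =
          z + (x : Module.End F2 Y) ((y : Module.End F2 Y) z) := by
        rw [map_add]
        have e1 := Fil_self z
        have e2 := Fil_self ((x : Module.End F2 Y) z)
        have e3 := Fil_self ((y : Module.End F2 Y) z)
        calc z + (x : Module.End F2 Y) z + (z + (y : Module.End F2 Y) z) +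
          (z + (y : Module.End F2 Y) z + ((x : Module.End F2 Y) z +
            (x : Module.End F2 Y) ((y : Module.End F2 Y) z))) =
            (z + z) + ((x : Module.End F2 Y) z + (x : Module.End F2 Y) z) +
              ((y : Module.End F2 Y) z + (y : Module.End F2 Y) z) +
              (z + (x : Module.End F2 Y) ((y : Module.End F2 Y) z)) := by abel
          _ = z + (x : Module.End F2 Y) ((y : Module.End F2 Y) z) := by
            rw [e1, e2, e3, zero_add, zero_add, zero_add]
      rwa [h5] at h4
  have : Finite (Module.End F2 Y) :=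
    Finite.of_injective (fun f : Module.End F2 Y => (f : Y → Y)) DFunLike.coe_injective
  refine ⟨Subgroup.closure gen, inferInstance, inferInstance,
    (Units.coeHom _).comp (Subgroup.closure gen).subtype,
    fun v => if hv : v ∈ U then ⟨FilU h.sq v hv, Subgroup.subset_closure ⟨v, hv, rfl⟩⟩ else 1,
    ?_, ?_, ?_, ?_, ?_⟩
  · rintro ⟨u, hu⟩
    refine ⟨n, ?_⟩
    apply Subtype.ext
    apply Units.ext
    change (u : Module.End F2 Y) ^ (2 ^ n) = 1
    set M : Module.End F2 Y := 1 + (u : Module.End F2 Y) with hM
    have hu1 : (u : Module.End F2 Y) = 1 + M := by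
      ext y
      rw [hM]
      change (u : Module.End F2 Y) y = y + (y + (u : Module.End F2 Y) y)
      rw [← add_assoc, Fil_self, zero_add]
    have hMk : ∀ k, ∀ y ∈ F k, (M ^ k) y = 0 := by
      intro k
      induction k with
      | zero =>
        intro y hy
        rw [h0, Submodule.mem_bot] at hy
        rw [hy, map_zero]
      | succ k ih =>
        intro y hy
        rw [pow_succ, Module.End.mul_apply]
        exact ih _ (hprop u hu k y hy)
    have hMn : M ^ n = 0 := by
      ext y
      exact hMk n y (by rw [hn]; exact Submodule.mem_top)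
    rw [hu1, Fil_pow, pow_eq_zero_of_le (Nat.lt_two_pow_self (n := n)).le hMn, add_zero]
  · intro v hv
    simp only [dif_pos hv]
    rfl
  · intro v hv
    simp only [dif_neg hv]
  · intro v
    by_cases hv : v ∈ U
    · simp only [dif_pos hv]
      apply Subtype.ext
      apply Units.ext
      ext y
      exact h.sq v hv y
    · simp only [dif_neg hv, mul_one]
  · intro u hu v hv huv
    simp only [dif_pos hu, dif_pos hv]
    apply Subtype.ext
    apply Units.ext
    ext y
    exact h.comm u hu v hv huv y

end Pool.Agent.H73.GC
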