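import Pool.Agent.H73.GC.SuspA
import Pool.Agent.H73.GC.Fil

/-!
# Growth calculus: suspensions

The module: the functions `f (j, c)`, `j : ZMod (2 ^ (m + 1))`, `c : V → ZMod 2`; `a` acts by `j ↦ -1 - j`, `b` by
`j ↦ 1 - j`, the other vertices `w` by `c ↦ c + e_w`; the projection of `a` and of `b` is the restriction to
even `j`, the projection of `w` the restriction to `c w = 0`. A function which is invariant under `a` and `b`
does not depend on `j`. The group is the product of a dihedral group and an elementary abelian one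
(`fil_group`).
-/

set_option autoImplicit false
set_option linter.unusedSectionVars false

open Finset

namespace Pool.Agent.H73.GC

variable {V : Type} [DecidableEq V] [Fintype V]

section SuspB_section

/-- the index set -/
abbrev SuspB_X (V : Type) (m : ℕ) : Type := ZMod (2 ^ (m + 1)) × (V → ZMod 2)

/-- the group -/
abbrev SuspB_P (V : Type) (m : ℕ) : Type :=
  DihedralGroup (2 ^ (m + 1)) × Multiplicative (V → ZMod 2)

/-- the action of the dihedral group -/
def SuspB_act {m : ℕ} (d : DihedralGroup (2 ^ (m + 1))) (j : ZMod (2 ^ (m + 1))) :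
    ZMod (2 ^ (m + 1)) :=
  match d with
  | .r i => j + i
  | .sr i => -j - i

theorem SuspB_act_mul {m : ℕ} (d e : DihedralGroup (2 ^ (m + 1))) (j : ZMod (2 ^ (m + 1))) :
    SuspB_act (d * e) j = SuspB_act d (SuspB_act e j) := by
  rcases d with i | i <;> rcases e with k | k <;>
    simp only [DihedralGroup.r_mul_r, DihedralGroup.r_mul_sr, DihedralGroup.sr_mul_r,
      DihedralGroup.sr_mul_sr, SuspB_act] <;> ring

theorem SuspB_act_one {m : ℕ} (j : ZMod (2 ^ (m + 1))) :
    SuspB_act (1 : DihedralGroup (2 ^ (m + 1))) j = j := by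
  show j + 0 = j
  rw [add_zero]

/-- the action of the group -/
def SuspB_sig {m : ℕ} (p : SuspB_P V m) (x : SuspB_X V m) : SuspB_X V m :=
  (SuspB_act p.1 x.1, x.2 + p.2.toAdd)

theorem SuspB_sig_mul {m : ℕ} (p q : SuspB_P V m) (x : SuspB_X V m) :
    SuspB_sig (p * q) x = SuspB_sig p (SuspB_sig q x) := by
  refine Prod.ext (SuspB_act_mul _ _ _) ?_
  show x.2 + (p.2 * q.2).toAdd = x.2 + q.2.toAdd + p.2.toAdd
  rw [toAdd_mul]
  abel

theorem SuspB_sig_one {m : ℕ} (x : SuspB_X V m) : SuspB_sig (1 : SuspB_P V m) x = x := by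
  refine Prod.ext (SuspB_act_one _) ?_
  show x.2 + (0 : V → ZMod 2) = x.2
  rw [add_zero]

variable (V) in
/-- the representation -/
def SuspB_rho (m : ℕ) : SuspB_P V m →* Module.End F2 (SuspB_X V m → F2) where
  toFun p := LinearMap.funLeft F2 F2 (SuspB_sig p⁻¹)
  map_one' := by
    refine LinearMap.ext fun f => funext fun x => ?_
    show f (SuspB_sig (1 : SuspB_P V m)⁻¹ x) = f x
    rw [inv_one, SuspB_sig_one]
  map_mul' p q := by
    refine LinearMap.ext fun f => funext fun x => ?_
    show f (SuspB_sig (p * q)⁻¹ x) = f (SuspB_sig q⁻¹ (SuspB_sig p⁻¹ x))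
    rw [mul_inv_rev, SuspB_sig_mul]

theorem SuspB_rho_apply {m : ℕ} (p : SuspB_P V m) (f : SuspB_X V m → F2) (x : SuspB_X V m) :
    SuspB_rho V m p f x = f (SuspB_sig p⁻¹ x) := rfl

theorem SuspB_pgroup (m : ℕ) : IsPGroup 2 (SuspB_P V m) := by
  refine IsPGroup.of_card (n := m + 2 + Fintype.card V) ?_
  rw [Nat.card_prod, DihedralGroup.nat_card]
  have h : Nat.card (Multiplicative (V → ZMod 2)) = 2 ^ Fintype.card V := by
    rw [Nat.card_congr Multiplicative.toAdd, Nat.card_eq_fintype_card, Fintype.card_fun, ZMod.card]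
  rw [h]
  ring

/-- multiplication by an indicator function -/
def SuspB_E {X : Type} (k : X → ZMod 2) : Module.End F2 (X → F2) where
  toFun f x := if k x = 0 then f x else 0
  map_add' f g := by
    funext x
    by_cases h : k x = 0 <;> simp [h]
  map_smul' c f := by
    funext x
    by_cases h : k x = 0 <;> simp [h]

theorem SuspB_E_apply {X : Type} (k : X → ZMod 2) (f : X → F2) (x : X) :
    SuspB_E k f x = if k x = 0 then f x else 0 := rfl

theorem SuspB_idem {X : Type} (k : X → ZMod 2) (f : X → F2) :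
    SuspB_E k (SuspB_E k f) = SuspB_E k f := by
  funext x
  simp only [SuspB_E_apply]
  split_ifs <;> rfl

theorem SuspB_comm {X : Type} (k l : X → ZMod 2) (f : X → F2) :
    SuspB_E k (SuspB_E l f) = SuspB_E l (SuspB_E k f) := by
  funext x
  simp only [SuspB_E_apply]
  split_ifs <;> rfl

theorem SuspB_two (t : ZMod 2) : t = 0 ∨ t = 1 := by
  revert t
  decide

theorem SuspB_bit {m : ℕ} (k : SuspB_X V m → ZMod 2) (p : SuspB_P V m)
    (h : ∀ x, k (SuspB_sig p⁻¹ x) = k x + 1) (f : SuspB_X V m → F2) :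
    SuspB_E k (SuspB_rho V m p f) + SuspB_rho V m p (SuspB_E k f) = SuspB_rho V m p f := by
  funext x
  simp only [Pi.add_apply, SuspB_E_apply, SuspB_rho_apply, h]
  rcases SuspB_two (k x) with h0 | h0
  · rw [h0, if_pos rfl, if_neg (by decide), add_zero]
  · rw [h0, if_neg (by decide), if_pos (by decide), zero_add]

theorem SuspB_er {m : ℕ} (k : SuspB_X V m → ZMod 2) (p : SuspB_P V m)
    (h : ∀ x, k (SuspB_sig p⁻¹ x) = k x) (f : SuspB_X V m → F2) :
    SuspB_E k (SuspB_rho V m p f) = SuspB_rho V m p (SuspB_E k f) := by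
  funext x
  simp only [SuspB_E_apply, SuspB_rho_apply, h]

/-- the group elements of the vertices -/
def SuspB_g (a b : V) (m : ℕ) (v : V) : SuspB_P V m :=
  if v = a then (.sr 1, 1) else if v = b then (.sr (-1), 1) else
    (1, Multiplicative.ofAdd (Pi.single v 1))

theorem SuspB_g_sq (a b : V) (m : ℕ) (v : V) : SuspB_g a b m v * SuspB_g a b m v = 1 := by
  unfold SuspB_g
  split_ifs
  · refine Prod.ext ?_ (one_mul 1)
    exact DihedralGroup.sr_mul_self _
  · refine Prod.ext ?_ (one_mul 1)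
    exact DihedralGroup.sr_mul_self _
  · refine Prod.ext (one_mul 1) ?_
    show Multiplicative.ofAdd (Pi.single v 1 : V → ZMod 2) *
      Multiplicative.ofAdd (Pi.single v 1 : V → ZMod 2) = 1
    rw [← ofAdd_add, ← Pi.single_add]
    have : (1 : ZMod 2) + 1 = 0 := by decide
    rw [this, Pi.single_zero, ofAdd_zero]

theorem SuspB_g_inv (a b : V) (m : ℕ) (v : V) : (SuspB_g a b m v)⁻¹ = SuspB_g a b m v :=
  inv_eq_of_mul_eq_one_right (SuspB_g_sq a b m v)

theorem SuspB_g_comm {G : SimpleGraph V} {a b : V} (hn : ¬ G.Adj a b) (m : ℕ) {u v : V}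
    (h : G.Adj u v) : SuspB_g a b m u * SuspB_g a b m v = SuspB_g a b m v * SuspB_g a b m u := by
  unfold SuspB_g
  by_cases hua : u = a
  · subst hua
    by_cases hvb : v = b
    · subst hvb
      exact absurd h hn
    · rw [if_pos rfl, if_neg h.ne', if_neg hvb]
      refine Prod.ext ?_ (mul_comm _ _)
      rw [Prod.fst_mul, Prod.fst_mul, one_mul, mul_one]
  · by_cases hub : u = b
    · subst hub
      by_cases hva : v = a
      · subst hva
        exact absurd h.symm hn
      · rw [if_neg hua, if_pos rfl, if_neg hva, if_neg h.ne']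
        refine Prod.ext ?_ (mul_comm _ _)
        rw [Prod.fst_mul, Prod.fst_mul, one_mul, mul_one]
    · rw [if_neg hua, if_neg hub]
      refine Prod.ext ?_ (mul_comm _ _)
      rw [Prod.fst_mul, Prod.fst_mul, one_mul, mul_one]

/-- parity -/
def SuspB_par (m : ℕ) : ZMod (2 ^ (m + 1)) →+* ZMod 2 :=
  ZMod.castHom (dvd_pow_self 2 (Nat.succ_ne_zero m)) (ZMod 2)

/-- the key functions -/
def SuspB_key (a b : V) (m : ℕ) (v : V) (x : SuspB_X V m) : ZMod 2 :=
  if v = a ∨ v = b then SuspB_par m x.1 else x.2 v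

theorem SuspB_key_self {a b : V} (m : ℕ) (v : V) (x : SuspB_X V m) :
    SuspB_key a b m v (SuspB_sig (SuspB_g a b m v)⁻¹ x) = SuspB_key a b m v x + 1 := by
  rw [SuspB_g_inv]
  unfold SuspB_key SuspB_g
  by_cases hva : v = a
  · subst hva
    rw [if_pos (Or.inl rfl), if_pos (Or.inl rfl), if_pos rfl]
    show SuspB_par m (-x.1 - 1) = SuspB_par m x.1 + 1
    rw [map_sub, map_neg, map_one]
    rcases SuspB_two (SuspB_par m x.1) with h | h <;> rw [h] <;> decide
  · by_cases hvb : v = b
    · subst hvb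
      rw [if_pos (Or.inr rfl), if_pos (Or.inr rfl), if_neg hva, if_pos rfl]
      show SuspB_par m (-x.1 - (-1)) = SuspB_par m x.1 + 1
      rw [map_sub, map_neg, map_neg, map_one]
      rcases SuspB_two (SuspB_par m x.1) with h | h <;> rw [h] <;> decide
    · have hor : ¬ (v = a ∨ v = b) := by tauto
      rw [if_neg hor, if_neg hor, if_neg hva, if_neg hvb]
      show (x.2 + (Pi.single v 1 : V → ZMod 2)) v = x.2 v + 1
      rw [Pi.add_apply, Pi.single_eq_same]

theorem SuspB_key_adj {G : SimpleGraph V} {a b : V} (hab : a ≠ b) (hn : ¬ G.Adj a b) (m : ℕ)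
    {u v : V} (h : G.Adj u v) (x : SuspB_X V m) :
    SuspB_key a b m u (SuspB_sig (SuspB_g a b m v)⁻¹ x) = SuspB_key a b m u x := by
  rw [SuspB_g_inv]
  unfold SuspB_key SuspB_g
  by_cases hu : u = a ∨ u = b
  · rw [if_pos hu, if_pos hu]
    have hva : v ≠ a := by
      rintro rfl
      rcases hu with rfl | rfl
      · exact h.ne rfl
      · exact hn h.symm
    have hvb : v ≠ b := by
      rintro rfl
      rcases hu with rfl | rfl
      · exact hn h
      · exact h.ne rfl
    rw [if_neg hva, if_neg hvb]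
    show SuspB_par m (SuspB_act 1 x.1) = SuspB_par m x.1
    rw [SuspB_act_one]
  · rw [if_neg hu, if_neg hu]
    split_ifs with hva hvb
    · show (x.2 + (0 : V → ZMod 2)) u = x.2 u
      rw [add_zero]
    · show (x.2 + (0 : V → ZMod 2)) u = x.2 u
      rw [add_zero]
    · show (x.2 + (Pi.single v 1 : V → ZMod 2)) u = x.2 u
      rw [Pi.add_apply, Pi.single_eq_of_ne h.ne, add_zero]

theorem SuspB_const {N : ℕ} [NeZero N] (f : ZMod N → F2) (h1 : ∀ j, f (-j - 1) = f j)
    (h2 : ∀ j, f (-j - (-1)) = f j) (j : ZMod N) : f j = f 0 := by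
  have h3 : ∀ j, f (j + 2) = f j := by
    intro j
    have e1 := h2 (-j - 1)
    rw [h1 j] at e1
    rw [← e1]
    congr 1
    ring
  have h4 : f 1 = f 0 := by
    have e1 := h3 (-1)
    have e2 := h1 0
    rw [neg_zero, zero_sub] at e2
    rw [← e2, ← e1]
    congr 1
    ring
  have h5 : ∀ k : ℕ, f (k : ZMod N) = f 0 ∧ f ((k + 1 : ℕ) : ZMod N) = f 0 := by
    intro k
    induction k with
    | zero =>
      rw [Nat.cast_zero, zero_add, Nat.cast_one]
      exact ⟨rfl, h4⟩
    | succ k ih =>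
      refine ⟨ih.2, ?_⟩
      rw [← ih.1, ← h3 (k : ZMod N)]
      congr 1
      push_cast
      ring
  have h6 := (h5 j.val).1
  rwa [ZMod.natCast_zmod_val] at h6

end SuspB_section

theorem susp_mod {G : SimpleGraph V} {U : Finset V} {a b : V} (hab : a ≠ b) (hn : ¬ G.Adj a b)
    (m : ℕ) : ∃ (Y : Type) (_ : AddCommGroup Y) (_ : Module F2 Y) (_ : Finite Y)
      (r E : V → Module.End F2 Y), IsN G U r ∧ IsBit G U r E ∧ 0 < Module.finrank F2 Y ∧
        2 ^ m * Module.finrank F2 (Inv r {a, b}) ≤ Module.finrank F2 Y := by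
  have hfr : Module.finrank F2 (SuspB_X V m → F2) = 2 ^ (m + 1) * 2 ^ Fintype.card V := by
    rw [Module.finrank_fintype_fun_eq_card, Fintype.card_prod, ZMod.card, Fintype.card_fun,
      ZMod.card]
  refine ⟨SuspB_X V m → F2, inferInstance, inferInstance, inferInstance,
    fun v => SuspB_rho V m (SuspB_g a b m v), fun v => SuspB_E (SuspB_key a b m v),
    ⟨?_, ?_, ?_⟩, ⟨?_, ?_, ?_, ?_⟩, ?_, ?_⟩
  · intro v _ y
    show (SuspB_rho V m (SuspB_g a b m v) * SuspB_rho V m (SuspB_g a b m v)) y = y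
    rw [← map_mul, SuspB_g_sq, map_one]
    rfl
  · intro u _ v _ huv y
    show (SuspB_rho V m (SuspB_g a b m u) * SuspB_rho V m (SuspB_g a b m v)) y =
      (SuspB_rho V m (SuspB_g a b m v) * SuspB_rho V m (SuspB_g a b m u)) y
    rw [← map_mul, ← map_mul, SuspB_g_comm hn m huv]
  · exact fil_group (SuspB_pgroup m) (SuspB_rho V m) U _ (SuspB_g a b m) fun v _ => rfl
  · exact fun v _ y => SuspB_idem _ y
  · exact fun v _ y => SuspB_bit _ _ (SuspB_key_self m v) y
  · exact fun u _ v _ huv y => SuspB_er _ _ (SuspB_key_adj hab hn m huv) y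
  · exact fun u _ v _ _ y => SuspB_comm _ _ y
  · rw [hfr]
    positivity
  · have hle : Module.finrank F2 (Inv (fun v => SuspB_rho V m (SuspB_g a b m v)) {a, b}) ≤
        2 ^ Fintype.card V := by
      have hf2 : Module.finrank F2 ((V → ZMod 2) → F2) = 2 ^ Fintype.card V := by
        rw [Module.finrank_fintype_fun_eq_card, Fintype.card_fun, ZMod.card]
      rw [← hf2]
      refine LinearMap.finrank_le_finrank_of_injective (f :=
        (LinearMap.funLeft F2 F2 (fun c : V → ZMod 2 => ((0, c) : SuspB_X V m))) ∘ₗ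
          (Inv (fun v => SuspB_rho V m (SuspB_g a b m v)) {a, b}).subtype) ?_
      intro f g hfg
      have hconst : ∀ f : Inv (fun v => SuspB_rho V m (SuspB_g a b m v)) {a, b},
          ∀ j c, f.1 (j, c) = f.1 (0, c) := by
        intro f j c
        refine SuspB_const (fun j => f.1 (j, c)) ?_ ?_ j
        · intro j
          have h1 := congrFun (f.2 a (by simp)) (j, c)
          rw [SuspB_rho_apply, SuspB_g_inv] at h1
          have h2 : SuspB_sig (SuspB_g a b m a) (j, c) = (-j - 1, c) := by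
            unfold SuspB_g
            rw [if_pos rfl]
            refine Prod.ext rfl ?_
            show c + (0 : V → ZMod 2) = c
            rw [add_zero]
          rwa [h2] at h1
        · intro j
          have h1 := congrFun (f.2 b (by simp)) (j, c)
          rw [SuspB_rho_apply, SuspB_g_inv] at h1
          have h2 : SuspB_sig (SuspB_g a b m b) (j, c) = (-j - (-1), c) := by
            unfold SuspB_g
            rw [if_neg hab.symm, if_pos rfl]
            refine Prod.ext rfl ?_
            show c + (0 : V → ZMod 2) = c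
            rw [add_zero]
          rwa [h2] at h1
      apply Subtype.ext
      funext x
      obtain ⟨j, c⟩ := x
      rw [hconst f j c, hconst g j c]
      exact congrFun hfg c
    rw [hfr]
    exact Nat.mul_le_mul (Nat.pow_le_pow_right (by omega) (Nat.le_succ m)) hle

theorem gz_susp {G : SimpleGraph V} {U : Finset V} {a b : V} (ha : a ∈ U) (hb : b ∈ U)
    (hab : a ≠ b) (hn : ¬ G.Adj a b) (h : ∀ w ∈ U, w ≠ a → w ≠ b → G.Adj a w ∧ G.Adj b w)
    (i : ℕ) : GZ G U i := by
  intro ε hε
  obtain ⟨m, hm⟩ := exists_nat_gt ((2 : ℝ) ^ (Fintype.card V + 1) / ε)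
  obtain ⟨Y, i1, i2, i3, r, E, hN, hB, hpos, hle⟩ := susp_mod (G := G) (U := U) hab hn m
  refine ⟨Y, i1, i2, i3, r, E, hN, hB, hpos, ?_⟩
  have h1 := susp_le ha hb hab hn h hN hB i
  have h2 : (hX (Cq G U) r i : ℝ) ≤
      2 ^ (Fintype.card V + 1) * (Module.finrank F2 (Inv r {a, b}) : ℝ) := by
    exact_mod_cast h1
  have h3 : (2 : ℝ) ^ m * (Module.finrank F2 (Inv r {a, b}) : ℝ) ≤ (Module.finrank F2 Y : ℝ) := by
    exact_mod_cast hle
  have h4 : (m : ℝ) < 2 ^ m := by exact_mod_cast Nat.lt_two_pow_self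
  have h5 : (2 : ℝ) ^ (Fintype.card V + 1) ≤ ε * 2 ^ m := by
    rw [div_lt_iff₀ hε] at hm
    nlinarith
  have h6 : (0 : ℝ) ≤ (Module.finrank F2 (Inv r {a, b}) : ℝ) := Nat.cast_nonneg _
  calc (hX (Cq G U) r i : ℝ)
      ≤ 2 ^ (Fintype.card V + 1) * (Module.finrank F2 (Inv r {a, b}) : ℝ) := h2
    _ ≤ ε * 2 ^ m * (Module.finrank F2 (Inv r {a, b}) : ℝ) := mul_le_mul_of_nonneg_right h5 h6
    _ = ε * (2 ^ m * (Module.finrank F2 (Inv r {a, b}) : ℝ)) := by ring
    _ ≤ ε * Module.finrank F2 Y := mul_le_mul_of_nonneg_left h3 hε.le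

end Pool.Agent.H73.GC
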