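import Pool.Agent.H73.GC.Vk1
import Pool.Agent.H73.GC.SysA
import Pool.Agent.H73.GC.SysB
import Pool.Agent.H73.GC.Fil
import Pool.Agent.H73.GC.Prod2

/-!
# Growth calculus: complexes with vanishing van Kampen obstruction

For `k + 1 < i` use `gz_high`. For `i = k + 1` let `P`, `D` be given by `small_two` for the induced graph; the module
is `P → F2`, `(r v f) p = f (p * g v)` for `v ∈ U`, `r v = 1` for `v ∉ U`, the projection of `v ∈ U` is the
restriction to `b p v = 0`; `fil_group` for `P`. There are no chains of degree `k + 2`, so `hX` is the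
dimension of the cycles, and a cycle on the subsets of `U` is a cycle on the subsets of the subtype.
-/

set_option autoImplicit false
set_option linter.unusedSectionVars false

open Finset

namespace Pool.Agent.H73.GC

open Pool.Agent.H77.SW Pool.Agent.H85.VK

variable {V : Type} [DecidableEq V] [Fintype V]

/-- the right regular representation -/
private def Vk2_rho (P : Type) [Group P] : P →* Module.End F2 (P → F2) where
  toFun q :=
    { toFun := fun f p => f (p * q)
      map_add' := fun _ _ => rfl
      map_smul' := fun _ _ => rfl }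
  map_one' := by
    ext f p
    simp
  map_mul' q q' := by
    apply LinearMap.ext
    intro f
    funext p
    show f (p * (q * q')) = f (p * q * q')
    rw [mul_assoc]

/-- the restriction to the elements with vanishing bit -/
private def Vk2_E {W : Type} {P : Type} (b : P → W → ZMod 2) (w : W) : Module.End F2 (P → F2) where
  toFun f p := if b p w = 0 then f p else 0
  map_add' f g := by
    funext p
    simp only [Pi.add_apply]
    split_ifs <;> simp
  map_smul' c f := by
    funext p
    simp only [Pi.smul_apply, RingHom.id_apply]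
    split_ifs <;> simp

private theorem Vk2_two (a : ZMod 2) : a + 1 = 0 ↔ a ≠ 0 := by
  revert a
  decide

theorem gz_vk {G : SimpleGraph V} {U : Finset V} (k : ℕ)
    (hdim : ∀ s : Finset V, Cq G U s → s.card ≤ k + 1)
    (hvk : VanKampenZero (G.comap (Subtype.val : {v // v ∈ U} → V)) k) {i : ℕ} (hi : k < i) :
    GZ G U i := by
  classical
  rcases Nat.lt_or_ge (k + 1) i with h | h
  · exact gz_high fun s hs he => by
      have := hdim s hs
      omega
  obtain rfl : i = k + 1 := by omega
  intro ε hε
  let e : {v // v ∈ U} ↪ V := Function.Embedding.subtype _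
  have he : ∀ w, e w = w.1 := fun _ => rfl
  have hcl : ∀ σ : Finset {v // v ∈ U}, Cq G U (σ.map e) ↔
      (G.comap (Subtype.val : {v // v ∈ U} → V)).IsClique (σ : Set {v // v ∈ U}) := by
    intro σ
    constructor
    · rintro ⟨h1, -⟩ a ha b hb hab
      exact h1 (by simpa [e] using ha) (by simpa [e] using hb) fun h => hab (Subtype.ext h)
    · intro h1
      refine ⟨?_, fun v hv => ?_⟩
      · intro a ha b hb hab
        rw [Finset.mem_coe, Finset.mem_map] at ha hb
        obtain ⟨a', ha', rfl⟩ := ha
        obtain ⟨b', hb', rfl⟩ := hb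
        exact h1 ha' hb' fun h => hab (congrArg e h)
      · obtain ⟨w, -, rfl⟩ := Finset.mem_map.1 hv
        exact w.2
  obtain ⟨P, hP, hfin, D, hD⟩ := small_two (G.comap (Subtype.val : {v // v ∈ U} → V)) k
    (fun σ hσ => by
      have h1 := hdim _ ((hcl σ).2 hσ)
      rwa [Finset.card_map] at h1) hvk ε hε
  let r : V → Module.End F2 (P → F2) := fun v => if h : v ∈ U then Vk2_rho P (D.g ⟨v, h⟩) else 1
  let E : V → Module.End F2 (P → F2) := fun v => if h : v ∈ U then Vk2_E D.b ⟨v, h⟩ else 1
  have hr : ∀ v (h : v ∈ U) f p, r v f p = f (p * D.g ⟨v, h⟩) := by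
    intro v h f p
    simp only [r, dif_pos h]
    rfl
  have hE : ∀ v (h : v ∈ U) f p, E v f p = if D.b p ⟨v, h⟩ = 0 then f p else 0 := by
    intro v h f p
    simp only [E, dif_pos h]
    rfl
  refine ⟨P → F2, inferInstance, inferInstance, inferInstance, r, E, ⟨?_, ?_, ?_⟩,
    ⟨?_, ?_, ?_, ?_⟩, ?_, ?_⟩
  · intro v hv y
    funext p
    rw [hr v hv, hr v hv, mul_assoc, D.sq, mul_one]
  · intro u hu v hv huv y
    funext p
    rw [hr u hu, hr v hv, hr v hv, hr u hu, mul_assoc, mul_assoc]
    rw [D.comm ⟨u, hu⟩ ⟨v, hv⟩ huv]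
  · exact fil_group D.two (Vk2_rho P) U r (fun v => if h : v ∈ U then D.g ⟨v, h⟩ else 1)
      (fun v hv => by simp only [r, dif_pos hv])
  · intro v hv y
    funext p
    rw [hE v hv, hE v hv]
    split_ifs <;> rfl
  · intro v hv y
    funext p
    rw [Pi.add_apply, hE v hv, hr v hv, hr v hv, hE v hv, D.b_mul, D.b_g, if_pos rfl]
    by_cases h0 : D.b p ⟨v, hv⟩ = 0
    · rw [if_pos h0, if_neg (fun h => (Vk2_two _).1 h h0), add_zero]
    · rw [if_neg h0, if_pos ((Vk2_two _).2 h0), zero_add]
  · intro u hu v hv huv y
    funext p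
    have hne : (⟨v, hv⟩ : {v // v ∈ U}) ≠ ⟨u, hu⟩ := fun h => huv.ne' (congrArg Subtype.val h)
    rw [hE u hu, hr v hv, hr v hv, hE u hu, D.b_mul, D.b_g, if_neg hne, add_zero]
  · intro u hu v hv _ y
    funext p
    rw [hE u hu, hE v hv, hE v hv, hE u hu]
    split_ifs <;> rfl
  · rw [Module.finrank_fintype_fun_eq_card]
    exact Fintype.card_pos
  · rw [Module.finrank_fintype_fun_eq_card]
    refine le_trans ?_ hD
    have hkey : hX (Cq G U) r (k + 1) ≤ (dz (ZMod 2) (k + 1) D : ℤ) := by
      have hle : Module.finrank F2 (Ch (Sy (Cq G U) r) (k + 1) ⊓ LinearMap.ker dd :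
          Submodule F2 (Finset V → P → F2)) ≤ dz (ZMod 2) (k + 1) D := by
        have hmem : ∀ z ∈ (Ch (Sy (Cq G U) r) (k + 1) ⊓ LinearMap.ker dd :
            Submodule F2 (Finset V → P → F2)), (fun σ => z (σ.map e)) ∈
              Zs (ZMod 2) (G.comap (Subtype.val : {v // v ∈ U} → V)) (k + 1)
                (rP (ZMod 2) D) := by
          rintro z ⟨hz1, hz2⟩
          have hz1' : ∀ s, z s ∈ Sy (Cq G U) r s ∧ (s.card ≠ k + 1 → z s = 0) := hz1
          refine mem_Zs.2 ⟨fun σ hσ => ⟨?_, ?_⟩, fun σ v hv => ?_, fun κ => ?_⟩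
          · refine (hcl σ).1 ?_
            by_contra hn
            exact hσ ((hz1' (σ.map e)).1.1 hn)
          · by_contra hn
            exact hσ ((hz1' (σ.map e)).2 (by rwa [Finset.card_map]))
          · have h1 := (hz1' (σ.map e)).1.2 v.1 (Finset.mem_map.2 ⟨v, hv, rfl⟩)
            funext p
            have h2 := congrFun h1 p
            rw [hr v.1 v.2] at h2
            exact h2
          · have h1 : dd z (κ.map e) = 0 := congrFun (LinearMap.mem_ker.1 hz2) (κ.map e)
            rw [dd_apply] at h1
            rw [← h1]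
            have h2 : ∑ v ∈ κᶜ, z ((insert v κ).map e) =
                ∑ v ∈ κᶜ.map e, z (insert v (κ.map e)) := by
              rw [Finset.sum_map]
              refine Finset.sum_congr rfl fun v _ => ?_
              rw [Finset.map_insert]
            rw [h2]
            refine Finset.sum_subset ?_ ?_
            · intro v hv
              obtain ⟨w, hw, rfl⟩ := Finset.mem_map.1 hv
              rw [Finset.mem_compl] at hw ⊢
              intro h3
              exact hw ((Finset.mem_map' e).1 h3)
            · intro v hv hv'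
              refine (hz1' _).1.1 fun hc => hv' ?_
              have hvU : v ∈ U := hc.2 (Finset.mem_insert_self _ _)
              refine Finset.mem_map.2 ⟨⟨v, hvU⟩, ?_, rfl⟩
              rw [Finset.mem_compl] at hv ⊢
              intro h3
              exact hv (Finset.mem_map.2 ⟨⟨v, hvU⟩, h3, rfl⟩)
        let L : (Ch (Sy (Cq G U) r) (k + 1) ⊓ LinearMap.ker dd :
            Submodule F2 (Finset V → P → F2)) →ₗ[F2]
              Zs (ZMod 2) (G.comap (Subtype.val : {v // v ∈ U} → V)) (k + 1) (rP (ZMod 2) D) :=
          { toFun := fun z => ⟨fun σ => z.1 (σ.map e), hmem z.1 z.2⟩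
            map_add' := fun _ _ => rfl
            map_smul' := fun _ _ => rfl }
        have hL : Function.Injective L := by
          rw [← LinearMap.ker_eq_bot, Submodule.eq_bot_iff]
          intro z hz
          have hz' : ∀ σ : Finset {v // v ∈ U}, z.1 (σ.map e) = 0 := fun σ =>
            congrFun (congrArg Subtype.val (LinearMap.mem_ker.1 hz)) σ
          apply Subtype.ext
          funext s
          by_cases hs : s ⊆ U
          · have h1 : (s.subtype (fun v => v ∈ U)).map e = s :=
              Finset.subtype_map_of_mem hs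
            have h2 := hz' (s.subtype (fun v => v ∈ U))
            rw [h1] at h2
            exact h2
          · exact (z.2.1 s).1.1 fun hc => hs hc.2
        exact LinearMap.finrank_le_finrank_of_injective hL
      unfold hX hd hx
      have h0 : (0 : ℤ) ≤ (Module.finrank F2
          ((Ch (Sy (Cq G U) r) (k + 1 + 1)).map dd) : ℤ) := Int.natCast_nonneg _
      have h1 : (Module.finrank F2 (Ch (Sy (Cq G U) r) (k + 1) ⊓ LinearMap.ker dd :
          Submodule F2 (Finset V → P → F2)) : ℤ) ≤ (dz (ZMod 2) (k + 1) D : ℤ) := by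
        exact_mod_cast hle
      linarith
    exact_mod_cast hkey

end Pool.Agent.H73.GC
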