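import Pool.Agent.H73.GC.Del
import Pool.Agent.H73.GC.Rem
import Pool.Agent.H73.GC.Glue
import Pool.Agent.H73.GC.Merge
import Pool.Agent.H73.GC.SuspB
import Pool.Agent.H73.GC.Vk2
import Pool.Agent.H73.GC.Cone
import Pool.Agent.H73.GC.Bridge

/-!
# Growth calculus: the inductive class
-/

set_option autoImplicit false
set_option linter.unusedSectionVars false

open Finset

namespace Pool.Agent.H73.GC

open Pool.Agent.H85.VK

variable {V : Type} [DecidableEq V] [Fintype V]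

/-- the class of flag complexes with the threshold `t` -/
inductive Good : SimpleGraph V → Finset V → ℕ → Prop
  | empty (G : SimpleGraph V) : Good G ∅ 1
  | susp (G : SimpleGraph V) (U : Finset V) (a b : V) (ha : a ∈ U) (hb : b ∈ U) (hab : a ≠ b)
      (hn : ¬ G.Adj a b) (h : ∀ w ∈ U, w ≠ a → w ≠ b → G.Adj a w ∧ G.Adj b w) : Good G U 0
  | vk (G : SimpleGraph V) (U : Finset V) (k : ℕ) (hdim : ∀ s : Finset V, Cq G U s → s.card ≤ k + 1)
      (hvk : VanKampenZero (G.comap (Subtype.val : {v // v ∈ U} → V)) k) : Good G U (k + 1)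
  | cone (G : SimpleGraph V) (U : Finset V) (v : V) (t : ℕ) (hv : v ∉ U)
      (h : ∀ w ∈ U, G.Adj v w) (h₁ : Good G U t) : Good G (insert v U) t
  | del (G : SimpleGraph V) (U : Finset V) (v : V) (t : ℕ) (hv : v ∈ U)
      (h₁ : Good G (U.erase v) (t + 1)) (h₂ : Good G (lk G U v) t) : Good G U (t + 1)
  | rem (G : SimpleGraph V) (U : Finset V) (v : V) (t : ℕ) (hv : v ∈ U)
      (h₁ : Good G U t) (h₂ : Good G (lk G U v) t) : Good G (U.erase v) t
  | ident (G : SimpleGraph V) (U : Finset V) (x u : V) (t : ℕ) (hx : x ∈ U) (hu : u ∈ U)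
      (hxu : x ≠ u) (hN : NoSq G U x u) (h₁ : Good (merge G x u) (U.erase x) (t + 1))
      (h₂ : Good G (lk2 G U x u) t) : Good G U (t + 1)
  | glue (G G₁ G₂ : SimpleGraph V) (A B : Finset V) (c c' : V) (t : ℕ) (hcA : c ∉ A) (hcB : c' ∉ B)
      (hno : ∀ a ∈ A, a ∉ B → ∀ b ∈ B, b ∉ A → ¬ G.Adj a b)
      (h1 : ∀ a ∈ A, ∀ b ∈ A, G₁.Adj a b ↔ G.Adj a b) (hc1 : ∀ a ∈ A, G₁.Adj c a ↔ a ∈ B)
      (h2 : ∀ a ∈ B, ∀ b ∈ B, G₂.Adj a b ↔ G.Adj a b) (hc2 : ∀ a ∈ B, G₂.Adj c' a ↔ a ∈ A)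
      (h₁ : Good G₁ (insert c A) t) (h₂ : Good G₂ (insert c' B) t) : Good G (A ∪ B) t
  | congr (G G' : SimpleGraph V) (U : Finset V) (t : ℕ)
      (h : ∀ a ∈ U, ∀ b ∈ U, G.Adj a b ↔ G'.Adj a b) (h₁ : Good G U t) : Good G' U t
  | le (G : SimpleGraph V) (U : Finset V) (t t' : ℕ) (ht : t ≤ t') (h₁ : Good G U t) : Good G U t'

theorem Good.gz {G : SimpleGraph V} {U : Finset V} {t : ℕ} (h : Good G U t) :
    ∀ i, t ≤ i → GZ G U i := by
  induction h with
  | empty G =>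
    intro i hi
    refine gz_high fun s hs hc => ?_
    have h1 : s = ∅ := subset_empty.1 hs.2
    rw [h1, card_empty] at hc
    omega
  | susp G U a b ha hb hab hn h => exact fun i _ => gz_susp ha hb hab hn h i
  | vk G U k hdim hvk => exact fun i hi => gz_vk k hdim hvk hi
  | cone G U v t hv h _ ih => exact fun i hi => gz_cone hv h (ih i hi)
  | del G U v t hv _ _ ih₁ ih₂ =>
    intro i hi
    obtain ⟨i, rfl⟩ : ∃ j, i = j + 1 := ⟨i - 1, by omega⟩
    exact gz_del hv (ih₁ _ hi) (ih₂ _ (by omega))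
  | rem G U v t hv _ _ ih₁ ih₂ => exact fun i hi => gz_rem hv (ih₁ i hi) (ih₂ i hi)
  | glue G G₁ G₂ A B c c' t hcA hcB hno h1 hc1 h2 hc2 _ _ ih₁ ih₂ =>
    exact fun i hi => gz_glue hcA hcB hno h1 hc1 h2 hc2 (ih₁ i hi) (ih₂ i hi)
  | congr G G' U t h _ ih => exact fun i hi => gz_congr h (ih i hi)
  | ident G U x u t hx hu hxu hN _ _ ih₁ ih₂ =>
    intro i hi
    obtain ⟨i, rfl⟩ : ∃ j, i = j + 1 := ⟨i - 1, by omega⟩
    exact gz_merge hx hu hxu hN (ih₁ _ hi) (ih₂ _ (by omega))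
  | le G U t t' ht _ ih => exact fun i hi => ih i (ht.trans hi)

/-- the vanishing of the `ℓ²`-homology of right-angled Coxeter groups -/
theorem gz_racg {G : SimpleGraph V} {U : Finset V} {i : ℕ} (h : GZ G U i) :
    Pool.Agent.H4.Singer.L2HomologyZero (G.comap (Subtype.val : {v // v ∈ U} → V)) i :=
  Pool.Agent.H4.Singer3.l2_of_dens _ i (dens_comap (dens_of_gz h))

theorem Good.racg {G : SimpleGraph V} {U : Finset V} {t : ℕ} (h : Good G U t) {i : ℕ} (hi : t ≤ i) :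
    Pool.Agent.H4.Singer.L2HomologyZero (G.comap (Subtype.val : {v // v ∈ U} → V)) i :=
  gz_racg (h.gz i hi)

theorem gz_racg_univ {G : SimpleGraph V} {i : ℕ} (h : GZ G univ i) :
    Pool.Agent.H4.Singer.L2HomologyZero G i :=
  Pool.Agent.H4.Singer3.l2_of_dens _ i (dens_of_gz h)

end Pool.Agent.H73.GC
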