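import Mathlib

/-!
# Growth calculus: definitions

Mod 2 homology growth of right-angled Coxeter groups. A finite graph is given by `G : SimpleGraph V` and
the set `U : Finset V` of its vertices (the other elements of `V` are ignored). All coefficients are
vector spaces `Y` over the field `F2` with operators `r v` (involutions, which commute for adjacent
vertices, unipotent) and projections `E v` with `E r + r E = r` (so `Y` is free over the groups of the
cliques).
-/

set_option autoImplicit false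
set_option linter.unusedSectionVars false

open Finset

namespace Pool.Agent.H73.GC

/-- the field with two elements -/
abbrev F2 := ZMod 2

section Lin

variable {E : Type} [AddCommGroup E] [Module F2 E]

/-- the dimension of the homology in degree `i` of the complex `C` in `E` -/
noncomputable def hx (d : Module.End F2 E) (C : ℕ → Submodule F2 E) (i : ℕ) : ℤ :=
  (Module.finrank F2 (C i ⊓ LinearMap.ker d : Submodule F2 E) : ℤ) -
    (Module.finrank F2 ((C (i + 1)).map d) : ℤ)

/-- `C` is a complex -/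
structure IsCx (d : Module.End F2 E) (C : ℕ → Submodule F2 E) : Prop where
  map : ∀ i, ∀ x ∈ C (i + 1), d x ∈ C i
  sq : ∀ i, ∀ x ∈ C i, d (d x) = 0

end Lin

variable {V : Type} [DecidableEq V] [Fintype V]

section Sys

variable {Y : Type} [AddCommGroup Y] [Module F2 Y]

/-- the boundary -/
def dd : Module.End F2 (Finset V → Y) where
  toFun f s := ∑ v ∈ sᶜ, f (insert v s)
  map_add' f g := by
    funext s
    simp only [Pi.add_apply, sum_add_distrib]
  map_smul' c f := by
    funext s
    simp only [Pi.smul_apply, RingHom.id_apply, smul_sum]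

theorem dd_apply (f : Finset V → Y) (s : Finset V) : dd f s = ∑ v ∈ sᶜ, f (insert v s) := rfl

/-- the chains of degree `i` with coefficients in the system `A` -/
def Ch (A : Finset V → Submodule F2 Y) (i : ℕ) : Submodule F2 (Finset V → Y) where
  carrier := {f | ∀ s, f s ∈ A s ∧ (s.card ≠ i → f s = 0)}
  zero_mem' s := ⟨Submodule.zero_mem _, fun _ => rfl⟩
  add_mem' := by
    intro f g hf hg s
    refine ⟨Submodule.add_mem _ (hf s).1 (hg s).1, fun h => ?_⟩
    rw [Pi.add_apply, (hf s).2 h, (hg s).2 h, add_zero]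
  smul_mem' := by
    intro c f hf s
    refine ⟨Submodule.smul_mem _ c (hf s).1, fun h => ?_⟩
    rw [Pi.smul_apply, (hf s).2 h, smul_zero]

theorem mem_Ch {A : Finset V → Submodule F2 Y} {i : ℕ} {f : Finset V → Y} :
    f ∈ Ch A i ↔ ∀ s, f s ∈ A s ∧ (s.card ≠ i → f s = 0) := Iff.rfl

/-- the dimension of the homology of the system `A` -/
noncomputable def hd (A : Finset V → Submodule F2 Y) (i : ℕ) : ℤ := hx dd (Ch A) i

/-- the system `A` is decreasing -/
def Mono (A : Finset V → Submodule F2 Y) : Prop := ∀ s v, A (insert v s) ≤ A s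

/-- the simplices containing `e` are removed -/
def del (e : Finset V) (A : Finset V → Submodule F2 Y) (s : Finset V) : Submodule F2 Y where
  carrier := {y | y ∈ A s ∧ (e ⊆ s → y = 0)}
  zero_mem' := ⟨Submodule.zero_mem _, fun _ => rfl⟩
  add_mem' := by
    rintro y z ⟨h1, h2⟩ ⟨h3, h4⟩
    exact ⟨Submodule.add_mem _ h1 h3, fun h => by rw [h2 h, h4 h, add_zero]⟩
  smul_mem' := by
    rintro c y ⟨h1, h2⟩
    exact ⟨Submodule.smul_mem _ c h1, fun h => by rw [h2 h, smul_zero]⟩

/-- the link of `e` -/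
def res (e : Finset V) (A : Finset V → Submodule F2 Y) (s : Finset V) : Submodule F2 Y where
  carrier := {y | y ∈ A (e ∪ s) ∧ (¬ Disjoint e s → y = 0)}
  zero_mem' := ⟨Submodule.zero_mem _, fun _ => rfl⟩
  add_mem' := by
    rintro y z ⟨h1, h2⟩ ⟨h3, h4⟩
    exact ⟨Submodule.add_mem _ h1 h3, fun h => by rw [h2 h, h4 h, add_zero]⟩
  smul_mem' := by
    rintro c y ⟨h1, h2⟩
    exact ⟨Submodule.smul_mem _ c h1, fun h => by rw [h2 h, smul_zero]⟩

/-- the vectors which are invariant under the `r v`, `v ∈ s` -/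
def Inv (r : V → Module.End F2 Y) (s : Finset V) : Submodule F2 Y where
  carrier := {y | ∀ v ∈ s, r v y = y}
  zero_mem' v _ := map_zero _
  add_mem' := by
    intro y z h1 h2 v hv
    rw [map_add, h1 v hv, h2 v hv]
  smul_mem' := by
    intro c y h v hv
    rw [map_smul, h v hv]

theorem mem_Inv {r : V → Module.End F2 Y} {s : Finset V} {y : Y} :
    y ∈ Inv r s ↔ ∀ v ∈ s, r v y = y := Iff.rfl

/-- the system of the invariants, for the complex `X` -/
def Sy (X : Finset V → Prop) (r : V → Module.End F2 Y) (s : Finset V) : Submodule F2 Y where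
  carrier := {y | (¬ X s → y = 0) ∧ ∀ v ∈ s, r v y = y}
  zero_mem' := ⟨fun _ => rfl, fun v _ => map_zero _⟩
  add_mem' := by
    rintro y z ⟨h1, h2⟩ ⟨h3, h4⟩
    exact ⟨fun h => by rw [h1 h, h3 h, add_zero], fun v hv => by rw [map_add, h2 v hv, h4 v hv]⟩
  smul_mem' := by
    rintro c y ⟨h1, h2⟩
    exact ⟨fun h => by rw [h1 h, smul_zero], fun v hv => by rw [map_smul, h2 v hv]⟩

theorem mem_Sy {X : Finset V → Prop} {r : V → Module.End F2 Y} {s : Finset V} {y : Y} :
    y ∈ Sy X r s ↔ (¬ X s → y = 0) ∧ ∀ v ∈ s, r v y = y := Iff.rfl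

/-- the dimension of the homology of the complex `X` with coefficients in `Y` -/
noncomputable def hX (X : Finset V → Prop) (r : V → Module.End F2 Y) (i : ℕ) : ℤ := hd (Sy X r) i

/-- the flag complex of the graph on the vertices in `U` -/
def Cq (G : SimpleGraph V) (U : Finset V) (s : Finset V) : Prop := G.IsClique (s : Set V) ∧ s ⊆ U

/-- a filtration on whose quotients the `r v`, `v ∈ U`, are trivial -/
def Fil (U : Finset V) (r : V → Module.End F2 Y) : Prop :=
  ∃ (n : ℕ) (F : ℕ → Submodule F2 Y), Monotone F ∧ F 0 = ⊥ ∧ F n = ⊤ ∧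
    ∀ j, ∀ v ∈ U, ∀ y ∈ F (j + 1), y + r v y ∈ F j

/-- the operators `r v`, `v ∈ U`, form a module over the graph -/
structure IsN (G : SimpleGraph V) (U : Finset V) (r : V → Module.End F2 Y) : Prop where
  sq : ∀ v ∈ U, ∀ y, r v (r v y) = y
  comm : ∀ u ∈ U, ∀ v ∈ U, G.Adj u v → ∀ y, r u (r v y) = r v (r u y)
  fil : Fil U r

/-- projections for the operators `r v`, `v ∈ s` (which commute and are involutions) -/
structure BitOn (r E : V → Module.End F2 Y) (s : Finset V) : Prop where
  sq : ∀ v ∈ s, ∀ y, r v (r v y) = y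
  comm : ∀ u ∈ s, ∀ v ∈ s, ∀ y, r u (r v y) = r v (r u y)
  idem : ∀ v ∈ s, ∀ y, E v (E v y) = E v y
  bit : ∀ v ∈ s, ∀ y, E v (r v y) + r v (E v y) = r v y
  er : ∀ u ∈ s, ∀ v ∈ s, u ≠ v → ∀ y, E u (r v y) = r v (E u y)
  ee : ∀ u ∈ s, ∀ v ∈ s, ∀ y, E u (E v y) = E v (E u y)

/-- projections for the module `r` over the graph -/
structure IsBit (G : SimpleGraph V) (U : Finset V) (r E : V → Module.End F2 Y) : Prop where
  idem : ∀ v ∈ U, ∀ y, E v (E v y) = E v y
  bit : ∀ v ∈ U, ∀ y, E v (r v y) + r v (E v y) = r v y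
  er : ∀ u ∈ U, ∀ v ∈ U, G.Adj u v → ∀ y, E u (r v y) = r v (E u y)
  ee : ∀ u ∈ U, ∀ v ∈ U, G.Adj u v → ∀ y, E u (E v y) = E v (E u y)

end Sys

/-- The mod 2 homology growth of the right-angled Coxeter group of the graph vanishes in degree `i`. -/
def GZ (G : SimpleGraph V) (U : Finset V) (i : ℕ) : Prop :=
  ∀ ε : ℝ, 0 < ε → ∃ (Y : Type) (_ : AddCommGroup Y) (_ : Module F2 Y) (_ : Finite Y)
    (r E : V → Module.End F2 Y), IsN G U r ∧ IsBit G U r E ∧ 0 < Module.finrank F2 Y ∧
      (hX (Cq G U) r i : ℝ) ≤ ε * Module.finrank F2 Y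

open Classical in
/-- the vertices in `U` which are adjacent to `v` -/
noncomputable def lk (G : SimpleGraph V) (U : Finset V) (v : V) : Finset V :=
  U.filter fun w => G.Adj v w

open Classical in
/-- the vertices in `U` which are adjacent to `x` and to `u` -/
noncomputable def lk2 (G : SimpleGraph V) (U : Finset V) (x u : V) : Finset V :=
  U.filter fun w => G.Adj x w ∧ G.Adj u w

/-- the graph in which `u` is adjacent to the neighbours of `u` and to the neighbours of `x` -/
def merge (G : SimpleGraph V) (x u : V) : SimpleGraph V where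
  Adj a b := a ≠ b ∧ (G.Adj a b ∨ (a = u ∧ G.Adj x b) ∨ (b = u ∧ G.Adj x a))
  symm := ⟨by
    rintro a b ⟨h1, h2⟩
    refine ⟨h1.symm, ?_⟩
    rcases h2 with h2 | h2 | h2
    · exact Or.inl h2.symm
    · exact Or.inr (Or.inr h2)
    · exact Or.inr (Or.inl h2)⟩
  loopless := ⟨fun a h => h.1 rfl⟩

/-- the flag complex does not create new cliques when `x` and `u` are identified: there is no induced
path or circuit `x, b, a, u` with three or four edges -/
def NoSq (G : SimpleGraph V) (U : Finset V) (x u : V) : Prop :=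
  ∀ a ∈ U, ∀ b ∈ U, a ≠ x → b ≠ u → G.Adj u a → G.Adj x b → G.Adj a b → G.Adj x a ∨ G.Adj u b

end Pool.Agent.H73.GC
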