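import Pool.Agent.H73.GC.Defs

/-!
# Growth calculus: linear algebra of `hx`, part A
-/

set_option autoImplicit false
set_option linter.unusedSectionVars false

open Finset

namespace Pool.Agent.H73.GC

variable {E E' : Type} [AddCommGroup E] [Module F2 E] [Finite E] [AddCommGroup E'] [Module F2 E']
  [Finite E']

/-- an injective map preserves the dimension -/
theorem LinA_inj {F F' : Type} [AddCommGroup F] [Module F2 F] [AddCommGroup F'] [Module F2 F']
    (f : F →ₗ[F2] F') (hf : Function.Injective f) (A : Submodule F2 F) :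
    Module.finrank F2 (A.map f) = Module.finrank F2 A :=
  (Submodule.equivMapOfInjective f hf A).finrank_eq.symm

/-- rank and nullity of `f` on the submodule `A` -/
theorem LinA_rank (f : E →ₗ[F2] E') (A : Submodule F2 E) :
    Module.finrank F2 (A.map f) + Module.finrank F2 (A ⊓ LinearMap.ker f : Submodule F2 E) =
      Module.finrank F2 A := by
  have h := LinearMap.finrank_range_add_finrank_ker (f.comp A.subtype)
  have h1 : LinearMap.range (f.comp A.subtype) = A.map f := by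
    rw [LinearMap.range_comp, Submodule.range_subtype]
  have h2 : Module.finrank F2 (LinearMap.ker (f.comp A.subtype)) =
      Module.finrank F2 (A ⊓ LinearMap.ker f : Submodule F2 E) := by
    have h3 : (LinearMap.ker (f.comp A.subtype)).map A.subtype = A ⊓ LinearMap.ker f := by
      ext x
      simp only [Submodule.mem_map, LinearMap.mem_ker, LinearMap.comp_apply,
        Submodule.subtype_apply, Submodule.mem_inf]
      constructor
      · rintro ⟨y, hy, rfl⟩
        exact ⟨y.2, hy⟩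
      · rintro ⟨hx, hk⟩
        exact ⟨⟨x, hx⟩, hk, rfl⟩
    rw [← h3]
    exact (LinA_inj _ (Submodule.injective_subtype A) _).symm
  rw [h1, h2] at h
  exact h

/-- `dim H_i = dim Z_i + dim Z_(i+1) - dim C_(i+1)` (rank and kernel of `d` on `C (i + 1)`). -/
theorem hx_eq (d : Module.End F2 E) (C : ℕ → Submodule F2 E) (i : ℕ) :
    hx d C i = (Module.finrank F2 (C i ⊓ LinearMap.ker d : Submodule F2 E) : ℤ) +
      (Module.finrank F2 (C (i + 1) ⊓ LinearMap.ker d : Submodule F2 E) : ℤ) -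
      (Module.finrank F2 (C (i + 1)) : ℤ) := by
  have h := LinA_rank d (C (i + 1))
  rw [hx]
  omega

/-- The boundaries are cycles. -/
theorem hx_nonneg {d : Module.End F2 E} {C : ℕ → Submodule F2 E} (hC : IsCx d C) (i : ℕ) :
    0 ≤ hx d C i := by
  have h : (C (i + 1)).map d ≤ C i ⊓ LinearMap.ker d := by
    rintro _ ⟨x, hx, rfl⟩
    exact ⟨hC.map i x hx, hC.sq (i + 1) x hx⟩
  have h1 := Submodule.finrank_mono h
  rw [hx]
  omega

/-- Middle term of the exact sequence `0 → C ⊓ ker lam → C → lam C → 0`. Put `Z = C i ⊓ ker d`,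
`B = d (C (i+1))`. `dim Z = dim (Z ⊓ ker lam) + dim lam Z` and `lam Z ≤ lam (C i) ⊓ ker d'`;
`dim B = dim (B ⊓ ker lam) + dim lam B`, `lam B = d' (lam C (i+1))` and
`d (C (i+1) ⊓ ker lam) ≤ B ⊓ ker lam`. -/
theorem hx_mid {d : Module.End F2 E} {d' : Module.End F2 E'} {C : ℕ → Submodule F2 E}
    (hC : IsCx d C) (lam : E →ₗ[F2] E') (hl : ∀ i, ∀ x ∈ C i, lam (d x) = d' (lam x)) (i : ℕ) :
    hx d C i ≤ hx d (fun j => C j ⊓ LinearMap.ker lam) i + hx d' (fun j => (C j).map lam) i := by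
  have h1 := LinA_rank lam (C i ⊓ LinearMap.ker d)
  have h2 := LinA_rank lam ((C (i + 1)).map d)
  have h3 : (C i ⊓ LinearMap.ker d) ⊓ LinearMap.ker lam =
      (C i ⊓ LinearMap.ker lam) ⊓ LinearMap.ker d := by
    rw [inf_right_comm]
  have h4 : (C i ⊓ LinearMap.ker d).map lam ≤ (C i).map lam ⊓ LinearMap.ker d' := by
    rintro _ ⟨x, ⟨hx, hk⟩, rfl⟩
    refine ⟨⟨x, hx, rfl⟩, ?_⟩
    have hk' : d x = 0 := hk
    exact LinearMap.mem_ker.2 (by rw [← hl i x hx, hk', map_zero])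
  have h5 : ((C (i + 1)).map d).map lam = ((C (i + 1)).map lam).map d' := by
    ext y
    constructor
    · rintro ⟨_, ⟨x, hx, rfl⟩, rfl⟩
      exact ⟨lam x, ⟨x, hx, rfl⟩, (hl (i + 1) x hx).symm⟩
    · rintro ⟨_, ⟨x, hx, rfl⟩, rfl⟩
      exact ⟨d x, ⟨x, hx, rfl⟩, hl (i + 1) x hx⟩
  have h6 : (C (i + 1) ⊓ LinearMap.ker lam).map d ≤ (C (i + 1)).map d ⊓ LinearMap.ker lam := by
    rintro _ ⟨x, ⟨hx, hk⟩, rfl⟩
    refine ⟨⟨x, hx, rfl⟩, ?_⟩
    have hk' : lam x = 0 := hk
    exact LinearMap.mem_ker.2 (by rw [hl (i + 1) x hx, hk', map_zero])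
  have h7 := Submodule.finrank_mono h4
  have h8 := Submodule.finrank_mono h6
  rw [h3] at h1
  rw [h5] at h2
  rw [hx, hx, hx]
  omega

/-- The image of an injective map of complexes. -/
theorem hx_map {d : Module.End F2 E} {d' : Module.End F2 E'} {C : ℕ → Submodule F2 E}
    (j : E →ₗ[F2] E') (hj : Function.Injective j) (hd : ∀ i, ∀ x ∈ C i, j (d x) = d' (j x))
    (i : ℕ) : hx d' (fun k => (C k).map j) i = hx d C i := by
  have h1 : (C i).map j ⊓ LinearMap.ker d' = (C i ⊓ LinearMap.ker d).map j := by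
    ext y
    constructor
    · rintro ⟨⟨x, hx, rfl⟩, hk⟩
      refine ⟨x, ⟨hx, ?_⟩, rfl⟩
      have hk' : d' (j x) = 0 := hk
      exact LinearMap.mem_ker.2 (hj (by rw [hd i x hx, hk', map_zero]))
    · rintro ⟨x, ⟨hx, hk⟩, rfl⟩
      refine ⟨⟨x, hx, rfl⟩, ?_⟩
      have hk' : d x = 0 := hk
      exact LinearMap.mem_ker.2 (by rw [← hd i x hx, hk', map_zero])
  have h2 : ((C (i + 1)).map j).map d' = ((C (i + 1)).map d).map j := by
    ext y
    constructor
    · rintro ⟨_, ⟨x, hx, rfl⟩, rfl⟩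
      exact ⟨d x, ⟨x, hx, rfl⟩, hd (i + 1) x hx⟩
    · rintro ⟨_, ⟨x, hx, rfl⟩, rfl⟩
      exact ⟨j x, ⟨x, hx, rfl⟩, (hd (i + 1) x hx).symm⟩
  have h3 := LinA_inj j hj (C i ⊓ LinearMap.ker d)
  have h4 := LinA_inj j hj ((C (i + 1)).map d)
  rw [hx, hx]
  rw [h1, h2, h3, h4]

end Pool.Agent.H73.GC
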