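import Pool.Agent.H73.GC.Ten
import Pool.Agent.H73.GC.SysA
import Pool.Agent.H73.GC.SysB
import Pool.Agent.H73.GC.Bit

/-!
# Growth calculus: the regular representation

`untw`: the functions `P → Y` with `(r' v φ) p = r v (φ (p * g v))`; `φ' p = ρ p (φ p)` satisfies
`(r' v φ)' p = φ' (p * g v)`.
-/

set_option autoImplicit false
set_option linter.unusedSectionVars false

open Finset

namespace Pool.Agent.H73.GC

variable {V : Type} [DecidableEq V] [Fintype V]

/-- the regular representation of `P` -/
def regP {P : Type} [Group P] (g : V → P) (v : V) : Module.End F2 (P → F2) where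
  toFun f p := f (p * g v)
  map_add' _ _ := rfl
  map_smul' _ _ := rfl

/-- the homology of a direct sum of two modules -/
theorem LuckA_prod {Z Z' : Type} [AddCommGroup Z] [Module F2 Z] [Finite Z] [AddCommGroup Z']
    [Module F2 Z'] [Finite Z'] {X : Finset V → Prop} (hm : ∀ s v, X (insert v s) → X s)
    (r : V → Module.End F2 Z) (r' : V → Module.End F2 Z') (i : ℕ) :
    hX X (fun v => (r v).prodMap (r' v)) i = hX X r i + hX X r' i := by
  have h := hd_split (mono_Sy hm (fun v => (r v).prodMap (r' v)))
    ((LinearMap.inl F2 Z Z').comp (LinearMap.fst F2 Z Z')) (fun s y _ => rfl) (fun s y hy => by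
      refine ⟨fun hs => ?_, fun v hv => ?_⟩
      · rw [hy.1 hs, map_zero]
      · have h1 := hy.2 v hv
        have h2 : r v y.1 = y.1 := congrArg Prod.fst h1
        show (r v y.1, r' v 0) = (y.1, 0)
        rw [h2, map_zero]) i
  have h1 : (fun s => Sy X (fun v => (r v).prodMap (r' v)) s ⊓
      LinearMap.ker ((LinearMap.inl F2 Z Z').comp (LinearMap.fst F2 Z Z'))) =
      fun s => (Sy X r' s).map (LinearMap.inr F2 Z Z') := by
    funext s
    ext ⟨y, z⟩
    rw [Submodule.mem_inf, LinearMap.mem_ker, Submodule.mem_map, mem_Sy]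
    constructor
    · rintro ⟨⟨h2, h3⟩, h4⟩
      have h5 : y = 0 := congrArg Prod.fst h4
      subst h5
      refine ⟨z, ⟨fun hs => congrArg Prod.snd (h2 hs), fun v hv => congrArg Prod.snd (h3 v hv)⟩,
        rfl⟩
    · rintro ⟨w, ⟨h2, h3⟩, h4⟩
      have h5 : (0 : Z) = y := congrArg Prod.fst h4
      have h6 : w = z := congrArg Prod.snd h4
      subst h5 h6
      refine ⟨⟨fun hs => ?_, fun v hv => ?_⟩, rfl⟩
      · rw [h2 hs]
        rfl
      · show (r v 0, r' v w) = (0, w)
        rw [h3 v hv, map_zero]
  have h2 : (fun s => (Sy X (fun v => (r v).prodMap (r' v)) s).map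
      ((LinearMap.inl F2 Z Z').comp (LinearMap.fst F2 Z Z'))) =
      fun s => (Sy X r s).map (LinearMap.inl F2 Z Z') := by
    funext s
    ext y
    rw [Submodule.mem_map, Submodule.mem_map]
    constructor
    · rintro ⟨w, ⟨h3, h4⟩, rfl⟩
      refine ⟨w.1, ⟨fun hs => ?_, fun v hv => congrArg Prod.fst (h4 v hv)⟩, rfl⟩
      rw [h3 hs]
      rfl
    · rintro ⟨w, ⟨h3, h4⟩, rfl⟩
      refine ⟨(w, 0), ⟨fun hs => ?_, fun v hv => ?_⟩, rfl⟩
      · rw [h3 hs]
        rfl
      · show (r v w, r' v 0) = (w, 0)
        rw [h4 v hv, map_zero]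
  unfold hX
  rw [h, h1, h2, hd_map _ _ LinearMap.inr_injective, hd_map _ _ LinearMap.inl_injective, add_comm]

/-- the homology of a direct sum of copies of a module -/
theorem LuckA_pi {Z : Type} [AddCommGroup Z] [Module F2 Z] [Finite Z] {X : Finset V → Prop}
    (hm : ∀ s v, X (insert v s) → X s) (r : V → Module.End F2 Z) (i m : ℕ) :
    hX X (fun v => (r v).compLeft (Fin m)) i = m * hX X r i := by
  induction m with
  | zero =>
    rw [hX_subsingleton, Nat.cast_zero, zero_mul]
  | succ m ih =>
    have h := hX_equiv (X := X) (Fin.consLinearEquiv F2 (fun _ : Fin (m + 1) => Z)).symm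
      (r := fun v => (r v).compLeft (Fin (m + 1)))
      (r' := fun v => (r v).prodMap ((r v).compLeft (Fin m))) (fun s _ v _ y => rfl) i
    rw [h, LuckA_prod hm, ih]
    push_cast
    ring

/-- If `Y` is a module over `P`, then `Y ⊗ F2[P]` is a sum of copies of `F2[P]`. -/
theorem untw {Y : Type} [AddCommGroup Y] [Module F2 Y] [Finite Y] {P : Type} [Group P] [Finite P]
    (ρ : P →* Module.End F2 Y) (g : V → P) {r : V → Module.End F2 Y} {X : Finset V → Prop}
    (hm : ∀ s v, X (insert v s) → X s) (h : ∀ s, X s → ∀ v ∈ s, ρ (g v) = r v) (i : ℕ) :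
    hX X (tens r (regP g)) i = Module.finrank F2 Y * hX X (regP g) i := by
  classical
  have : Fintype P := Fintype.ofFinite P
  have : Finite (TensorProduct F2 Y (P → F2)) := finite_tens
  have hinv : ∀ p y, ρ p⁻¹ (ρ p y) = y := by
    intro p y
    rw [← Module.End.mul_apply, ← map_mul, inv_mul_cancel, map_one, Module.End.one_apply]
  have hinv' : ∀ p y, ρ p (ρ p⁻¹ y) = y := by
    intro p y
    rw [← Module.End.mul_apply, ← map_mul, mul_inv_cancel, map_one, Module.End.one_apply]
  set b := Module.finBasis F2 Y with hb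
  let e1 : TensorProduct F2 Y (P → F2) ≃ₗ[F2] (P → Y) := TensorProduct.piScalarRight F2 F2 Y P
  let e2 : (P → Y) ≃ₗ[F2] (Fin (Module.finrank F2 Y) → P → F2) :=
    { toFun := fun φ j p => b.equivFun (ρ p (φ p)) j
      map_add' := fun φ ψ => by
        funext j p
        simp only [Pi.add_apply, map_add]
      map_smul' := fun c φ => by
        funext j p
        simp only [Pi.smul_apply, map_smul, RingHom.id_apply]
      invFun := fun ψ p => ρ p⁻¹ (b.equivFun.symm fun j => ψ j p)
      left_inv := fun φ => by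
        funext p
        show ρ p⁻¹ (b.equivFun.symm fun j => b.equivFun (ρ p (φ p)) j) = φ p
        have h1 : (fun j => b.equivFun (ρ p (φ p)) j) = b.equivFun (ρ p (φ p)) := rfl
        rw [h1, LinearEquiv.symm_apply_apply, hinv]
      right_inv := fun ψ => by
        funext j p
        show b.equivFun (ρ p (ρ p⁻¹ (b.equivFun.symm fun j => ψ j p))) j = ψ j p
        rw [hinv', LinearEquiv.apply_symm_apply] }
  have key := hX_equiv (X := X) (e1.trans e2) (r := tens r (regP g))
    (r' := fun v => (regP g v).compLeft (Fin (Module.finrank F2 Y))) (by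
      intro s hs v hv y
      induction y using TensorProduct.induction_on with
      | zero => simp only [map_zero]
      | add y z h1 h2 => simp only [map_add, h1, h2]
      | tmul y f =>
        funext j p
        show b.equivFun (ρ p (e1 (tens r (regP g) v (y ⊗ₜ[F2] f)) p)) j =
          b.equivFun (ρ (p * g v) (e1 (y ⊗ₜ[F2] f) (p * g v))) j
        have h1 : e1 (tens r (regP g) v (y ⊗ₜ[F2] f)) p = f (p * g v) • r v y := by
          show TensorProduct.piScalarRight F2 F2 Y P (r v y ⊗ₜ[F2] (regP g v f)) p = _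
          rw [TensorProduct.piScalarRight_apply, TensorProduct.piScalarRightHom_tmul]
          rfl
        have h2 : e1 (y ⊗ₜ[F2] f) (p * g v) = f (p * g v) • y := by
          show TensorProduct.piScalarRight F2 F2 Y P (y ⊗ₜ[F2] f) (p * g v) = _
          rw [TensorProduct.piScalarRight_apply, TensorProduct.piScalarRightHom_tmul]
        rw [h1, h2, map_mul, Module.End.mul_apply, h s hs v hv]
        simp only [map_smul]) i
  rw [key, LuckA_pi hm]

end Pool.Agent.H73.GC
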