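import Pool.Agent.H73.GC.LuckA
import Pool.Agent.H73.GC.Fil
import Pool.Agent.H73.GC.Prod2
import Pool.Agent.H4.Singer.NilCox
import Pool.Agent.H4.Singer.LuckVanish
import Pool.Agent.H4.Singer.Levels

/-!
# Growth calculus: separating levels

Let `Y j` be given by `GZ G U i` for `ε = 1 / (j + 1)`, `P₂ j` the finite two-group of `exists_group`, `P₁ j` of
`exists_two_group G j`, and `P j = P₁ j × P₂ j × Multiplicative (V → ZMod 2)`. The last factor gives the bits,
`exists_lift` the homomorphisms. `finrank Y * hX (regP) ≤ card P * hX (Y)`: `untw` for the representation of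
`P j` on `Y j` through `P₂ j`, and `prod_le` for `r₂ = regP` (`fil_group`).
-/

set_option autoImplicit false
set_option linter.unusedSectionVars false

open Finset Filter

namespace Pool.Agent.H73.GC

open Pool.Agent.H4.Singer

variable {V : Type} [DecidableEq V] [Fintype V]

/-- the regular representation as a homomorphism -/
private def LuckC_reg (P : Type) [Group P] : P →* Module.End F2 (P → F2) where
  toFun a :=
    { toFun := fun f p => f (p * a)
      map_add' := fun _ _ => rfl
      map_smul' := fun _ _ => rfl }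
  map_one' := by
    refine LinearMap.ext fun f => funext fun p => ?_
    change f (p * 1) = f p
    rw [mul_one]
  map_mul' a b := by
    refine LinearMap.ext fun f => funext fun p => ?_
    change f (p * (a * b)) = f (p * a * b)
    rw [mul_assoc]

/-- every module bounds the homology of the levels over it -/
theorem reg_le {G : SimpleGraph V} {U : Finset V} {Y : Type} [AddCommGroup Y] [Module F2 Y]
    [Finite Y] {r E : V → Module.End F2 Y} (hN : IsN G U r) (hB : IsBit G U r E) {P : Type}
    [Group P] [Fintype P] (hP : IsPGroup 2 P) (ρ : P →* Module.End F2 Y) (g : V → P)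
    (hg : ∀ v, g v * g v = 1) (hgc : ∀ u v, G.Adj u v → g u * g v = g v * g u)
    (hρ : ∀ v ∈ U, ρ (g v) = r v) (i : ℕ) :
    Module.finrank F2 Y * hX (Cq G U) (regP g) i ≤ Fintype.card P * hX (Cq G U) r i := by
  classical
  have hm : ∀ (s : Finset V) (v : V), Cq G U (insert v s) → Cq G U s := by
    rintro s v ⟨h1, h2⟩
    refine ⟨h1.subset ?_, (Finset.subset_insert v s).trans h2⟩
    exact Finset.coe_subset.2 (Finset.subset_insert v s)
  have hreg : IsN G U (regP g) := by
    refine ⟨?_, ?_, fil_group hP (LuckC_reg P) U (regP g) g fun v _ => rfl⟩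
    · intro v _ f
      funext p
      change f (p * g v * g v) = f p
      rw [mul_assoc, hg, mul_one]
    · intro u _ v _ huv f
      funext p
      change f (p * g u * g v) = f (p * g v * g u)
      rw [mul_assoc, hgc u v huv, mul_assoc]
  have h1 := untw ρ g (X := Cq G U) hm (fun s hs v hv => hρ v (hs.2 hv)) i
  have h2 := prod_le hN hB hreg (X := Cq G U) (fun s hs => hs) hm i
  rw [h1] at h2
  refine h2.trans (le_of_eq ?_)
  rw [Module.finrank_fintype_fun_eq_card]

theorem gz_levels {G : SimpleGraph V} {U : Finset V} {i : ℕ} (h : GZ G U i) :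
    ∃ (P : ℕ → Type) (_ : ∀ j, Group (P j)) (_ : ∀ j, Fintype (P j)) (π : ∀ j, RGrp G →* P j)
      (b : ∀ j, P j → V → Bool), (∀ w : RGrp G, w ≠ 1 → ∀ᶠ j in atTop, π j w ≠ 1) ∧
      (∀ j p u v, b j (p * π j (gen G u)) v = if u = v then !(b j p v) else b j p v) ∧
      ∀ η : ℝ, 0 < η → ∀ᶠ j in atTop,
        (hX (Cq G U) (regP fun v => π j (gen G v)) i : ℝ) ≤ η * Fintype.card (P j) := by
  classical
  have h1 := fun L => exists_two_group G L
  choose P₁ grp₁ fin₁ π₁ hP₁ hsep using h1
  have h2 := fun j : ℕ => h (1 / (j + 1 : ℝ)) (by positivity)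
  choose Y ac md fy r E hN hB hpos hle using h2
  have h3 := fun j => exists_group (hN j)
  choose P₂ grp₂ fin₂' ρ g hP₂ hρ hg1 hg hgc using h3
  have fin₂ : ∀ j, Fintype (P₂ j) := fun j => Fintype.ofFinite _
  let gg : ∀ j, V → P₂ j × Multiplicative (V → ZMod 2) := fun j v =>
    (g j v, Multiplicative.ofAdd (Pi.single v (1 : ZMod 2)))
  have hgg : ∀ j v, gg j v * gg j v = 1 := by
    intro j v
    refine Prod.ext (hg j v) ?_
    change Multiplicative.ofAdd ((Pi.single v (1 : ZMod 2) : V → ZMod 2) + Pi.single v (1 : ZMod 2)) = 1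
    rw [ZModModule.add_self]
    rfl
  have hgc' : ∀ j u v, G.Adj u v → gg j u * gg j v = gg j v * gg j u := by
    intro j u v huv
    refine Prod.ext ?_ (mul_comm _ _)
    change g j u * g j v = g j v * g j u
    by_cases hu : u ∈ U
    · by_cases hv : v ∈ U
      · exact hgc j u hu v hv huv
      · rw [hg1 j v hv, mul_one, one_mul]
    · rw [hg1 j u hu, mul_one, one_mul]
  have h3 : ∀ j, ∃ π : RGrp G →* P₂ j × Multiplicative (V → ZMod 2), ∀ v,
      π (gen G v) = gg j v := fun j => exists_lift G (gg j) (hgg j) (hgc' j)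
  choose π₂ hπ₂ using h3
  have hpow2 : ∀ x : Multiplicative (V → ZMod 2), x ^ 2 = 1 := by
    intro x
    rw [pow_two]
    change Multiplicative.ofAdd (Multiplicative.toAdd x + Multiplicative.toAdd x) = 1
    rw [ZModModule.add_self]
    rfl
  have h2P : ∀ j, IsPGroup 2 (P₁ j × (P₂ j × Multiplicative (V → ZMod 2))) := by
    rintro j ⟨a, b, c⟩
    obtain ⟨k1, hk1⟩ := hP₁ j a
    obtain ⟨k2, hk2⟩ := hP₂ j b
    refine ⟨k1 + k2 + 1, ?_⟩
    have e1 : a ^ 2 ^ (k1 + k2 + 1) = 1 := by
      rw [show 2 ^ (k1 + k2 + 1) = 2 ^ k1 * (2 ^ k2 * 2) by ring, pow_mul, hk1, one_pow]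
    have e2 : b ^ 2 ^ (k1 + k2 + 1) = 1 := by
      rw [show 2 ^ (k1 + k2 + 1) = 2 ^ k2 * (2 ^ k1 * 2) by ring, pow_mul, hk2, one_pow]
    have e3 : c ^ 2 ^ (k1 + k2 + 1) = 1 := by
      rw [show 2 ^ (k1 + k2 + 1) = 2 * (2 ^ k1 * 2 ^ k2) by ring, pow_mul, hpow2, one_pow]
    rw [Prod.pow_mk, Prod.pow_mk, e1, e2, e3]
    rfl
  refine ⟨fun j => P₁ j × (P₂ j × Multiplicative (V → ZMod 2)), fun j => inferInstance,
    fun j => inferInstance, fun j => (π₁ j).prod (π₂ j),
    fun j p v => decide (Multiplicative.toAdd p.2.2 v = 1), ?_, ?_, ?_⟩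
  · intro w hw
    filter_upwards [eventually_ge_atTop ((racg G).toCoxeterSystem.length w)] with j hj h
    exact hsep j w hw hj (congrArg Prod.fst h)
  · intro j p u v
    have e1 : (p * (π₁ j).prod (π₂ j) (gen G u)).2.2 = p.2.2 * (gg j u).2 := by
      rw [← hπ₂]
      rfl
    have e2 : Multiplicative.toAdd (p * (π₁ j).prod (π₂ j) (gen G u)).2.2 v =
        Multiplicative.toAdd p.2.2 v + (Pi.single u (1 : ZMod 2) : V → ZMod 2) v := by
      rw [e1]
      rfl
    change decide (Multiplicative.toAdd (p * (π₁ j).prod (π₂ j) (gen G u)).2.2 v = 1) = _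
    rw [e2]
    by_cases huv : u = v
    · subst huv
      rw [if_pos rfl, Pi.single_eq_same]
      have key : ∀ x : ZMod 2, decide (x + 1 = 1) = !(decide (x = 1)) := by decide
      exact key _
    · rw [if_neg huv, Pi.single_eq_of_ne (Ne.symm huv), add_zero]
  · intro η hη
    obtain ⟨N, hN'⟩ := exists_nat_one_div_lt hη
    filter_upwards [eventually_ge_atTop N] with j hj
    have h4 := reg_le (hN j) (hB j) (h2P j)
      ((ρ j).comp ((MonoidHom.fst (P₂ j) (Multiplicative (V → ZMod 2))).comp
        (MonoidHom.snd (P₁ j) (P₂ j × Multiplicative (V → ZMod 2)))))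
      (fun v => (π₁ j).prod (π₂ j) (gen G v))
      (fun v => by rw [← map_mul, gen_mul_gen, map_one])
      (fun u v huv => by rw [← map_mul, ← map_mul, gen_comm G u v huv])
      (fun v hv => by
        change ρ j ((π₂ j) (gen G v)).1 = r j v
        rw [hπ₂]
        exact hρ j v hv) i
    have h5 := hle j
    have hpos' : (0 : ℝ) < Module.finrank F2 (Y j) := by exact_mod_cast hpos j
    have h6 : (Module.finrank F2 (Y j) : ℝ) *
        (hX (Cq G U) (regP fun v => (π₁ j).prod (π₂ j) (gen G v)) i : ℝ) ≤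
        Fintype.card (P₁ j × (P₂ j × Multiplicative (V → ZMod 2))) *
          (hX (Cq G U) (r j) i : ℝ) := by exact_mod_cast h4
    have hc : (0 : ℝ) ≤ Fintype.card (P₁ j × (P₂ j × Multiplicative (V → ZMod 2))) :=
      Nat.cast_nonneg _
    have h7 : (1 : ℝ) / (j + 1) ≤ η := by
      refine le_trans ?_ hN'.le
      refine one_div_le_one_div_of_le (by positivity) ?_
      have : (N : ℝ) ≤ j := by exact_mod_cast hj
      linarith
    have h8 : (Fintype.card (P₁ j × (P₂ j × Multiplicative (V → ZMod 2))) : ℝ) *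
          (hX (Cq G U) (r j) i : ℝ) ≤
        Fintype.card (P₁ j × (P₂ j × Multiplicative (V → ZMod 2))) *
          (η * Module.finrank F2 (Y j)) := by
      refine mul_le_mul_of_nonneg_left (h5.trans ?_) hc
      exact mul_le_mul_of_nonneg_right h7 hpos'.le
    refine le_of_mul_le_mul_left (h6.trans (h8.trans (le_of_eq ?_))) hpos'
    ring

end Pool.Agent.H73.GC
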