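import Pool.Agent.H73.GC.Defs

/-!
# Growth calculus: the module `Y × Y` with one more vertex

`dbl r x q`: the vertices `w ≠ x` act on `Y × Y` by `(a, b) ↦ (r w a, r w b)`, the vertex `x` acts by
`(a, b) ↦ (q b, q a)`.
-/

set_option autoImplicit false
set_option linter.unusedSectionVars false

open Finset

namespace Pool.Agent.H73.GC

variable {V : Type} [DecidableEq V] [Fintype V]
variable {Y : Type} [AddCommGroup Y] [Module F2 Y]

/-- the operators on `Y × Y` -/
def dbl (r : V → Module.End F2 Y) (x : V) (q : Module.End F2 Y) (w : V) :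
    Module.End F2 (Y × Y) where
  toFun y := if w = x then (q y.2, q y.1) else (r w y.1, r w y.2)
  map_add' y z := by
    by_cases h : w = x
    · simp [h]
    · simp [h]
  map_smul' c y := by
    by_cases h : w = x
    · simp [h]
    · simp [h]

theorem dbl_self (r : V → Module.End F2 Y) (x : V) (q : Module.End F2 Y) (y : Y × Y) :
    dbl r x q x y = (q y.2, q y.1) := if_pos rfl

theorem dbl_ne (r : V → Module.End F2 Y) {x w : V} (h : w ≠ x) (q : Module.End F2 Y) (y : Y × Y) :
    dbl r x q w y = (r w y.1, r w y.2) := if_neg h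

/-- The projections: `x` acts by `(a, b) ↦ (a, 0)`, `w ≠ x` by `(a, b) ↦ (E w a, E w b)`, except that
`u` acts by `(a, b) ↦ (E u a, b + E u b)` if `tw` holds. -/
def dblE (E : V → Module.End F2 Y) (x u : V) (tw : Bool) (w : V) : Module.End F2 (Y × Y) where
  toFun y := if w = x then (y.1, 0) else
    if w = u ∧ tw = true then (E w y.1, y.2 + E w y.2) else (E w y.1, E w y.2)
  map_add' y z := by
    by_cases h : w = x
    · simp [h]
    · by_cases h2 : w = u ∧ tw = true
      · rw [if_neg h, if_neg h, if_neg h, if_pos h2, if_pos h2, if_pos h2]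
        refine Prod.ext (map_add _ _ _) ?_
        show y.2 + z.2 + E w (y.2 + z.2) = y.2 + E w y.2 + (z.2 + E w z.2)
        rw [map_add]
        abel
      · simp [h, h2]
  map_smul' c y := by
    by_cases h : w = x
    · simp [h]
    · by_cases h2 : w = u ∧ tw = true
      · rw [if_neg h, if_neg h, if_pos h2, if_pos h2]
        refine Prod.ext (map_smul _ _ _) ?_
        show c • y.2 + E w (c • y.2) = c • (y.2 + E w y.2)
        rw [map_smul, smul_add]
      · simp [h, h2]

theorem dblE_self (E : V → Module.End F2 Y) (x u : V) (tw : Bool) (y : Y × Y) :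
    dblE E x u tw x y = (y.1, 0) := if_pos rfl

theorem dblE_tw (E : V → Module.End F2 Y) {x u : V} (h : u ≠ x) (y : Y × Y) :
    dblE E x u true u y = (E u y.1, y.2 + E u y.2) := by
  show (if u = x then _ else if u = u ∧ true = true then _ else _) = _
  rw [if_neg h, if_pos ⟨rfl, rfl⟩]

theorem dblE_ne (E : V → Module.End F2 Y) {x u w : V} (h : w ≠ x) {tw : Bool}
    (h2 : ¬ (w = u ∧ tw = true)) (y : Y × Y) : dblE E x u tw w y = (E w y.1, E w y.2) := by
  show (if w = x then _ else if w = u ∧ tw = true then _ else _) = _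
  rw [if_neg h, if_neg h2]

private theorem Dbl_two (y : Y) : y + y = 0 := ZModModule.add_self y

private def Dbl_F (F : ℕ → Submodule F2 Y) (k : ℕ) : Submodule F2 (Y × Y) where
  carrier := {p | p.1 ∈ F ((k + 1) / 2) ∧ p.2 ∈ F ((k + 1) / 2) ∧ p.1 + p.2 ∈ F (k / 2)}
  zero_mem' := ⟨Submodule.zero_mem _, Submodule.zero_mem _, by
    show (0 : Y) + 0 ∈ F (k / 2)
    rw [add_zero]
    exact Submodule.zero_mem _⟩
  add_mem' := by
    rintro p p' ⟨h1, h2, h3⟩ ⟨h4, h5, h6⟩
    refine ⟨Submodule.add_mem _ h1 h4, Submodule.add_mem _ h2 h5, ?_⟩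
    have h7 := Submodule.add_mem _ h3 h6
    show p.1 + p'.1 + (p.2 + p'.2) ∈ F (k / 2)
    rwa [add_add_add_comm]
  smul_mem' := by
    rintro c p ⟨h1, h2, h3⟩
    refine ⟨Submodule.smul_mem _ c h1, Submodule.smul_mem _ c h2, ?_⟩
    show c • p.1 + c • p.2 ∈ F (k / 2)
    rw [← smul_add]
    exact Submodule.smul_mem _ c h3

private theorem Dbl_mem (F : ℕ → Submodule F2 Y) (k : ℕ) (p : Y × Y) :
    p ∈ Dbl_F F k ↔ p.1 ∈ F ((k + 1) / 2) ∧ p.2 ∈ F ((k + 1) / 2) ∧ p.1 + p.2 ∈ F (k / 2) := Iff.rfl

private theorem Dbl_q {G H : SimpleGraph V} {U : Finset V} {x : V} {r : V → Module.End F2 Y}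
    (h : IsN H (U.erase x) r) (q : Module.End F2 Y)
    (hq : q = 1 ∨ ∃ u ∈ U.erase x, q = r u ∧ ∀ w ∈ U.erase x, G.Adj x w → w = u ∨ H.Adj u w) :
    (∀ y, q (q y) = y) ∧ ∀ w ∈ U.erase x, G.Adj x w → ∀ y, q (r w y) = r w (q y) := by
  rcases hq with rfl | ⟨u, hu, rfl, hw⟩
  · exact ⟨fun y => rfl, fun w _ _ y => rfl⟩
  · refine ⟨h.sq u hu, fun w hwU hxw y => ?_⟩
    rcases hw w hwU hxw with rfl | h1
    · rfl
    · exact h.comm u hu w hwU h1 y

/-- The filtration of `Y × Y`: `F' (2 j) = F j × F j`,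
`F' (2 j + 1) = {(a, b) | a, b ∈ F (j + 1), a + b ∈ F j}`. -/
theorem isN_dbl {G H : SimpleGraph V} {U : Finset V} {x : V} {r : V → Module.End F2 Y}
    (h : IsN H (U.erase x) r) (hG : ∀ a ∈ U.erase x, ∀ b ∈ U.erase x, G.Adj a b → H.Adj a b)
    (q : Module.End F2 Y)
    (hq : q = 1 ∨ ∃ u ∈ U.erase x, q = r u ∧ ∀ w ∈ U.erase x, G.Adj x w → w = u ∨ H.Adj u w) :
    IsN G U (dbl r x q) := by
  obtain ⟨hqq, hqc⟩ := Dbl_q h q hq
  refine ⟨?_, ?_, ?_⟩
  · intro v hv y
    by_cases hvx : v = x
    · subst hvx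
      rw [dbl_self, dbl_self]
      exact Prod.ext (hqq _) (hqq _)
    · rw [dbl_ne r hvx, dbl_ne r hvx]
      have hv' : v ∈ U.erase x := mem_erase.2 ⟨hvx, hv⟩
      exact Prod.ext (h.sq v hv' _) (h.sq v hv' _)
  · intro a ha b hb hab y
    by_cases hax : a = x
    · subst hax
      have hba : b ≠ a := hab.ne'
      have hb' : b ∈ U.erase a := mem_erase.2 ⟨hba, hb⟩
      rw [dbl_self, dbl_ne r hba, dbl_ne r hba, dbl_self]
      exact Prod.ext (hqc b hb' hab _) (hqc b hb' hab _)
    · have ha' : a ∈ U.erase x := mem_erase.2 ⟨hax, ha⟩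
      by_cases hbx : b = x
      · subst hbx
        rw [dbl_self, dbl_ne r hax, dbl_ne r hax, dbl_self]
        exact Prod.ext (hqc a ha' hab.symm _).symm (hqc a ha' hab.symm _).symm
      · have hb' : b ∈ U.erase x := mem_erase.2 ⟨hbx, hb⟩
        rw [dbl_ne r hax, dbl_ne r hbx, dbl_ne r hbx, dbl_ne r hax]
        exact Prod.ext (h.comm a ha' b hb' (hG a ha' b hb' hab) _)
          (h.comm a ha' b hb' (hG a ha' b hb' hab) _)
  · obtain ⟨n, F, hm, h0, hn, hF⟩ := h.fil
    have hqF : ∀ j, ∀ y ∈ F (j + 1), y + q y ∈ F j := by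
      intro j y hy
      rcases hq with rfl | ⟨u, hu, rfl, _⟩
      · show y + y ∈ F j
        rw [Dbl_two]
        exact Submodule.zero_mem _
      · exact hF j u hu y hy
    refine ⟨2 * n, Dbl_F F, ?_, ?_, ?_, ?_⟩
    · intro a b hab p hp
      rw [Dbl_mem] at hp ⊢
      exact ⟨hm (by omega) hp.1, hm (by omega) hp.2.1, hm (by omega) hp.2.2⟩
    · rw [eq_bot_iff]
      intro p hp
      rw [Dbl_mem] at hp
      have h1 : p.1 ∈ F 0 := hp.1
      have h2 : p.2 ∈ F 0 := hp.2.1
      rw [h0, Submodule.mem_bot] at h1 h2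
      rw [Submodule.mem_bot]
      exact Prod.ext h1 h2
    · rw [eq_top_iff]
      intro p _
      rw [Dbl_mem]
      have h1 : (2 * n + 1) / 2 = n := by omega
      have h2 : 2 * n / 2 = n := by omega
      rw [h1, h2, hn]
      exact ⟨Submodule.mem_top, Submodule.mem_top, Submodule.mem_top⟩
    · intro k v hv p hp
      rw [Dbl_mem] at hp ⊢
      have hk : (k + 1 + 1) / 2 = k / 2 + 1 := by omega
      rw [hk] at hp
      obtain ⟨h1, h2, h3⟩ := hp
      have hle : F (k / 2) ≤ F ((k + 1) / 2) := hm (by omega)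
      by_cases hvx : v = x
      · subst hvx
        rw [dbl_self]
        have h4 := hqF _ _ h1
        have h5 := hqF _ _ h2
        refine ⟨?_, ?_, ?_⟩
        · show p.1 + q p.2 ∈ F ((k + 1) / 2)
          have h6 := Submodule.add_mem _ h3 (hle h5)
          have h7 : p.1 + p.2 + (p.2 + q p.2) = p.1 + q p.2 := by
            rw [add_assoc, ← add_assoc p.2 p.2, Dbl_two, zero_add]
          rwa [h7] at h6
        · show p.2 + q p.1 ∈ F ((k + 1) / 2)
          have h6 := Submodule.add_mem _ h3 (hle h4)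
          have h7 : p.1 + p.2 + (p.1 + q p.1) = p.2 + q p.1 := by
            rw [add_comm p.1 p.2, add_assoc, ← add_assoc p.1 p.1, Dbl_two, zero_add]
          rwa [h7] at h6
        · show p.1 + q p.2 + (p.2 + q p.1) ∈ F (k / 2)
          have h6 := Submodule.add_mem _ h4 h5
          have h7 : p.1 + q p.1 + (p.2 + q p.2) = p.1 + q p.2 + (p.2 + q p.1) := by abel
          rwa [h7] at h6
      · have hv' : v ∈ U.erase x := mem_erase.2 ⟨hvx, hv⟩
        rw [dbl_ne r hvx]
        have h4 := hF _ v hv' _ h1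
        have h5 := hF _ v hv' _ h2
        refine ⟨hle h4, hle h5, ?_⟩
        exact Submodule.add_mem _ h4 h5

theorem isBit_dbl_one {G : SimpleGraph V} {U : Finset V} {x : V} {r E : V → Module.End F2 Y}
    (h : IsN G (U.erase x) r) (hb : IsBit G (U.erase x) r E) :
    IsBit G U (dbl r x 1) (dblE E x x false) := by
  have hE : ∀ w, w ≠ x → ∀ y : Y × Y, dblE E x x false w y = (E w y.1, E w y.2) := fun w hw y =>
    dblE_ne E hw (fun h => absurd h.2 (by decide)) y
  refine ⟨?_, ?_, ?_, ?_⟩
  · intro v hv y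
    by_cases hvx : v = x
    · subst hvx
      rw [dblE_self, dblE_self]
    · have hv' : v ∈ U.erase x := mem_erase.2 ⟨hvx, hv⟩
      rw [hE v hvx, hE v hvx]
      exact Prod.ext (hb.idem v hv' _) (hb.idem v hv' _)
  · intro v hv y
    by_cases hvx : v = x
    · subst hvx
      rw [dblE_self, dblE_self, dbl_self, dbl_self]
      refine Prod.ext ?_ ?_
      · show y.2 + 0 = y.2
        rw [add_zero]
      · show 0 + y.1 = y.1
        rw [zero_add]
    · have hv' : v ∈ U.erase x := mem_erase.2 ⟨hvx, hv⟩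
      rw [hE v hvx, hE v hvx, dbl_ne r hvx, dbl_ne r hvx]
      exact Prod.ext (hb.bit v hv' _) (hb.bit v hv' _)
  · intro a ha b hb' hab y
    by_cases hax : a = x
    · subst hax
      have hba : b ≠ a := hab.ne'
      rw [dblE_self, dblE_self, dbl_ne r hba, dbl_ne r hba]
      refine Prod.ext rfl ?_
      show (0 : Y) = r b 0
      rw [map_zero]
    · by_cases hbx : b = x
      · subst hbx
        rw [hE a hax, hE a hax, dbl_self, dbl_self]
        rfl
      · rw [hE a hax, hE a hax, dbl_ne r hbx, dbl_ne r hbx]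
        have ha2 : a ∈ U.erase x := mem_erase.2 ⟨hax, ha⟩
        have hb2 : b ∈ U.erase x := mem_erase.2 ⟨hbx, hb'⟩
        exact Prod.ext (hb.er a ha2 b hb2 hab _) (hb.er a ha2 b hb2 hab _)
  · intro a ha b hb' hab y
    by_cases hax : a = x
    · subst hax
      have hba : b ≠ a := hab.ne'
      rw [dblE_self, dblE_self, hE b hba, hE b hba]
      refine Prod.ext rfl ?_
      show (0 : Y) = E b 0
      rw [map_zero]
    · by_cases hbx : b = x
      · subst hbx
        rw [hE a hax, hE a hax, dblE_self, dblE_self]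
        refine Prod.ext rfl ?_
        show E a 0 = (0 : Y)
        rw [map_zero]
      · rw [hE a hax, hE a hax, hE b hbx, hE b hbx]
        have ha2 : a ∈ U.erase x := mem_erase.2 ⟨hax, ha⟩
        have hb2 : b ∈ U.erase x := mem_erase.2 ⟨hbx, hb'⟩
        exact Prod.ext (hb.ee a ha2 b hb2 hab _) (hb.ee a ha2 b hb2 hab _)

theorem isBit_dbl {G H : SimpleGraph V} {U : Finset V} {x u : V} {r E : V → Module.End F2 Y}
    (hu : u ∈ U.erase x) (h : IsN H (U.erase x) r) (hb : IsBit H (U.erase x) r E)
    (hG : ∀ a ∈ U.erase x, ∀ b ∈ U.erase x, G.Adj a b → H.Adj a b)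
    (hx : ∀ w ∈ U.erase x, G.Adj x w → w = u ∨ H.Adj u w) :
    IsBit G U (dbl r x (r u)) (dblE E x u true) := by
  have hux : u ≠ x := (mem_erase.1 hu).1
  have hE : ∀ w, w ≠ x → w ≠ u → ∀ y : Y × Y, dblE E x u true w y = (E w y.1, E w y.2) :=
    fun w hw hwu y => dblE_ne E hw (fun h => absurd h.1 hwu) y
  have hEr : ∀ y : Y, E u (r u y) = r u y + r u (E u y) := by
    intro y
    have h1 := hb.bit u hu y
    calc E u (r u y) = E u (r u y) + r u (E u y) + r u (E u y) := by
          rw [add_assoc, Dbl_two, add_zero]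
      _ = r u y + r u (E u y) := by rw [h1]
  refine ⟨?_, ?_, ?_, ?_⟩
  · intro v hv y
    by_cases hvx : v = x
    · subst hvx
      rw [dblE_self, dblE_self]
    · have hv' : v ∈ U.erase x := mem_erase.2 ⟨hvx, hv⟩
      by_cases hvu : v = u
      · subst hvu
        rw [dblE_tw E hvx, dblE_tw E hvx]
        refine Prod.ext (hb.idem v hv' _) ?_
        show y.2 + E v y.2 + E v (y.2 + E v y.2) = y.2 + E v y.2
        rw [map_add, hb.idem v hv', Dbl_two, add_zero]
      · rw [hE v hvx hvu, hE v hvx hvu]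
        exact Prod.ext (hb.idem v hv' _) (hb.idem v hv' _)
  · intro v hv y
    by_cases hvx : v = x
    · subst hvx
      rw [dblE_self, dblE_self, dbl_self, dbl_self]
      refine Prod.ext ?_ ?_
      · show r u y.2 + r u 0 = r u y.2
        rw [map_zero, add_zero]
      · show 0 + r u y.1 = r u y.1
        rw [zero_add]
    · have hv' : v ∈ U.erase x := mem_erase.2 ⟨hvx, hv⟩
      by_cases hvu : v = u
      · subst hvu
        rw [dblE_tw E hvx, dblE_tw E hvx, dbl_ne r hvx, dbl_ne r hvx]
        refine Prod.ext (hb.bit v hv' _) ?_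
        show r v y.2 + E v (r v y.2) + r v (y.2 + E v y.2) = r v y.2
        rw [map_add, hEr]
        have h2 := Dbl_two (r v y.2)
        have h3 := Dbl_two (r v (E v y.2))
        calc r v y.2 + (r v y.2 + r v (E v y.2)) + (r v y.2 + r v (E v y.2))
            = (r v y.2 + r v y.2) + (r v (E v y.2) + r v (E v y.2)) + r v y.2 := by abel
          _ = r v y.2 := by rw [h2, h3, zero_add, zero_add]
      · rw [hE v hvx hvu, hE v hvx hvu, dbl_ne r hvx, dbl_ne r hvx]
        exact Prod.ext (hb.bit v hv' _) (hb.bit v hv' _)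
  · intro a ha b hb' hab y
    by_cases hax : a = x
    · subst hax
      have hba : b ≠ a := hab.ne'
      rw [dblE_self, dblE_self, dbl_ne r hba, dbl_ne r hba]
      refine Prod.ext rfl ?_
      show (0 : Y) = r b 0
      rw [map_zero]
    · have ha2 : a ∈ U.erase x := mem_erase.2 ⟨hax, ha⟩
      by_cases hbx : b = x
      · subst hbx
        by_cases hau : a = u
        · subst hau
          rw [dblE_tw E hax, dblE_tw E hax, dbl_self, dbl_self]
          refine Prod.ext ?_ ?_
          · show E a (r a y.2) = r a (y.2 + E a y.2)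
            rw [map_add, hEr]
          · show r a y.1 + E a (r a y.1) = r a (E a y.1)
            rw [hEr, ← add_assoc, Dbl_two, zero_add]
        · rw [hE a hax hau, hE a hax hau, dbl_self, dbl_self]
          rcases hx a ha2 hab.symm with h1 | h1
          · exact absurd h1 hau
          · exact Prod.ext (hb.er a ha2 u hu h1.symm _) (hb.er a ha2 u hu h1.symm _)
      · have hb2 : b ∈ U.erase x := mem_erase.2 ⟨hbx, hb'⟩
        have hH := hG a ha2 b hb2 hab
        by_cases hau : a = u
        · subst hau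
          rw [dblE_tw E hax, dblE_tw E hax, dbl_ne r hbx, dbl_ne r hbx]
          refine Prod.ext (hb.er a ha2 b hb2 hH _) ?_
          show r b y.2 + E a (r b y.2) = r b (y.2 + E a y.2)
          rw [map_add, hb.er a ha2 b hb2 hH]
        · rw [hE a hax hau, hE a hax hau, dbl_ne r hbx, dbl_ne r hbx]
          exact Prod.ext (hb.er a ha2 b hb2 hH _) (hb.er a ha2 b hb2 hH _)
  · intro a ha b hb' hab y
    by_cases hax : a = x
    · subst hax
      have hba : b ≠ a := hab.ne'
      by_cases hbu : b = u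
      · subst hbu
        rw [dblE_self, dblE_self, dblE_tw E hba, dblE_tw E hba]
        refine Prod.ext rfl ?_
        show (0 : Y) = 0 + E b 0
        rw [map_zero, add_zero]
      · rw [dblE_self, dblE_self, hE b hba hbu, hE b hba hbu]
        refine Prod.ext rfl ?_
        show (0 : Y) = E b 0
        rw [map_zero]
    · have ha2 : a ∈ U.erase x := mem_erase.2 ⟨hax, ha⟩
      by_cases hbx : b = x
      · subst hbx
        by_cases hau : a = u
        · subst hau
          rw [dblE_self, dblE_self, dblE_tw E hax, dblE_tw E hax]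
          refine Prod.ext rfl ?_
          show 0 + E a 0 = (0 : Y)
          rw [map_zero, add_zero]
        · rw [dblE_self, dblE_self, hE a hax hau, hE a hax hau]
          refine Prod.ext rfl ?_
          show E a 0 = (0 : Y)
          rw [map_zero]
      · have hb2 : b ∈ U.erase x := mem_erase.2 ⟨hbx, hb'⟩
        have hH := hG a ha2 b hb2 hab
        by_cases hau : a = u
        · subst hau
          have hba : b ≠ a := hab.ne'
          rw [dblE_tw E hax, dblE_tw E hax, hE b hbx hba, hE b hbx hba]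
          refine Prod.ext (hb.ee a ha2 b hb2 hH _) ?_
          show E b y.2 + E a (E b y.2) = E b (y.2 + E a y.2)
          rw [map_add, hb.ee a ha2 b hb2 hH]
        · by_cases hbu : b = u
          · subst hbu
            rw [dblE_tw E hbx, dblE_tw E hbx, hE a hax hau, hE a hax hau]
            refine Prod.ext (hb.ee a ha2 b hb2 hH _) ?_
            show E a (y.2 + E b y.2) = E a y.2 + E b (E a y.2)
            rw [map_add, hb.ee a ha2 b hb2 hH]
          · rw [hE a hax hau, hE a hax hau, hE b hbx hbu, hE b hbx hbu]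
            exact Prod.ext (hb.ee a ha2 b hb2 hH _) (hb.ee a ha2 b hb2 hH _)

end Pool.Agent.H73.GC
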