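import Pool.Agent.H73.GC.Dbl
import Pool.Agent.H73.GC.Res
import Pool.Agent.H73.GC.SysB
import Pool.Agent.H73.GC.Prod2

/-!
# Growth calculus: removing a vertex

`gz_two` for `U.erase v` (degree `i + 1`) and `lk G U v` (degree `i`) gives `Y`; the module for `U` is `Y × Y`
with `dbl r v 1`. `hd_res` with `e = {v}` and `A = Sy (Cq G U) (dbl r v 1)`: `del {v} A` is the system of
`U.erase v` with coefficients in `Y × Y`, its homology is twice that of `Y` (`hd_split` with the projection
to the first factor, `hd_map` for `y ↦ (y, 0)` and `y ↦ (0, y)`), and `res {v} A` is the image of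
`Sy (Cq G (lk G U v)) r` under `y ↦ (y, y)`.
-/

set_option autoImplicit false
set_option linter.unusedSectionVars false

open Finset

namespace Pool.Agent.H73.GC

variable {V : Type} [DecidableEq V] [Fintype V]

/-- coefficients in `Y × Y` -/
theorem hX_dbl {Y : Type} [AddCommGroup Y] [Module F2 Y] [Finite Y] {X : Finset V → Prop}
    (hm : ∀ s v, X (insert v s) → X s) {x : V} (hx : ∀ s, X s → x ∉ s)
    (r : V → Module.End F2 Y) (q : Module.End F2 Y) (i : ℕ) :
    hX X (dbl r x q) i = 2 * hX X r i := by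
  let e : Module.End F2 (Y × Y) := (LinearMap.inl F2 Y Y).comp (LinearMap.fst F2 Y Y)
  have he : ∀ y : Y × Y, e y = (y.1, 0) := fun _ => rfl
  have hmem : ∀ s (y : Y × Y), y ∈ Sy X (dbl r x q) s ↔ y.1 ∈ Sy X r s ∧ y.2 ∈ Sy X r s := by
    intro s y
    rw [mem_Sy, mem_Sy, mem_Sy]
    constructor
    · rintro ⟨h1, h2⟩
      by_cases hs : X s
      · have hne : ∀ w ∈ s, w ≠ x := fun w hw e => hx s hs (e ▸ hw)
        refine ⟨⟨fun hc => absurd hs hc, fun w hw => ?_⟩, ⟨fun hc => absurd hs hc, fun w hw => ?_⟩⟩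
        · have h3 := h2 w hw
          rw [dbl_ne r (hne w hw)] at h3
          exact congrArg Prod.fst h3
        · have h3 := h2 w hw
          rw [dbl_ne r (hne w hw)] at h3
          exact congrArg Prod.snd h3
      · rw [h1 hs]
        exact ⟨⟨fun _ => rfl, fun w _ => map_zero _⟩, ⟨fun _ => rfl, fun w _ => map_zero _⟩⟩
    · rintro ⟨⟨h1, h2⟩, h3, h4⟩
      by_cases hs : X s
      · refine ⟨fun hc => absurd hs hc, fun w hw => ?_⟩
        have hne : w ≠ x := fun e => hx s hs (e ▸ hw)
        rw [dbl_ne r hne]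
        exact Prod.ext (h2 w hw) (h4 w hw)
      · have h5 : y = 0 := Prod.ext (h1 hs) (h3 hs)
        rw [h5]
        exact ⟨fun _ => rfl, fun w _ => map_zero _⟩
  have hmono : Mono (Sy X (dbl r x q)) := mono_Sy hm _
  have h1 := hd_split hmono e (fun s y _ => rfl)
    (fun s y hy => (hmem s (e y)).2 ⟨((hmem s y).1 hy).1, Submodule.zero_mem _⟩) i
  have e1 : (fun s => Sy X (dbl r x q) s ⊓ LinearMap.ker e) =
      fun s => (Sy X r s).map (LinearMap.inr F2 Y Y) := by
    funext s
    ext y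
    rw [Submodule.mem_inf, LinearMap.mem_ker, he, hmem, Submodule.mem_map]
    constructor
    · rintro ⟨⟨_, h3⟩, h4⟩
      have h5 : y.1 = 0 := congrArg Prod.fst h4
      exact ⟨y.2, h3, Prod.ext h5.symm rfl⟩
    · rintro ⟨a, ha, rfl⟩
      exact ⟨⟨Submodule.zero_mem _, ha⟩, rfl⟩
  have e2 : (fun s => (Sy X (dbl r x q) s).map e) =
      fun s => (Sy X r s).map (LinearMap.inl F2 Y Y) := by
    funext s
    ext y
    rw [Submodule.mem_map, Submodule.mem_map]
    constructor
    · rintro ⟨a, ha, rfl⟩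
      exact ⟨a.1, ((hmem s a).1 ha).1, rfl⟩
    · rintro ⟨a, ha, rfl⟩
      exact ⟨(a, 0), (hmem s (a, 0)).2 ⟨ha, Submodule.zero_mem _⟩, rfl⟩
  rw [e1, e2, hd_map _ _ LinearMap.inr_injective, hd_map _ _ LinearMap.inl_injective] at h1
  unfold hX
  rw [h1, two_mul]

theorem gz_del {G : SimpleGraph V} {U : Finset V} {v : V} (hv : v ∈ U) {i : ℕ}
    (h₁ : GZ G (U.erase v) (i + 1)) (h₂ : GZ G (lk G U v) i) : GZ G U (i + 1) := by
  classical
  intro ε hε
  have hlk : ∀ w, w ∈ lk G U v ↔ w ∈ U ∧ G.Adj v w := by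
    intro w
    unfold lk
    rw [mem_filter]
  have hU : lk G U v ⊆ U.erase v := by
    intro w hw
    obtain ⟨h1, h2⟩ := (hlk w).1 hw
    exact mem_erase.2 ⟨h2.ne', h1⟩
  obtain ⟨Y, iY1, iY2, iY3, r, E, hN, hB, hpos, hle1, hle2⟩ :=
    gz_two hU h₁ h₂ (ε / 2) (by positivity)
  have hN' : IsN G U (dbl r v 1) :=
    isN_dbl (G := G) (H := G) hN (fun a _ b _ hab => hab) 1 (Or.inl rfl)
  have hB' : IsBit G U (dbl r v 1) (dblE E v v false) := isBit_dbl_one hN hB
  have hfr : Module.finrank F2 (Y × Y) = Module.finrank F2 Y + Module.finrank F2 Y :=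
    Module.finrank_prod
  refine ⟨Y × Y, inferInstance, inferInstance, inferInstance, dbl r v 1, dblE E v v false, hN', hB',
    by omega, ?_⟩
  let j : Y →ₗ[F2] Y × Y := LinearMap.prod LinearMap.id LinearMap.id
  have hj : ∀ y : Y, j y = (y, y) := fun _ => rfl
  have hjinj : Function.Injective j := by
    intro a b hab
    rw [hj, hj] at hab
    exact congrArg Prod.fst hab
  have hmono : Mono (Sy (Cq G U) (dbl r v 1)) := mono_Sy (mono_Cq G U) _
  have h1 := hd_res hmono {v} i
  rw [card_singleton] at h1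
  have e1 : del {v} (Sy (Cq G U) (dbl r v 1)) = Sy (Cq G (U.erase v)) (dbl r v 1) := by
    funext s
    ext y
    show (y ∈ Sy (Cq G U) (dbl r v 1) s ∧ ({v} ⊆ s → y = 0)) ↔ _
    rw [mem_Sy, mem_Sy]
    constructor
    · rintro ⟨⟨h2, h3⟩, h4⟩
      refine ⟨fun hc => ?_, h3⟩
      by_cases hs : v ∈ s
      · exact h4 (singleton_subset_iff.2 hs)
      · refine h2 fun h5 => hc ⟨h5.1, fun w hw => mem_erase.2 ⟨fun e => hs (e ▸ hw), h5.2 hw⟩⟩
    · rintro ⟨h2, h3⟩
      refine ⟨⟨fun hc => h2 fun h5 => hc ⟨h5.1, fun w hw => mem_of_mem_erase (h5.2 hw)⟩, h3⟩, ?_⟩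
      intro hs
      exact h2 fun h5 => notMem_erase v U (h5.2 (singleton_subset_iff.1 hs))
  have e2 : res {v} (Sy (Cq G U) (dbl r v 1)) = fun s => (Sy (Cq G (lk G U v)) r s).map j := by
    funext s
    ext y
    show (y ∈ Sy (Cq G U) (dbl r v 1) ({v} ∪ s) ∧ (¬ Disjoint {v} s → y = 0)) ↔ _
    rw [mem_Sy, Submodule.mem_map, disjoint_singleton_left, not_not]
    constructor
    · rintro ⟨⟨h2, h3⟩, h4⟩
      by_cases hs : v ∈ s
      · rw [h4 hs]
        exact ⟨0, Submodule.zero_mem _, map_zero _⟩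
      · have h5 : y.2 = y.1 := by
          have h6 := h3 v (mem_union_left _ (mem_singleton_self v))
          rw [dbl_self] at h6
          exact congrArg Prod.fst h6
        refine ⟨y.1, ?_, ?_⟩
        · rw [mem_Sy]
          refine ⟨fun hc => ?_, fun w hw => ?_⟩
          · rw [h2 fun h6 => hc ⟨fun a ha b hb hab => h6.1
              (mem_coe.2 (mem_union_right _ (mem_coe.1 ha)))
              (mem_coe.2 (mem_union_right _ (mem_coe.1 hb))) hab, fun w hw => (hlk w).2
                ⟨h6.2 (mem_union_right _ hw), h6.1 (mem_coe.2 (mem_union_left _ (mem_singleton_self v)))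
                  (mem_coe.2 (mem_union_right _ hw)) fun e => hs (e ▸ hw)⟩⟩]
            rfl
          · have hwv : w ≠ v := fun e => hs (e ▸ hw)
            have h6 := h3 w (mem_union_right _ hw)
            rw [dbl_ne r hwv] at h6
            exact congrArg Prod.fst h6
        · rw [hj]
          exact Prod.ext rfl h5.symm
    · rintro ⟨a, ha, rfl⟩
      rw [mem_Sy] at ha
      rw [hj]
      refine ⟨⟨fun hc => ?_, fun w hw => ?_⟩, fun hs => ?_⟩
      · rw [ha.1 fun h2 => hc ⟨?_, ?_⟩]
        · rfl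
        · intro b hb c hc' hbc
          have hb' := mem_union.1 (mem_coe.1 hb)
          have hc'' := mem_union.1 (mem_coe.1 hc')
          rcases hb' with hb' | hb'
          · have hbv : b = v := mem_singleton.1 hb'
            rcases hc'' with hc'' | hc''
            · exact absurd (hbv.trans (mem_singleton.1 hc'').symm) hbc
            · rw [hbv]
              exact ((hlk c).1 (h2.2 hc'')).2
          · rcases hc'' with hc'' | hc''
            · rw [mem_singleton.1 hc'']
              exact ((hlk b).1 (h2.2 hb')).2.symm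
            · exact h2.1 (mem_coe.2 hb') (mem_coe.2 hc'') hbc
        · intro w hw
          rcases mem_union.1 hw with hw | hw
          · rw [mem_singleton.1 hw]
            exact hv
          · exact ((hlk w).1 (h2.2 hw)).1
      · by_cases hwv : w = v
        · rw [hwv, dbl_self]
          rfl
        · rw [dbl_ne r hwv]
          have hw' : w ∈ s := (mem_union.1 hw).resolve_left fun h2 => hwv (mem_singleton.1 h2)
          exact Prod.ext (ha.2 w hw') (ha.2 w hw')
      · rw [ha.1 fun h2 => ((hlk v).1 (h2.2 hs)).2.ne rfl]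
        rfl
  rw [e1, e2, hd_map _ j hjinj] at h1
  have h2 : hX (Cq G (U.erase v)) (dbl r v 1) (i + 1) = 2 * hX (Cq G (U.erase v)) r (i + 1) :=
    hX_dbl (mono_Cq G (U.erase v)) (fun s hs hvs => notMem_erase v U (hs.2 hvs)) r 1 (i + 1)
  have h3 : hX (Cq G U) (dbl r v 1) (i + 1) ≤
      2 * hX (Cq G (U.erase v)) r (i + 1) + hX (Cq G (lk G U v)) r i := by
    rw [← h2]
    exact h1
  have h4 : (hX (Cq G U) (dbl r v 1) (i + 1) : ℝ) ≤
      2 * (hX (Cq G (U.erase v)) r (i + 1) : ℝ) + (hX (Cq G (lk G U v)) r i : ℝ) := by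
    exact_mod_cast h3
  have h5 : (0 : ℝ) ≤ ε * Module.finrank F2 Y := by positivity
  rw [hfr]
  push_cast
  linarith

end Pool.Agent.H73.GC
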