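import Pool.Agent.H73.GC.LinA

/-!
# Growth calculus: gluing, linear algebra
-/

set_option autoImplicit false
set_option linter.unusedSectionVars false

open Finset

namespace Pool.Agent.H73.GC

variable {E E' : Type} [AddCommGroup E] [Module F2 E] [Finite E] [AddCommGroup E'] [Module F2 E']
  [Finite E']

/-- a map of complexes which is onto on the cycles -/
theorem glue_surj {d : Module.End F2 E} {d' : Module.End F2 E'} {C : ℕ → Submodule F2 E}
    {C' : ℕ → Submodule F2 E'} (hC : IsCx d C) (hC' : IsCx d' C') (Φ : E →ₗ[F2] E') (i : ℕ)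
    (hΦ : ∀ x ∈ C (i + 1), Φ x ∈ C' (i + 1)) (hd : ∀ x ∈ C (i + 1), Φ (d x) = d' (Φ x))
    (hs : ∀ z ∈ C' i, d' z = 0 → ∃ x ∈ C i, d x = 0 ∧ Φ x = z) : hx d' C' i ≤ hx d C i := by
  have h1 := LinA_rank Φ (C i ⊓ LinearMap.ker d)
  have h2 := LinA_rank Φ ((C i ⊓ LinearMap.ker d) ⊓ ((C' (i + 1)).map d').comap Φ)
  have h3 : ((C i ⊓ LinearMap.ker d) ⊓ ((C' (i + 1)).map d').comap Φ) ⊓ LinearMap.ker Φ =
      (C i ⊓ LinearMap.ker d) ⊓ LinearMap.ker Φ := by
    ext x
    constructor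
    · rintro ⟨⟨h, -⟩, h'⟩
      exact ⟨h, h'⟩
    · rintro ⟨h, h'⟩
      refine ⟨⟨h, ?_⟩, h'⟩
      change Φ x ∈ (C' (i + 1)).map d'
      rw [LinearMap.mem_ker.1 h']
      exact Submodule.zero_mem _
  have h4 : ((C i ⊓ LinearMap.ker d) ⊓ ((C' (i + 1)).map d').comap Φ).map Φ =
      (C' (i + 1)).map d' := by
    apply le_antisymm
    · rintro _ ⟨x, ⟨-, hx⟩, rfl⟩
      exact hx
    · rintro _ ⟨z, hz, rfl⟩
      obtain ⟨x, hx1, hx2, hx3⟩ := hs (d' z) (hC'.map i z hz) (hC'.sq (i + 1) z hz)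
      refine ⟨x, ⟨⟨hx1, hx2⟩, ?_⟩, hx3⟩
      change Φ x ∈ (C' (i + 1)).map d'
      rw [hx3]
      exact ⟨z, hz, rfl⟩
  have h5 : (C' i ⊓ LinearMap.ker d') ≤ (C i ⊓ LinearMap.ker d).map Φ := by
    rintro z ⟨hz, hz'⟩
    obtain ⟨x, hx1, hx2, hx3⟩ := hs z hz hz'
    exact ⟨x, ⟨hx1, hx2⟩, hx3⟩
  have h6 : (C (i + 1)).map d ≤
      (C i ⊓ LinearMap.ker d) ⊓ ((C' (i + 1)).map d').comap Φ := by
    rintro _ ⟨x, hx, rfl⟩
    refine ⟨⟨hC.map i x hx, hC.sq (i + 1) x hx⟩, ?_⟩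
    change Φ (d x) ∈ (C' (i + 1)).map d'
    rw [hd x hx]
    exact ⟨Φ x, hΦ x hx, rfl⟩
  have h7 := Submodule.finrank_mono h5
  have h8 := Submodule.finrank_mono h6
  rw [h3, h4] at h2
  rw [hx, hx]
  omega

/-- the functions with values in `C` -/
def gpi (n : ℕ) (C : Submodule F2 E) : Submodule F2 (Fin n → E) where
  carrier := {f | ∀ k, f k ∈ C}
  zero_mem' _ := Submodule.zero_mem _
  add_mem' hf hg k := Submodule.add_mem _ (hf k) (hg k)
  smul_mem' c _ hf k := Submodule.smul_mem _ c (hf k)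

theorem mem_gpi {n : ℕ} {C : Submodule F2 E} {f : Fin n → E} : f ∈ gpi n C ↔ ∀ k, f k ∈ C :=
  Iff.rfl

theorem finrank_gpi (n : ℕ) (C : Submodule F2 E) :
    Module.finrank F2 (gpi n C) = n * Module.finrank F2 C := by
  have e : gpi n C ≃ₗ[F2] (Fin n → C) :=
    { toFun := fun f k => ⟨f.1 k, f.2 k⟩
      invFun := fun g => ⟨fun k => (g k : E), fun k => (g k).2⟩
      left_inv := fun _ => rfl
      right_inv := fun _ => rfl
      map_add' := fun _ _ => rfl
      map_smul' := fun _ _ => rfl }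
  rw [e.finrank_eq, Module.finrank_pi_fintype, sum_const, card_univ, Fintype.card_fin,
    smul_eq_mul]

theorem glue_fil {n : ℕ} (S : Submodule F2 (Fin (n + 1) → E)) (C Z : Submodule F2 E)
    (h0 : ∀ f ∈ S, f 0 ∈ C)
    (h : ∀ f ∈ S, ∀ k : ℕ, ∀ hk : k + 1 < n + 1, f ⟨k, by omega⟩ = 0 → f ⟨k + 1, hk⟩ ∈ Z) :
    Module.finrank F2 S ≤ Module.finrank F2 C + n * Module.finrank F2 Z := by
  obtain ⟨K, hK⟩ : ∃ K : ℕ → Submodule F2 (Fin (n + 1) → E), ∀ j f, f ∈ K j ↔
      f ∈ S ∧ ∀ l : Fin (n + 1), (l : ℕ) ≤ j → f l = 0 := by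
    refine ⟨fun j => {
      carrier := {f | f ∈ S ∧ ∀ l : Fin (n + 1), (l : ℕ) ≤ j → f l = 0}
      zero_mem' := ⟨Submodule.zero_mem _, fun _ _ => rfl⟩
      add_mem' := ?_
      smul_mem' := ?_ }, fun j f => Iff.rfl⟩
    · rintro f g ⟨h1, h2⟩ ⟨h3, h4⟩
      refine ⟨Submodule.add_mem _ h1 h3, fun l hl => ?_⟩
      rw [Pi.add_apply, h2 l hl, h4 l hl, add_zero]
    · rintro c f ⟨h1, h2⟩
      refine ⟨Submodule.smul_mem _ c h1, fun l hl => ?_⟩
      rw [Pi.smul_apply, h2 l hl, smul_zero]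
  have hind : ∀ t j, j + t = n → Module.finrank F2 (K j) ≤ t * Module.finrank F2 Z := by
    intro t
    induction t with
    | zero =>
      intro j hj
      have h1 : K j = ⊥ := by
        rw [eq_bot_iff]
        intro f hf
        rw [Submodule.mem_bot]
        funext l
        exact ((hK j f).1 hf).2 l (by omega)
      rw [h1, finrank_bot]
      omega
    | succ t ih =>
      intro j hj
      have hj1 : j + 1 < n + 1 := by omega
      have h1 := LinA_rank (LinearMap.proj (R := F2) (φ := fun _ : Fin (n + 1) => E)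
        ⟨j + 1, hj1⟩) (K j)
      have h2 : (K j).map (LinearMap.proj (R := F2) (φ := fun _ : Fin (n + 1) => E)
        ⟨j + 1, hj1⟩) ≤ Z := by
        rintro _ ⟨f, hf, rfl⟩
        have h3 := (hK j f).1 hf
        exact h f h3.1 j hj1 (h3.2 _ le_rfl)
      have h3 : K j ⊓ LinearMap.ker (LinearMap.proj (R := F2) (φ := fun _ : Fin (n + 1) => E)
        ⟨j + 1, hj1⟩) ≤ K (j + 1) := by
        rintro f ⟨hf, hk⟩
        have h4 := (hK j f).1 hf
        refine (hK (j + 1) f).2 ⟨h4.1, fun l hl => ?_⟩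
        rcases Nat.lt_or_ge (l : ℕ) (j + 1) with h5 | h5
        · exact h4.2 l (by omega)
        · have h6 : l = ⟨j + 1, hj1⟩ := Fin.ext (by
            change (l : ℕ) = j + 1
            omega)
          rw [h6]
          exact LinearMap.mem_ker.1 hk
      have h4 := Submodule.finrank_mono h2
      have h5 := Submodule.finrank_mono h3
      have h6 := ih (j + 1) (by omega)
      rw [Nat.add_mul, Nat.one_mul]
      omega
  have h1 := LinA_rank (LinearMap.proj (R := F2) (φ := fun _ : Fin (n + 1) => E) 0) S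
  have h2 : S.map (LinearMap.proj (R := F2) (φ := fun _ : Fin (n + 1) => E) 0) ≤ C := by
    rintro _ ⟨f, hf, rfl⟩
    exact h0 f hf
  have h3 : S ⊓ LinearMap.ker (LinearMap.proj (R := F2) (φ := fun _ : Fin (n + 1) => E) 0) ≤
      K 0 := by
    rintro f ⟨hf, hk⟩
    refine (hK 0 f).2 ⟨hf, fun l hl => ?_⟩
    have h6 : l = 0 := Fin.ext (by
      change (l : ℕ) = 0
      omega)
    rw [h6]
    exact LinearMap.mem_ker.1 hk
  have h4 := Submodule.finrank_mono h2
  have h5 := Submodule.finrank_mono h3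
  have h6 := hind n 0 (by omega)
  omega

/-- the boundary `d + T D`, where `T` is the shift -/
noncomputable def gsh (n : ℕ) (d D : Module.End F2 E) : Module.End F2 (Fin (n + 1) → E) where
  toFun f k := d (f k) + D (f ((finRotate (n + 1)).symm k))
  map_add' f g := by
    funext k
    simp only [Pi.add_apply, map_add]
    abel
  map_smul' c f := by
    funext k
    simp only [Pi.smul_apply, map_smul, smul_add, RingHom.id_apply]

theorem gsh_apply (n : ℕ) (d D : Module.End F2 E) (f : Fin (n + 1) → E) (k : Fin (n + 1)) :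
    gsh n d D f k = d (f k) + D (f ((finRotate (n + 1)).symm k)) := rfl

theorem glue_ker (n : ℕ) (d D : Module.End F2 E) (C : Submodule F2 E) :
    Module.finrank F2 (gpi (n + 1) C ⊓ LinearMap.ker (gsh n d D) :
      Submodule F2 (Fin (n + 1) → E)) ≤ Module.finrank F2 C +
        n * Module.finrank F2 (C ⊓ LinearMap.ker d : Submodule F2 E) := by
  refine glue_fil _ _ _ (fun f hf => hf.1 0) (fun f hf k hk h => ⟨hf.1 _, ?_⟩)
  have h1 := congrFun (LinearMap.mem_ker.1 hf.2) ⟨k + 1, hk⟩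
  have h2 : (finRotate (n + 1)).symm ⟨k + 1, hk⟩ = ⟨k, by omega⟩ := by
    rw [Equiv.symm_apply_eq]
    exact (finRotate_of_lt (by omega : k < n)).symm
  rw [gsh_apply, h2, h, map_zero, add_zero] at h1
  exact LinearMap.mem_ker.2 h1

theorem glue_shift (n : ℕ) (d D : Module.End F2 E) (C : ℕ → Submodule F2 E) (i : ℕ) :
    hx (gsh n d D) (fun j => gpi (n + 1) (C j)) i ≤ Module.finrank F2 (C i) + n * hx d C i := by
  have h1 := glue_ker n d D (C i)
  have h2 := glue_ker n d D (C (i + 1))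
  have h3 := finrank_gpi (n + 1) (C (i + 1))
  rw [hx_eq, hx_eq]
  zify at h1 h2 h3
  rw [h3]
  linarith

end Pool.Agent.H73.GC
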