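import Pool.Agent.H73.GC.Glue1
import Pool.Agent.H73.GC.SysA
import Pool.Agent.H73.GC.SysB

/-!
# Growth calculus: gluing, the chains of one piece
-/

set_option autoImplicit false
set_option linter.unusedSectionVars false

open Finset

namespace Pool.Agent.H73.GC

variable {V : Type} [DecidableEq V] [Fintype V]
variable {Y : Type} [AddCommGroup Y] [Module F2 Y]

/-- the part of a chain in the link of `c` -/
def glk (c : V) : Module.End F2 (Finset V → Y) where
  toFun f s := if c ∈ s then 0 else f (insert c s)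
  map_add' f g := by
    funext s
    by_cases h : c ∈ s
    · simp only [if_pos h, Pi.add_apply, add_zero]
    · simp only [if_neg h, Pi.add_apply]
  map_smul' a f := by
    funext s
    by_cases h : c ∈ s
    · simp only [if_pos h, Pi.smul_apply, smul_zero]
    · simp only [if_neg h, Pi.smul_apply, RingHom.id_apply]

/-- the part of a chain outside of the star of `c` -/
def gdl (c : V) : Module.End F2 (Finset V → Y) where
  toFun f s := if c ∈ s then 0 else f s
  map_add' f g := by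
    funext s
    by_cases h : c ∈ s
    · simp only [if_pos h, Pi.add_apply, add_zero]
    · simp only [if_neg h, Pi.add_apply]
  map_smul' a f := by
    funext s
    by_cases h : c ∈ s
    · simp only [if_pos h, Pi.smul_apply, smul_zero]
    · simp only [if_neg h, Pi.smul_apply, RingHom.id_apply]

theorem glk_mem {c : V} {s : Finset V} (h : c ∈ s) (f : Finset V → Y) : glk c f s = 0 := if_pos h

theorem glk_not {c : V} {s : Finset V} (h : c ∉ s) (f : Finset V → Y) :
    glk c f s = f (insert c s) := if_neg h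

theorem gdl_mem {c : V} {s : Finset V} (h : c ∈ s) (f : Finset V → Y) : gdl c f s = 0 := if_pos h

theorem gdl_not {c : V} {s : Finset V} (h : c ∉ s) (f : Finset V → Y) :
    gdl c f s = f s := if_neg h

theorem gdl_dd (c : V) (f : Finset V → Y) : gdl c (dd f) = dd (gdl c f) + glk c f := by
  funext s
  rw [Pi.add_apply, dd_apply]
  by_cases h : c ∈ s
  · rw [gdl_mem h, glk_mem h, add_zero]
    symm
    exact sum_eq_zero fun v _ => gdl_mem (mem_insert_of_mem h) f
  · rw [gdl_not h, glk_not h, dd_apply, ← add_sum_erase _ _ (mem_compl.2 h),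
      ← add_sum_erase _ (fun v => gdl c f (insert v s)) (mem_compl.2 h),
      gdl_mem (mem_insert_self c s), zero_add, add_comm]
    congr 1
    refine sum_congr rfl fun v hv => ?_
    rw [gdl_not]
    rw [mem_insert, not_or]
    exact ⟨fun e => (mem_erase.1 hv).1 e.symm, h⟩

theorem glk_dd (c : V) (f : Finset V → Y) : glk c (dd f) = dd (glk c f) := by
  funext s
  rw [dd_apply]
  by_cases h : c ∈ s
  · rw [glk_mem h]
    symm
    exact sum_eq_zero fun v _ => glk_mem (mem_insert_of_mem h) f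
  · rw [glk_not h, dd_apply, ← add_sum_erase _ (fun v => glk c f (insert v s)) (mem_compl.2 h),
      glk_mem (mem_insert_self c s), zero_add, compl_insert]
    refine sum_congr rfl fun v hv => ?_
    rw [glk_not, insert_comm]
    rw [mem_insert, not_or]
    exact ⟨fun e => (mem_erase.1 hv).1 e.symm, h⟩

theorem gext (c : V) {f : Finset V → Y} (h1 : gdl c f = 0) (h2 : glk c f = 0) : f = 0 := by
  funext s
  by_cases h : c ∈ s
  · have h3 := congrFun h2 (s.erase c)
    rw [glk_not (notMem_erase c s), insert_erase h] at h3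
    exact h3
  · have h3 := congrFun h1 s
    rw [gdl_not h] at h3
    exact h3

/-- the piece `A` with the cone vertex `c` over `F` -/
structure GHalf (G₁ G : SimpleGraph V) (A F : Finset V) (c : V) : Prop where
  hc : c ∉ A
  hF : F ⊆ A
  adj : ∀ a ∈ A, ∀ b ∈ A, G₁.Adj a b ↔ G.Adj a b
  cadj : ∀ a ∈ A, G₁.Adj c a ↔ a ∈ F

variable {G₁ G : SimpleGraph V} {A F : Finset V} {c : V}

theorem GHalf.cq (h : GHalf G₁ G A F c) {s : Finset V} (hs : c ∉ s) :
    Cq G₁ (insert c A) s ↔ Cq G A s := by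
  constructor
  · rintro ⟨h2, h3⟩
    have h4 : s ⊆ A := (subset_insert_iff_of_notMem hs).1 h3
    exact ⟨fun a ha b hb hab => (h.adj a (h4 ha) b (h4 hb)).1 (h2 ha hb hab), h4⟩
  · rintro ⟨h2, h4⟩
    exact ⟨fun a ha b hb hab => (h.adj a (h4 ha) b (h4 hb)).2 (h2 ha hb hab),
      h4.trans (subset_insert c A)⟩

theorem GHalf.cq_insert (h : GHalf G₁ G A F c) {s : Finset V} (hs : c ∉ s) :
    Cq G₁ (insert c A) (insert c s) ↔ Cq G F s := by
  constructor
  · rintro ⟨h2, h3⟩
    have h4 : s ⊆ A := by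
      intro v hv
      rcases mem_insert.1 (h3 (mem_insert_of_mem hv)) with h5 | h5
      · exact absurd (h5 ▸ hv) hs
      · exact h5
    refine ⟨fun a ha b hb hab => (h.adj a (h4 ha) b (h4 hb)).1 (h2 ?_ ?_ hab), fun v hv => ?_⟩
    · exact mem_coe.2 (mem_insert_of_mem ha)
    · exact mem_coe.2 (mem_insert_of_mem hb)
    · have h5 : c ≠ v := fun hcv => hs (hcv ▸ hv)
      exact (h.cadj v (h4 hv)).1 (h2 (mem_coe.2 (mem_insert_self c s))
        (mem_coe.2 (mem_insert_of_mem hv)) h5)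
  · rintro ⟨h2, h3⟩
    have h4 := h3.trans h.hF
    refine ⟨?_, insert_subset_insert c h4⟩
    intro a ha b hb hab
    rw [mem_coe, mem_insert] at ha hb
    rcases ha with rfl | ha
    · rcases hb with rfl | hb
      · exact absurd rfl hab
      · exact (h.cadj b (h4 hb)).2 (h3 hb)
    · rcases hb with rfl | hb
      · exact ((h.cadj a (h4 ha)).2 (h3 ha)).symm
      · exact (h.adj a (h4 ha) b (h4 hb)).2 (h2 ha hb hab)

theorem GHalf.sy_not (h : GHalf G₁ G A F c) (r : V → Module.End F2 Y) (ρ : Module.End F2 Y)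
    {s : Finset V} (hs : c ∉ s) (y : Y) :
    y ∈ Sy (Cq G₁ (insert c A)) (Function.update r c ρ) s ↔ y ∈ Sy (Cq G A) r s := by
  have h1 : ∀ v ∈ s, Function.update r c ρ v = r v :=
    fun v hv => Function.update_of_ne (fun e : v = c => hs (e ▸ hv)) ρ r
  rw [mem_Sy, mem_Sy, h.cq hs]
  refine and_congr_right fun _ => forall₂_congr fun v hv => ?_
  rw [h1 v hv]

theorem GHalf.sy_insert (h : GHalf G₁ G A F c) (r : V → Module.End F2 Y) (ρ : Module.End F2 Y)
    {s : Finset V} (hs : c ∉ s) (y : Y) :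
    y ∈ Sy (Cq G₁ (insert c A)) (Function.update r c ρ) (insert c s) ↔
      y ∈ Sy (Cq G F) r s ∧ ρ y = y := by
  have h1 : ∀ v ∈ s, Function.update r c ρ v = r v :=
    fun v hv => Function.update_of_ne (fun e : v = c => hs (e ▸ hv)) ρ r
  rw [mem_Sy, mem_Sy, h.cq_insert hs, forall_mem_insert, Function.update_self]
  constructor
  · rintro ⟨h2, h3, h4⟩
    exact ⟨⟨h2, fun v hv => by rw [← h1 v hv]; exact h4 v hv⟩, h3⟩
  · rintro ⟨⟨h2, h4⟩, h3⟩
    exact ⟨h2, h3, fun v hv => by rw [h1 v hv]; exact h4 v hv⟩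

theorem GHalf.lk_mem (h : GHalf G₁ G A F c) {r : V → Module.End F2 Y} {ρ : Module.End F2 Y}
    {j : ℕ} {f : Finset V → Y}
    (hf : f ∈ Ch (Sy (Cq G₁ (insert c A)) (Function.update r c ρ)) j) (s : Finset V) :
    glk c f s ∈ Sy (Cq G F) r s ∧ ρ (glk c f s) = glk c f s ∧
      (s.card + 1 ≠ j → glk c f s = 0) := by
  by_cases hs : c ∈ s
  · rw [glk_mem hs]
    exact ⟨Submodule.zero_mem _, map_zero _, fun _ => rfl⟩
  · rw [glk_not hs]
    have h1 := (h.sy_insert r ρ hs _).1 (hf (insert c s)).1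
    refine ⟨h1.1, h1.2, fun hn => (hf (insert c s)).2 ?_⟩
    rw [card_insert_of_notMem hs]
    exact hn

theorem GHalf.dl_mem (h : GHalf G₁ G A F c) {r : V → Module.End F2 Y} {ρ : Module.End F2 Y}
    {j : ℕ} {f : Finset V → Y}
    (hf : f ∈ Ch (Sy (Cq G₁ (insert c A)) (Function.update r c ρ)) j) :
    gdl c f ∈ Ch (Sy (Cq G A) r) j := by
  intro s
  by_cases hs : c ∈ s
  · rw [gdl_mem hs]
    exact ⟨Submodule.zero_mem _, fun _ => rfl⟩
  · rw [gdl_not hs]
    exact ⟨(h.sy_not r ρ hs _).1 (hf s).1, (hf s).2⟩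

theorem GHalf.mem_of (h : GHalf G₁ G A F c) {r : V → Module.End F2 Y} {ρ : Module.End F2 Y}
    {j : ℕ} {f : Finset V → Y} (hf : f ∈ Ch (Sy (Cq G F) r) j) :
    f ∈ Ch (Sy (Cq G₁ (insert c A)) (Function.update r c ρ)) j := by
  intro s
  refine ⟨?_, (hf s).2⟩
  by_cases hs : c ∈ s
  · rw [(hf s).1.1 fun hn => h.hc (h.hF (hn.2 hs))]
    exact Submodule.zero_mem _
  · refine (h.sy_not r ρ hs _).2 ⟨fun hn => (hf s).1.1 fun hn' => hn ⟨hn'.1, hn'.2.trans h.hF⟩,
      (hf s).1.2⟩

/-- the chain with the parts `x` and `a` -/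
def gmk (c : V) (x a : Finset V → Y) (s : Finset V) : Y := if c ∈ s then a (s.erase c) else x s

theorem GHalf.mk_mem (h : GHalf G₁ G A F c) {r : V → Module.End F2 Y} {ρ : Module.End F2 Y}
    {j : ℕ} {x a : Finset V → Y} (hx : x ∈ Ch (Sy (Cq G A) r) j)
    (ha : ∀ s, a s ∈ Sy (Cq G F) r s ∧ ρ (a s) = a s ∧ (s.card + 1 ≠ j → a s = 0)) :
    gmk c x a ∈ Ch (Sy (Cq G₁ (insert c A)) (Function.update r c ρ)) j := by
  intro s
  by_cases hs : c ∈ s
  · have h1 : gmk c x a s = a (s.erase c) := if_pos hs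
    obtain ⟨h2, h3, h4⟩ := ha (s.erase c)
    rw [h1]
    refine ⟨?_, fun hn => h4 ?_⟩
    · have h5 := (h.sy_insert r ρ (notMem_erase c s) _).2 ⟨h2, h3⟩
      rw [insert_erase hs] at h5
      exact h5
    · rw [card_erase_add_one hs]
      exact hn
  · have h1 : gmk c x a s = x s := if_neg hs
    rw [h1]
    exact ⟨(h.sy_not r ρ hs _).2 (hx s).1, (hx s).2⟩

theorem gmk_dl {x a : Finset V → Y} (hx : ∀ s, c ∈ s → x s = 0) : gdl c (gmk c x a) = x := by
  funext s
  by_cases hs : c ∈ s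
  · rw [gdl_mem hs, hx s hs]
  · rw [gdl_not hs]
    exact if_neg hs

theorem gmk_lk {x a : Finset V → Y} (ha : ∀ s, c ∈ s → a s = 0) : glk c (gmk c x a) = a := by
  funext s
  by_cases hs : c ∈ s
  · rw [glk_mem hs, ha s hs]
  · rw [glk_not hs]
    have h1 : gmk c x a (insert c s) = a ((insert c s).erase c) := if_pos (mem_insert_self c s)
    rw [h1, erase_insert hs]

end Pool.Agent.H73.GC
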