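import Pool.Agent.H73.GC.Glue2

/-!
# Growth calculus: gluing, the complex of the pairs of chains
-/

set_option autoImplicit false
set_option linter.unusedSectionVars false

open Finset

namespace Pool.Agent.H73.GC

variable {V : Type} [DecidableEq V] [Fintype V]
variable {Y : Type} [AddCommGroup Y] [Module F2 Y]

/-- the operators for the gluing -/
structure GOp (F : Finset V) (r : V → Module.End F2 Y) (ρ ν τ : Module.End F2 Y) : Prop where
  ker : ∀ y, ν y = 0 ↔ ρ y = y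
  sq : ∀ y, ν (ν y) = 0
  tau : ∀ y, ρ y = y → ν (τ y) = y
  nu_r : ∀ v ∈ F, ∀ y, ν (r v y) = r v (ν y)
  tau_r : ∀ v ∈ F, ∀ y, τ (r v y) = r v (τ y)

/-- the operators for the whole complex -/
def gtw (A : Finset V) (r : V → Module.End F2 Y) (ν : Module.End F2 Y) (v : V) :
    Module.End F2 Y := if v ∈ A then r v else (1 + ν) * r v * (1 + ν)

theorem gtw_mem {A : Finset V} {r : V → Module.End F2 Y} {ν : Module.End F2 Y} {v : V}
    (hv : v ∈ A) (y : Y) : gtw A r ν v y = r v y := by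
  rw [gtw, if_pos hv]

theorem gtw_not {A : Finset V} {r : V → Module.End F2 Y} {ν : Module.End F2 Y} {v : V}
    (hv : v ∉ A) (y : Y) : gtw A r ν v y = (1 + ν) (r v ((1 + ν) y)) := by
  rw [gtw, if_neg hv]
  rfl

theorem gone (ν : Module.End F2 Y) (y : Y) : (1 + ν) y = y + ν y := rfl

theorem GOp.gg {F : Finset V} {r : V → Module.End F2 Y} {ρ ν τ : Module.End F2 Y}
    (ho : GOp F r ρ ν τ) (y : Y) : (1 + ν) ((1 + ν) y) = y := by
  rw [gone, gone, map_add, ho.sq, add_zero, add_assoc, ZModModule.add_self, add_zero]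

/-- the link parts of both chains -/
def gU (c c' : V) : ((Finset V → Y) × (Finset V → Y)) →ₗ[F2] (Finset V → Y) :=
  (glk c).comp (LinearMap.fst F2 _ _) + (glk c').comp (LinearMap.snd F2 _ _)

theorem gU_apply (c c' : V) (f : (Finset V → Y) × (Finset V → Y)) :
    gU c c' f = glk c f.1 + glk c' f.2 := rfl

/-- the boundaries of both chains -/
def gd0 : Module.End F2 ((Finset V → Y) × (Finset V → Y)) := LinearMap.prodMap dd dd

/-- the correction of the boundary -/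
def gD (c c' : V) (τ : Module.End F2 Y) : Module.End F2 ((Finset V → Y) × (Finset V → Y)) :=
  (LinearMap.prod (τ.compLeft (Finset V)) (τ.compLeft (Finset V))).comp (gU c c')

/-- the boundary of the pairs of chains -/
def gdT (c c' : V) (τ : Module.End F2 Y) : Module.End F2 ((Finset V → Y) × (Finset V → Y)) :=
  gd0 + gD c c' τ

theorem gdT_apply (c c' : V) (τ : Module.End F2 Y) (f : (Finset V → Y) × (Finset V → Y)) :
    gdT c c' τ f = (dd f.1 + τ.compLeft (Finset V) (gU c c' f),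
      dd f.2 + τ.compLeft (Finset V) (gU c c' f)) := rfl

/-- the pairs of chains -/
def gC (G₁ G₂ : SimpleGraph V) (A B : Finset V) (c c' : V) (r : V → Module.End F2 Y)
    (ρ : Module.End F2 Y) (j : ℕ) : Submodule F2 ((Finset V → Y) × (Finset V → Y)) :=
  (Ch (Sy (Cq G₁ (insert c A)) (Function.update r c ρ)) j).prod
    (Ch (Sy (Cq G₂ (insert c' B)) (Function.update r c' ρ)) j)

theorem mem_gC {G₁ G₂ : SimpleGraph V} {A B : Finset V} {c c' : V} {r : V → Module.End F2 Y}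
    {ρ : Module.End F2 Y} {j : ℕ} {f : (Finset V → Y) × (Finset V → Y)} :
    f ∈ gC G₁ G₂ A B c c' r ρ j ↔
      f.1 ∈ Ch (Sy (Cq G₁ (insert c A)) (Function.update r c ρ)) j ∧
      f.2 ∈ Ch (Sy (Cq G₂ (insert c' B)) (Function.update r c' ρ)) j := Iff.rfl

/-- the map to the chains of the whole complex -/
def gPhi (c c' : V) (ν : Module.End F2 Y) :
    ((Finset V → Y) × (Finset V → Y)) →ₗ[F2] (Finset V → Y) :=
  (gdl c).comp (LinearMap.fst F2 _ _) +
    (((1 + ν : Module.End F2 Y).compLeft (Finset V)).comp (gdl c')).comp (LinearMap.snd F2 _ _)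

theorem gPhi_apply (c c' : V) (ν : Module.End F2 Y) (f : (Finset V → Y) × (Finset V → Y)) :
    gPhi c c' ν f = gdl c f.1 + (1 + ν : Module.End F2 Y).compLeft (Finset V) (gdl c' f.2) := rfl

theorem gSy_op {X : Finset V → Prop} {F : Finset V} (hX : ∀ s, X s → s ⊆ F)
    {r : V → Module.End F2 Y} {M : Module.End F2 Y} (hM : ∀ v ∈ F, ∀ y, M (r v y) = r v (M y))
    {s : Finset V} {y : Y} (hy : y ∈ Sy X r s) : M y ∈ Sy X r s := by
  refine ⟨fun hn => by rw [hy.1 hn, map_zero], fun v hv => ?_⟩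
  by_cases hs : X s
  · rw [← hM v (hX s hs hv), hy.2 v hv]
  · rw [hy.1 hs, map_zero, map_zero]

section Two

variable {G G₁ G₂ : SimpleGraph V} {A B F : Finset V} {c c' : V} {r : V → Module.End F2 Y}
  {ρ ν τ : Module.End F2 Y}

theorem gU_mem (h₁ : GHalf G₁ G A F c) (h₂ : GHalf G₂ G B F c') {j : ℕ}
    {f : (Finset V → Y) × (Finset V → Y)} (hf : f ∈ gC G₁ G₂ A B c c' r ρ j) (s : Finset V) :
    gU c c' f s ∈ Sy (Cq G F) r s ∧ ρ (gU c c' f s) = gU c c' f s ∧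
      (s.card + 1 ≠ j → gU c c' f s = 0) := by
  obtain ⟨h3, h4, h5⟩ := h₁.lk_mem hf.1 s
  obtain ⟨h6, h7, h8⟩ := h₂.lk_mem hf.2 s
  rw [gU_apply, Pi.add_apply]
  exact ⟨Submodule.add_mem _ h3 h6, by rw [map_add, h4, h7],
    fun hn => by rw [h5 hn, h8 hn, add_zero]⟩

theorem gtU_mem (h₁ : GHalf G₁ G A F c) (h₂ : GHalf G₂ G B F c')
    (hτ : ∀ v ∈ F, ∀ y, τ (r v y) = r v (τ y)) {j : ℕ}
    {f : (Finset V → Y) × (Finset V → Y)} (hf : f ∈ gC G₁ G₂ A B c c' r ρ (j + 1)) :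
    τ.compLeft (Finset V) (gU c c' f) ∈ Ch (Sy (Cq G F) r) j := by
  intro s
  obtain ⟨h3, -, h5⟩ := gU_mem h₁ h₂ hf s
  refine ⟨gSy_op (fun _ h => h.2) hτ h3, fun hn => ?_⟩
  change τ (gU c c' f s) = 0
  rw [h5 (by omega), map_zero]

theorem gU_zero (h₁ : GHalf G₁ G A F c) (h₂ : GHalf G₂ G B F c') {j : ℕ}
    {f : (Finset V → Y) × (Finset V → Y)} (hf : f ∈ gC G₁ G₂ A B c c' r ρ j) {s : Finset V}
    {v : V} (hv : v ∉ F) (hs : v ∈ s) : gU c c' f s = 0 :=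
  (gU_mem h₁ h₂ hf s).1.1 fun hn => hv (hn.2 hs)

theorem glk_zero {v : V} {u : Finset V → Y} (hu : ∀ s, v ∈ s → u s = 0)
    (M : Module.End F2 Y) : glk v (M.compLeft (Finset V) u) = 0 := by
  funext s
  by_cases hs : v ∈ s
  · rw [glk_mem hs, Pi.zero_apply]
  · rw [glk_not hs]
    change M (u (insert v s)) = 0
    rw [hu _ (mem_insert_self v s), map_zero]

theorem gdl_eq {v : V} {u : Finset V → Y} (hu : ∀ s, v ∈ s → u s = 0)
    (M : Module.End F2 Y) : gdl v (M.compLeft (Finset V) u) = M.compLeft (Finset V) u := by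
  funext s
  by_cases hs : v ∈ s
  · rw [gdl_mem hs]
    change 0 = M (u s)
    rw [hu _ hs, map_zero]
  · rw [gdl_not hs]

theorem gdl_comp (v : V) (u : Finset V → Y) (M : Module.End F2 Y) :
    gdl v (M.compLeft (Finset V) u) = M.compLeft (Finset V) (gdl v u) := by
  funext s
  by_cases hs : v ∈ s
  · rw [gdl_mem hs]
    change 0 = M (gdl v u s)
    rw [gdl_mem hs, map_zero]
  · rw [gdl_not hs]
    change M (u s) = M (gdl v u s)
    rw [gdl_not hs]

theorem isCx_gC (h₁ : GHalf G₁ G A F c) (h₂ : GHalf G₂ G B F c')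
    (hτ : ∀ v ∈ F, ∀ y, τ (r v y) = r v (τ y)) :
    IsCx (gdT c c' τ) (gC G₁ G₂ A B c c' r ρ) := by
  have hc : c ∉ F := fun h => h₁.hc (h₁.hF h)
  have hc' : c' ∉ F := fun h => h₂.hc (h₂.hF h)
  refine ⟨fun j f hf => ?_, fun j f hf => ?_⟩
  · have h3 := gtU_mem h₁ h₂ hτ hf
    rw [gdT_apply]
    exact ⟨Submodule.add_mem _ ((isCx_Ch (mono_Sy (mono_Cq _ _) _)).map j _ hf.1) (h₁.mem_of h3),
      Submodule.add_mem _ ((isCx_Ch (mono_Sy (mono_Cq _ _) _)).map j _ hf.2) (h₂.mem_of h3)⟩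
  · have h3 : ∀ s, c ∈ s → gU c c' f s = 0 := fun s => gU_zero h₁ h₂ hf hc
    have h4 : ∀ s, c' ∈ s → gU c c' f s = 0 := fun s => gU_zero h₁ h₂ hf hc'
    have h5 : gU c c' (gdT c c' τ f) = dd (gU c c' f) := by
      rw [gdT_apply, gU_apply]
      dsimp only
      rw [map_add, map_add, glk_zero h3, glk_zero h4, add_zero, add_zero, glk_dd, glk_dd,
        ← map_add]
      rfl
    rw [gdT_apply c c' τ (gdT c c' τ f), h5, dd_compLeft, gdT_apply]
    dsimp only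
    rw [map_add, map_add, dd_dd, dd_dd, zero_add, ZModModule.add_self]
    rfl

theorem gPhi_dd (h₁ : GHalf G₁ G A F c) (h₂ : GHalf G₂ G B F c') (ho : GOp F r ρ ν τ) {j : ℕ}
    {f : (Finset V → Y) × (Finset V → Y)} (hf : f ∈ gC G₁ G₂ A B c c' r ρ j) :
    gPhi c c' ν (gdT c c' τ f) = dd (gPhi c c' ν f) := by
  have hc : c ∉ F := fun h => h₁.hc (h₁.hF h)
  have hc' : c' ∉ F := fun h => h₂.hc (h₂.hF h)
  have h3 : ∀ s, c ∈ s → gU c c' f s = 0 := fun s => gU_zero h₁ h₂ hf hc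
  have h4 : ∀ s, c' ∈ s → gU c c' f s = 0 := fun s => gU_zero h₁ h₂ hf hc'
  rw [gdT_apply, gPhi_apply, gPhi_apply]
  dsimp only
  rw [map_add (gdl c), map_add (gdl c'), gdl_eq h3, gdl_eq h4, gdl_dd, gdl_dd, map_add dd,
    ← dd_compLeft]
  funext s
  have h5 : ρ (gU c c' f s) = gU c c' f s := (gU_mem h₁ h₂ hf s).2.1
  have h6 : ν (τ (gU c c' f s)) = gU c c' f s := ho.tau _ h5
  have h7 : ν (glk c' f.2 s) = 0 := (ho.ker _).2 (h₂.lk_mem hf.2 s).2.1
  change dd (gdl c f.1) s + glk c f.1 s + τ (gU c c' f s) +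
    (1 + ν) (dd (gdl c' f.2) s + glk c' f.2 s + τ (gU c c' f s)) =
      dd (gdl c f.1) s + (1 + ν) (dd (gdl c' f.2) s)
  rw [gone, gone, map_add, map_add, h6, h7, gU_apply, Pi.add_apply]
  have h8 := ZModModule.add_self (τ (glk c f.1 s + glk c' f.2 s))
  have h9 := ZModModule.add_self (glk c f.1 s)
  have h10 := ZModModule.add_self (glk c' f.2 s)
  linear_combination (norm := module) h8 + h9 + h10

theorem gPhi_left {s : Finset V} {y : Y} (hy : y ∈ Sy (Cq G A) r s) :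
    y ∈ Sy (Cq G (A ∪ B)) (gtw A r ν) s := by
  refine ⟨fun hn => hy.1 fun hn' => hn ⟨hn'.1, hn'.2.trans subset_union_left⟩, fun v hv => ?_⟩
  by_cases hs : Cq G A s
  · rw [gtw_mem (hs.2 hv), hy.2 v hv]
  · rw [hy.1 hs, map_zero]

theorem gPhi_right (ho : GOp (A ∩ B) r ρ ν τ) {s : Finset V} {y : Y}
    (hy : y ∈ Sy (Cq G B) r s) : (1 + ν) y ∈ Sy (Cq G (A ∪ B)) (gtw A r ν) s := by
  refine ⟨fun hn => ?_, fun v hv => ?_⟩
  · rw [hy.1 fun hn' => hn ⟨hn'.1, hn'.2.trans subset_union_right⟩, map_zero]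
  by_cases hs : Cq G B s
  · by_cases hA : v ∈ A
    · rw [gtw_mem hA, gone, map_add, ← ho.nu_r v (mem_inter.2 ⟨hA, hs.2 hv⟩), hy.2 v hv]
    · rw [gtw_not hA, ho.gg, hy.2 v hv]
  · rw [hy.1 hs, map_zero, map_zero]

theorem gPhi_mem (h₁ : GHalf G₁ G A (A ∩ B) c) (h₂ : GHalf G₂ G B (A ∩ B) c')
    (ho : GOp (A ∩ B) r ρ ν τ) {j : ℕ}
    {f : (Finset V → Y) × (Finset V → Y)} (hf : f ∈ gC G₁ G₂ A B c c' r ρ j) :
    gPhi c c' ν f ∈ Ch (Sy (Cq G (A ∪ B)) (gtw A r ν)) j := by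
  intro s
  have h3 := h₁.dl_mem hf.1 s
  have h4 := h₂.dl_mem hf.2 s
  have h5 : gPhi c c' ν f s = gdl c f.1 s + (1 + ν) (gdl c' f.2 s) := rfl
  rw [h5]
  exact ⟨Submodule.add_mem _ (gPhi_left h3.1) (gPhi_right ho h4.1),
    fun hn => by rw [h3.2 hn, h4.2 hn, map_zero, add_zero]⟩

theorem gz_left {s : Finset V} {z : Y} (hz : z ∈ Sy (Cq G (A ∪ B)) (gtw A r ν) s) (hs : s ⊆ A) :
    z ∈ Sy (Cq G A) r s := by
  refine ⟨fun hn => hz.1 fun hn' => hn ⟨hn'.1, hs⟩, fun v hv => ?_⟩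
  rw [← gtw_mem (hs hv) (ν := ν), hz.2 v hv]

theorem gz_right (hno : ∀ a ∈ A, a ∉ B → ∀ b ∈ B, b ∉ A → ¬ G.Adj a b)
    (ho : GOp (A ∩ B) r ρ ν τ) {s : Finset V} {z : Y}
    (hz : z ∈ Sy (Cq G (A ∪ B)) (gtw A r ν) s) (hs : ¬ s ⊆ A) :
    (1 + ν) z ∈ Sy (Cq G B) r s := by
  obtain ⟨b, hb, hbA⟩ := not_subset.1 hs
  have h3 : Cq G (A ∪ B) s → s ⊆ B := by
    intro h a ha
    by_contra haB
    have h4 := h.2 ha
    have h5 := h.2 hb
    rw [mem_union] at h4 h5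
    have h6 : a ∈ A := h4.resolve_right haB
    have h7 : b ∈ B := h5.resolve_left hbA
    exact hno a h6 haB b h7 hbA (h.1 ha hb fun e => haB (e ▸ h7))
  refine ⟨fun hn => ?_, fun v hv => ?_⟩
  · rw [hz.1 fun hn' => hn ⟨hn'.1, h3 hn'⟩, map_zero]
  by_cases hc : Cq G (A ∪ B) s
  · have hvB := h3 hc hv
    have h4 := hz.2 v hv
    by_cases hA : v ∈ A
    · rw [gtw_mem hA] at h4
      rw [gone, map_add, ← ho.nu_r v (mem_inter.2 ⟨hA, hvB⟩), h4]
    · rw [gtw_not hA] at h4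
      have h5 : (1 + ν) ((1 + ν) (r v ((1 + ν) z))) = (1 + ν) z := by rw [h4]
      rw [ho.gg] at h5
      exact h5
  · rw [hz.1 hc, map_zero, map_zero]

end Two

end Pool.Agent.H73.GC
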