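import Pool.Agent.H73.GC.Glue3

/-!
# Growth calculus: gluing, the cycles
-/

set_option autoImplicit false
set_option linter.unusedSectionVars false

open Finset

namespace Pool.Agent.H73.GC

variable {V : Type} [DecidableEq V] [Fintype V]
variable {Y : Type} [AddCommGroup Y] [Module F2 Y]
variable {G G₁ G₂ : SimpleGraph V} {A B : Finset V} {c c' : V} {r : V → Module.End F2 Y}
  {ρ ν τ : Module.End F2 Y}

theorem gPhi_surj (h₁ : GHalf G₁ G A (A ∩ B) c) (h₂ : GHalf G₂ G B (A ∩ B) c')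
    (hno : ∀ a ∈ A, a ∉ B → ∀ b ∈ B, b ∉ A → ¬ G.Adj a b) (ho : GOp (A ∩ B) r ρ ν τ) {i : ℕ}
    {z : Finset V → Y} (hz : z ∈ Ch (Sy (Cq G (A ∪ B)) (gtw A r ν)) i) (hdz : dd z = 0) :
    ∃ f ∈ gC G₁ G₂ A B c c' r ρ i, gdT c c' τ f = 0 ∧ gPhi c c' ν f = z := by
  have hc : c ∉ A ∩ B := fun h => h₁.hc (h₁.hF h)
  have hc' : c' ∉ A ∩ B := fun h => h₂.hc (h₂.hF h)
  obtain ⟨x₁, hx₁⟩ : ∃ x : Finset V → Y, ∀ s, x s = if s ⊆ A then z s else 0 := ⟨_, fun _ => rfl⟩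
  obtain ⟨x₂, hx₂⟩ : ∃ x : Finset V → Y, ∀ s, x s = if s ⊆ A then 0 else (1 + ν) (z s) :=
    ⟨_, fun _ => rfl⟩
  have hm₁ : x₁ ∈ Ch (Sy (Cq G A) r) i := by
    intro s
    rw [hx₁]
    by_cases hs : s ⊆ A
    · rw [if_pos hs]
      exact ⟨gz_left (hz s).1 hs, (hz s).2⟩
    · rw [if_neg hs]
      exact ⟨Submodule.zero_mem _, fun _ => rfl⟩
  have hm₂ : x₂ ∈ Ch (Sy (Cq G B) r) i := by
    intro s
    rw [hx₂]
    by_cases hs : s ⊆ A
    · rw [if_pos hs]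
      exact ⟨Submodule.zero_mem _, fun _ => rfl⟩
    · rw [if_neg hs]
      exact ⟨gz_right hno ho (hz s).1 hs, fun hn => by rw [(hz s).2 hn, map_zero]⟩
  have hzx : z = x₁ + (1 + ν : Module.End F2 Y).compLeft (Finset V) x₂ := by
    funext s
    change z s = x₁ s + (1 + ν) (x₂ s)
    rw [hx₁, hx₂]
    by_cases hs : s ⊆ A
    · rw [if_pos hs, if_pos hs, map_zero, add_zero]
    · rw [if_neg hs, if_neg hs, ho.gg, zero_add]
  obtain ⟨y, hy⟩ : ∃ y : Finset V → Y, y = dd x₁ := ⟨_, rfl⟩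
  have hy2 : ∀ s, y s = (1 + ν) (dd x₂ s) := by
    intro s
    have h3 : dd z s = 0 := by rw [hdz]; rfl
    rw [hzx, map_add, ← dd_compLeft, ← hy] at h3
    change y s + (1 + ν) (dd x₂ s) = 0 at h3
    have h4 := ZModModule.add_self ((1 + ν) (dd x₂ s))
    linear_combination (norm := module) h3 - h4
  have hy3 : ∀ s, (1 + ν) (y s) = dd x₂ s := fun s => by rw [hy2 s, ho.gg]
  have hyA : ∀ s, y s ∈ Sy (Cq G A) r s := by
    intro s
    rw [hy, dd_apply]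
    exact Submodule.sum_mem _ fun v _ => mono_Sy (mono_Cq G A) r s v (hm₁ (insert v s)).1
  have hyB : ∀ s, dd x₂ s ∈ Sy (Cq G B) r s := by
    intro s
    rw [dd_apply]
    exact Submodule.sum_mem _ fun v _ => mono_Sy (mono_Cq G B) r s v (hm₂ (insert v s)).1
  have hyF : ∀ s, y s ∈ Sy (Cq G (A ∩ B)) r s := by
    intro s
    refine ⟨fun hn => ?_, (hyA s).2⟩
    by_cases hsA : Cq G A s
    · rw [hy2 s, (hyB s).1 fun hsB => hn ⟨hsA.1, subset_inter hsA.2 hsB.2⟩, map_zero]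
    · exact (hyA s).1 hsA
  have hyi : ∀ s : Finset V, s.card + 1 ≠ i → y s = 0 := by
    intro s hs
    rw [hy, dd_apply]
    refine sum_eq_zero fun v hv => (hm₁ (insert v s)).2 ?_
    rw [card_insert_of_notMem (mem_compl.1 hv)]
    exact hs
  have hdy : dd y = 0 := by rw [hy]; exact dd_dd x₁
  obtain ⟨a₁, ha₁⟩ : ∃ a : Finset V → Y, a = y + (τ * ν : Module.End F2 Y).compLeft (Finset V) y :=
    ⟨_, rfl⟩
  obtain ⟨a₂, ha₂⟩ : ∃ a : Finset V → Y, a = a₁ + ν.compLeft (Finset V) y := ⟨_, rfl⟩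
  have ha₁s : ∀ s, a₁ s = y s + τ (ν (y s)) := fun s => by rw [ha₁]; rfl
  have ha₂s : ∀ s, a₂ s = a₁ s + ν (y s) := fun s => by rw [ha₂]; rfl
  have hνρ : ∀ w, ρ (ν w) = ν w := fun w => (ho.ker _).1 (ho.sq w)
  have hF : ∀ s, Cq G (A ∩ B) s → s ⊆ A ∩ B := fun _ h => h.2
  have hm₃ : ∀ s, a₁ s ∈ Sy (Cq G (A ∩ B)) r s ∧ ρ (a₁ s) = a₁ s ∧
      (s.card + 1 ≠ i → a₁ s = 0) := by
    intro s
    rw [ha₁s]
    refine ⟨Submodule.add_mem _ (hyF s) (gSy_op hF ho.tau_r (gSy_op hF ho.nu_r (hyF s))), ?_,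
      fun hn => by rw [hyi s hn, map_zero, map_zero, add_zero]⟩
    rw [← ho.ker, map_add, ho.tau _ (hνρ _)]
    exact ZModModule.add_self _
  have hm₄ : ∀ s, a₂ s ∈ Sy (Cq G (A ∩ B)) r s ∧ ρ (a₂ s) = a₂ s ∧
      (s.card + 1 ≠ i → a₂ s = 0) := by
    intro s
    rw [ha₂s]
    exact ⟨Submodule.add_mem _ (hm₃ s).1 (gSy_op hF ho.nu_r (hyF s)),
      by rw [map_add, hνρ, (hm₃ s).2.1],
      fun hn => by rw [(hm₃ s).2.2 hn, hyi s hn, map_zero, add_zero]⟩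
  have hz₁ : ∀ s, c ∈ s → a₁ s = 0 := fun s hs => (hm₃ s).1.1 fun hn => hc (hn.2 hs)
  have hz₂ : ∀ s, c' ∈ s → a₂ s = 0 := fun s hs => (hm₄ s).1.1 fun hn => hc' (hn.2 hs)
  have hz₃ : ∀ s, c ∈ s → x₁ s = 0 := fun s hs => (hm₁ s).1.1 fun hn => h₁.hc (hn.2 hs)
  have hz₄ : ∀ s, c' ∈ s → x₂ s = 0 := fun s hs => (hm₂ s).1.1 fun hn => h₂.hc (hn.2 hs)
  have hf : (gmk c x₁ a₁, gmk c' x₂ a₂) ∈ gC G₁ G₂ A B c c' r ρ i :=
    ⟨h₁.mk_mem hm₁ hm₃, h₂.mk_mem hm₂ hm₄⟩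
  have hu : gU c c' (gmk c x₁ a₁, gmk c' x₂ a₂) = a₁ + a₂ := by
    rw [gU_apply]
    dsimp only
    rw [gmk_lk hz₁, gmk_lk hz₂]
  have hu₁ : ∀ s, c ∈ s → (a₁ + a₂) s = 0 := fun s hs => by
    rw [Pi.add_apply, hz₁ s hs, (hm₄ s).1.1 fun hn => hc (hn.2 hs), add_zero]
  have hu₂ : ∀ s, c' ∈ s → (a₁ + a₂) s = 0 := fun s hs => by
    rw [Pi.add_apply, hz₂ s hs, (hm₃ s).1.1 fun hn => hc' (hn.2 hs), add_zero]
  have hda₁ : dd a₁ = 0 := by
    rw [ha₁, map_add, ← dd_compLeft, hdy, map_zero, add_zero]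
  have hda₂ : dd a₂ = 0 := by
    rw [ha₂, map_add, ← dd_compLeft, hdy, map_zero, add_zero, hda₁]
  refine ⟨(gmk c x₁ a₁, gmk c' x₂ a₂), hf, ?_, ?_⟩
  · rw [gdT_apply, hu]
    refine Prod.ext ?_ ?_
    · refine gext c ?_ ?_
      · dsimp only
        rw [map_add, gdl_dd, gmk_dl hz₃, gmk_lk hz₁, gdl_eq hu₁, ← hy]
        funext s
        change y s + a₁ s + τ (a₁ s + a₂ s) = 0
        rw [ha₂s, ha₁s, ← add_assoc (y s + τ (ν (y s))) (y s + τ (ν (y s))) (ν (y s)),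
          ZModModule.add_self (y s + τ (ν (y s))), zero_add]
        have h3 := ZModModule.add_self (y s)
        have h5 := ZModModule.add_self (τ (ν (y s)))
        linear_combination (norm := module) h3 + h5
      · dsimp only
        rw [map_add, glk_dd, gmk_lk hz₁, glk_zero hu₁, hda₁, add_zero]
    · refine gext c' ?_ ?_
      · dsimp only
        rw [map_add, gdl_dd, gmk_dl hz₄, gmk_lk hz₂, gdl_eq hu₂]
        funext s
        change dd x₂ s + a₂ s + τ (a₁ s + a₂ s) = 0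
        rw [← hy3, gone, ha₂s, ha₁s, ← add_assoc (y s + τ (ν (y s))) (y s + τ (ν (y s))) (ν (y s)),
          ZModModule.add_self (y s + τ (ν (y s))), zero_add]
        have h3 := ZModModule.add_self (y s)
        have h4 := ZModModule.add_self (ν (y s))
        have h5 := ZModModule.add_self (τ (ν (y s)))
        linear_combination (norm := module) h3 + h4 + h5
      · dsimp only
        rw [map_add, glk_dd, gmk_lk hz₂, glk_zero hu₂, hda₂, add_zero]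
  · rw [gPhi_apply]
    dsimp only
    rw [gmk_dl hz₃, gmk_dl hz₄]
    exact hzx.symm

/-- The homology of the whole complex is bounded by the homology of the complex of the pairs. -/
theorem glue_cx [Finite Y] (h₁ : GHalf G₁ G A (A ∩ B) c) (h₂ : GHalf G₂ G B (A ∩ B) c')
    (hno : ∀ a ∈ A, a ∉ B → ∀ b ∈ B, b ∉ A → ¬ G.Adj a b) (ho : GOp (A ∩ B) r ρ ν τ) (i : ℕ) :
    hX (Cq G (A ∪ B)) (gtw A r ν) i ≤ hx (gdT c c' τ) (gC G₁ G₂ A B c c' r ρ) i := by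
  refine glue_surj (isCx_gC h₁ h₂ ho.tau_r) (isCx_Ch (mono_Sy (mono_Cq _ _) _)) (gPhi c c' ν) i
    (fun f hf => gPhi_mem h₁ h₂ ho hf) (fun f hf => gPhi_dd h₁ h₂ ho hf) fun z hz hdz => ?_
  obtain ⟨f, hf, h3, h4⟩ := gPhi_surj h₁ h₂ hno ho hz hdz
  exact ⟨f, hf, h3, h4⟩

end Pool.Agent.H73.GC
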