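import Pool.Agent.H73.GC.Glue4

/-!
# Growth calculus: gluing, many copies of the module
-/

set_option autoImplicit false
set_option linter.unusedSectionVars false

open Finset

namespace Pool.Agent.H73.GC

section Lin

variable {E E' : Type} [AddCommGroup E] [Module F2 E] [Finite E] [AddCommGroup E'] [Module F2 E']
  [Finite E']

theorem glue_fprod (C : Submodule F2 E) (C' : Submodule F2 E') :
    Module.finrank F2 (C.prod C') = Module.finrank F2 C + Module.finrank F2 C' := by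
  have e : (C.prod C') ≃ₗ[F2] C × C' :=
    { toFun := fun x => (⟨x.1.1, x.2.1⟩, ⟨x.1.2, x.2.2⟩)
      invFun := fun y => ⟨(y.1, y.2), y.1.2, y.2.2⟩
      left_inv := fun _ => rfl
      right_inv := fun _ => rfl
      map_add' := fun _ _ => rfl
      map_smul' := fun _ _ => rfl }
  rw [e.finrank_eq, Module.finrank_prod]

/-- the homology of a product -/
theorem glue_hprod (d : Module.End F2 E) (d' : Module.End F2 E') (C : ℕ → Submodule F2 E)
    (C' : ℕ → Submodule F2 E') (i : ℕ) :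
    hx (LinearMap.prodMap d d' : Module.End F2 (E × E')) (fun j => (C j).prod (C' j)) i =
      hx d C i + hx d' C' i := by
  have h1 : ((C i).prod (C' i)) ⊓ LinearMap.ker (LinearMap.prodMap d d' : Module.End F2 (E × E')) =
      (C i ⊓ LinearMap.ker d).prod (C' i ⊓ LinearMap.ker d') := by
    ext x
    constructor
    · rintro ⟨⟨h2, h3⟩, h4⟩
      have h5 : (d x.1, d' x.2) = ((0 : E), (0 : E')) := h4
      exact ⟨⟨h2, (Prod.ext_iff.1 h5).1⟩, ⟨h3, (Prod.ext_iff.1 h5).2⟩⟩
    · rintro ⟨⟨h2, h3⟩, ⟨h4, h5⟩⟩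
      exact ⟨⟨h2, h4⟩, Prod.ext h3 h5⟩
  have h2 : ((C (i + 1)).prod (C' (i + 1))).map
      (LinearMap.prodMap d d' : Module.End F2 (E × E')) =
        ((C (i + 1)).map d).prod ((C' (i + 1)).map d') := by
    ext x
    constructor
    · rintro ⟨y, ⟨h3, h4⟩, rfl⟩
      exact ⟨⟨y.1, h3, rfl⟩, ⟨y.2, h4, rfl⟩⟩
    · rintro ⟨⟨y, h3, h4⟩, ⟨y', h5, h6⟩⟩
      exact ⟨(y, y'), ⟨h3, h5⟩, Prod.ext h4 h6⟩
  rw [hx, hx, hx]
  rw [h1, h2, glue_fprod, glue_fprod]
  push_cast
  ring

end Lin

variable {V : Type} [DecidableEq V] [Fintype V]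
variable {Y : Type} [AddCommGroup Y] [Module F2 Y]

/-- `1 + ρ` and the inverse of the shift -/
noncomputable def gnu (n : ℕ) (ρ : Module.End F2 Y) : Module.End F2 (Fin (n + 1) → Y) where
  toFun y k := y (finRotate (n + 1) k) + ρ (y (finRotate (n + 1) k))
  map_add' y z := by
    funext k
    simp only [Pi.add_apply, map_add]
    abel
  map_smul' c y := by
    funext k
    simp only [Pi.smul_apply, map_smul, smul_add, RingHom.id_apply]

/-- `θ` and the shift -/
noncomputable def gta (n : ℕ) (θ : Module.End F2 Y) : Module.End F2 (Fin (n + 1) → Y) where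
  toFun y k := θ (y ((finRotate (n + 1)).symm k))
  map_add' y z := by
    funext k
    simp only [Pi.add_apply, map_add]
  map_smul' c y := by
    funext k
    simp only [Pi.smul_apply, map_smul, RingHom.id_apply]

theorem gnu_apply (n : ℕ) (ρ : Module.End F2 Y) (y : Fin (n + 1) → Y) (k : Fin (n + 1)) :
    gnu n ρ y k = y (finRotate (n + 1) k) + ρ (y (finRotate (n + 1) k)) := rfl

theorem gta_apply (n : ℕ) (θ : Module.End F2 Y) (y : Fin (n + 1) → Y) (k : Fin (n + 1)) :
    gta n θ y k = θ (y ((finRotate (n + 1)).symm k)) := rfl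

/-- the diagonal operators -/
def gdi (n : ℕ) (r : V → Module.End F2 Y) (v : V) : Module.End F2 (Fin (n + 1) → Y) :=
  (r v).compLeft (Fin (n + 1))

theorem gdi_apply (n : ℕ) (r : V → Module.End F2 Y) (v : V) (y : Fin (n + 1) → Y)
    (k : Fin (n + 1)) : gdi n r v y k = r v (y k) := rfl

theorem gop {F : Finset V} {r : V → Module.End F2 Y} {ρ θ : Module.End F2 Y} (n : ℕ)
    (hρ : ∀ y, ρ (ρ y) = y) (hθ : ∀ y, θ (ρ y) + ρ (θ y) = ρ y)
    (hρr : ∀ v ∈ F, ∀ y, ρ (r v y) = r v (ρ y)) (hθr : ∀ v ∈ F, ∀ y, θ (r v y) = r v (θ y)) :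
    GOp F (gdi n r) (ρ.compLeft (Fin (n + 1))) (gnu n ρ) (gta n θ) := by
  refine ⟨fun y => ?_, fun y => ?_, fun y hy => ?_, fun v hv y => ?_, fun v hv y => ?_⟩
  · constructor
    · intro h
      funext k
      have h1 := congrFun h ((finRotate (n + 1)).symm k)
      rw [gnu_apply, Equiv.apply_symm_apply] at h1
      change ρ (y k) = y k
      have h2 := ZModModule.add_self (y k)
      change y k + ρ (y k) = 0 at h1
      linear_combination (norm := module) h1 - h2
    · intro h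
      funext k
      have h1 : ρ (y (finRotate (n + 1) k)) = y (finRotate (n + 1) k) := congrFun h _
      rw [gnu_apply, h1]
      exact ZModModule.add_self _
  · funext k
    rw [gnu_apply, gnu_apply, map_add, hρ, add_comm (ρ _) (y _)]
    exact ZModModule.add_self _
  · funext k
    have h1 : ρ (y k) = y k := congrFun hy k
    have h2 := hθ (y k)
    rw [gnu_apply, gta_apply, Equiv.symm_apply_apply]
    rw [h1] at h2
    exact h2
  · funext k
    rw [gnu_apply, gdi_apply, gdi_apply, gnu_apply, map_add, hρr v hv]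
  · funext k
    rw [gta_apply, gdi_apply, gdi_apply, gta_apply, hθr v hv]

/-- the chains with values in the functions -/
def gio (n : ℕ) : (Fin (n + 1) → (Finset V → Y) × (Finset V → Y)) →ₗ[F2]
    (Finset V → (Fin (n + 1) → Y)) × (Finset V → (Fin (n + 1) → Y)) where
  toFun f := (fun s k => (f k).1 s, fun s k => (f k).2 s)
  map_add' _ _ := rfl
  map_smul' _ _ := rfl

theorem gio_fst (n : ℕ) (f : Fin (n + 1) → (Finset V → Y) × (Finset V → Y)) (s : Finset V)
    (k : Fin (n + 1)) : (gio n f).1 s k = (f k).1 s := rfl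

theorem gio_snd (n : ℕ) (f : Fin (n + 1) → (Finset V → Y) × (Finset V → Y)) (s : Finset V)
    (k : Fin (n + 1)) : (gio n f).2 s k = (f k).2 s := rfl

theorem gio_inj (n : ℕ) : Function.Injective (gio (V := V) (Y := Y) n) := by
  intro f g h
  funext k
  refine Prod.ext ?_ ?_
  · funext s
    exact congrFun (congrFun (Prod.ext_iff.1 h).1 s) k
  · funext s
    exact congrFun (congrFun (Prod.ext_iff.1 h).2 s) k

theorem gU_gio (n : ℕ) (c c' : V) (f : Fin (n + 1) → (Finset V → Y) × (Finset V → Y))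
    (s : Finset V) (k : Fin (n + 1)) : gU c c' (gio n f) s k = gU c c' (f k) s := by
  rw [gU_apply, gU_apply, Pi.add_apply, Pi.add_apply, Pi.add_apply]
  congr 1
  · by_cases hs : c ∈ s
    · rw [glk_mem hs, glk_mem hs, Pi.zero_apply]
    · rw [glk_not hs, glk_not hs, gio_fst]
  · by_cases hs : c' ∈ s
    · rw [glk_mem hs, glk_mem hs, Pi.zero_apply]
    · rw [glk_not hs, glk_not hs, gio_snd]

theorem gio_d (n : ℕ) (c c' : V) (θ : Module.End F2 Y)
    (f : Fin (n + 1) → (Finset V → Y) × (Finset V → Y)) :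
    gio n (gsh n gd0 (gD c c' θ) f) = gdT c c' (gta n θ) (gio n f) := by
  rw [gdT_apply]
  refine Prod.ext ?_ ?_
  · funext s k
    change dd (f k).1 s + θ (gU c c' (f ((finRotate (n + 1)).symm k)) s) =
      dd (gio n f).1 s k + gta n θ (gU c c' (gio n f) s) k
    rw [gta_apply, gU_gio, dd_apply, dd_apply, Finset.sum_apply]
    rfl
  · funext s k
    change dd (f k).2 s + θ (gU c c' (f ((finRotate (n + 1)).symm k)) s) =
      dd (gio n f).2 s k + gta n θ (gU c c' (gio n f) s) k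
    rw [gta_apply, gU_gio, dd_apply, dd_apply, Finset.sum_apply]
    rfl

theorem gCh_iff (n : ℕ) (X : Finset V → Prop) (r : V → Module.End F2 Y) (j : ℕ)
    (f : Finset V → (Fin (n + 1) → Y)) :
    f ∈ Ch (Sy X (gdi n r)) j ↔ ∀ k, (fun s => f s k) ∈ Ch (Sy X r) j := by
  constructor
  · intro h k s
    refine ⟨⟨fun hn => congrFun ((h s).1.1 hn) k, fun v hv => congrFun ((h s).1.2 v hv) k⟩,
      fun hn => congrFun ((h s).2 hn) k⟩
  · intro h s
    refine ⟨⟨fun hn => funext fun k => (h k s).1.1 hn, fun v hv => funext fun k =>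
      (h k s).1.2 v hv⟩, fun hn => funext fun k => (h k s).2 hn⟩

variable {G G₁ G₂ : SimpleGraph V} {A B : Finset V} {c c' : V} {r : V → Module.End F2 Y}
  {ρ θ : Module.End F2 Y}

theorem gdi_update (n : ℕ) (c : V) (r : V → Module.End F2 Y) (ρ : Module.End F2 Y) :
    Function.update (gdi n r) c (ρ.compLeft (Fin (n + 1))) = gdi n (Function.update r c ρ) := by
  funext v
  by_cases h : v = c
  · rw [h, Function.update_self, gdi, Function.update_self]
  · rw [Function.update_of_ne h, gdi, gdi, Function.update_of_ne h]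

theorem gC_map (n : ℕ) (G₁ G₂ : SimpleGraph V) (A B : Finset V) (c c' : V)
    (r : V → Module.End F2 Y) (ρ : Module.End F2 Y) (j : ℕ) :
    (gpi (n + 1) (gC G₁ G₂ A B c c' r ρ j)).map (gio n) =
      gC G₁ G₂ A B c c' (gdi n r) (ρ.compLeft (Fin (n + 1))) j := by
  ext f
  rw [mem_gC, gdi_update, gdi_update, gCh_iff, gCh_iff]
  constructor
  · rintro ⟨g, hg, rfl⟩
    exact ⟨fun k => (hg k).1, fun k => (hg k).2⟩
  · rintro ⟨h1, h2⟩
    exact ⟨fun k => (fun s => f.1 s k, fun s => f.2 s k), fun k => ⟨h1 k, h2 k⟩, rfl⟩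

/-- The bound for the homology of the whole complex, with `n + 1` copies of `Y`. -/
theorem glue_mod [Finite Y] (h₁ : GHalf G₁ G A (A ∩ B) c) (h₂ : GHalf G₂ G B (A ∩ B) c')
    (hno : ∀ a ∈ A, a ∉ B → ∀ b ∈ B, b ∉ A → ¬ G.Adj a b)
    (hρ : ∀ y, ρ (ρ y) = y) (hθ : ∀ y, θ (ρ y) + ρ (θ y) = ρ y)
    (hρr : ∀ v ∈ A ∩ B, ∀ y, ρ (r v y) = r v (ρ y))
    (hθr : ∀ v ∈ A ∩ B, ∀ y, θ (r v y) = r v (θ y)) (n i : ℕ) :
    hX (Cq G (A ∪ B)) (gtw A (gdi n r) (gnu n ρ)) i ≤
      (2 * Fintype.card (Finset V) * Module.finrank F2 Y : ℕ) +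
        n * (hX (Cq G₁ (insert c A)) (Function.update r c ρ) i +
          hX (Cq G₂ (insert c' B)) (Function.update r c' ρ) i) := by
  have h3 := glue_cx h₁ h₂ hno (gop n hρ hθ hρr hθr) i
  have h4 := hx_map (d := gsh n gd0 (gD c c' θ)) (d' := gdT c c' (gta n θ))
    (C := fun j => gpi (n + 1) (gC G₁ G₂ A B c c' r ρ j)) (gio n) (gio_inj n)
    (fun _ x _ => gio_d n c c' θ x) i
  have h5 : (fun k => (gpi (n + 1) (gC G₁ G₂ A B c c' r ρ k)).map (gio n)) =
      gC G₁ G₂ A B c c' (gdi n r) (ρ.compLeft (Fin (n + 1))) :=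
    funext fun k => gC_map n G₁ G₂ A B c c' r ρ k
  rw [h5] at h4
  have h6 := glue_shift n (gd0 (V := V) (Y := Y)) (gD c c' θ) (gC G₁ G₂ A B c c' r ρ) i
  have h7 := glue_hprod (dd (V := V) (Y := Y)) (dd (V := V) (Y := Y))
    (Ch (Sy (Cq G₁ (insert c A)) (Function.update r c ρ)))
    (Ch (Sy (Cq G₂ (insert c' B)) (Function.update r c' ρ))) i
  have h8 : hx (gd0 (V := V) (Y := Y)) (gC G₁ G₂ A B c c' r ρ) i =
      hX (Cq G₁ (insert c A)) (Function.update r c ρ) i +
        hX (Cq G₂ (insert c' B)) (Function.update r c' ρ) i := h7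
  have h9 := Submodule.finrank_le (gC G₁ G₂ A B c c' r ρ i)
  rw [Module.finrank_prod, Module.finrank_pi_fintype, sum_const, card_univ, smul_eq_mul] at h9
  rw [h8] at h6
  rw [h4] at h3
  have h10 : (Module.finrank F2 (gC G₁ G₂ A B c c' r ρ i) : ℤ) ≤
      (2 * Fintype.card (Finset V) * Module.finrank F2 Y : ℕ) := by
    rw [Nat.cast_le]
    linarith
  linarith

end Pool.Agent.H73.GC
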