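import Pool.Agent.H73.GC.Glue5

/-!
# Growth calculus: gluing, the module for the whole complex
-/

set_option autoImplicit false
set_option linter.unusedSectionVars false

open Finset

namespace Pool.Agent.H73.GC

variable {V : Type} [DecidableEq V] [Fintype V]
variable {Y : Type} [AddCommGroup Y] [Module F2 Y]

section Tw

variable {G : SimpleGraph V} {A B : Finset V} {ν : Module.End F2 Y}

theorem gtw_gg (hνν : ∀ y, ν (ν y) = 0) (y : Y) : (1 + ν) ((1 + ν) y) = y := by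
  rw [gone, gone, map_add, hνν, add_zero, add_assoc, ZModModule.add_self, add_zero]

theorem gtw_comm_aux {P Q : V → Module.End F2 Y}
    (hPQ : ∀ u ∈ A ∪ B, ∀ v ∈ A ∪ B, G.Adj u v → ∀ y, P u (Q v y) = Q v (P u y))
    (hP : ∀ v ∈ A ∩ B, ∀ y, ν (P v y) = P v (ν y))
    (hno : ∀ a ∈ A, a ∉ B → ∀ b ∈ B, b ∉ A → ¬ G.Adj a b) {u v : V} (hu : u ∈ A)
    (hv : v ∈ A ∪ B) (hvA : v ∉ A) (huv : G.Adj u v) (y : Y) :
    gtw A P ν u (gtw A Q ν v y) = gtw A Q ν v (gtw A P ν u y) := by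
  have hvB : v ∈ B := (mem_union.1 hv).resolve_left hvA
  have huB : u ∈ B := by
    by_contra h
    exact hno u hu h v hvB hvA huv
  have h1 : ∀ w, P u ((1 + ν) w) = (1 + ν) (P u w) := by
    intro w
    rw [gone, gone, map_add, hP u (mem_inter.2 ⟨hu, huB⟩)]
  rw [gtw_mem hu, gtw_mem hu, gtw_not hvA, gtw_not hvA, h1,
    hPQ u (mem_union_left B hu) v hv huv, h1]

theorem gtw_comm (hνν : ∀ y, ν (ν y) = 0) {P Q : V → Module.End F2 Y}
    (hPQ : ∀ u ∈ A ∪ B, ∀ v ∈ A ∪ B, G.Adj u v → ∀ y, P u (Q v y) = Q v (P u y))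
    (hP : ∀ v ∈ A ∩ B, ∀ y, ν (P v y) = P v (ν y))
    (hQ : ∀ v ∈ A ∩ B, ∀ y, ν (Q v y) = Q v (ν y))
    (hno : ∀ a ∈ A, a ∉ B → ∀ b ∈ B, b ∉ A → ¬ G.Adj a b) :
    ∀ u ∈ A ∪ B, ∀ v ∈ A ∪ B, G.Adj u v → ∀ y,
      gtw A P ν u (gtw A Q ν v y) = gtw A Q ν v (gtw A P ν u y) := by
  intro u hu v hv huv y
  by_cases huA : u ∈ A
  · by_cases hvA : v ∈ A
    · rw [gtw_mem huA, gtw_mem huA, gtw_mem hvA, gtw_mem hvA, hPQ u hu v hv huv]
    · exact gtw_comm_aux hPQ hP hno huA hv hvA huv y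
  · by_cases hvA : v ∈ A
    · exact (gtw_comm_aux (P := Q) (Q := P)
        (fun a ha b hb hab y => (hPQ b hb a ha hab.symm y).symm) hQ hno hvA hu huA huv.symm
        y).symm
    · rw [gtw_not huA, gtw_not huA, gtw_not hvA, gtw_not hvA, gtw_gg hνν, gtw_gg hνν,
        hPQ u hu v hv huv]

end Tw

variable {G : SimpleGraph V} {A B : Finset V} {r E : V → Module.End F2 Y}
  {ρ θ : Module.End F2 Y}

theorem gnu_sq (n : ℕ) (hρ : ∀ y, ρ (ρ y) = y) (y : Fin (n + 1) → Y) :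
    gnu n ρ (gnu n ρ y) = 0 := by
  funext k
  rw [gnu_apply, gnu_apply, map_add, hρ, add_comm (ρ _) (y _)]
  exact ZModModule.add_self _

theorem gnu_comm (n : ℕ) {F : Finset V} (hρr : ∀ v ∈ F, ∀ y, ρ (r v y) = r v (ρ y)) :
    ∀ v ∈ F, ∀ y, gnu n ρ (gdi n r v y) = gdi n r v (gnu n ρ y) := by
  intro v hv y
  funext k
  rw [gnu_apply, gdi_apply, gdi_apply, gnu_apply, map_add, hρr v hv]

theorem gdi_comm (n : ℕ) {U : Finset V} {P Q : V → Module.End F2 Y}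
    (h : ∀ u ∈ U, ∀ v ∈ U, G.Adj u v → ∀ y, P u (Q v y) = Q v (P u y)) :
    ∀ u ∈ U, ∀ v ∈ U, G.Adj u v → ∀ y, gdi n P u (gdi n Q v y) = gdi n Q v (gdi n P u y) := by
  intro u hu v hv huv y
  funext k
  exact h u hu v hv huv (y k)

theorem gtw_fil (n : ℕ) (A B : Finset V)
    (hfil : Fil (univ : Finset (Option V)) (fun o => o.elim ρ r)) :
    Fil (A ∪ B) (gtw A (gdi n r) (gnu n ρ)) := by
  obtain ⟨m, F, hF, h0, hm, hr⟩ := hfil
  have hrv : ∀ j v, ∀ y ∈ F (j + 1), y + r v y ∈ F j := fun j v => hr j (some v) (mem_univ _)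
  have hrρ : ∀ j, ∀ y ∈ F (j + 1), y + ρ y ∈ F j := fun j => hr j none (mem_univ _)
  have hνj : ∀ j, ∀ y : Fin (n + 1) → Y, (∀ k, y k ∈ F (j + 1)) → ∀ k, gnu n ρ y k ∈ F j :=
    fun j y hy k => hrρ j _ (hy _)
  have hg : ∀ j, ∀ y : Fin (n + 1) → Y, (∀ k, y k ∈ F j) → ∀ k, (1 + gnu n ρ) y k ∈ F j := by
    intro j y hy k
    exact Submodule.add_mem _ (hy k) (hνj j y (fun k => hF (Nat.le_succ j) (hy k)) k)
  obtain ⟨F', hF'⟩ : ∃ F' : ℕ → Submodule F2 (Fin (n + 1) → Y), ∀ j y,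
      y ∈ F' j ↔ ∀ k, y k ∈ F j := by
    refine ⟨fun j => {
      carrier := {y | ∀ k, y k ∈ F j}
      zero_mem' := fun _ => Submodule.zero_mem _
      add_mem' := fun ha hb k => Submodule.add_mem _ (ha k) (hb k)
      smul_mem' := fun c _ ha k => Submodule.smul_mem _ c (ha k) }, fun j y => Iff.rfl⟩
  refine ⟨m, F', ?_, ?_, ?_, ?_⟩
  · intro i j hij y hy
    exact (hF' j y).2 fun k => hF hij ((hF' i y).1 hy k)
  · rw [eq_bot_iff]
    intro y hy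
    rw [Submodule.mem_bot]
    funext k
    have h1 := (hF' 0 y).1 hy k
    rw [h0, Submodule.mem_bot] at h1
    exact h1
  · rw [eq_top_iff]
    intro y _
    refine (hF' m y).2 fun k => ?_
    rw [hm]
    exact Submodule.mem_top
  · intro j v _ y hy
    have h1 := (hF' _ y).1 hy
    refine (hF' j _).2 fun k => ?_
    by_cases hv : v ∈ A
    · rw [gtw_mem hv]
      exact hrv j v _ (h1 k)
    · rw [gtw_not hv]
      have h2 := hg (j + 1) y h1
      have h3 : ∀ k, ((1 + gnu n ρ) y + gdi n r v ((1 + gnu n ρ) y)) k ∈ F j :=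
        fun k => hrv j v _ (h2 k)
      have h4 := hg j _ h3 k
      rw [map_add] at h4
      have h5 : (1 + gnu n ρ) ((1 + gnu n ρ) y) k + y k ∈ F j := by
        have h6 := hνj j _ h2 k
        have h7 := hνj j _ h1 k
        have h8 : (1 + gnu n ρ) ((1 + gnu n ρ) y) k + y k =
            gnu n ρ ((1 + gnu n ρ) y) k + gnu n ρ y k := by
          change (y k + gnu n ρ y k) + gnu n ρ ((1 + gnu n ρ) y) k + y k = _
          have h9 := ZModModule.add_self (y k)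
          linear_combination (norm := module) h9
        rw [h8]
        exact Submodule.add_mem _ h6 h7
      have h6 := Submodule.add_mem _ h4 h5
      have h7 : (y + (1 + gnu n ρ) (gdi n r v ((1 + gnu n ρ) y))) k =
          ((1 + gnu n ρ) ((1 + gnu n ρ) y) + (1 + gnu n ρ) (gdi n r v ((1 + gnu n ρ) y))) k +
            ((1 + gnu n ρ) ((1 + gnu n ρ) y) k + y k) := by
        change y k + (1 + gnu n ρ) (gdi n r v ((1 + gnu n ρ) y)) k =
          ((1 + gnu n ρ) ((1 + gnu n ρ) y) k + (1 + gnu n ρ) (gdi n r v ((1 + gnu n ρ) y)) k) +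
            ((1 + gnu n ρ) ((1 + gnu n ρ) y) k + y k)
        have h9 := ZModModule.add_self ((1 + gnu n ρ) ((1 + gnu n ρ) y) k)
        linear_combination (norm := module) -h9
      rw [h7]
      exact h6

theorem gtw_isN (n : ℕ) (hN : IsN G (A ∪ B) r) (hρ : ∀ y, ρ (ρ y) = y)
    (hρr : ∀ v ∈ A ∩ B, ∀ y, ρ (r v y) = r v (ρ y))
    (hno : ∀ a ∈ A, a ∉ B → ∀ b ∈ B, b ∉ A → ¬ G.Adj a b)
    (hfil : Fil (univ : Finset (Option V)) (fun o => o.elim ρ r)) :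
    IsN G (A ∪ B) (gtw A (gdi n r) (gnu n ρ)) := by
  have hνν := gnu_sq n hρ
  refine ⟨fun v hv y => ?_, ?_, gtw_fil n A B hfil⟩
  · have h1 : ∀ w, gdi n r v (gdi n r v w) = w := fun w => funext fun k => hN.sq v hv (w k)
    by_cases hvA : v ∈ A
    · rw [gtw_mem hvA, gtw_mem hvA, h1]
    · rw [gtw_not hvA, gtw_not hvA, gtw_gg hνν, h1, gtw_gg hνν]
  · exact gtw_comm hνν (gdi_comm n hN.comm) (gnu_comm n hρr) (gnu_comm n hρr) hno

theorem gtw_isBit (n : ℕ) (hB : IsBit G (A ∪ B) r E) (hρ : ∀ y, ρ (ρ y) = y)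
    (hρr : ∀ v ∈ A ∩ B, ∀ y, ρ (r v y) = r v (ρ y))
    (hρE : ∀ v ∈ A ∩ B, ∀ y, ρ (E v y) = E v (ρ y))
    (hno : ∀ a ∈ A, a ∉ B → ∀ b ∈ B, b ∉ A → ¬ G.Adj a b) :
    IsBit G (A ∪ B) (gtw A (gdi n r) (gnu n ρ)) (gtw A (gdi n E) (gnu n ρ)) := by
  have hνν := gnu_sq n hρ
  refine ⟨fun v hv y => ?_, fun v hv y => ?_, ?_, ?_⟩
  · have h1 : ∀ w, gdi n E v (gdi n E v w) = gdi n E v w :=
      fun w => funext fun k => hB.idem v hv (w k)
    by_cases hvA : v ∈ A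
    · rw [gtw_mem hvA, gtw_mem hvA, h1]
    · rw [gtw_not hvA, gtw_not hvA, gtw_gg hνν, h1]
  · have h1 : ∀ w, gdi n E v (gdi n r v w) + gdi n r v (gdi n E v w) = gdi n r v w :=
      fun w => funext fun k => hB.bit v hv (w k)
    by_cases hvA : v ∈ A
    · rw [gtw_mem hvA, gtw_mem hvA, gtw_mem hvA, gtw_mem hvA, h1]
    · rw [gtw_not hvA, gtw_not hvA, gtw_not hvA, gtw_not hvA, gtw_gg hνν, gtw_gg hνν,
        ← map_add (1 + gnu n ρ), h1]
  · exact gtw_comm hνν (gdi_comm n hB.er) (gnu_comm n hρE) (gnu_comm n hρr) hno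
  · exact gtw_comm hνν (gdi_comm n hB.ee) (gnu_comm n hρE) (gnu_comm n hρE) hno

end Pool.Agent.H73.GC
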