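import Pool.Agent.H73.GC.Defs

/-!
# Growth calculus: tensor products
-/

set_option autoImplicit false
set_option linter.unusedSectionVars false

open Finset

namespace Pool.Agent.H73.GC

variable {V : Type} [DecidableEq V] [Fintype V]
variable {Y₁ Y₂ : Type} [AddCommGroup Y₁] [Module F2 Y₁] [AddCommGroup Y₂] [Module F2 Y₂]

/-- the tensor product of two modules -/
noncomputable def tens (r₁ : V → Module.End F2 Y₁) (r₂ : V → Module.End F2 Y₂) (v : V) :
    Module.End F2 (TensorProduct F2 Y₁ Y₂) := TensorProduct.map (r₁ v) (r₂ v)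

theorem Ten_tmul (r₁ : V → Module.End F2 Y₁) (r₂ : V → Module.End F2 Y₂) (v : V) (x : Y₁) (y : Y₂) :
    tens r₁ r₂ v (TensorProduct.tmul F2 x y) = TensorProduct.tmul F2 (r₁ v x) (r₂ v y) :=
  TensorProduct.map_tmul _ _ _ _

theorem Ten_add_self {Y : Type} [AddCommGroup Y] [Module F2 Y] (y : Y) : y + y = 0 := by
  have h : (2 : F2) = 0 := by decide
  rw [← two_smul F2 y, h, zero_smul]

/-- two linear maps which agree on the pure tensors are equal -/
theorem Ten_ext {f g : Module.End F2 (TensorProduct F2 Y₁ Y₂)}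
    (h : ∀ x y, f (TensorProduct.tmul F2 x y) = g (TensorProduct.tmul F2 x y)) (z : TensorProduct F2 Y₁ Y₂) :
    f z = g z := by
  have : f = g := TensorProduct.ext' h
  rw [this]

theorem finite_tens [Finite Y₁] [Finite Y₂] : Finite (TensorProduct F2 Y₁ Y₂) := by
  have : Module.Finite F2 Y₁ := Module.Finite.of_finite
  have : Module.Finite F2 Y₂ := Module.Finite.of_finite
  exact Module.finite_of_finite F2

/-- the filtration of the tensor product -/
noncomputable def Ten_F (F₁ : ℕ → Submodule F2 Y₁) (F₂ : ℕ → Submodule F2 Y₂) (k : ℕ) :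
    Submodule F2 (TensorProduct F2 Y₁ Y₂) :=
  ⨆ p : {p : ℕ × ℕ // p.1 + p.2 ≤ k}, Submodule.map₂ (TensorProduct.mk F2 Y₁ Y₂) (F₁ p.1.1) (F₂ p.1.2)

theorem Ten_mem {F₁ : ℕ → Submodule F2 Y₁} {F₂ : ℕ → Submodule F2 Y₂} {a b k : ℕ} (h : a + b ≤ k)
    {x : Y₁} {y : Y₂} (hx : x ∈ F₁ a) (hy : y ∈ F₂ b) :
    TensorProduct.tmul F2 x y ∈ Ten_F F₁ F₂ k := by
  have h1 : Submodule.map₂ (TensorProduct.mk F2 Y₁ Y₂) (F₁ a) (F₂ b) ≤ Ten_F F₁ F₂ k :=
    le_iSup (fun p : {p : ℕ × ℕ // p.1 + p.2 ≤ k} =>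
      Submodule.map₂ (TensorProduct.mk F2 Y₁ Y₂) (F₁ p.1.1) (F₂ p.1.2)) ⟨(a, b), h⟩
  exact h1 (Submodule.apply_mem_map₂ (TensorProduct.mk F2 Y₁ Y₂) hx hy)

theorem Ten_le {F₁ : ℕ → Submodule F2 Y₁} {F₂ : ℕ → Submodule F2 Y₂} {k : ℕ}
    {Q : Submodule F2 (TensorProduct F2 Y₁ Y₂)}
    (h : ∀ a b : ℕ, a + b ≤ k → ∀ x ∈ F₁ a, ∀ y ∈ F₂ b, TensorProduct.tmul F2 x y ∈ Q) :
    Ten_F F₁ F₂ k ≤ Q := by
  refine iSup_le ?_
  rintro ⟨⟨a, b⟩, hab⟩
  exact Submodule.map₂_le.2 fun x hx y hy => h a b hab x hx y hy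

/-- The filtration: `F k` is the supremum of the images of `F₁ a ⊗ F₂ b` with `a + b ≤ k`; for `y₁ ∈ F₁ (a + 1)`,
`y₂ ∈ F₂ b`: `y₁ ⊗ y₂ + r₁ y₁ ⊗ r₂ y₂ = (y₁ + r₁ y₁) ⊗ r₂ y₂ + y₁ ⊗ (y₂ + r₂ y₂)`. -/
theorem fil_tens {U : Finset V} {r₁ : V → Module.End F2 Y₁} {r₂ : V → Module.End F2 Y₂}
    (h₁ : Fil U r₁) (h₂ : Fil U r₂) : Fil U (tens r₁ r₂) := by
  obtain ⟨n₁, F₁, hm₁, hz₁, ht₁, hs₁⟩ := h₁
  obtain ⟨n₂, F₂, hm₂, hz₂, ht₂, hs₂⟩ := h₂
  refine ⟨n₁ + n₂, Ten_F F₁ F₂, ?_, ?_, ?_, ?_⟩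
  · intro k l hkl
    exact Ten_le fun a b hab x hx y hy => Ten_mem (hab.trans hkl) hx hy
  · refine le_bot_iff.1 (Ten_le fun a b hab x hx y hy => ?_)
    have ha : a = 0 := by omega
    subst ha
    rw [hz₁, Submodule.mem_bot] at hx
    rw [hx, TensorProduct.zero_tmul]
    exact Submodule.zero_mem _
  · refine top_le_iff.1 ?_
    rw [← TensorProduct.map₂_mk_top_top_eq_top F2 Y₁ Y₂]
    refine Submodule.map₂_le.2 fun x _ y _ => ?_
    refine Ten_mem (a := n₁) (b := n₂) le_rfl ?_ ?_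
    · rw [ht₁]
      exact Submodule.mem_top
    · rw [ht₂]
      exact Submodule.mem_top
  · intro j v hv z hz
    have hle : Ten_F F₁ F₂ (j + 1) ≤
        (Ten_F F₁ F₂ j).comap (LinearMap.id + tens r₁ r₂ v) := by
      refine Ten_le fun a b hab x hx y hy => ?_
      rw [Submodule.mem_comap, LinearMap.add_apply, LinearMap.id_apply, Ten_tmul]
      rcases Nat.eq_zero_or_pos a with ha | ha
      · subst ha
        rw [hz₁, Submodule.mem_bot] at hx
        rw [hx, map_zero, TensorProduct.zero_tmul, TensorProduct.zero_tmul, add_zero]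
        exact Submodule.zero_mem _
      rcases Nat.eq_zero_or_pos b with hb | hb
      · subst hb
        rw [hz₂, Submodule.mem_bot] at hy
        rw [hy, map_zero, TensorProduct.tmul_zero, TensorProduct.tmul_zero, add_zero]
        exact Submodule.zero_mem _
      obtain ⟨a, rfl⟩ : ∃ c, a = c + 1 := ⟨a - 1, by omega⟩
      obtain ⟨b, rfl⟩ : ∃ c, b = c + 1 := ⟨b - 1, by omega⟩
      have e1 := hs₁ a v hv x hx
      have e2 := hs₂ b v hv y hy
      have e3 : r₂ v y ∈ F₂ (b + 1) := by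
        have h := Submodule.add_mem _ hy (hm₂ (Nat.le_succ b) e2)
        rwa [← add_assoc, Ten_add_self, zero_add] at h
      have hsum : TensorProduct.tmul F2 x y + TensorProduct.tmul F2 (r₁ v x) (r₂ v y) =
          TensorProduct.tmul F2 (x + r₁ v x) (r₂ v y) + TensorProduct.tmul F2 x (y + r₂ v y) := by
        rw [TensorProduct.add_tmul, TensorProduct.tmul_add]
        have h := Ten_add_self (TensorProduct.tmul F2 x (r₂ v y))
        calc TensorProduct.tmul F2 x y + TensorProduct.tmul F2 (r₁ v x) (r₂ v y)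
            = (TensorProduct.tmul F2 x (r₂ v y) + TensorProduct.tmul F2 x (r₂ v y)) +
                (TensorProduct.tmul F2 x y + TensorProduct.tmul F2 (r₁ v x) (r₂ v y)) := by
              rw [h, zero_add]
          _ = _ := by abel
      rw [hsum]
      exact Submodule.add_mem _ (Ten_mem (by omega) e1 e3) (Ten_mem (by omega) hx e2)
    have h := hle hz
    rwa [Submodule.mem_comap, LinearMap.add_apply, LinearMap.id_apply] at h

theorem isN_tens {G : SimpleGraph V} {U : Finset V} {r₁ : V → Module.End F2 Y₁}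
    {r₂ : V → Module.End F2 Y₂} (h₁ : IsN G U r₁) (h₂ : IsN G U r₂) : IsN G U (tens r₁ r₂) := by
  refine ⟨?_, ?_, fil_tens h₁.fil h₂.fil⟩
  · intro v hv z
    refine Ten_ext (f := tens r₁ r₂ v * tens r₁ r₂ v) (g := LinearMap.id) (fun x y => ?_) z
    rw [Module.End.mul_apply, Ten_tmul, Ten_tmul, h₁.sq v hv, h₂.sq v hv, LinearMap.id_apply]
  · intro u hu v hv huv z
    refine Ten_ext (f := tens r₁ r₂ u * tens r₁ r₂ v) (g := tens r₁ r₂ v * tens r₁ r₂ u)
      (fun x y => ?_) z
    rw [Module.End.mul_apply, Module.End.mul_apply, Ten_tmul, Ten_tmul, Ten_tmul, Ten_tmul,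
      h₁.comm u hu v hv huv, h₂.comm u hu v hv huv]

theorem isBit_tens_left {G : SimpleGraph V} {U : Finset V} {r₁ E₁ : V → Module.End F2 Y₁}
    {r₂ : V → Module.End F2 Y₂} (h₁ : IsBit G U r₁ E₁) :
    IsBit G U (tens r₁ r₂) (fun v => TensorProduct.map (E₁ v) LinearMap.id) := by
  refine ⟨?_, ?_, ?_, ?_⟩
  · intro v hv z
    refine Ten_ext (f := TensorProduct.map (E₁ v) LinearMap.id * TensorProduct.map (E₁ v) LinearMap.id)
      (g := TensorProduct.map (E₁ v) LinearMap.id) (fun x y => ?_) z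
    rw [Module.End.mul_apply, TensorProduct.map_tmul, TensorProduct.map_tmul, h₁.idem v hv,
      LinearMap.id_apply, LinearMap.id_apply]
  · intro v hv z
    refine Ten_ext (f := TensorProduct.map (E₁ v) LinearMap.id * tens r₁ r₂ v +
      tens r₁ r₂ v * TensorProduct.map (E₁ v) LinearMap.id) (g := tens r₁ r₂ v) (fun x y => ?_) z
    rw [LinearMap.add_apply, Module.End.mul_apply, Module.End.mul_apply, TensorProduct.map_tmul,
      Ten_tmul, Ten_tmul, TensorProduct.map_tmul, LinearMap.id_apply, LinearMap.id_apply,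
      ← TensorProduct.add_tmul, h₁.bit v hv]
  · intro u hu v hv huv z
    refine Ten_ext (f := TensorProduct.map (E₁ u) LinearMap.id * tens r₁ r₂ v)
      (g := tens r₁ r₂ v * TensorProduct.map (E₁ u) LinearMap.id) (fun x y => ?_) z
    rw [Module.End.mul_apply, Module.End.mul_apply, TensorProduct.map_tmul,
      Ten_tmul, Ten_tmul, TensorProduct.map_tmul, LinearMap.id_apply, LinearMap.id_apply,
      h₁.er u hu v hv huv]
  · intro u hu v hv huv z
    refine Ten_ext (f := TensorProduct.map (E₁ u) LinearMap.id * TensorProduct.map (E₁ v) LinearMap.id)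
      (g := TensorProduct.map (E₁ v) LinearMap.id * TensorProduct.map (E₁ u) LinearMap.id)
      (fun x y => ?_) z
    rw [Module.End.mul_apply, Module.End.mul_apply, TensorProduct.map_tmul,
      TensorProduct.map_tmul, TensorProduct.map_tmul, TensorProduct.map_tmul, LinearMap.id_apply,
      LinearMap.id_apply, h₁.ee u hu v hv huv]

theorem isBit_tens_right {G : SimpleGraph V} {U : Finset V} {r₁ : V → Module.End F2 Y₁}
    {r₂ E₂ : V → Module.End F2 Y₂} (h₂ : IsBit G U r₂ E₂) :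
    IsBit G U (tens r₁ r₂) (fun v => TensorProduct.map LinearMap.id (E₂ v)) := by
  refine ⟨?_, ?_, ?_, ?_⟩
  · intro v hv z
    refine Ten_ext (f := TensorProduct.map LinearMap.id (E₂ v) * TensorProduct.map LinearMap.id (E₂ v))
      (g := TensorProduct.map LinearMap.id (E₂ v)) (fun x y => ?_) z
    rw [Module.End.mul_apply, TensorProduct.map_tmul, TensorProduct.map_tmul, h₂.idem v hv,
      LinearMap.id_apply, LinearMap.id_apply]
  · intro v hv z
    refine Ten_ext (f := TensorProduct.map LinearMap.id (E₂ v) * tens r₁ r₂ v +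
      tens r₁ r₂ v * TensorProduct.map LinearMap.id (E₂ v)) (g := tens r₁ r₂ v) (fun x y => ?_) z
    rw [LinearMap.add_apply, Module.End.mul_apply, Module.End.mul_apply, TensorProduct.map_tmul,
      Ten_tmul, Ten_tmul, TensorProduct.map_tmul, LinearMap.id_apply, LinearMap.id_apply,
      ← TensorProduct.tmul_add, h₂.bit v hv]
  · intro u hu v hv huv z
    refine Ten_ext (f := TensorProduct.map LinearMap.id (E₂ u) * tens r₁ r₂ v)
      (g := tens r₁ r₂ v * TensorProduct.map LinearMap.id (E₂ u)) (fun x y => ?_) z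
    rw [Module.End.mul_apply, Module.End.mul_apply, TensorProduct.map_tmul,
      Ten_tmul, Ten_tmul, TensorProduct.map_tmul, LinearMap.id_apply, LinearMap.id_apply,
      h₂.er u hu v hv huv]
  · intro u hu v hv huv z
    refine Ten_ext (f := TensorProduct.map LinearMap.id (E₂ u) * TensorProduct.map LinearMap.id (E₂ v))
      (g := TensorProduct.map LinearMap.id (E₂ v) * TensorProduct.map LinearMap.id (E₂ u))
      (fun x y => ?_) z
    rw [Module.End.mul_apply, Module.End.mul_apply, TensorProduct.map_tmul,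
      TensorProduct.map_tmul, TensorProduct.map_tmul, TensorProduct.map_tmul, LinearMap.id_apply,
      LinearMap.id_apply, h₂.ee u hu v hv huv]

end Pool.Agent.H73.GC
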