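import Pool.Agent.H73.GC.Glue6
import Pool.Agent.H73.GC.Ten

/-!
# Growth calculus: gluing, tensor products of modules for the pieces
-/

set_option autoImplicit false
set_option linter.unusedSectionVars false

open Finset

namespace Pool.Agent.H73.GC

variable {V : Type} [DecidableEq V] [Fintype V]
variable {Y₁ Y₂ : Type} [AddCommGroup Y₁] [Module F2 Y₁] [AddCommGroup Y₂] [Module F2 Y₂]

theorem tcomm {a a' : Module.End F2 Y₁} {b b' : Module.End F2 Y₂}
    (ha : ∀ x, a (a' x) = a' (a x)) (hb : ∀ x, b (b' x) = b' (b x))
    (y : TensorProduct F2 Y₁ Y₂) : TensorProduct.map a b (TensorProduct.map a' b' y) =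
      TensorProduct.map a' b' (TensorProduct.map a b y) := by
  induction y using TensorProduct.induction_on with
  | zero => simp only [map_zero]
  | tmul x z => simp only [TensorProduct.map_tmul, ha, hb]
  | add x z hx hz => simp only [map_add, hx, hz]

theorem tsq {a : Module.End F2 Y₁} {b : Module.End F2 Y₂}
    (ha : ∀ x, a (a x) = x) (hb : ∀ x, b (b x) = x)
    (y : TensorProduct F2 Y₁ Y₂) : TensorProduct.map a b (TensorProduct.map a b y) = y := by
  induction y using TensorProduct.induction_on with
  | zero => simp only [map_zero]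
  | tmul x z => simp only [TensorProduct.map_tmul, ha, hb]
  | add x z hx hz => simp only [map_add, hx, hz]

theorem tidem {a : Module.End F2 Y₁} {b : Module.End F2 Y₂}
    (ha : ∀ x, a (a x) = a x) (hb : ∀ x, b (b x) = b x)
    (y : TensorProduct F2 Y₁ Y₂) :
    TensorProduct.map a b (TensorProduct.map a b y) = TensorProduct.map a b y := by
  induction y using TensorProduct.induction_on with
  | zero => simp only [map_zero]
  | tmul x z => simp only [TensorProduct.map_tmul, ha, hb]
  | add x z hx hz => simp only [map_add, hx, hz]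

theorem tbit_left {a e : Module.End F2 Y₁} {b : Module.End F2 Y₂}
    (h : ∀ x, e (a x) + a (e x) = a x) (y : TensorProduct F2 Y₁ Y₂) :
    TensorProduct.map e LinearMap.id (TensorProduct.map a b y) +
      TensorProduct.map a b (TensorProduct.map e LinearMap.id y) = TensorProduct.map a b y := by
  induction y using TensorProduct.induction_on with
  | zero => simp only [map_zero, add_zero]
  | tmul x z =>
    simp only [TensorProduct.map_tmul, LinearMap.id_apply]
    rw [← TensorProduct.add_tmul, h]
  | add x z hx hz =>
    simp only [map_add]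
    linear_combination (norm := module) hx + hz

theorem tbit_right {a : Module.End F2 Y₁} {b e : Module.End F2 Y₂}
    (h : ∀ x, e (b x) + b (e x) = b x) (y : TensorProduct F2 Y₁ Y₂) :
    TensorProduct.map LinearMap.id e (TensorProduct.map a b y) +
      TensorProduct.map a b (TensorProduct.map LinearMap.id e y) = TensorProduct.map a b y := by
  induction y using TensorProduct.induction_on with
  | zero => simp only [map_zero, add_zero]
  | tmul x z =>
    simp only [TensorProduct.map_tmul, LinearMap.id_apply]
    rw [← TensorProduct.tmul_add, h]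
  | add x z hx hz =>
    simp only [map_add]
    linear_combination (norm := module) hx + hz

/-- the operators outside of `A` are replaced by `1` -/
def gon {Y : Type} [AddCommGroup Y] [Module F2 Y] (A : Finset V) (r : V → Module.End F2 Y)
    (v : V) : Module.End F2 Y := if v ∈ A then r v else 1

theorem gon_mem {Y : Type} [AddCommGroup Y] [Module F2 Y] {A : Finset V}
    {r : V → Module.End F2 Y} {v : V} (h : v ∈ A) : gon A r v = r v := if_pos h

theorem gon_not {Y : Type} [AddCommGroup Y] [Module F2 Y] {A : Finset V}
    {r : V → Module.End F2 Y} {v : V} (h : v ∉ A) : gon A r v = 1 := if_neg h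

section One

variable {Y : Type} [AddCommGroup Y] [Module F2 Y]

/-- the module of the other piece, for the piece `A` -/
theorem gon_isN {G G₁ G₂ : SimpleGraph V} {A B : Finset V} {c c' : V} (hcA : c ∉ A)
    (h1 : ∀ a ∈ A, ∀ b ∈ A, G₁.Adj a b ↔ G.Adj a b) (hc1 : ∀ a ∈ A, G₁.Adj c a ↔ a ∈ B)
    (h2 : ∀ a ∈ B, ∀ b ∈ B, G₂.Adj a b ↔ G.Adj a b) (hc2 : ∀ a ∈ B, G₂.Adj c' a ↔ a ∈ A)
    {r : V → Module.End F2 Y} (h : IsN G₂ (insert c' B) r) :
    IsN G₁ (insert c A) (Function.update (gon B r) c (r c')) := by
  have hcc : c' ∈ insert c' B := mem_insert_self c' B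
  have hB : ∀ v ∈ B, v ∈ insert c' B := fun v hv => mem_insert_of_mem hv
  have hu : ∀ v ∈ A, Function.update (gon B r) c (r c') v = gon B r v := by
    intro v hv
    exact Function.update_of_ne (fun e : v = c => hcA (e ▸ hv)) _ _
  have haux : ∀ v ∈ A, G₁.Adj c v → ∀ y, r c' (gon B r v y) = gon B r v (r c' y) := by
    intro v hv hcv y
    have hvB : v ∈ B := (hc1 v hv).1 hcv
    rw [gon_mem hvB]
    exact h.comm c' hcc v (hB v hvB) ((hc2 v hvB).2 hv) y
  refine ⟨fun v hv y => ?_, fun u hu' v hv' huv y => ?_, ?_⟩
  · rcases mem_insert.1 hv with rfl | hvA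
    · rw [Function.update_self]
      exact h.sq c' hcc y
    · rw [hu v hvA]
      by_cases hvB : v ∈ B
      · rw [gon_mem hvB]
        exact h.sq v (hB v hvB) y
      · rw [gon_not hvB]
        rfl
  · rcases mem_insert.1 hu' with rfl | huA
    · rcases mem_insert.1 hv' with rfl | hvA
      · exact absurd huv (G₁.loopless.irrefl _)
      · rw [Function.update_self, hu v hvA]
        exact haux v hvA huv y
    · rcases mem_insert.1 hv' with rfl | hvA
      · rw [Function.update_self, hu u huA]
        exact (haux u huA huv.symm y).symm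
      · rw [hu u huA, hu v hvA]
        by_cases huB : u ∈ B
        · by_cases hvB : v ∈ B
          · rw [gon_mem huB, gon_mem hvB]
            exact h.comm u (hB u huB) v (hB v hvB)
              ((h2 u huB v hvB).2 ((h1 u huA v hvA).1 huv)) y
          · rw [gon_not hvB]
            rfl
        · rw [gon_not huB]
          rfl
  · obtain ⟨m, F, hF, h0, hm, hr⟩ := h.fil
    refine ⟨m, F, hF, h0, hm, fun j v hv y hy => ?_⟩
    rcases mem_insert.1 hv with rfl | hvA
    · rw [Function.update_self]
      exact hr j c' hcc y hy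
    · rw [hu v hvA]
      by_cases hvB : v ∈ B
      · rw [gon_mem hvB]
        exact hr j v (hB v hvB) y hy
      · rw [gon_not hvB, Module.End.one_apply, ZModModule.add_self]
        exact Submodule.zero_mem _

theorem gon_sq {G₁ : SimpleGraph V} {A : Finset V} {c : V} {r : V → Module.End F2 Y}
    (h : IsN G₁ (insert c A) r) (v : V) (y : Y) : gon A r v (gon A r v y) = y := by
  by_cases hv : v ∈ A
  · rw [gon_mem hv]
    exact h.sq v (mem_insert_of_mem hv) y
  · rw [gon_not hv]
    rfl

theorem gon_comm {G G₁ : SimpleGraph V} {A : Finset V} {c : V}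
    (h1 : ∀ a ∈ A, ∀ b ∈ A, G₁.Adj a b ↔ G.Adj a b) {r : V → Module.End F2 Y}
    (h : IsN G₁ (insert c A) r) (u v : V) (huv : G.Adj u v) (y : Y) :
    gon A r u (gon A r v y) = gon A r v (gon A r u y) := by
  by_cases hu : u ∈ A
  · by_cases hv : v ∈ A
    · rw [gon_mem hu, gon_mem hv]
      exact h.comm u (mem_insert_of_mem hu) v (mem_insert_of_mem hv) ((h1 u hu v hv).2 huv) y
    · rw [gon_not hv]
      rfl
  · rw [gon_not hu]
    rfl

theorem gon_fil {A : Finset V} {c : V} {r : V → Module.End F2 Y}
    (h : Fil (insert c A) r) :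
    Fil (univ : Finset (Option V)) (fun o => o.elim (r c) (gon A r)) := by
  obtain ⟨m, F, hF, h0, hm, hr⟩ := h
  refine ⟨m, F, hF, h0, hm, fun j o _ y hy => ?_⟩
  cases o with
  | none => exact hr j c (mem_insert_self c A) y hy
  | some v =>
    by_cases hv : v ∈ A
    · change y + gon A r v y ∈ F j
      rw [gon_mem hv]
      exact hr j v (mem_insert_of_mem hv) y hy
    · change y + gon A r v y ∈ F j
      rw [gon_not hv, Module.End.one_apply, ZModModule.add_self]
      exact Submodule.zero_mem _

end One

end Pool.Agent.H73.GC
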