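import Pool.Agent.H73.GC.LuckA
import Pool.Agent.H19.LG.ChDim

/-!
# Growth calculus: comparison with the complex Betti numbers

The integer matrices of `exists_matsS` (`Pool.Agent.H19.Cub.DropS`) for `Ω = Unit × P` in degrees `i` and `i + 1`, and
the dimension of the chains, which is the same over all fields because of the bits (compare
`Pool.Agent.H19.Cub.bT_complex_le`, `Pool.Agent.H19.LG.two_pow_cT`, `Pool.Agent.H4.Singer.bet_complex_le`). Over
`F2` the signs are `1`, and `SZ`, `SCh` become the cycles and chains of `Sy (Cq G U) (regP g)`.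
-/

set_option autoImplicit false
set_option linter.unusedSectionVars false

open Finset

namespace Pool.Agent.H73.GC

open Pool.Agent.H19.Cub Pool.Agent.H19.LG

variable {V : Type} [DecidableEq V] [Fintype V]

private theorem LuckB_minor {m n K : Type} [Fintype m] [Fintype n] [Field K] (A : Matrix m n K) :
    ∃ (r : Fin A.rank → m) (c : Fin A.rank → n), (A.submatrix r c).det ≠ 0 := by
  classical
  have h1 : A.rank = Module.finrank K (Submodule.span K (Set.range A.row)) :=
    Matrix.rank_eq_finrank_span_row A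
  obtain ⟨f, hf, -, hli⟩ := Submodule.exists_fun_fin_finrank_span_eq K (Set.range A.row)
  choose r0 hr0 using hf
  have hli' : LinearIndependent K (fun i : Fin A.rank => A (r0 (Fin.cast h1 i))) := by
    have h2 : (fun i : Fin A.rank => A (r0 (Fin.cast h1 i))) = f ∘ (Fin.cast h1) := by
      funext i
      exact hr0 _
    rw [h2]
    exact hli.comp _ (Fin.cast_injective h1)
  set r : Fin A.rank → m := fun i => r0 (Fin.cast h1 i) with hr
  let B : Matrix (Fin A.rank) n K := A.submatrix r id
  have hB : B.rank = A.rank := by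
    have := LinearIndependent.rank_matrix (M := B) hli'
    simpa using this
  have h3 : B.rank = Module.finrank K (Submodule.span K (Set.range B.col)) :=
    Matrix.rank_eq_finrank_span_cols B
  obtain ⟨g, hg, -, hgli⟩ := Submodule.exists_fun_fin_finrank_span_eq K (Set.range B.col)
  choose c0 hc0 using hg
  have h4 : A.rank = Module.finrank K (Submodule.span K (Set.range B.col)) := by
    rw [← h3, hB]
  refine ⟨r, fun i => c0 (Fin.cast h4 i), ?_⟩
  have hli2 : LinearIndependent K (fun i : Fin A.rank => B.col (c0 (Fin.cast h4 i))) := by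
    have h2 : (fun i : Fin A.rank => B.col (c0 (Fin.cast h4 i))) = g ∘ (Fin.cast h4) := by
      funext i
      exact hc0 _
    rw [h2]
    exact hgli.comp _ (Fin.cast_injective h4)
  have h5 : IsUnit (A.submatrix r fun i => c0 (Fin.cast h4 i)) := by
    rw [← Matrix.linearIndependent_cols_iff_isUnit]
    exact hli2
  exact ((Matrix.isUnit_iff_isUnit_det _).1 h5).ne_zero

/-- ranks over the complex numbers and over an arbitrary field -/
private theorem LuckB_rank {m n : Type} [Fintype m] [Fintype n] (A : Matrix m n ℤ) (F : Type)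
    [Field F] : (A.map (Int.cast : ℤ → F)).rank ≤ (A.map (Int.cast : ℤ → ℂ)).rank := by
  classical
  obtain ⟨r, c, hdet⟩ := LuckB_minor (A.map (Int.cast : ℤ → F))
  generalize (A.map (Int.cast : ℤ → F)).rank = k at r c hdet ⊢
  have h1 : (((A.submatrix r c).det : ℤ) : F) ≠ 0 := by
    have : ((A.map (Int.cast : ℤ → F)).submatrix r c) =
        (Int.castRingHom F).mapMatrix (A.submatrix r c) := by
      ext i j
      simp
    rw [this, ← RingHom.map_det] at hdet
    simpa using hdet
  have h2 : (A.submatrix r c).det ≠ 0 := by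
    intro h
    rw [h] at h1
    simp at h1
  have h3 : ((A.map (Int.cast : ℤ → ℂ)).submatrix r c).det ≠ 0 := by
    have : ((A.map (Int.cast : ℤ → ℂ)).submatrix r c) =
        (Int.castRingHom ℂ).mapMatrix (A.submatrix r c) := by
      ext i j
      simp
    rw [this, ← RingHom.map_det]
    simpa using h2
  have h4 : LinearIndependent ℂ ((A.map (Int.cast : ℤ → ℂ)).submatrix r c).row := by
    rw [Matrix.linearIndependent_rows_iff_isUnit, Matrix.isUnit_iff_isUnit_det]
    exact isUnit_iff_ne_zero.2 h3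
  have h5 : LinearIndependent ℂ (fun i => (A.map (Int.cast : ℤ → ℂ)).row (r i)) := by
    refine LinearIndependent.of_comp (LinearMap.funLeft ℂ ℂ c) ?_
    exact h4
  rw [Matrix.rank_eq_finrank_span_row]
  have h6 : Submodule.span ℂ (Set.range fun i => (A.map (Int.cast : ℤ → ℂ)).row (r i)) ≤
      Submodule.span ℂ (Set.range (A.map (Int.cast : ℤ → ℂ)).row) := by
    refine Submodule.span_mono ?_
    rintro _ ⟨i, rfl⟩
    exact ⟨r i, rfl⟩
  have h7 := Submodule.finrank_mono h6
  rw [finrank_span_eq_card h5] at h7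
  simpa using h7

/-- forgetting the one-point factors -/
private def LuckB_psi (V P : Type) :
    (Finset V → Unit × P → Unit → F2) ≃ₗ[F2] (Finset V → P → F2) where
  toFun f σ p := f σ ((), p) ()
  invFun g σ x _ := g σ x.2
  map_add' _ _ := rfl
  map_smul' _ _ := rfl
  left_inv _ := rfl
  right_inv _ := rfl

private theorem LuckB_ch {G : SimpleGraph V} {U : Finset V} {P : Type} [Group P]
    (g : V → P) (i : ℕ) :
    (SCh F2 G (prY (fun _ : Unit => U) P) (fun _ => (1 : Matrix Unit Unit F2))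
      (prS (fun _ x => x) g) i).map (LuckB_psi V P).toLinearMap =
      Ch (Sy (Cq G U) (regP g)) i := by
  ext f
  constructor
  · rintro ⟨x, ⟨h1, h2⟩, rfl⟩
    intro s
    have h3 : ∀ p, x s ((), p) ≠ 0 → s ⊆ U ∧ G.IsClique (s : Set V) ∧ s.card = i := by
      intro p hp
      obtain ⟨h4, h5, h6⟩ := h1 s ((), p) hp
      exact ⟨h4, fun a ha c hc hac => h5 a ha c hc hac, h6⟩
    refine ⟨⟨fun hs => ?_, fun v hv => ?_⟩, fun hs => ?_⟩
    · funext p
      by_contra hne
      obtain ⟨h4, h5, h6⟩ := h3 p fun h => hne (congrFun h ())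
      exact hs ⟨h5, h4⟩
    · funext p
      have h4 := congrFun (h2 s v hv ((), p)) ()
      rw [Matrix.one_mulVec] at h4
      show x s ((), p * g v) () = x s ((), p) ()
      have h5 : x s ((), p * g v) () = -(x s ((), p) ()) := h4
      rw [h5, ZModModule.neg_eq_self]
    · funext p
      by_contra hne
      exact hs (h3 p fun h => hne (congrFun h ())).2.2
  · intro hf
    refine ⟨(LuckB_psi V P).symm f, ⟨fun σ x hx => ?_, fun σ v hv x => ?_⟩, rfl⟩
    · have h1 : f σ x.2 ≠ 0 := fun h => hx (funext fun _ => h)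
      have h2 : f σ ≠ 0 := fun h => h1 (congrFun h _)
      have h3 : Cq G U σ := by
        by_contra hcon
        exact h2 ((hf σ).1.1 hcon)
      refine ⟨h3.2, fun a ha c hc hac => h3.1 ha hc hac, ?_⟩
      by_contra hcon
      exact h2 ((hf σ).2 hcon)
    · rw [Matrix.one_mulVec]
      funext u
      have h1 := congrFun ((hf σ).1.2 v hv) x.2
      show f σ (x.2 * g v) = -(f σ x.2)
      rw [ZModModule.neg_eq_self]
      exact h1

private theorem LuckB_tdl {P : Type} (ν : V → ℕ) (f : Finset V → Unit × P → Unit → F2) :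
    LuckB_psi V P (Pool.Agent.H85.Fold.tdl F2 ν f) = dd (LuckB_psi V P f) := by
  funext s
  funext p
  rw [dd_apply, Finset.sum_apply]
  show (∑ v ∈ sᶜ, ((Pool.Agent.H4.Singer.sg ν v s : ℤ) : F2) • f (insert v s) ((), p)) () = _
  rw [Finset.sum_apply]
  refine Finset.sum_congr rfl fun v _ => ?_
  show ((Pool.Agent.H4.Singer.sg ν v s : ℤ) : F2) • f (insert v s) ((), p) () =
    f (insert v s) ((), p) ()
  have h1 : ((Pool.Agent.H4.Singer.sg ν v s : ℤ) : F2) = 1 := by
    unfold Pool.Agent.H4.Singer.sg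
    rw [Int.cast_pow, Int.cast_neg, Int.cast_one, ZModModule.neg_eq_self, one_pow]
  rw [h1, one_smul]

private theorem LuckB_z {G : SimpleGraph V} {U : Finset V} {P : Type} [Group P]
    (g : V → P) (ν : V → ℕ) (i : ℕ) :
    (SZ F2 G (prY (fun _ : Unit => U) P) (fun _ => (1 : Matrix Unit Unit F2))
      (prS (fun _ x => x) g) ν i).map (LuckB_psi V P).toLinearMap =
      Ch (Sy (Cq G U) (regP g)) i ⊓ LinearMap.ker dd := by
  rw [← LuckB_ch g i]
  ext f
  constructor
  · rintro ⟨x, ⟨h1, h2⟩, rfl⟩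
    refine ⟨⟨x, h1, rfl⟩, ?_⟩
    have h3 : Pool.Agent.H85.Fold.tdl F2 ν x = 0 := h2
    show dd (LuckB_psi V P x) = 0
    rw [← LuckB_tdl, h3, map_zero]
  · rintro ⟨⟨x, h1, rfl⟩, h2⟩
    refine ⟨x, ⟨h1, ?_⟩, rfl⟩
    have h3 : dd (LuckB_psi V P x) = 0 := h2
    rw [← LuckB_tdl (ν := ν)] at h3
    exact (LinearEquiv.map_eq_zero_iff _).1 h3

theorem bT_le_hX {G : SimpleGraph V} {U : Finset V} {P : Type} [Group P] [Fintype P]
    (g : V → P) (hg : ∀ v, g v * g v = 1) (hgc : ∀ u v, G.Adj u v → g u * g v = g v * g u)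
    (b : P → V → Bool) (hb : ∀ p u v, b (p * g u) v = if u = v then !(b p v) else b p v)
    (ν : V → ℕ) (hν : Function.Injective ν) (i : ℕ) :
    (bT ℂ G (prY (fun _ : Unit => U) P) (prS (fun _ x => x) g) ν i : ℤ) ≤
      hX (Cq G U) (regP g) i := by
  have hs : IsSpec G (prY (fun _ : Unit => U) P) (prS (fun _ x => x) g) :=
    isSpec_pr (isSpec_triv G (fun _ : Unit => U)) g hg hgc
  have hb' : ∀ (x : Unit × P) (u v : V), b (prS (fun _ x => x) g u x).2 v =
      if u = v then !(b x.2 v) else b x.2 v := fun x u v => hb x.2 u v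
  obtain ⟨C, R, -, H⟩ := exists_matsS G (fun _ => (1 : Matrix Unit Unit ℤ)) ν i
  obtain ⟨m, n, _, _, A₀, A₁, -, -, hA⟩ := H (Unit × P) (prY (fun _ : Unit => U) P)
    (prS (fun _ x => x) g)
  obtain ⟨C', R', -, H'⟩ := exists_matsS G (fun _ => (1 : Matrix Unit Unit ℤ)) ν (i + 1)
  obtain ⟨m', n', _, _, A₀', A₁', -, -, hA'⟩ := H' (Unit × P) (prY (fun _ : Unit => U) P)
    (prS (fun _ x => x) g)
  have hmc : ∀ (K : Type) [Field K],
      Pool.Agent.H85.Fold2.mc K (fun _ : V => (1 : Matrix Unit Unit ℤ)) =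
      fun _ => (1 : Matrix Unit Unit K) := by
    intro K _
    funext v
    exact Matrix.map_one _ Int.cast_zero Int.cast_one
  have a1 := (hA ℂ).2
  have a2 := (hA F2).2
  have b1 := (hA' ℂ).2
  have b2 := (hA' F2).2
  rw [hmc] at a1 a2 b1 b2
  have c1 := LuckB_rank A₁ F2
  have c2 := LuckB_rank A₁' F2
  have d1 := finrank_SB ℂ G (prY (fun _ : Unit => U) P) (fun _ => (1 : Matrix Unit Unit ℂ))
    (prS (fun _ x => x) g) ν i
  have e1 := two_pow_cT ℂ G (prY (fun _ : Unit => U) P) (prS (fun _ x => x) g) hs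
    (fun x => b x.2) hb' (i + 1)
  have e2 := two_pow_cT F2 G (prY (fun _ : Unit => U) P) (prS (fun _ x => x) g) hs
    (fun x => b x.2) hb' (i + 1)
  have e3 : cT ℂ G (prY (fun _ : Unit => U) P) (prS (fun _ x => x) g) (i + 1) =
      cT F2 G (prY (fun _ : Unit => U) P) (prS (fun _ x => x) g) (i + 1) :=
    Nat.eq_of_mul_eq_mul_left (pow_pos two_pos (i + 1)) (e1.trans e2.symm)
  unfold cT at e3
  have f1 : Module.finrank F2 (SZ F2 G (prY (fun _ : Unit => U) P)
      (fun _ => (1 : Matrix Unit Unit F2)) (prS (fun _ x => x) g) ν i) =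
      Module.finrank F2 (Ch (Sy (Cq G U) (regP g)) i ⊓ LinearMap.ker dd :
        Submodule F2 (Finset V → P → F2)) := by
    rw [← LuckB_z g ν i]
    exact (LinearEquiv.finrank_map_eq _ _).symm
  have f2 : Module.finrank F2 (SZ F2 G (prY (fun _ : Unit => U) P)
      (fun _ => (1 : Matrix Unit Unit F2)) (prS (fun _ x => x) g) ν (i + 1)) =
      Module.finrank F2 (Ch (Sy (Cq G U) (regP g)) (i + 1) ⊓ LinearMap.ker dd :
        Submodule F2 (Finset V → P → F2)) := by
    rw [← LuckB_z g ν (i + 1)]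
    exact (LinearEquiv.finrank_map_eq _ _).symm
  have f3 : Module.finrank F2 (SCh F2 G (prY (fun _ : Unit => U) P)
      (fun _ => (1 : Matrix Unit Unit F2)) (prS (fun _ x => x) g) (i + 1)) =
      Module.finrank F2 (Ch (Sy (Cq G U) (regP g)) (i + 1)) := by
    rw [← LuckB_ch g (i + 1)]
    exact (LinearEquiv.finrank_map_eq _ _).symm
  have h2 : 0 ≤ hX (Cq G U) (regP g) i := by
    unfold hX
    exact hd_nonneg (mono_Sy (mono_Cq G U) (regP g)) i
  unfold hX hd at h2 ⊢
  rw [hx_eq] at h2 ⊢
  unfold bT bS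
  omega

end Pool.Agent.H73.GC
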