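import Pool.Agent.H73.GC.LuckB
import Pool.Agent.H73.GC.LuckC
import Pool.Agent.H19.Cub.Transf

/-!
# Growth calculus: vanishing of the `ℓ²`-homology

`harm_infS`, `l2ker_trivial`, `harm_finS` (as in `Pool.Agent.H19.Cub.HarmW`), `bT_le_hX` and `gz_levels`; then
`harm_ext` and `hodgeS` as in the proof of `CubeComplex.general`.
-/

set_option autoImplicit false
set_option linter.unusedSectionVars false

open Finset Filter

namespace Pool.Agent.H73.GC

open Pool.Agent.H19.Cub Pool.Agent.H19.LG Pool.Agent.H4.Singer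

variable {V : Type} [DecidableEq V] [Fintype V]

/-- the complex with one vertex and the labels `U` -/
def one (G : SimpleGraph V) (U : Finset V) : CubeComplex V Unit where
  graph := G
  lab _ := U
  nb _ _ := ()
  lab_nb _ _ h := h
  nb_nb _ _ _ := rfl
  lab_adj _ _ _ _ h _ := h
  nb_comm _ _ _ _ _ _ := rfl

private theorem LuckD_cs (G : SimpleGraph V) (U : Finset V) : (one G U).cs = fun _ x => x := by
  funext v x
  rfl

private theorem LuckD_spec (G : SimpleGraph V) (U : Finset V) :
    IsSpec G (fun _ : Unit => U) (fun _ x => x) := by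
  have h := (one G U).isSpec
  rw [LuckD_cs] at h
  exact h

private theorem LuckD_harm {G : SimpleGraph V} {U : Finset V} {i : ℕ} (h : GZ G U i) (ν : V → ℕ)
    (hν : Function.Injective ν) : ∀ f : Finset V → Unit × RGrp G → ℂ,
      IsHarmS G (prY (fun _ : Unit => U) (RGrp G)) (prS (fun _ x => x) (gen G)) ν i f → f = 0 := by
  classical
  obtain ⟨P, grp, fin, π, b, hsep, hb, hη⟩ := gz_levels h
  have hs := LuckD_spec G U
  refine harm_infS G (fun _ : Unit => U) (fun _ x => x) hs ν i
    (l2ker_trivial π hsep (HSA G (fun _ : Unit => U) (fun _ x => x) ν i) ?_)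
  intro η hη0
  filter_upwards [hη η hη0] with j hj
  refine (harm_finS G (fun _ : Unit => U) (fun _ x => x) hs ν hν i (P j) (π j)).trans ?_
  refine le_trans ?_ hj
  have h2 := bT_le_hX (G := G) (U := U) (P := P j) (fun v => π j (gen G v))
    (fun v => by rw [← map_mul, gen_mul_gen, map_one])
    (fun u v huv => by rw [← map_mul, ← map_mul, gen_comm G u v huv]) (b j) (hb j) ν hν i
  exact_mod_cast h2

theorem gz_l2 {G : SimpleGraph V} {U : Finset V} {i : ℕ} (h : GZ G U i) :
    L2HomologyZero ((one G U).cover ()) i := by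
  classical
  intro ν hν z hz hdz ε hε
  have h0 : ∀ F : Finset V → Unit × RGrp (one G U).graph → ℂ,
      IsHarmS (one G U).graph (prY (one G U).lab (RGrp (one G U).graph))
        (prS (one G U).cs (gen (one G U).graph)) ν i F → F = 0 := by
    rw [LuckD_cs]
    exact LuckD_harm h ν hν
  have h1 : ∀ f : Finset V → (one G U).Cover () → ℂ,
      IsHarmS G ((one G U).cover ()).lab ((one G U).cover ()).cs ν i f → f = 0 := fun f hf =>
    (one G U).harm_ext () ν i h0 f hf
  obtain ⟨y, hy, hye⟩ := hodgeS G ((one G U).cover ()).lab ((one G U).cover ()).cs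
    ((one G U).cover ()).isSpec ν hν i h1 z ((((one G U).cover ()).isL2_iff i z).1 hz) hdz ε hε
  exact ⟨y, (((one G U).cover ()).isL2_iff (i + 1) y).2 hy, hye⟩

end Pool.Agent.H73.GC
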