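import Pool.Agent.H73.GC.Dbl
import Pool.Agent.H73.GC.SysA
import Pool.Agent.H73.GC.SysB
import Pool.Agent.H73.GC.Bit

/-!
# Growth calculus: identification of two vertices, part A

`rf = Function.update r x (r u)`: `x` acts like `u`. `hd_coef` for `lam (a, b) = a + b` on
`Sy (Cq G U) (dbl r x (r u))`: the intersection with the kernel is the image of `Sy (Cq G U) rf` under
`y ↦ (y, y)`; the image is `Sy X rf`, where `X` are the cliques which do not contain both `x` and `u`
(for a clique with `x` and `u` the invariants are of the form `(a, a)`; for the others `Sy_map` with the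
projections `(a, b) ↦ (E w a, E w b)`, `w ≠ x`, and `(a, b) ↦ (E u a, E u b)` for `x`).
-/

set_option autoImplicit false
set_option linter.unusedSectionVars false

open Finset

namespace Pool.Agent.H73.GC

variable {V : Type} [DecidableEq V] [Fintype V]
variable {Y : Type} [AddCommGroup Y] [Module F2 Y] [Finite Y]

/-- the projections on `Y × Y` -/
private def MergeA_E (E : V → Module.End F2 Y) (w : V) : Module.End F2 (Y × Y) :=
  LinearMap.prodMap (E w) (E w)

private theorem MergeA_E_apply (E : V → Module.End F2 Y) (w : V) (y : Y × Y) :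
    MergeA_E E w y = (E w y.1, E w y.2) := rfl

/-- the map of the vertices -/
private def MergeA_rho (x u w : V) : V := if w = x then u else w

private theorem MergeA_upd {Z : Type} (r : V → Z) (x u w : V) :
    Function.update r x (r u) w = r (MergeA_rho x u w) := by
  unfold MergeA_rho
  by_cases h : w = x
  · rw [if_pos h, h, Function.update_self]
  · rw [if_neg h, Function.update_of_ne h]

private theorem MergeA_mem {G : SimpleGraph V} {U : Finset V} {x u : V} (hu : u ∈ U)
    (hxu : x ≠ u) {s : Finset V} (hs : Cq G U s) {w : V} (hw : w ∈ s) :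
    MergeA_rho x u w ∈ U.erase x := by
  unfold MergeA_rho
  by_cases h : w = x
  · rw [if_pos h]
    exact mem_erase.2 ⟨hxu.symm, hu⟩
  · rw [if_neg h]
    exact mem_erase.2 ⟨h, hs.2 hw⟩

private theorem MergeA_adj {G : SimpleGraph V} {U : Finset V} {x u : V} {s : Finset V}
    (hs : Cq G U s ∧ ¬ (x ∈ s ∧ u ∈ s)) {a b : V} (ha : a ∈ s) (hb : b ∈ s) (hab : a ≠ b) :
    (merge G x u).Adj (MergeA_rho x u a) (MergeA_rho x u b) := by
  have had : G.Adj a b := hs.1.1 (Finset.mem_coe.2 ha) (Finset.mem_coe.2 hb) hab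
  unfold MergeA_rho
  by_cases h : a = x
  · have h2 : b ≠ x := fun e => hab (h.trans e.symm)
    rw [if_pos h, if_neg h2]
    have h3 : u ≠ b := fun e => hs.2 ⟨h ▸ ha, e ▸ hb⟩
    exact ⟨h3, Or.inr (Or.inl ⟨rfl, h ▸ had⟩)⟩
  · rw [if_neg h]
    by_cases h2 : b = x
    · rw [if_pos h2]
      have h3 : a ≠ u := fun e => hs.2 ⟨h2 ▸ hb, e ▸ ha⟩
      exact ⟨h3, Or.inr (Or.inr ⟨rfl, h2 ▸ had.symm⟩)⟩
    · rw [if_neg h2]
      exact ⟨hab, Or.inl had⟩

private theorem MergeA_bit {G : SimpleGraph V} {U : Finset V} {x u : V} (hu : u ∈ U)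
    (hxu : x ≠ u) {r E : V → Module.End F2 Y} (h : IsN (merge G x u) (U.erase x) r)
    (hb : IsBit (merge G x u) (U.erase x) r E) {s : Finset V}
    (hs : Cq G U s ∧ ¬ (x ∈ s ∧ u ∈ s)) :
    BitOn (Function.update r x (r u)) (Function.update E x (E u)) s := by
  have hm : ∀ w ∈ s, MergeA_rho x u w ∈ U.erase x := fun w hw => MergeA_mem hu hxu hs.1 hw
  refine ⟨?_, ?_, ?_, ?_, ?_, ?_⟩
  · intro v hv y
    rw [MergeA_upd]
    exact h.sq _ (hm v hv) y
  · intro a ha b hb' y
    by_cases hab : a = b
    · rw [hab]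
    · rw [MergeA_upd, MergeA_upd]
      exact h.comm _ (hm a ha) _ (hm b hb') (MergeA_adj hs ha hb' hab) y
  · intro v hv y
    rw [MergeA_upd]
    exact hb.idem _ (hm v hv) y
  · intro v hv y
    rw [MergeA_upd, MergeA_upd]
    exact hb.bit _ (hm v hv) y
  · intro a ha b hb' hab y
    rw [MergeA_upd, MergeA_upd]
    exact hb.er _ (hm a ha) _ (hm b hb') (MergeA_adj hs ha hb' hab) y
  · intro a ha b hb' y
    by_cases hab : a = b
    · rw [hab]
    · rw [MergeA_upd, MergeA_upd]
      exact hb.ee _ (hm a ha) _ (hm b hb') (MergeA_adj hs ha hb' hab) y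

private theorem MergeA_D {x u : V} (r : V → Module.End F2 Y) (w : V) (y : Y × Y) :
    dbl r x (r u) w y = if w = x then (Function.update r x (r u) w y.2,
      Function.update r x (r u) w y.1) else (Function.update r x (r u) w y.1,
      Function.update r x (r u) w y.2) := by
  by_cases h : w = x
  · rw [if_pos h, h, Function.update_self, dbl_self]
  · rw [if_neg h, Function.update_of_ne h, dbl_ne r h]

private theorem MergeA_bitD {x u : V} {r E : V → Module.End F2 Y} {s : Finset V}
    (h : BitOn (Function.update r x (r u)) (Function.update E x (E u)) s) :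
    BitOn (dbl r x (r u)) (MergeA_E (Function.update E x (E u))) s := by
  obtain ⟨rf, hrf⟩ : ∃ f, f = Function.update r x (r u) := ⟨_, rfl⟩
  obtain ⟨Ef, hEf⟩ : ∃ f, f = Function.update E x (E u) := ⟨_, rfl⟩
  have hD : ∀ (w : V) (y : Y × Y), dbl r x (r u) w y = if w = x then (rf w y.2, rf w y.1) else
      (rf w y.1, rf w y.2) := by
    intro w y
    rw [hrf]
    exact MergeA_D r w y
  rw [← hrf, ← hEf] at h
  rw [← hEf]
  have hE : ∀ (w : V) (y : Y × Y), MergeA_E Ef w y = (Ef w y.1, Ef w y.2) := fun _ _ => rfl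
  refine ⟨?_, ?_, ?_, ?_, ?_, ?_⟩
  · intro v hv y
    by_cases hvx : v = x
    · rw [hD, if_pos hvx, hD, if_pos hvx]
      exact Prod.ext (h.sq v hv _) (h.sq v hv _)
    · rw [hD, if_neg hvx, hD, if_neg hvx]
      exact Prod.ext (h.sq v hv _) (h.sq v hv _)
  · intro a ha b hb y
    by_cases hax : a = x
    · by_cases hbx : b = x
      · rw [hax, hbx]
      · rw [hD b, if_neg hbx, hD a, if_pos hax, hD a, if_pos hax, hD b, if_neg hbx]
        exact Prod.ext (h.comm a ha b hb _) (h.comm a ha b hb _)
    · by_cases hbx : b = x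
      · rw [hD b, if_pos hbx, hD a, if_neg hax, hD a, if_neg hax, hD b, if_pos hbx]
        exact Prod.ext (h.comm a ha b hb _) (h.comm a ha b hb _)
      · rw [hD b, if_neg hbx, hD a, if_neg hax, hD a, if_neg hax, hD b, if_neg hbx]
        exact Prod.ext (h.comm a ha b hb _) (h.comm a ha b hb _)
  · intro v hv y
    rw [hE, hE]
    exact Prod.ext (h.idem v hv _) (h.idem v hv _)
  · intro v hv y
    by_cases hvx : v = x
    · rw [hD, if_pos hvx, hD, if_pos hvx, hE, hE]
      exact Prod.ext (h.bit v hv _) (h.bit v hv _)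
    · rw [hD, if_neg hvx, hD, if_neg hvx, hE, hE]
      exact Prod.ext (h.bit v hv _) (h.bit v hv _)
  · intro a ha b hb hab y
    by_cases hbx : b = x
    · rw [hD, if_pos hbx, hD, if_pos hbx, hE, hE]
      exact Prod.ext (h.er a ha b hb hab _) (h.er a ha b hb hab _)
    · rw [hD, if_neg hbx, hD, if_neg hbx, hE, hE]
      exact Prod.ext (h.er a ha b hb hab _) (h.er a ha b hb hab _)
  · intro a ha b hb y
    rw [hE, hE, hE, hE]
    exact Prod.ext (h.ee a ha b hb _) (h.ee a ha b hb _)

theorem merge_a {G : SimpleGraph V} {U : Finset V} {x u : V} (hx : x ∈ U) (hu : u ∈ U)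
    (hxu : x ≠ u) {r E : V → Module.End F2 Y} (h : IsN (merge G x u) (U.erase x) r)
    (hb : IsBit (merge G x u) (U.erase x) r E) (i : ℕ) :
    hX (Cq G U) (dbl r x (r u)) i ≤ hX (Cq G U) (Function.update r x (r u)) i +
      hX (fun s => Cq G U s ∧ ¬ (x ∈ s ∧ u ∈ s)) (Function.update r x (r u)) i := by
  obtain ⟨rf, hrf⟩ : ∃ f, f = Function.update r x (r u) := ⟨_, rfl⟩
  have hD : ∀ (w : V) (y : Y × Y), dbl r x (r u) w y = if w = x then (rf w y.2, rf w y.1) else
      (rf w y.1, rf w y.2) := by
    intro w y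
    rw [hrf]
    exact MergeA_D r w y
  have hrx : rf x = r u := by rw [hrf, Function.update_self]
  have hru : rf u = r u := by rw [hrf, Function.update_of_ne hxu.symm]
  rw [← hrf]
  let lam : Y × Y →ₗ[F2] Y := LinearMap.fst F2 Y Y + LinearMap.snd F2 Y Y
  have hlam : ∀ y : Y × Y, lam y = y.1 + y.2 := fun _ => rfl
  let j : Y →ₗ[F2] Y × Y := LinearMap.prod LinearMap.id LinearMap.id
  have hj : ∀ y : Y, j y = (y, y) := fun _ => rfl
  have hjinj : Function.Injective j := by
    intro a b hab
    rw [hj, hj] at hab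
    exact congrArg Prod.fst hab
  have hmono : Mono (Sy (Cq G U) (dbl r x (r u))) := mono_Sy (mono_Cq G U) _
  have key := hd_coef hmono lam i
  have e1 : (fun s => Sy (Cq G U) (dbl r x (r u)) s ⊓ LinearMap.ker lam) =
      fun s => (Sy (Cq G U) rf s).map j := by
    funext s
    ext y
    rw [Submodule.mem_inf, LinearMap.mem_ker, hlam, mem_Sy, Submodule.mem_map]
    constructor
    · rintro ⟨⟨h1, h2⟩, h3⟩
      have h4 : y.2 = y.1 := by
        have h5 : y.1 + y.2 + y.1 = y.1 := by rw [h3, zero_add]
        calc y.2 = y.1 + y.1 + y.2 := by rw [ZModModule.add_self, zero_add]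
          _ = y.1 + y.2 + y.1 := by abel
          _ = y.1 := h5
      refine ⟨y.1, ?_, Prod.ext rfl h4.symm⟩
      rw [mem_Sy]
      refine ⟨fun hc => congrArg Prod.fst (h1 hc), fun w hw => ?_⟩
      have h5 := h2 w hw
      rw [hD] at h5
      by_cases hwx : w = x
      · rw [if_pos hwx, h4] at h5
        exact congrArg Prod.fst h5
      · rw [if_neg hwx] at h5
        exact congrArg Prod.fst h5
    · rintro ⟨a, ha, rfl⟩
      rw [mem_Sy] at ha
      rw [hj]
      refine ⟨⟨fun hc => ?_, fun w hw => ?_⟩, ZModModule.add_self _⟩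
      · rw [ha.1 hc]
        rfl
      · rw [hD]
        have h5 := ha.2 w hw
        by_cases hwx : w = x
        · rw [if_pos hwx]
          exact Prod.ext h5 h5
        · rw [if_neg hwx]
          exact Prod.ext h5 h5
  have e2 : (fun s => (Sy (Cq G U) (dbl r x (r u)) s).map lam) =
      Sy (fun s => Cq G U s ∧ ¬ (x ∈ s ∧ u ∈ s)) rf := by
    funext s
    by_cases hX : Cq G U s ∧ ¬ (x ∈ s ∧ u ∈ s)
    · have h1 := Sy_map (X := fun s => Cq G U s ∧ ¬ (x ∈ s ∧ u ∈ s)) (r := dbl r x (r u))
        (E := MergeA_E (Function.update E x (E u))) (r' := rf)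
        (fun s hs => MergeA_bitD (MergeA_bit hu hxu h hb hs)) lam
        (fun y => ⟨(y, 0), by rw [hlam, add_zero]⟩)
        (fun s hs v hv y => by
          rw [hlam, hlam, hD, map_add]
          by_cases hvx : v = x
          · rw [if_pos hvx]
            exact add_comm _ _
          · rw [if_neg hvx])
        (fun s hs v hv y hy => by
          rw [hlam] at hy ⊢
          rw [MergeA_E_apply, ← map_add, hy, map_zero]) s
      rw [← h1]
      congr 1
      ext y
      rw [mem_Sy, mem_Sy]
      exact ⟨fun h2 => ⟨fun hc => absurd hX hc, h2.2⟩, fun h2 => ⟨fun hc => absurd hX.1 hc, h2.2⟩⟩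
    · ext z
      rw [Submodule.mem_map, mem_Sy]
      constructor
      · rintro ⟨y, hy, rfl⟩
        rw [mem_Sy] at hy
        have hz : lam y = 0 := by
          rw [hlam]
          by_cases hc : Cq G U s
          · have hxs : x ∈ s ∧ u ∈ s := by
              by_contra hn
              exact hX ⟨hc, hn⟩
            have g1 := hy.2 x hxs.1
            have g2 := hy.2 u hxs.2
            rw [hD, if_pos rfl, hrx] at g1
            rw [hD, if_neg hxu.symm, hru] at g2
            have g3 : r u y.2 = y.1 := congrArg Prod.fst g1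
            have g4 : r u y.2 = y.2 := congrArg Prod.snd g2
            rw [← g3, g4]
            exact ZModModule.add_self _
          · rw [hy.1 hc]
            exact add_zero _
        rw [hz]
        exact ⟨fun _ => rfl, fun v _ => map_zero _⟩
      · rintro ⟨h1, -⟩
        rw [h1 hX]
        exact ⟨0, Submodule.zero_mem _, map_zero _⟩
  rw [e1, e2, hd_map _ _ hjinj] at key
  exact key

end Pool.Agent.H73.GC
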