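import Pool.Agent.H73.GC.SysA
import Pool.Agent.H73.GC.SysB

/-!
# Growth calculus: identification of two vertices, the map of the chains

`psh x u z t` is `0` if `x ∈ t`, `z t + z (t - u + x)` if `u ∈ t`, and `z t` otherwise. It commutes with `dd` on
the chains supported on the cliques of `G` in `U` (also for cliques containing both `x` and `u`: the simplices
`t + x` and `t + u` of such a chain cancel). It maps `Ch (Sy X rf) i` onto
`Ch (Sy (Cq (merge G x u) (U.erase x)) r) i`, for `X = Cq G U` and for `X` = the cliques which do not contain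
both `x` and `u`, because of `NoSq`: a clique `t` of the merged graph with `u ∈ t` is a clique of `G`, or
`t - u + x` is one.
-/

set_option autoImplicit false
set_option linter.unusedSectionVars false

open Finset

namespace Pool.Agent.H73.GC

variable {V : Type} [DecidableEq V] [Fintype V]
variable {Y : Type} [AddCommGroup Y] [Module F2 Y]

/-- the map of the chains when `x` and `u` are identified -/
def psh (x u : V) : Module.End F2 (Finset V → Y) where
  toFun z t := if x ∈ t then 0 else if u ∈ t then z t + z (insert x (t.erase u)) else z t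
  map_add' z w := by
    funext t
    by_cases h : x ∈ t
    · simp [h]
    · by_cases h2 : u ∈ t
      · simp only [h, if_false, h2, if_true, Pi.add_apply]
        abel
      · simp [h, h2]
  map_smul' c z := by
    funext t
    by_cases h : x ∈ t
    · simp [h]
    · by_cases h2 : u ∈ t
      · simp [h, h2]
      · simp [h, h2]

theorem psh_apply (x u : V) (z : Finset V → Y) (t : Finset V) :
    psh x u z t = if x ∈ t then 0 else if u ∈ t then z t + z (insert x (t.erase u)) else z t := rfl

private theorem MergeP_insert_erase {x u : V} {t : Finset V} (hx : x ∉ t) (hu : u ∈ t) :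
    insert u ((insert x (t.erase u)).erase x) = t := by
  have h1 : x ∉ t.erase u := fun h => hx (mem_of_mem_erase h)
  rw [erase_insert h1, insert_erase hu]

private theorem MergeP_self_add (y : Y) : y + y = 0 := by
  have h : (2 : F2) = 0 := rfl
  rw [← two_smul F2 y, h, zero_smul]

/-- `psh` commutes with the boundary (for all chains). -/
theorem psh_dd {x u : V} (hxu : x ≠ u) (z : Finset V → Y) : psh x u (dd z) = dd (psh x u z) := by
  funext t
  by_cases hx : x ∈ t
  · rw [psh_apply, if_pos hx, dd_apply]
    symm
    apply sum_eq_zero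
    intro v _
    rw [psh_apply, if_pos (mem_insert_of_mem hx)]
  by_cases hu : u ∈ t
  · rw [psh_apply, if_neg hx, if_pos hu]
    have hxc : x ∈ tᶜ := mem_compl.2 hx
    have hc : (insert x (t.erase u))ᶜ = insert u (tᶜ.erase x) := by
      ext a
      simp only [mem_compl, mem_insert, mem_erase]
      constructor
      · intro h
        by_cases ha : a = u
        · exact Or.inl ha
        · right
          refine ⟨fun h' => h (Or.inl h'), fun h' => h (Or.inr ⟨ha, h'⟩)⟩
      · rintro (h | ⟨h1, h2⟩) (h3 | ⟨h4, h5⟩)
        · exact hxu (h3.symm.trans h)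
        · exact h4 h
        · exact h1 h3
        · exact h2 h5
    have hun : u ∉ tᶜ.erase x := fun h => (mem_compl.1 (mem_of_mem_erase h)) hu
    rw [dd_apply, dd_apply, dd_apply, hc, sum_insert hun, ← add_sum_erase _ _ hxc,
      ← add_sum_erase _ _ hxc]
    have h1 : insert u (insert x (t.erase u)) = insert x t := by
      rw [Finset.insert_comm, insert_erase hu]
    rw [h1, psh_apply x u z (insert x t), if_pos (mem_insert_self x t), zero_add]
    have h2 : ∀ v ∈ tᶜ.erase x, psh x u z (insert v t) =
        z (insert v t) + z (insert v (insert x (t.erase u))) := by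
      intro v hv
      have hvx : v ≠ x := ne_of_mem_erase hv
      have hvt : v ∉ t := mem_compl.1 (mem_of_mem_erase hv)
      have hvu : v ≠ u := fun h => hvt (h ▸ hu)
      have h3 : x ∉ insert v t := by
        rw [mem_insert]
        rintro (h | h)
        · exact hvx h.symm
        · exact hx h
      rw [psh_apply, if_neg h3, if_pos (mem_insert_of_mem hu), erase_insert_of_ne hvu, Finset.insert_comm]
    rw [sum_congr rfl h2, sum_add_distrib]
    have h4 := MergeP_self_add (z (insert x t))
    calc z (insert x t) + ∑ v ∈ tᶜ.erase x, z (insert v t) +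
          (z (insert x t) + ∑ v ∈ tᶜ.erase x, z (insert v (insert x (t.erase u))))
        = (z (insert x t) + z (insert x t)) + (∑ v ∈ tᶜ.erase x, z (insert v t) +
          ∑ v ∈ tᶜ.erase x, z (insert v (insert x (t.erase u)))) := by abel
      _ = _ := by rw [h4, zero_add]
  · rw [psh_apply, if_neg hx, if_neg hu]
    have hxc : x ∈ tᶜ := mem_compl.2 hx
    have huc : u ∈ tᶜ.erase x := mem_erase.2 ⟨hxu.symm, mem_compl.2 hu⟩
    rw [dd_apply, dd_apply, ← add_sum_erase _ _ hxc, ← add_sum_erase _ _ huc,
      ← add_sum_erase _ _ hxc, ← add_sum_erase _ _ huc]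
    have h1 : x ∉ insert u t := by
      rw [mem_insert]
      rintro (h | h)
      · exact hxu h
      · exact hx h
    rw [psh_apply x u z (insert x t), if_pos (mem_insert_self x t), psh_apply x u z (insert u t),
      if_neg h1, if_pos (mem_insert_self u t), erase_insert hu, zero_add]
    have h2 : ∀ v ∈ (tᶜ.erase x).erase u, psh x u z (insert v t) = z (insert v t) := by
      intro v hv
      have hvu : v ≠ u := ne_of_mem_erase hv
      have hvx : v ≠ x := ne_of_mem_erase (mem_of_mem_erase hv)
      have h3 : x ∉ insert v t := by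
        rw [mem_insert]
        rintro (h | h)
        · exact hvx h.symm
        · exact hx h
      have h4 : u ∉ insert v t := by
        rw [mem_insert]
        rintro (h | h)
        · exact hvu h.symm
        · exact hu h
      rw [psh_apply, if_neg h3, if_neg h4]
    rw [sum_congr rfl h2]
    abel

/-- the cliques of the merged graph -/
theorem merge_clique {G : SimpleGraph V} {U : Finset V} {x u : V} (hx : x ∈ U) (hu : u ∈ U)
    (hxu : x ≠ u) (hN : NoSq G U x u) {t : Finset V} (hut : u ∈ t) :
    Cq (merge G x u) (U.erase x) t ↔ x ∉ t ∧ (Cq G U t ∨ Cq G U (insert x (t.erase u))) := by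
  constructor
  · rintro ⟨h1, h2⟩
    have hxt : x ∉ t := fun h => (mem_erase.1 (h2 h)).1 rfl
    have hU : t ⊆ U := fun a ha => mem_of_mem_erase (h2 ha)
    refine ⟨hxt, ?_⟩
    have hG : ∀ a ∈ t, ∀ b ∈ t, a ≠ u → b ≠ u → a ≠ b → G.Adj a b := by
      intro a ha b hb hau hbu hab
      rcases (h1 (mem_coe.2 ha) (mem_coe.2 hb) hab).2 with h | h | h
      · exact h
      · exact absurd h.1 hau
      · exact absurd h.1 hbu
    have hor : ∀ a ∈ t, a ≠ u → G.Adj u a ∨ G.Adj x a := by
      intro a ha hau
      rcases (h1 (mem_coe.2 ha) (mem_coe.2 hut) hau).2 with h | h | h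
      · exact Or.inl h.symm
      · exact absurd h.1 hau
      · exact Or.inr h.2
    by_cases hall : ∀ a ∈ t, a ≠ u → G.Adj u a
    · left
      refine ⟨?_, hU⟩
      intro a ha b hb hab
      have ha' : a ∈ t := mem_coe.1 ha
      have hb' : b ∈ t := mem_coe.1 hb
      by_cases hau : a = u
      · rw [hau]
        exact hall b hb' (fun h => hab (hau.trans h.symm))
      · by_cases hbu : b = u
        · rw [hbu]
          exact (hall a ha' hau).symm
        · exact hG a ha' b hb' hau hbu hab
    · right
      push Not at hall
      obtain ⟨b, hb, hbu, hub⟩ := hall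
      have hxb : G.Adj x b := (hor b hb hbu).resolve_left hub
      have hxa : ∀ a ∈ t, a ≠ u → G.Adj x a := by
        intro a ha hau
        rcases hor a ha hau with h | h
        · by_cases hab : a = b
          · rw [hab]
            exact hxb
          · rcases hN a (hU ha) b (hU hb) (fun h' => hxt (h' ▸ ha)) hbu h hxb
              (hG a ha b hb hau hbu hab) with h' | h'
            · exact h'
            · exact absurd h' hub
        · exact h
      refine ⟨?_, ?_⟩
      · intro a ha c hc hac
        have ha' : a = x ∨ (a ≠ u ∧ a ∈ t) := by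
          simpa only [mem_insert, mem_erase] using mem_coe.1 ha
        have hc' : c = x ∨ (c ≠ u ∧ c ∈ t) := by
          simpa only [mem_insert, mem_erase] using mem_coe.1 hc
        rcases ha' with ha' | ⟨ha1, ha2⟩
        · rcases hc' with hc' | ⟨hc1, hc2⟩
          · exact absurd (ha'.trans hc'.symm) hac
          · rw [ha']
            exact hxa c hc2 hc1
        · rcases hc' with hc' | ⟨hc1, hc2⟩
          · rw [hc']
            exact (hxa a ha2 ha1).symm
          · exact hG a ha2 c hc2 ha1 hc1 hac
      · intro a ha
        rcases mem_insert.1 ha with h | h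
        · rw [h]
          exact hx
        · exact hU (mem_of_mem_erase h)
  · rintro ⟨hxt, h⟩
    have hsub : t ⊆ U := by
      rcases h with h | h
      · exact h.2
      · intro a ha
        by_cases hau : a = u
        · rw [hau]
          exact hu
        · exact h.2 (mem_insert_of_mem (mem_erase.2 ⟨hau, ha⟩))
    refine ⟨?_, fun a ha => mem_erase.2 ⟨fun h' => hxt (h' ▸ ha), hsub ha⟩⟩
    intro a ha b hb hab
    have ha' : a ∈ t := mem_coe.1 ha
    have hb' : b ∈ t := mem_coe.1 hb
    refine ⟨hab, ?_⟩
    rcases h with h | h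
    · exact Or.inl (h.1 ha hb hab)
    · by_cases hau : a = u
      · have hbu : b ≠ u := fun h' => hab (hau.trans h'.symm)
        refine Or.inr (Or.inl ⟨hau, h.1 ?_ ?_ ?_⟩)
        · exact mem_coe.2 (mem_insert_self _ _)
        · exact mem_coe.2 (mem_insert_of_mem (mem_erase.2 ⟨hbu, hb'⟩))
        · exact fun h' => hxt (h' ▸ hb')
      · by_cases hbu : b = u
        · refine Or.inr (Or.inr ⟨hbu, h.1 ?_ ?_ ?_⟩)
          · exact mem_coe.2 (mem_insert_self _ _)
          · exact mem_coe.2 (mem_insert_of_mem (mem_erase.2 ⟨hau, ha'⟩))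
          · exact fun h' => hxt (h' ▸ ha')
        · refine Or.inl (h.1 ?_ ?_ hab)
          · exact mem_coe.2 (mem_insert_of_mem (mem_erase.2 ⟨hau, ha'⟩))
          · exact mem_coe.2 (mem_insert_of_mem (mem_erase.2 ⟨hbu, hb'⟩))

theorem merge_clique' {G : SimpleGraph V} {U : Finset V} {x u : V} {t : Finset V} (hut : u ∉ t) :
    Cq (merge G x u) (U.erase x) t ↔ x ∉ t ∧ Cq G U t := by
  constructor
  · rintro ⟨h1, h2⟩
    refine ⟨fun h => (mem_erase.1 (h2 h)).1 rfl, ?_, fun a ha => mem_of_mem_erase (h2 ha)⟩
    intro a ha b hb hab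
    rcases (h1 ha hb hab).2 with h | h | h
    · exact h
    · exact absurd (h.1 ▸ mem_coe.1 ha) hut
    · exact absurd (h.1 ▸ mem_coe.1 hb) hut
  · rintro ⟨hxt, h1, h2⟩
    refine ⟨fun a ha b hb hab => ⟨hab, Or.inl (h1 ha hb hab)⟩, fun a ha => ?_⟩
    exact mem_erase.2 ⟨fun h' => hxt (h' ▸ ha), h2 ha⟩

/-- The image of `psh`. -/
theorem psh_map {G : SimpleGraph V} {U : Finset V} {x u : V} (hx : x ∈ U) (hu : u ∈ U)
    (hxu : x ≠ u) (hN : NoSq G U x u) (r : V → Module.End F2 Y) (i : ℕ) (X : Finset V → Prop)
    (hX : (∀ s, X s ↔ Cq G U s) ∨ ∀ s, X s ↔ (Cq G U s ∧ ¬ (x ∈ s ∧ u ∈ s))) :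
    (Ch (Sy X (Function.update r x (r u))) i).map (psh x u) =
      Ch (Sy (Cq (merge G x u) (U.erase x)) r) i := by
  classical
  have hXC : ∀ s, X s → Cq G U s := by
    intro s hs
    rcases hX with h | h
    · exact (h s).1 hs
    · exact ((h s).1 hs).1
  have hCX : ∀ s, Cq G U s → ¬ (x ∈ s ∧ u ∈ s) → X s := by
    intro s hs h1
    rcases hX with h | h
    · exact (h s).2 hs
    · exact (h s).2 ⟨hs, h1⟩
  have hne : ∀ v, v ≠ x → Function.update r x (r u) v = r v := fun v hv =>
    Function.update_of_ne hv _ _
  have hself : Function.update r x (r u) x = r u := Function.update_self _ _ _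
  apply le_antisymm
  · rintro _ ⟨z, hz, rfl⟩
    rw [SetLike.mem_coe, mem_Ch] at hz
    rw [mem_Ch]
    intro t
    rw [psh_apply]
    by_cases hxt : x ∈ t
    · rw [if_pos hxt]
      exact ⟨Submodule.zero_mem _, fun _ => rfl⟩
    rw [if_neg hxt]
    by_cases hut : u ∈ t
    · rw [if_pos hut]
      obtain ⟨h1, h2⟩ := hz t
      obtain ⟨h3, h4⟩ := hz (insert x (t.erase u))
      rw [mem_Sy] at h1 h3
      have hxe : x ∉ t.erase u := fun h => hxt (mem_of_mem_erase h)
      have hcard : (insert x (t.erase u)).card = t.card := by
        rw [card_insert_of_notMem hxe, card_erase_add_one hut]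
      rw [hcard] at h4
      refine ⟨?_, fun h => by rw [h2 h, h4 h, add_zero]⟩
      rw [mem_Sy]
      refine ⟨fun h => ?_, fun v hv => ?_⟩
      · rw [merge_clique hx hu hxu hN hut] at h
        have h5 : ¬ Cq G U t := fun h' => h ⟨hxt, Or.inl h'⟩
        have h6 : ¬ Cq G U (insert x (t.erase u)) := fun h' => h ⟨hxt, Or.inr h'⟩
        rw [h1.1 (fun h' => h5 (hXC _ h')), h3.1 (fun h' => h6 (hXC _ h')), add_zero]
      · have hvx : v ≠ x := fun h => hxt (h ▸ hv)
        have h7 := h1.2 v hv
        rw [hne v hvx] at h7
        rw [map_add, h7]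
        congr 1
        by_cases hvu : v = u
        · have h8 := h3.2 x (mem_insert_self _ _)
          rw [hself] at h8
          rw [hvu]
          exact h8
        · have h8 := h3.2 v (mem_insert_of_mem (mem_erase.2 ⟨hvu, hv⟩))
          rw [hne v hvx] at h8
          exact h8
    · rw [if_neg hut]
      obtain ⟨h1, h2⟩ := hz t
      rw [mem_Sy] at h1
      refine ⟨?_, h2⟩
      rw [mem_Sy]
      refine ⟨fun h => ?_, fun v hv => ?_⟩
      · rw [merge_clique' hut] at h
        exact h1.1 (fun h' => h ⟨hxt, hXC _ h'⟩)
      · have hvx : v ≠ x := fun h => hxt (h ▸ hv)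
        have h7 := h1.2 v hv
        rwa [hne v hvx] at h7
  · intro w hw
    rw [mem_Ch] at hw
    let z : Finset V → Y := fun s =>
      if x ∈ s then (if u ∈ s then 0 else
        if Cq G U (insert u (s.erase x)) then 0 else w (insert u (s.erase x)))
      else (if u ∈ s then (if Cq G U s then w s else 0) else w s)
    have z1 : ∀ s, x ∈ s → u ∈ s → z s = 0 := by
      intro s h1 h2
      simp only [z, if_pos h1, if_pos h2]
    have z2 : ∀ s, x ∈ s → u ∉ s → Cq G U (insert u (s.erase x)) → z s = 0 := by
      intro s h1 h2 h3
      simp only [z, if_pos h1, if_neg h2, if_pos h3]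
    have z3 : ∀ s, x ∈ s → u ∉ s → ¬ Cq G U (insert u (s.erase x)) →
        z s = w (insert u (s.erase x)) := by
      intro s h1 h2 h3
      simp only [z, if_pos h1, if_neg h2, if_neg h3]
    have z4 : ∀ s, x ∉ s → u ∈ s → Cq G U s → z s = w s := by
      intro s h1 h2 h3
      simp only [z, if_neg h1, if_pos h2, if_pos h3]
    have z5 : ∀ s, x ∉ s → u ∈ s → ¬ Cq G U s → z s = 0 := by
      intro s h1 h2 h3
      simp only [z, if_neg h1, if_pos h2, if_neg h3]
    have z6 : ∀ s, x ∉ s → u ∉ s → z s = w s := by
      intro s h1 h2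
      simp only [z, if_neg h1, if_neg h2]
    refine ⟨z, ?_, ?_⟩
    · rw [SetLike.mem_coe, mem_Ch]
      intro s
      by_cases hxs : x ∈ s
      · by_cases hus : u ∈ s
        · rw [z1 s hxs hus]
          exact ⟨Submodule.zero_mem _, fun _ => rfl⟩
        · by_cases hC : Cq G U (insert u (s.erase x))
          · rw [z2 s hxs hus hC]
            exact ⟨Submodule.zero_mem _, fun _ => rfl⟩
          · rw [z3 s hxs hus hC]
            obtain ⟨h1, h2⟩ := hw (insert u (s.erase x))
            rw [mem_Sy] at h1
            have hue : u ∉ s.erase x := fun h => hus (mem_of_mem_erase h)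
            have hcard : (insert u (s.erase x)).card = s.card := by
              rw [card_insert_of_notMem hue, card_erase_add_one hxs]
            rw [hcard] at h2
            refine ⟨?_, h2⟩
            rw [mem_Sy]
            refine ⟨fun h => h1.1 fun h' => ?_, fun v hv => ?_⟩
            · rw [merge_clique hx hu hxu hN (mem_insert_self _ _)] at h'
              rcases h'.2 with h'' | h''
              · exact hC h''
              · rw [erase_insert hue, insert_erase hxs] at h''
                exact h (hCX s h'' (fun h3 => hus h3.2))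
            · by_cases hvx : v = x
              · rw [hvx, hself]
                exact h1.2 u (mem_insert_self _ _)
              · rw [hne v hvx]
                exact h1.2 v (mem_insert_of_mem (mem_erase.2 ⟨hvx, hv⟩))
      · by_cases hus : u ∈ s
        · by_cases hC : Cq G U s
          · rw [z4 s hxs hus hC]
            obtain ⟨h1, h2⟩ := hw s
            rw [mem_Sy] at h1
            refine ⟨?_, h2⟩
            rw [mem_Sy]
            refine ⟨fun h => absurd (hCX s hC (fun h3 => hxs h3.1)) h, fun v hv => ?_⟩
            have hvx : v ≠ x := fun h => hxs (h ▸ hv)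
            rw [hne v hvx]
            exact h1.2 v hv
          · rw [z5 s hxs hus hC]
            exact ⟨Submodule.zero_mem _, fun _ => rfl⟩
        · rw [z6 s hxs hus]
          obtain ⟨h1, h2⟩ := hw s
          rw [mem_Sy] at h1
          refine ⟨?_, h2⟩
          rw [mem_Sy]
          refine ⟨fun h => h1.1 fun h' => ?_, fun v hv => ?_⟩
          · rw [merge_clique' hus] at h'
            exact h (hCX s h'.2 (fun h3 => hxs h3.1))
          · have hvx : v ≠ x := fun h => hxs (h ▸ hv)
            rw [hne v hvx]
            exact h1.2 v hv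
    · funext t
      rw [psh_apply]
      by_cases hxt : x ∈ t
      · rw [if_pos hxt]
        symm
        refine (hw t).1.1 fun h => ?_
        exact (mem_erase.1 (h.2 hxt)).1 rfl
      rw [if_neg hxt]
      by_cases hut : u ∈ t
      · rw [if_pos hut]
        have hxe : x ∉ t.erase u := fun h => hxt (mem_of_mem_erase h)
        have hun : u ∉ insert x (t.erase u) := by
          rw [mem_insert]
          rintro (h | h)
          · exact hxu h.symm
          · exact (mem_erase.1 h).1 rfl
        have hback := MergeP_insert_erase hxt hut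
        by_cases hC : Cq G U t
        · rw [z4 t hxt hut hC, z2 _ (mem_insert_self _ _) hun (by rw [hback]; exact hC), add_zero]
        · rw [z5 t hxt hut hC, z3 _ (mem_insert_self _ _) hun (by rw [hback]; exact hC), hback,
            zero_add]
      · rw [if_neg hut, z6 t hxt hut]

end Pool.Agent.H73.GC
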