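import Pool.Agent.H73.GC.Ten
import Pool.Agent.H73.GC.Fil
import Pool.Agent.H73.GC.SysA
import Pool.Agent.H73.GC.SysB
import Pool.Agent.H73.GC.Bit

/-!
# Growth calculus: the product lemma

Induction over the dimension of `Y₂` (replace `r₂ v`, `v ∉ U`, by `1` first, `hX_congr`): let `m ≠ 0` be
invariant (`exists_fixed`), `S = span {m}`, `lam : Y₁ ⊗ Y₂ → Y₁ ⊗ (Y₂ / S)`. `hd_coef` for
`A = Sy X (tens r₁ r₂)`: the image of `A s` is `Sy X (tens r₁ r₂') s` by `Sy_map` (projections
`E₁ v ⊗ 1`), the kernel of `lam` is the image of the injective map `y ↦ y ⊗ m`, so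
`A s ⊓ ker lam = (Sy X r₁ s).map (· ⊗ m)` and `hd_map` gives `hX X r₁ i`.
-/

set_option autoImplicit false
set_option linter.unusedSectionVars false

open Finset

namespace Pool.Agent.H73.GC

variable {V : Type} [DecidableEq V] [Fintype V]
variable {Y₁ Y₂ : Type} [AddCommGroup Y₁] [Module F2 Y₁] [AddCommGroup Y₂] [Module F2 Y₂]
  [Finite Y₁] [Finite Y₂]

/-- The operators on the quotient by a subspace on which all of them are defined. -/
private theorem Prod_quot {G : SimpleGraph V} {U : Finset V} {Y : Type} [AddCommGroup Y]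
    [Module F2 Y] {r : V → Module.End F2 Y} (h : IsN G U r) (S : Submodule F2 Y)
    (hS : ∀ v, S ≤ S.comap (r v)) : IsN G U (fun v => S.mapQ S (r v) (hS v)) where
  sq := by
    intro v hv y
    obtain ⟨y, rfl⟩ := S.mkQ_surjective y
    change S.mkQ (r v (r v y)) = S.mkQ y
    rw [h.sq v hv y]
  comm := by
    intro u hu v hv huv y
    obtain ⟨y, rfl⟩ := S.mkQ_surjective y
    change S.mkQ (r u (r v y)) = S.mkQ (r v (r u y))
    rw [h.comm u hu v hv huv y]
  fil := by
    obtain ⟨n, F, hF, h0, hn, hr⟩ := h.fil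
    refine ⟨n, fun j => (F j).map S.mkQ, fun a b hab => Submodule.map_mono (hF hab), ?_, ?_, ?_⟩
    · change (F 0).map S.mkQ = ⊥
      rw [h0, Submodule.map_bot]
    · change (F n).map S.mkQ = ⊤
      rw [hn, Submodule.map_top, Submodule.range_mkQ]
    · rintro j v hv _ ⟨y, hy, rfl⟩
      exact ⟨y + r v y, hr j v hv y hy, by rw [map_add]; rfl⟩

/-- One step of the induction. -/
private theorem Prod_step {G : SimpleGraph V} {U : Finset V} {r₁ E₁ : V → Module.End F2 Y₁}
    {r₂ : V → Module.End F2 Y₂} (h₁ : IsN G U r₁) (hb : IsBit G U r₁ E₁) (h₂ : IsN G U r₂)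
    {X : Finset V → Prop} (hc : ∀ s, X s → Cq G U s) (hm : ∀ s v, X (insert v s) → X s) (i : ℕ)
    (m : Y₂) (hm0 : m ≠ 0) (hmr : ∀ v, r₂ v m = m)
    (hS : ∀ v, Submodule.span F2 {m} ≤ (Submodule.span F2 {m}).comap (r₂ v)) :
    hX X (tens r₁ r₂) i ≤ hX X r₁ i + hX X (tens r₁ (fun v =>
      (Submodule.span F2 {m}).mapQ (Submodule.span F2 {m}) (r₂ v) (hS v))) i := by
  set S := Submodule.span F2 {m} with hSdef
  set q := S.mkQ with hq
  have : Finite (TensorProduct F2 Y₁ Y₂) := finite_tens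
  have : Finite (Y₂ ⧸ S) := Finite.of_surjective S.mkQ S.mkQ_surjective
  have : Finite (TensorProduct F2 Y₁ (Y₂ ⧸ S)) := finite_tens
  set lam : TensorProduct F2 Y₁ Y₂ →ₗ[F2] TensorProduct F2 Y₁ (Y₂ ⧸ S) := LinearMap.lTensor Y₁ q
    with hlam
  have hls : Function.Surjective lam := LinearMap.lTensor_surjective Y₁ S.mkQ_surjective
  set j : Y₁ →ₗ[F2] TensorProduct F2 Y₁ Y₂ := (TensorProduct.mk F2 Y₁ Y₂).flip m with hj
  have hjy : ∀ y, j y = TensorProduct.tmul F2 y m := fun y => rfl
  -- `j` is injective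
  have hjinj : Function.Injective j := by
    have hk : LinearMap.ker (LinearMap.toSpanSingleton F2 Y₂ m) = ⊥ :=
      LinearMap.ker_toSpanSingleton F2 hm0
    obtain ⟨g, hg⟩ := (LinearMap.toSpanSingleton F2 Y₂ m).exists_leftInverse_of_injective hk
    have hgm : g m = 1 := by
      have := LinearMap.congr_fun hg 1
      simpa using this
    intro y y' hyy
    have h3 := congrArg (fun z => TensorProduct.rid F2 Y₁ (LinearMap.lTensor Y₁ g z)) hyy
    simp only [hjy, LinearMap.lTensor_tmul, hgm, TensorProduct.rid_tmul, one_smul] at h3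
    exact h3
  -- the kernel of `lam` is the range of `j`
  have hker : ∀ y, lam y = 0 → ∃ y₁, j y₁ = y := by
    intro y hy
    have hex : Function.Exact (LinearMap.toSpanSingleton F2 Y₂ m) q := by
      rw [LinearMap.exact_iff, hq, Submodule.ker_mkQ, hSdef, LinearMap.range_toSpanSingleton]
    obtain ⟨z, hz⟩ := (lTensor_exact Y₁ hex S.mkQ_surjective y).1 hy
    refine ⟨TensorProduct.rid F2 Y₁ z, ?_⟩
    rw [← hz]
    have : j ∘ₗ (TensorProduct.rid F2 Y₁).toLinearMap =
        LinearMap.lTensor Y₁ (LinearMap.toSpanSingleton F2 Y₂ m) := by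
      refine TensorProduct.ext' fun a b => ?_
      simp [hjy, TensorProduct.smul_tmul]
    exact LinearMap.congr_fun this z
  have hlj : ∀ y, lam (j y) = 0 := by
    intro y
    rw [hjy, hlam, LinearMap.lTensor_tmul]
    have : q m = 0 := by
      rw [hq, Submodule.mkQ_apply, Submodule.Quotient.mk_eq_zero, hSdef]
      exact Submodule.mem_span_singleton_self m
    rw [this, TensorProduct.tmul_zero]
  have hrj : ∀ v y, tens r₁ r₂ v (j y) = j (r₁ v y) := by
    intro v y
    rw [hjy, hjy, tens, TensorProduct.map_tmul, hmr v]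
  -- the kernels
  have hA : (fun s => Sy X (tens r₁ r₂) s ⊓ LinearMap.ker lam) = fun s => (Sy X r₁ s).map j := by
    funext s
    ext y
    constructor
    · rintro ⟨⟨h3, h4⟩, h5⟩
      obtain ⟨y₁, rfl⟩ := hker y h5
      refine ⟨y₁, ⟨fun h => hjinj (by rw [h3 h, map_zero]), fun v hv => hjinj ?_⟩, rfl⟩
      rw [← hrj, h4 v hv]
    · rintro ⟨y₁, ⟨h3, h4⟩, rfl⟩
      refine ⟨⟨fun h => by rw [h3 h, map_zero], fun v hv => ?_⟩, hlj y₁⟩
      rw [hrj, h4 v hv]
  -- the images
  have hB : (fun s => (Sy X (tens r₁ r₂) s).map lam) =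
      Sy X (tens r₁ (fun v => S.mapQ S (r₂ v) (hS v))) := by
    funext s
    refine Sy_map (E := fun v => TensorProduct.map (E₁ v) LinearMap.id)
      (fun s hs => (isBit_tens_left hb).bitOn (isN_tens h₁ h₂) (hc s hs)) lam hls ?_ ?_ s
    · intro s _ v _ y
      have : lam ∘ₗ TensorProduct.map (r₁ v) (r₂ v) =
          TensorProduct.map (r₁ v) (S.mapQ S (r₂ v) (hS v)) ∘ₗ lam := by
        refine TensorProduct.ext' fun a b => ?_
        simp [hlam, hq]
      exact LinearMap.congr_fun this y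
    · intro s _ v _ y hy
      have : lam ∘ₗ TensorProduct.map (E₁ v) LinearMap.id =
          TensorProduct.map (E₁ v) LinearMap.id ∘ₗ lam := by
        refine TensorProduct.ext' fun a b => ?_
        simp [hlam, hq]
      have h3 := LinearMap.congr_fun this y
      simp only [LinearMap.comp_apply, hy, map_zero] at h3
      exact h3
  have h3 := hd_coef (mono_Sy hm (tens r₁ r₂)) lam i
  rw [hA, hB, hd_map (Sy X r₁) j hjinj i] at h3
  exact h3

private theorem Prod_aux {G : SimpleGraph V} {U : Finset V} {r₁ E₁ : V → Module.End F2 Y₁}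
    (h₁ : IsN G U r₁) (hb : IsBit G U r₁ E₁)
    {X : Finset V → Prop} (hc : ∀ s, X s → Cq G U s) (hm : ∀ s v, X (insert v s) → X s) (i : ℕ)
    (n : ℕ) : ∀ (Y : Type) [AddCommGroup Y] [Module F2 Y] [Finite Y] (r : V → Module.End F2 Y),
      IsN G U r → (∀ v ∉ U, r v = 1) → Module.finrank F2 Y = n →
        hX X (tens r₁ r) i ≤ n * hX X r₁ i := by
  induction n with
  | zero =>
    intro Y _ _ _ r _ _ hn
    have : Module.Finite F2 Y := Module.Finite.of_finite
    have : Subsingleton Y := Module.finrank_zero_iff.1 hn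
    rw [hX_subsingleton, Nat.cast_zero, zero_mul]
  | succ n ih =>
    intro Y _ _ _ r hr hr1 hn
    have : Module.Finite F2 Y := Module.Finite.of_finite
    have : Nontrivial Y := Module.nontrivial_of_finrank_pos (R := F2) (by omega)
    obtain ⟨m, hm0, hmU⟩ := exists_fixed hr.fil
    have hmr : ∀ v, r v m = m := by
      intro v
      by_cases hv : v ∈ U
      · exact hmU v hv
      · rw [hr1 v hv]
        rfl
    have hS : ∀ v, Submodule.span F2 {m} ≤ (Submodule.span F2 {m}).comap (r v) := by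
      intro v
      rw [Submodule.span_singleton_le_iff_mem, Submodule.mem_comap, hmr v]
      exact Submodule.mem_span_singleton_self m
    have h3 := Prod_step h₁ hb hr hc hm i m hm0 hmr hS
    have : Finite (Y ⧸ Submodule.span F2 {m}) :=
      Finite.of_surjective (Submodule.span F2 {m}).mkQ (Submodule.span F2 {m}).mkQ_surjective
    have h4 := ih (Y ⧸ Submodule.span F2 {m}) _ (Prod_quot hr _ hS) (fun v hv => by
      refine LinearMap.ext fun y => ?_
      obtain ⟨y, rfl⟩ := (Submodule.span F2 {m}).mkQ_surjective y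
      change (Submodule.span F2 {m}).mkQ (r v y) = _
      rw [hr1 v hv]
      rfl) (by
      have h5 := (Submodule.span F2 {m}).finrank_quotient_add_finrank
      rw [finrank_span_singleton hm0, hn] at h5
      omega)
    push_cast
    linarith

theorem prod_le {G : SimpleGraph V} {U : Finset V} {r₁ E₁ : V → Module.End F2 Y₁}
    {r₂ : V → Module.End F2 Y₂} (h₁ : IsN G U r₁) (hb : IsBit G U r₁ E₁) (h₂ : IsN G U r₂)
    {X : Finset V → Prop} (hc : ∀ s, X s → Cq G U s) (hm : ∀ s v, X (insert v s) → X s) (i : ℕ) :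
    hX X (tens r₁ r₂) i ≤
      Module.finrank F2 Y₂ * hX X r₁ i := by
  classical
  have h3 : hX X (tens r₁ r₂) i = hX X (tens r₁ (fun v => if v ∈ U then r₂ v else 1)) i := by
    have : Finite (TensorProduct F2 Y₁ Y₂) := finite_tens
    refine hX_congr (fun s => Iff.rfl) (fun s hs v hv y => ?_) i
    rw [tens, tens, if_pos ((hc s hs).2 hv)]
  rw [h3]
  refine Prod_aux h₁ hb hc hm i _ Y₂ _ ⟨?_, ?_, ?_⟩ (fun v hv => if_neg hv) rfl
  · intro v hv y
    simp only [if_pos hv]
    exact h₂.sq v hv y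
  · intro u hu v hv huv y
    simp only [if_pos hv, if_pos hu]
    exact h₂.comm u hu v hv huv y
  · obtain ⟨n, F, hF, h0, hn, hr⟩ := h₂.fil
    refine ⟨n, F, hF, h0, hn, fun j v hv y hy => ?_⟩
    simp only [if_pos hv]
    exact hr j v hv y hy

end Pool.Agent.H73.GC
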