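import Pool.Agent.H73.GC.SysB
import Pool.Agent.H73.GC.Bit

/-!
# Growth calculus: suspensions, the bound

`hx_eq`. A cycle `z` of degree `j` is determined by its restriction to the sets without `a`, `b` (a chain of
degree `j` of `W = U - a - b`) up to the cycles which vanish on these sets, and these satisfy
`z (t + a) = z (t + b)` for all `t` in `W` (`(dd z) t = 0`), a chain of degree `j - 1` of `W` with values in
`Inv r {a, b}`. So `dim Z_j ≤ dim C_j (W) + 2 ^ |V| dim Inv r {a, b}`, and by `finrank_Inv`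
`dim C_(i+1) (U) = dim C_(i+1) (W) + dim C_i (W)`.
-/

set_option autoImplicit false
set_option linter.unusedSectionVars false

open Finset

namespace Pool.Agent.H73.GC

variable {V : Type} [DecidableEq V] [Fintype V]
variable {Y : Type} [AddCommGroup Y] [Module F2 Y] [Finite Y]

/-- restriction to the sets without `a`, `b` -/
private def SuspA_rho (Y : Type) [AddCommGroup Y] [Module F2 Y] (a b : V) :
    (Finset V → Y) →ₗ[F2] (Finset V → Y) where
  toFun z s := if a ∉ s ∧ b ∉ s then z s else 0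
  map_add' f g := by
    funext s
    by_cases h : a ∉ s ∧ b ∉ s
    · simp only [if_pos h, Pi.add_apply]
    · simp only [if_neg h, Pi.add_apply, add_zero]
  map_smul' c f := by
    funext s
    by_cases h : a ∉ s ∧ b ∉ s
    · simp only [if_pos h, Pi.smul_apply, RingHom.id_apply]
    · simp only [if_neg h, Pi.smul_apply, RingHom.id_apply, smul_zero]

private theorem SuspA_rho_apply (a b : V) (z : Finset V → Y) (s : Finset V) :
    SuspA_rho Y a b z s = if a ∉ s ∧ b ∉ s then z s else 0 := rfl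

/-- the sets without `a`, `b` -/
private theorem SuspA_cq {G : SimpleGraph V} {U : Finset V} {a b : V} {s : Finset V}
    (ha : a ∉ s) (hb : b ∉ s) : Cq G ((U.erase a).erase b) s ↔ Cq G U s := by
  constructor
  · rintro ⟨h1, h2⟩
    exact ⟨h1, h2.trans ((erase_subset _ _).trans (erase_subset _ _))⟩
  · rintro ⟨h1, h2⟩
    refine ⟨h1, fun v hv => ?_⟩
    rw [mem_erase, mem_erase]
    exact ⟨fun h => hb (h ▸ hv), fun h => ha (h ▸ hv), h2 hv⟩

private theorem SuspA_cq' {G : SimpleGraph V} {U : Finset V} {a b : V} {s : Finset V}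
    (h : Cq G ((U.erase a).erase b) s) : a ∉ s ∧ b ∉ s := by
  constructor
  · intro hs
    have := h.2 hs
    rw [mem_erase, mem_erase] at this
    exact this.2.1 rfl
  · intro hs
    have := h.2 hs
    rw [mem_erase] at this
    exact this.1 rfl

/-- cliques with `a` -/
private theorem SuspA_ins {G : SimpleGraph V} {U : Finset V} {a b : V} (ha : a ∈ U)
    (h : ∀ w ∈ U, w ≠ a → w ≠ b → G.Adj a w) {t : Finset V} (h1 : a ∉ t) (h2 : b ∉ t) :
    Cq G U (insert a t) ↔ Cq G U t := by
  constructor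
  · exact mono_Cq G U t a
  · rintro ⟨h3, h4⟩
    refine ⟨?_, insert_subset ha h4⟩
    rw [coe_insert, SimpleGraph.isClique_insert]
    refine ⟨h3, fun w hw _ => ?_⟩
    have hw' : w ∈ t := hw
    exact h w (h4 hw') (fun e => h1 (e ▸ hw')) (fun e => h2 (e ▸ hw'))

private theorem SuspA_Sy_pos {X : Finset V → Prop} {r : V → Module.End F2 Y} {s : Finset V}
    (h : X s) : Sy X r s = Inv r s := by
  ext y
  rw [mem_Sy, mem_Inv]
  exact ⟨fun hy => hy.2, fun hy => ⟨fun hn => absurd h hn, hy⟩⟩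

private theorem SuspA_Sy_neg {X : Finset V → Prop} {r : V → Module.End F2 Y} {s : Finset V}
    (h : ¬ X s) : Module.finrank F2 (Sy X r s) = 0 := by
  have : Sy X r s = ⊥ := by
    rw [eq_bot_iff]
    intro y hy
    rw [Submodule.mem_bot]
    exact hy.1 h
  rw [this, finrank_bot]

/-- the dimension of the space of cycles -/
private theorem SuspA_cyc {G : SimpleGraph V} {U : Finset V} {a b : V}
    (hab : a ≠ b) (hn : ¬ G.Adj a b) {r : V → Module.End F2 Y} (j : ℕ) :
    Module.finrank F2 (Ch (Sy (Cq G U) r) j ⊓ LinearMap.ker dd : Submodule F2 (Finset V → Y)) ≤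
      Module.finrank F2 (Ch (Sy (Cq G ((U.erase a).erase b)) r) j) +
        2 ^ Fintype.card V * Module.finrank F2 (Inv r {a, b}) := by
  obtain ⟨Z, hZ⟩ : ∃ Z : Submodule F2 (Finset V → Y),
      Z = (Ch (Sy (Cq G U) r) j ⊓ LinearMap.ker dd : Submodule F2 (Finset V → Y)) := ⟨_, rfl⟩
  rw [← hZ]
  have hZ1 : ∀ z ∈ Z, z ∈ Ch (Sy (Cq G U) r) j := by
    intro z hz
    rw [hZ] at hz
    exact hz.1
  have hZ2 : ∀ z ∈ Z, dd z = 0 := by
    intro z hz
    rw [hZ] at hz
    exact hz.2
  obtain ⟨ρ, hρ⟩ : ∃ ρ : Z →ₗ[F2] (Finset V → Y), ρ = (SuspA_rho Y a b).domRestrict Z := ⟨_, rfl⟩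
  have hρa : ∀ (z : Z) (s : Finset V), ρ z s = if a ∉ s ∧ b ∉ s then (z : Finset V → Y) s else 0 := by
    intro z s
    rw [hρ]
    rfl
  have h1 := LinearMap.finrank_range_add_finrank_ker ρ
  have h2 : Module.finrank F2 (LinearMap.range ρ) ≤
      Module.finrank F2 (Ch (Sy (Cq G ((U.erase a).erase b)) r) j) := by
    apply Submodule.finrank_mono
    rintro _ ⟨z, rfl⟩
    rw [mem_Ch]
    intro s
    have hz := (mem_Ch.1 (hZ1 z.1 z.2)) s
    rw [hρa]
    by_cases h : a ∉ s ∧ b ∉ s
    · rw [if_pos h]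
      refine ⟨?_, hz.2⟩
      rw [mem_Sy]
      refine ⟨fun hc => ?_, (mem_Sy.1 hz.1).2⟩
      exact (mem_Sy.1 hz.1).1 fun hc' => hc ((SuspA_cq h.1 h.2).2 hc')
    · rw [if_neg h]
      exact ⟨Submodule.zero_mem _, fun _ => rfl⟩
  have hk0 : ∀ z : LinearMap.ker ρ, ∀ s : Finset V, a ∉ s → b ∉ s → (z.1 : Finset V → Y) s = 0 := by
    intro z s h3 h4
    have h5 : ρ z.1 = 0 := z.2
    have h6 := hρa z.1 s
    rw [h5, if_pos ⟨h3, h4⟩] at h6
    exact h6.symm
  have hke : ∀ z : LinearMap.ker ρ, ∀ t : Finset V, a ∉ t → b ∉ t →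
      (z.1 : Finset V → Y) (insert a t) = (z.1 : Finset V → Y) (insert b t) := by
    intro z t h3 h4
    have h5 : dd (z.1 : Finset V → Y) t = 0 := by
      rw [hZ2 _ z.1.2]
      rfl
    rw [dd_apply] at h5
    have ha' : a ∈ tᶜ := mem_compl.2 h3
    have hb' : b ∈ tᶜ.erase a := mem_erase.2 ⟨hab.symm, mem_compl.2 h4⟩
    rw [← add_sum_erase _ _ ha', ← add_sum_erase _ _ hb', sum_eq_zero, add_zero] at h5
    · have h6 := ZModModule.add_self ((z.1 : Finset V → Y) (insert b t))
      calc (z.1 : Finset V → Y) (insert a t)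
          = (z.1 : Finset V → Y) (insert a t) + ((z.1 : Finset V → Y) (insert b t) +
            (z.1 : Finset V → Y) (insert b t)) := by rw [h6, add_zero]
        _ = (z.1 : Finset V → Y) (insert b t) := by rw [← add_assoc, h5, zero_add]
    · intro v hv
      rw [mem_erase, mem_erase] at hv
      apply hk0 z
      · intro h7
        rcases mem_insert.1 h7 with h7 | h7
        · exact hv.2.1 h7.symm
        · exact h3 h7
      · intro h7
        rcases mem_insert.1 h7 with h7 | h7
        · exact hv.1 h7.symm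
        · exact h4 h7
  have hki : ∀ t : Finset V, a ∉ t → b ∉ t → ∀ z : LinearMap.ker ρ,
      (z.1 : Finset V → Y) (insert a t) ∈ Inv r {a, b} := by
    intro t h3 h4 z
    rw [mem_Inv]
    intro v hv
    rcases mem_insert.1 hv with rfl | hv
    · exact (mem_Sy.1 (mem_Ch.1 (hZ1 _ z.1.2) _).1).2 _ (mem_insert_self _ _)
    · rw [mem_singleton] at hv
      subst hv
      rw [hke z t h3 h4]
      exact (mem_Sy.1 (mem_Ch.1 (hZ1 _ z.1.2) _).1).2 _ (mem_insert_self _ _)
  obtain ⟨κ, hκ⟩ : ∃ κ : LinearMap.ker ρ →ₗ[F2] (Finset V → Inv r {a, b}),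
      ∀ (z : LinearMap.ker ρ) (t : Finset V), a ∉ t → b ∉ t →
        ((κ z t : Inv r {a, b}) : Y) = (z.1 : Finset V → Y) (insert a t) := by
    classical
    refine ⟨LinearMap.pi fun t => if h : a ∉ t ∧ b ∉ t then
      LinearMap.codRestrict (Inv r {a, b})
        ((LinearMap.proj (insert a t)).comp (Z.subtype.comp (LinearMap.ker ρ).subtype))
        (hki t h.1 h.2) else 0, ?_⟩
    intro z t h3 h4
    rw [LinearMap.pi_apply, dif_pos ⟨h3, h4⟩]
    rfl
  have h3 : Module.finrank F2 (LinearMap.ker ρ) ≤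
      2 ^ Fintype.card V * Module.finrank F2 (Inv r {a, b}) := by
    have h4 : Module.finrank F2 (Finset V → Inv r {a, b}) =
        2 ^ Fintype.card V * Module.finrank F2 (Inv r {a, b}) := by
      rw [Module.finrank_pi_fintype, sum_const, card_univ, Fintype.card_finset, smul_eq_mul]
    rw [← h4]
    apply LinearMap.finrank_le_finrank_of_injective (f := κ)
    rw [← LinearMap.ker_eq_bot, eq_bot_iff]
    intro z hz
    rw [Submodule.mem_bot]
    have hz0 : κ z = 0 := hz
    apply Subtype.ext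
    apply Subtype.ext
    funext s
    show (z.1 : Finset V → Y) s = 0
    have key : ∀ t : Finset V, a ∉ t → b ∉ t → (z.1 : Finset V → Y) (insert a t) = 0 := by
      intro t h5 h6
      rw [← hκ z t h5 h6, hz0]
      rfl
    by_cases has : a ∈ s
    · by_cases hbs : b ∈ s
      · refine (mem_Sy.1 (mem_Ch.1 (hZ1 _ z.1.2) s).1).1 fun hc => ?_
        exact hn (hc.1 has hbs hab)
      · rw [← insert_erase has]
        exact key _ (notMem_erase _ _) fun h => hbs (mem_of_mem_erase h)
    · by_cases hbs : b ∈ s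
      · rw [← insert_erase hbs, ← hke z]
        · exact key _ (fun h => has (mem_of_mem_erase h)) (notMem_erase _ _)
        · exact fun h => has (mem_of_mem_erase h)
        · exact notMem_erase _ _
      · exact hk0 z s has hbs
  omega

/-- the dimension of the chains -/
private theorem SuspA_dim {G : SimpleGraph V} {U : Finset V} {a b : V} (ha : a ∈ U) (hb : b ∈ U)
    (hab : a ≠ b) (h : ∀ w ∈ U, w ≠ a → w ≠ b → G.Adj a w ∧ G.Adj b w)
    {r E : V → Module.End F2 Y} (hN : IsN G U r) (hB : IsBit G U r E) (i : ℕ) :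
    Module.finrank F2 (Ch (Sy (Cq G ((U.erase a).erase b)) r) (i + 1)) +
      Module.finrank F2 (Ch (Sy (Cq G ((U.erase a).erase b)) r) i) ≤
        Module.finrank F2 (Ch (Sy (Cq G U) r) (i + 1)) := by
  classical
  rw [finrank_Ch, finrank_Ch, finrank_Ch]
  obtain ⟨fW, hfW⟩ : ∃ fW : Finset V → ℕ, ∀ s, fW s =
      Module.finrank F2 (Sy (Cq G ((U.erase a).erase b)) r s) := ⟨_, fun _ => rfl⟩
  obtain ⟨fU, hfU⟩ : ∃ fU : Finset V → ℕ, ∀ s, fU s =
      Module.finrank F2 (Sy (Cq G U) r s) := ⟨_, fun _ => rfl⟩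
  simp only [← hfW, ← hfU]
  obtain ⟨p, hp⟩ : ∃ p : Finset V → Prop, ∀ s, p s ↔ a ∉ s ∧ b ∉ s := ⟨_, fun _ => Iff.rfl⟩
  have e1 : ∀ s, p s → fW s = fU s := by
    intro s hs
    rw [hp] at hs
    rw [hfW, hfU]
    by_cases hc : Cq G U s
    · rw [SuspA_Sy_pos hc, SuspA_Sy_pos ((SuspA_cq hs.1 hs.2).2 hc)]
    · rw [SuspA_Sy_neg hc, SuspA_Sy_neg fun hc' => hc ((SuspA_cq hs.1 hs.2).1 hc')]
  have e2 : ∀ s, ¬ p s → fW s = 0 := by
    intro s hs
    rw [hfW]
    apply SuspA_Sy_neg
    intro hc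
    exact hs ((hp s).2 (SuspA_cq' hc))
  have e3 : ∀ t, p t → fW t = fU (insert a t) + fU (insert b t) := by
    intro t ht
    have ht' := (hp t).1 ht
    have i1 := SuspA_ins (G := G) (U := U) ha (fun w h1 h2 h3 => (h w h1 h2 h3).1) ht'.1 ht'.2
    have i2 := SuspA_ins (G := G) (U := U) hb (fun w h1 h2 h3 => (h w h1 h3 h2).2) ht'.2 ht'.1
    rw [e1 t ht, hfU, hfU, hfU]
    by_cases hc : Cq G U t
    · rw [SuspA_Sy_pos hc, SuspA_Sy_pos (i1.2 hc), SuspA_Sy_pos (i2.2 hc)]
      have f0 := finrank_Inv (hB.bitOn hN hc)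
      have f1 := finrank_Inv (hB.bitOn hN (i1.2 hc))
      have f2 := finrank_Inv (hB.bitOn hN (i2.2 hc))
      rw [card_insert_of_notMem ht'.1, pow_succ] at f1
      rw [card_insert_of_notMem ht'.2, pow_succ] at f2
      have hpos : 0 < 2 ^ t.card := by positivity
      have g1 : Module.finrank F2 (Inv r t) = Module.finrank F2 (Inv r (insert a t)) * 2 := by
        apply Nat.eq_of_mul_eq_mul_right hpos
        rw [f0, ← f1]
        ring
      have g2 : Module.finrank F2 (Inv r t) = Module.finrank F2 (Inv r (insert b t)) * 2 := by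
        apply Nat.eq_of_mul_eq_mul_right hpos
        rw [f0, ← f2]
        ring
      omega
    · rw [SuspA_Sy_neg hc, SuspA_Sy_neg fun h' => hc (i1.1 h'),
        SuspA_Sy_neg fun h' => hc (i2.1 h')]
  obtain ⟨S, hS⟩ : ∃ S : ℕ → Finset (Finset V), ∀ j,
      S j = (univ : Finset (Finset V)).filter fun s => s.card = j := ⟨_, fun _ => rfl⟩
  rw [← hS, ← hS]
  have hSm : ∀ j s, s ∈ S j ↔ s.card = j := by
    intro j s
    rw [hS]
    simp
  have s1 : ∑ s ∈ S (i + 1), fW s = ∑ s ∈ (S (i + 1)).filter p, fU s := by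
    rw [sum_filter]
    refine sum_congr rfl fun s _ => ?_
    by_cases hs : p s
    · rw [if_pos hs, e1 s hs]
    · rw [if_neg hs, e2 s hs]
  have s2 : ∑ s ∈ S i, fW s = ∑ t ∈ (S i).filter p, fU (insert a t) +
      ∑ t ∈ (S i).filter p, fU (insert b t) := by
    rw [← sum_add_distrib, sum_filter]
    refine sum_congr rfl fun s _ => ?_
    by_cases hs : p s
    · rw [if_pos hs, e3 s hs]
    · rw [if_neg hs, e2 s hs]
  have inj : ∀ c, (∀ t, p t → c ∉ t) → Set.InjOn (insert c : Finset V → Finset V)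
      ((S i).filter p : Set (Finset V)) := by
    intro c hc t ht t' ht' he
    have h1 : c ∉ t := hc t (mem_filter.1 ht).2
    have h2 : c ∉ t' := hc t' (mem_filter.1 ht').2
    have he' : insert c t = insert c t' := he
    rw [← erase_insert h1, he', erase_insert h2]
  have s3 : ∑ t ∈ (S i).filter p, fU (insert a t) = ∑ s ∈ ((S i).filter p).image (insert a), fU s := by
    rw [sum_image (inj a fun t ht => ((hp t).1 ht).1)]
  have s4 : ∑ t ∈ (S i).filter p, fU (insert b t) = ∑ s ∈ ((S i).filter p).image (insert b), fU s := by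
    rw [sum_image (inj b fun t ht => ((hp t).1 ht).2)]
  have d1 : Disjoint (((S i).filter p).image (insert a)) (((S i).filter p).image (insert b)) := by
    rw [disjoint_left]
    intro s hs hs'
    obtain ⟨t, ht, rfl⟩ := mem_image.1 hs
    obtain ⟨t', ht', he⟩ := mem_image.1 hs'
    have h1 : a ∈ insert b t' := by
      rw [he]
      exact mem_insert_self _ _
    rcases mem_insert.1 h1 with h1 | h1
    · exact hab h1
    · exact ((hp t').1 (mem_filter.1 ht').2).1 h1
  have d2 : Disjoint ((S (i + 1)).filter p)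
      (((S i).filter p).image (insert a) ∪ ((S i).filter p).image (insert b)) := by
    rw [disjoint_left]
    intro s hs hs'
    have hs1 := (hp s).1 (mem_filter.1 hs).2
    rcases mem_union.1 hs' with hs' | hs'
    · obtain ⟨t, ht, rfl⟩ := mem_image.1 hs'
      exact hs1.1 (mem_insert_self _ _)
    · obtain ⟨t, ht, rfl⟩ := mem_image.1 hs'
      exact hs1.2 (mem_insert_self _ _)
  rw [s1, s2, s3, s4, ← sum_union d1, ← sum_union d2]
  apply sum_le_sum_of_subset
  intro s hs
  rcases mem_union.1 hs with hs | hs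
  · exact (mem_filter.1 hs).1
  · rw [hSm]
    rcases mem_union.1 hs with hs | hs
    · obtain ⟨t, ht, rfl⟩ := mem_image.1 hs
      rw [card_insert_of_notMem ((hp t).1 (mem_filter.1 ht).2).1, (hSm i t).1 (mem_filter.1 ht).1]
    · obtain ⟨t, ht, rfl⟩ := mem_image.1 hs
      rw [card_insert_of_notMem ((hp t).1 (mem_filter.1 ht).2).2, (hSm i t).1 (mem_filter.1 ht).1]

theorem susp_le {G : SimpleGraph V} {U : Finset V} {a b : V} (ha : a ∈ U) (hb : b ∈ U)
    (hab : a ≠ b) (hn : ¬ G.Adj a b) (h : ∀ w ∈ U, w ≠ a → w ≠ b → G.Adj a w ∧ G.Adj b w)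
    {r E : V → Module.End F2 Y} (hN : IsN G U r) (hB : IsBit G U r E) (i : ℕ) :
    hX (Cq G U) r i ≤ 2 ^ (Fintype.card V + 1) * Module.finrank F2 (Inv r {a, b}) := by
  unfold hX hd
  rw [hx_eq]
  have h1 := SuspA_cyc (U := U) hab hn (r := r) i
  have h2 := SuspA_cyc (U := U) hab hn (r := r) (i + 1)
  have h3 := SuspA_dim ha hb hab h hN hB i
  have h4 : (2 : ℕ) ^ (Fintype.card V + 1) * Module.finrank F2 (Inv r {a, b}) =
      2 ^ Fintype.card V * Module.finrank F2 (Inv r {a, b}) +
        2 ^ Fintype.card V * Module.finrank F2 (Inv r {a, b}) := by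
    rw [pow_succ]
    ring
  have h5 : (2 : ℤ) ^ (Fintype.card V + 1) * Module.finrank F2 (Inv r {a, b}) =
      ((2 ^ Fintype.card V * Module.finrank F2 (Inv r {a, b}) +
        2 ^ Fintype.card V * Module.finrank F2 (Inv r {a, b}) : ℕ) : ℤ) := by
    rw [← h4]
    push_cast
    rfl
  rw [h5]
  omega

end Pool.Agent.H73.GC
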