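import Pool.Agent.H77.SW.Count
import Pool.Agent.H77.SW.Seq

/-!
# Growth calculus: the theorem of `Pool.Agent.H77.SW` over the field with two elements

`dz` does not depend on the field: `Zs K G n (rP K D)` is the kernel of a matrix with entries `0`, `1`, and the
rank of a matrix over `ZMod 2` does not change over an extension field.
-/

set_option autoImplicit false
set_option linter.unusedSectionVars false

open Finset

namespace Pool.Agent.H73.GC

open Pool.Agent.H77.SW Pool.Agent.H85.VK

theorem dz_two_le {W : Type} [DecidableEq W] [Fintype W] (K : Type) [Field K] [CharP K 2]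
    {G : SimpleGraph W} (n : ℕ) {P : Type} [Group P] [Fintype P] (D : PG G P) :
    dz (ZMod 2) n D ≤ dz K n D := by
  classical
  letI : Algebra (ZMod 2) K := ZMod.algebra K 2
  set f : ZMod 2 →+* K := algebraMap (ZMod 2) K with hf
  let B := Module.finBasis (ZMod 2) (Zs (ZMod 2) G n (rP (ZMod 2) D))
  have hmem : ∀ i, (fun σ p => f ((B i : Finset W → P → ZMod 2) σ p)) ∈ Zs K G n (rP K D) := by
    intro i
    obtain ⟨h1, h2, h3⟩ := mem_Zs.1 (B i).2
    refine mem_Zs.2 ⟨fun σ h => h1 σ fun h0 => h ?_, fun σ v hv => ?_, fun κ => ?_⟩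
    · funext p
      simp [h0]
    · funext p
      show f ((B i : Finset W → P → ZMod 2) σ (p * D.g v)) = f ((B i : Finset W → P → ZMod 2) σ p)
      have h := congrFun (h2 σ v hv) p
      exact congrArg f h
    · funext p
      have h := congrFun (h3 κ) p
      rw [Finset.sum_apply] at h ⊢
      rw [← map_sum f, h]
      exact map_zero f
  let w : Fin (Module.finrank (ZMod 2) (Zs (ZMod 2) G n (rP (ZMod 2) D))) →
      Zs K G n (rP K D) := fun i => ⟨_, hmem i⟩
  have hw : LinearIndependent K w := by
    rw [Fintype.linearIndependent_iff]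
    intro c hc i
    refine (Module.forall_dual_apply_eq_zero_iff (ZMod 2) (c i)).1 fun l => ?_
    have hB := Fintype.linearIndependent_iff.1 B.linearIndependent (fun i => l (c i)) ?_ i
    · exact hB
    · apply Subtype.ext
      funext σ p
      have h := congrFun (congrFun (congrArg Subtype.val hc) σ) p
      simp only [Submodule.coe_sum, Submodule.coe_smul, Finset.sum_apply, Pi.smul_apply,
        Submodule.coe_zero, Pi.zero_apply, smul_eq_mul] at h ⊢
      have h' := congrArg l h
      rw [map_sum, map_zero] at h'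
      rw [← h']
      refine Finset.sum_congr rfl fun j _ => ?_
      have h5 : c j * (w j : Finset W → P → K) σ p =
          ((B j : Finset W → P → ZMod 2) σ p) • c j := by
        rw [Algebra.smul_def, mul_comm]
      rw [h5, map_smul, smul_eq_mul, mul_comm]
  have h := hw.fintype_card_le_finrank
  rwa [Fintype.card_fin] at h

theorem small_two {W : Type} [DecidableEq W] [Fintype W] (G : SimpleGraph W) (k : ℕ)
    (hdim : ∀ σ : Finset W, G.IsClique (σ : Set W) → σ.card ≤ k + 1) (hvk : VanKampenZero G k)
    (ε : ℝ) (hε : 0 < ε) : ∃ (P : Type) (_ : Group P) (_ : Fintype P) (D : PG G P),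
      (dz (ZMod 2) (k + 1) D : ℝ) ≤ ε * Fintype.card P := by
  obtain ⟨K, hK, hchar, ⟨X⟩⟩ := exists_genSeq
  obtain ⟨P, hP, hfin, D, hD⟩ := small X G k hdim hvk ε hε
  refine ⟨P, hP, hfin, D, le_trans ?_ hD⟩
  exact_mod_cast dz_two_le K (k + 1) D

end Pool.Agent.H73.GC
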